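import Pool.Agent.SupC.SysC
import Pool.Agent.CplxN.Cod

/-! Complexity of `×2`, `×3`-invariant measures: no coding of systems of quadratic complexity. -/

namespace Pool.Agent.SupC

open Pool.Agent.SubT Pool.Agent.SlowV Pool.Agent.CplxN

open scoped BigOperators ENNReal

open MeasureTheory Set Filter Topology

theorem coding2 {X : Type} [PseudoMetricSpace X] [MeasurableSpace X] (P : Measure X)
    [IsProbabilityMeasure P] {S R : X → X}
    (hS : MeasurePreserving S P P) (hR : MeasurePreserving R P P) (φ : X → AddCircle (1 : ℝ))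
    (hφ : Measurable φ) (h2 : ∀ᵐ ω ∂P, φ (S ω) = (2 : ℕ) • φ ω)
    (h3 : ∀ᵐ ω ∂P, φ (R ω) = (3 : ℕ) • φ ω) (C c : ℝ) (hc : 0 < c)
    (hcov : ∀ n : ℕ, 1 ≤ n → ∃ (K : ℕ) (A : Fin K → Set X),
      (K : ℝ) ≤ C * (n : ℝ) ^ 2 ∧ P (⋃ i, A i)ᶜ ≤ ENNReal.ofReal (C * (n : ℝ) ^ (-c)) ∧
      ∀ i, ∀ x ∈ A i, ∀ y ∈ A i, ∀ a < n, ∀ b < n,
        dist (S^[a] (R^[b] x)) (S^[a] (R^[b] y)) ≤ (n : ℝ) ^ (-c))
    (hosc : ∀ r : ℝ, 0 < r → r ≤ 1 →
      P {x | ∃ y, dist x y ≤ r ∧ 1 / 4 ≤ ‖φ x - φ y‖} ≤ ENNReal.ofReal (C * r ^ c)) :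
    ∃ z, (P.map φ) {z} ≠ 0 := by
  by_contra hcon
  push Not at hcon
  -- parameters
  set C' : ℝ := max C 1 with hC'
  have hC1 : 1 ≤ C' := le_max_right _ _
  have hCC : C ≤ C' := le_max_left _ _
  set η : ℝ := min c (c * c / 2) with hη
  have hη0 : 0 < η := lt_min hc (by positivity)
  have hηc : η ≤ c := min_le_left _ _
  have hηcc : 2 * η ≤ c * c := by
    have := min_le_right c (c * c / 2)
    linarith
  -- large scales
  have he2 : ∀ᶠ n : ℕ in atTop, 2 * C' ≤ (n : ℝ) ^ η / (Real.log n) ^ (1 + η) :=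
    (pow_div_log _ _ hη0).eventually_ge_atTop _
  obtain ⟨m₀, hm₀⟩ := eventually_atTop.1 he2
  obtain ⟨n, hn, hgen⟩ := cor_atomless_sys P hS hR φ hφ h2 h3 hcon η hη0 C' 1 (max m₀ 3)
  have g2 := hm₀ n ((le_max_left _ _).trans hn)
  have hn3 : 3 ≤ n := (le_max_right _ _).trans hn
  have hn1 : (1 : ℝ) ≤ n := by exact_mod_cast (by omega : 1 ≤ n)
  have hnpos : (0 : ℝ) < n := by linarith
  have hlog : 0 < Real.log n := Real.log_pos (by exact_mod_cast (by omega : 1 < n))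
  set r : ℝ := (n : ℝ) ^ (-c) with hr
  have hr0 : 0 < r := Real.rpow_pos_of_pos hnpos _
  have hr1 : r ≤ 1 := Real.rpow_le_one_of_one_le_of_nonpos hn1 (by linarith)
  obtain ⟨K, A, hK, hA, hclose⟩ := hcov n (by omega)
  have hE := hosc r hr0 hr1
  set E : Set X := {x | ∃ y, dist x y ≤ r ∧ 1 / 4 ≤ ‖φ x - φ y‖} with hEdef
  set V := toMeasurable P E with hV
  have hVm : MeasurableSet V := measurableSet_toMeasurable _ _
  have hVs : E ⊆ V := subset_toMeasurable _ _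
  have hVν : P V = P E := measure_toMeasurable _
  have hrs : r ^ c ≤ (n : ℝ) ^ (-(2 * η)) := by
    rw [hr, ← Real.rpow_mul hnpos.le]
    refine Real.rpow_le_rpow_of_exponent_le hn1 ?_
    linarith
  have hrs0 : 0 < r ^ c := Real.rpow_pos_of_pos hr0 _
  -- the good points
  set Z : Set X := {x | ENNReal.ofReal ((n : ℝ) ^ (2 - η)) ≤ (vis S R (bx n) V x : ℝ≥0∞)} with hZ
  have hp2 : 0 < (n : ℝ) ^ (2 - η) := Real.rpow_pos_of_pos hnpos _
  have hZP : P Z ≤ ENNReal.ofReal (C' * (n : ℝ) ^ (-η)) := by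
    have h4 := vis_markov P hS hR n V hVm (ENNReal.ofReal ((n : ℝ) ^ (2 - η)))
    have h5 : ENNReal.ofReal ((n : ℝ) ^ (2 - η)) * P Z ≤
        ENNReal.ofReal ((n : ℝ) ^ (2 - η)) * ENNReal.ofReal (C' * (n : ℝ) ^ (-η)) := by
      refine h4.trans ?_
      rw [hVν]
      calc (n * n : ℝ≥0∞) * P E ≤ (n * n : ℝ≥0∞) * ENNReal.ofReal (C * r ^ c) := by gcongr
        _ = ENNReal.ofReal ((n : ℝ) * n * (C * r ^ c)) := by
            rw [ENNReal.ofReal_mul (p := (n : ℝ) * n) (by positivity),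
              ENNReal.ofReal_mul (p := (n : ℝ)) (Nat.cast_nonneg _), ENNReal.ofReal_natCast]
        _ ≤ ENNReal.ofReal ((n : ℝ) ^ (2 - η) * (C' * (n : ℝ) ^ (-η))) := by
            apply ENNReal.ofReal_le_ofReal
            have e : (n : ℝ) ^ (2 - η) * (C' * (n : ℝ) ^ (-η)) =
                (n : ℝ) * n * (C' * (n : ℝ) ^ (-(2 * η))) := by
              have e1 : (n : ℝ) ^ (2 - η) * (n : ℝ) ^ (-η) = (n : ℝ) * n * (n : ℝ) ^ (-(2 * η)) := by
                have h14 : (n : ℝ) * n = (n : ℝ) ^ (2 : ℝ) := by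
                  rw [Real.rpow_two]; ring
                rw [h14, ← Real.rpow_add hnpos, ← Real.rpow_add hnpos]
                congr 1
                ring
              calc (n : ℝ) ^ (2 - η) * (C' * (n : ℝ) ^ (-η)) =
                  C' * ((n : ℝ) ^ (2 - η) * (n : ℝ) ^ (-η)) := by ring
                _ = (n : ℝ) * n * (C' * (n : ℝ) ^ (-(2 * η))) := by rw [e1]; ring
            rw [e]
            gcongr
        _ = _ := ENNReal.ofReal_mul hp2.le
    exact (ENNReal.mul_le_mul_iff_right (ENNReal.ofReal_pos.2 hp2).ne' ENNReal.ofReal_ne_top).1 h5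
  set X₀ : Set X := {x | ∀ v : ℕ × ℕ, φ (orb S R v x) = sp v (φ x)} with hX₀
  have hX₀P : P X₀ᶜ = 0 := orb_ae P hS hR φ h2 h3
  set B : Fin K → Set X := fun i => A i ∩ Zᶜ ∩ X₀ with hB
  have h10 := hgen n le_rfl (by linarith) K B ?_ ?_
  · -- contradiction
    have h11 : P (⋃ i, B i)ᶜ ≤ ENNReal.ofReal (2 * C' * (n : ℝ) ^ (-η)) := by
      have hsub : (⋃ i, B i)ᶜ ⊆ (⋃ i, A i)ᶜ ∪ Z ∪ X₀ᶜ := by
        intro x hx
        by_contra hcon2
        simp only [Set.mem_union, not_or, Set.mem_compl_iff, not_not] at hcon2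
        obtain ⟨⟨h12, h13⟩, h14⟩ := hcon2
        obtain ⟨i, hi⟩ := Set.mem_iUnion.1 h12
        exact hx (Set.mem_iUnion.2 ⟨i, ⟨hi, h13⟩, h14⟩)
      have hn2 : C * r ≤ C' * (n : ℝ) ^ (-η) := by
        have h12 : r ≤ (n : ℝ) ^ (-η) := by
          rw [hr]
          exact Real.rpow_le_rpow_of_exponent_le hn1 (by linarith)
        have h13 : C * r ≤ C' * r := mul_le_mul_of_nonneg_right hCC hr0.le
        have h14 : C' * r ≤ C' * (n : ℝ) ^ (-η) := mul_le_mul_of_nonneg_left h12 (by linarith)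
        exact h13.trans h14
      calc P (⋃ i, B i)ᶜ ≤ P ((⋃ i, A i)ᶜ ∪ Z ∪ X₀ᶜ) := measure_mono hsub
        _ ≤ P (⋃ i, A i)ᶜ + P Z + P X₀ᶜ :=
            (measure_union_le _ _).trans (add_le_add_left (measure_union_le _ _) _)
        _ ≤ ENNReal.ofReal (C' * (n : ℝ) ^ (-η)) + ENNReal.ofReal (C' * (n : ℝ) ^ (-η)) + 0 := by
            rw [hX₀P]
            exact add_le_add_left (add_le_add (hA.trans (ENNReal.ofReal_le_ofReal hn2)) hZP) _
        _ = ENNReal.ofReal (2 * C' * (n : ℝ) ^ (-η)) := by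
            rw [add_zero, ← ENNReal.ofReal_add (by positivity) (by positivity)]
            congr 1
            ring
    have h12 : 2 * C' * (n : ℝ) ^ (-η) ≤ (Real.log n) ^ (-(1 + η)) := by
      have h13 : 0 < (n : ℝ) ^ η := Real.rpow_pos_of_pos hnpos _
      have h14 : 0 < (Real.log n) ^ (1 + η) := Real.rpow_pos_of_pos hlog _
      rw [le_div_iff₀ h14] at g2
      rw [Real.rpow_neg hnpos.le, Real.rpow_neg hlog.le, ← div_eq_mul_inv, div_le_iff₀ h13,
        ← div_eq_inv_mul, le_div_iff₀ h14]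
      exact g2
    exact absurd (h10.trans_le (h11.trans (ENNReal.ofReal_le_ofReal h12))) (lt_irrefl _)
  · -- the number of the sets
    exact hK.trans (mul_le_mul_of_nonneg_right hCC (by positivity))
  · -- closeness
    intro i x hx y hy
    obtain ⟨⟨hxA, hxZ⟩, hx0⟩ := hx
    obtain ⟨⟨hyA, -⟩, hy0⟩ := hy
    have h11 : cnt (bx n) far (φ x - φ y) ≤ vis S R (bx n) V x := by
      classical
      unfold cnt vis
      apply Finset.card_le_card
      intro p hp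
      rw [Finset.mem_filter] at hp ⊢
      refine ⟨hp.1, hVs ?_⟩
      have hp1 := mem_bx.1 hp.1
      refine ⟨orb S R p y, hclose i x hxA y hyA p.1 hp1.1 p.2 hp1.2, ?_⟩
      rw [hx0 p, hy0 p]
      have h12 : 1 / 4 ≤ ‖sp p (φ x - φ y)‖ := hp.2
      unfold sp at h12 ⊢
      rwa [smul_sub] at h12
    have h12 : (vis S R (bx n) V x : ℝ≥0∞) < ENNReal.ofReal ((n : ℝ) ^ (2 - η)) := not_le.1 hxZ
    rw [← ENNReal.ofReal_natCast, ENNReal.ofReal_lt_ofReal_iff hp2] at h12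
    have h13 : (cnt (bx n) far (φ x - φ y) : ℝ) ≤ vis S R (bx n) V x := by exact_mod_cast h11
    linarith

end Pool.Agent.SupC
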