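import Pool.Agent.SupC.PackD
import Pool.Agent.SlowV.Four

/-! Superquadratic complexity: the points with very good approximations. Text, (k1). -/

namespace Pool.Agent.SupC

open Pool.Agent.SubT Pool.Agent.SlowV Pool.Agent.CplxN

open scoped BigOperators ENNReal

open MeasureTheory Set

private theorem k0_log (p : ℕ) [hp : Fact p.Prime] (ξ : ℚ) :
    Real.log (max 1 ((padicNorm p ξ : ℚ) : ℝ)) = ((-(padicValRat p ξ)).toNat : ℝ) * Real.log p := by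
  have hp1 : 1 < (p : ℝ) := by exact_mod_cast hp.out.one_lt
  have hp0 : (0 : ℝ) < p := by linarith
  rcases eq_or_ne ξ 0 with h | h
  · subst h
    simp
  · rw [padicNorm.eq_zpow_of_nonzero h]
    push_cast
    rcases le_or_gt 0 (-(padicValRat p ξ)) with h1 | h1
    · have h2 : (((-(padicValRat p ξ)).toNat : ℕ) : ℤ) = -(padicValRat p ξ) := Int.toNat_of_nonneg h1
      have h3 : (p : ℝ) ^ (-(padicValRat p ξ)) = (p : ℝ) ^ ((-(padicValRat p ξ)).toNat) := by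
        rw [← zpow_natCast, h2]
      rw [h3, max_eq_right (one_le_pow₀ hp1.le), Real.log_pow]
    · have h2 : (-(padicValRat p ξ)).toNat = 0 := Int.toNat_of_nonpos h1.le
      have h3 : (p : ℝ) ^ (-(padicValRat p ξ)) ≤ 1 := by
        rw [zpow_neg]
        have h4 : 0 ≤ padicValRat p ξ := by omega
        exact inv_le_one_of_one_le₀ (one_le_zpow₀ hp1.le h4)
      rw [h2, max_eq_left h3]
      simp

private theorem k0_aq (ξ : ℚ) :
    Aq ξ = LL (-(padicValRat 2 ξ)).toNat (-(padicValRat 3 ξ)).toNat := by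
  have h2 := k0_log 2 ξ
  have h3 := k0_log 3 ξ
  unfold Aq LL av
  simp only [one_ne_zero, if_false, if_true, Fin.reduceEq]
  rw [h2, h3]
  norm_num

private theorem k0_vq (p : ℕ) [hp : Fact p.Prime] (a : ℝ) (q : ℕ) (hq : 1 ≤ q)
    (hqa : (q : ℝ) ≤ Real.exp a) : padicValNat p q ≤ ⌊a / Real.log p⌋₊ := by
  have hp1 : 1 < (p : ℝ) := by exact_mod_cast hp.out.one_lt
  have hl : 0 < Real.log p := Real.log_pos hp1
  apply Nat.le_floor
  rw [le_div_iff₀ hl]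
  have h1 : p ^ padicValNat p q ≤ q := Nat.le_of_dvd (by omega) pow_padicValNat_dvd
  have h2 : (p : ℝ) ^ padicValNat p q ≤ Real.exp a := le_trans (by exact_mod_cast h1) hqa
  have h3 := Real.log_le_log (by positivity) h2
  rwa [Real.log_pow, Real.log_exp] at h3

private theorem k0_val (p : ℕ) [hp : Fact p.Prime] (ξ : ℚ) (q m : ℕ) (x : ℚ) (hq : 1 ≤ q)
    (hx : x ≠ 0) (hm : padicValRat p x = m) (P : ℤ) (h : (q : ℚ) * x * ξ = P) :
    (-(padicValRat p ξ)).toNat ≤ m + padicValNat p q := by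
  rcases eq_or_ne ξ 0 with h0 | h0
  · subst h0
    simp
  · have hq0 : (q : ℚ) ≠ 0 := by exact_mod_cast (by omega : q ≠ 0)
    have h1 : padicValRat p ((q : ℚ) * x * ξ) =
        (padicValNat p q : ℤ) + m + padicValRat p ξ := by
      rw [padicValRat.mul (mul_ne_zero hq0 hx) h0, padicValRat.mul hq0 hx, hm, padicValRat.of_nat]
    rw [h, padicValRat.of_int] at h1
    omega

private theorem k0_sz (u : ℕ × ℕ) :
    ((sz u : ℤ) : ℚ) ≠ 0 ∧ padicValRat 2 ((sz u : ℤ) : ℚ) = u.1 ∧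
      padicValRat 3 ((sz u : ℤ) : ℚ) = u.2 := by
  have e : ((sz u : ℤ) : ℚ) = (2 : ℚ) ^ u.1 * (3 : ℚ) ^ u.2 := by
    unfold sz
    push_cast
    rfl
  have h2 : ((2 : ℚ) ^ u.1) ≠ 0 := by positivity
  have h3 : ((3 : ℚ) ^ u.2) ≠ 0 := by positivity
  have a22 : padicValRat 2 (2 : ℚ) = 1 := by
    have := padicValRat.self (p := 2) (by norm_num)
    exact_mod_cast this
  have a33 : padicValRat 3 (3 : ℚ) = 1 := by
    have := padicValRat.self (p := 3) (by norm_num)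
    exact_mod_cast this
  have a23 : padicValRat 2 (3 : ℚ) = 0 := by
    have h : padicValRat 2 ((3 : ℕ) : ℚ) = (padicValNat 2 3 : ℤ) := padicValRat.of_nat
    rw [padicValNat.eq_zero_of_not_dvd (by norm_num)] at h
    exact_mod_cast h
  have a32 : padicValRat 3 (2 : ℚ) = 0 := by
    have h : padicValRat 3 ((2 : ℕ) : ℚ) = (padicValNat 3 2 : ℤ) := padicValRat.of_nat
    rw [padicValNat.eq_zero_of_not_dvd (by norm_num)] at h
    exact_mod_cast h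
  have p22 : padicValRat 2 ((2 : ℚ) ^ u.1) = (u.1 : ℤ) * padicValRat 2 (2 : ℚ) :=
    padicValRat.pow _
  have p23 : padicValRat 2 ((3 : ℚ) ^ u.2) = (u.2 : ℤ) * padicValRat 2 (3 : ℚ) :=
    padicValRat.pow _
  have p32 : padicValRat 3 ((2 : ℚ) ^ u.1) = (u.1 : ℤ) * padicValRat 3 (2 : ℚ) :=
    padicValRat.pow _
  have p33 : padicValRat 3 ((3 : ℚ) ^ u.2) = (u.2 : ℤ) * padicValRat 3 (3 : ℚ) :=
    padicValRat.pow _
  refine ⟨by rw [e]; exact mul_ne_zero h2 h3, ?_, ?_⟩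
  · rw [e, padicValRat.mul h2 h3, p22, p23, a22, a23]
    ring
  · rw [e, padicValRat.mul h2 h3, p32, p33, a32, a33]
    ring

/-- k0: one class. The points of `S` approximate the same rational `ξ`. -/
theorem big_one (a s ℓ : ℝ) (ha : 0 ≤ a) (hs : 2 * a + 3 ≤ s) (ξ : ℚ) (S : Finset (ℕ × ℕ))
    (hS : ∀ u ∈ S, LL u.1 u.2 ≤ ℓ ∧ ∃ q : ℕ, 1 ≤ q ∧ (q : ℝ) ≤ Real.exp a ∧
      ∃ P : ℤ, (q : ℚ) * sz u * ξ = P) :
    om2 * (S.card : ℝ) ≤ (max 0 (s + ℓ - Aq ξ) + 2) ^ 2 := by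
  classical
  have hl2 : 0 < Real.log 2 := Real.log_pos (by norm_num)
  have hl3 : 0 < Real.log 3 := Real.log_pos (by norm_num)
  set α2 : ℕ := (-(padicValRat 2 ξ)).toNat with hα2
  set α3 : ℕ := (-(padicValRat 3 ξ)).toNat with hα3
  have hA : Aq ξ = LL α2 α3 := k0_aq ξ
  set A2 : ℕ := ⌊a / Real.log 2⌋₊ with hA2
  set A3 : ℕ := ⌊a / Real.log 3⌋₊ with hA3
  have f2 : (A2 : ℝ) * Real.log 2 ≤ a := by
    have h := Nat.floor_le (div_nonneg ha hl2.le)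
    rwa [le_div_iff₀ hl2] at h
  have f3 : (A3 : ℝ) * Real.log 3 ≤ a := by
    have h := Nat.floor_le (div_nonneg ha hl3.le)
    rwa [le_div_iff₀ hl3] at h
  have key : ∀ u ∈ S, α2 ≤ u.1 + A2 ∧ α3 ≤ u.2 + A3 := by
    intro u hu
    obtain ⟨-, q, hq1, hqa, P, hP⟩ := hS u hu
    obtain ⟨h0, h2, h3⟩ := k0_sz u
    have g2 := k0_val 2 ξ q u.1 _ hq1 h0 h2 P hP
    have g3 := k0_val 3 ξ q u.2 _ hq1 h0 h3 P hP
    have e2 := k0_vq 2 a q hq1 hqa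
    have e3 := k0_vq 3 a q hq1 hqa
    exact ⟨g2.trans (Nat.add_le_add_left e2 _), g3.trans (Nat.add_le_add_left e3 _)⟩
  set τ : ℝ := max 0 (s + ℓ - Aq ξ) with hτ
  have hcard : S.card ≤ (KL_T τ).card := by
    refine Finset.card_le_card_of_injOn (fun u => (u.1 + A2 - α2, u.2 + A3 - α3)) ?_ ?_
    · intro u hu
      obtain ⟨k2, k3⟩ := key u hu
      have hL := (hS u hu).1
      rw [Finset.mem_coe, KL_mem_T]
      simp only
      have e : LL (u.1 + A2 - α2) (u.2 + A3 - α3) = LL u.1 u.2 + LL A2 A3 - Aq ξ := by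
        rw [hA]
        unfold LL
        rw [Nat.cast_sub k2, Nat.cast_sub k3]
        push_cast
        ring
      rw [e]
      refine lt_of_lt_of_le ?_ (le_max_right 0 _)
      have h1 : LL A2 A3 ≤ 2 * a := by
        unfold LL
        linarith
      linarith
    · intro u hu v hv h
      obtain ⟨k2, k3⟩ := key u hu
      obtain ⟨m2, m3⟩ := key v hv
      simp only [Prod.mk.injEq] at h
      exact Prod.ext (by omega) (by omega)
  have h1 := cnt_le τ (le_max_left _ _)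
  have h2 : om2 * (S.card : ℝ) ≤ om2 * ((KL_T τ).card : ℝ) :=
    mul_le_mul_of_nonneg_left (by exact_mod_cast hcard) om2_pos.le
  exact h2.trans h1

-- BEGIN k1 (helper52)
private theorem k1_max (p : ℕ) [hp : Fact p.Prime] (ξ : ℚ) :
    max 1 ((padicNorm p ξ : ℚ) : ℝ) = (p : ℝ) ^ (padicValNat p ξ.den) := by
  have hp1 : (1 : ℝ) < p := by exact_mod_cast hp.out.one_lt
  by_cases h0 : ξ = 0
  · subst h0
    simp
  · have e0 : ((padicNorm p ξ : ℚ) : ℝ) =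
        (p : ℝ) ^ (-((padicValInt p ξ.num : ℤ) - (padicValNat p ξ.den : ℤ))) := by
      rw [padicNorm.eq_zpow_of_nonzero h0, padicValRat_def, Rat.cast_zpow, Rat.cast_natCast]
    rw [e0]
    by_cases hd : p ∣ ξ.den
    · have h4 : padicValInt p ξ.num = 0 := by
        apply padicValInt.eq_zero_of_not_dvd
        intro h5
        have h6 : p ∣ ξ.num.natAbs := Int.natCast_dvd.1 h5
        have h7 := Nat.dvd_gcd h6 hd
        rw [ξ.reduced] at h7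
        exact hp.out.one_lt.ne' (Nat.dvd_one.1 h7)
      rw [h4]
      have h5 : -(((0 : ℕ) : ℤ) - (padicValNat p ξ.den : ℤ)) = ((padicValNat p ξ.den : ℕ) : ℤ) := by
        simp
      rw [h5, zpow_natCast]
      exact max_eq_right (one_le_pow₀ hp1.le)
    · have h4 : padicValNat p ξ.den = 0 := padicValNat.eq_zero_of_not_dvd hd
      rw [h4, pow_zero]
      apply max_eq_left
      have h5 : -((padicValInt p ξ.num : ℤ) - ((0 : ℕ) : ℤ)) = -((padicValInt p ξ.num : ℕ) : ℤ) := by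
        simp
      rw [h5, zpow_neg, zpow_natCast]
      exact inv_le_one_of_one_le₀ (one_le_pow₀ hp1.le)

private theorem k1_Aq (ξ : ℚ) : Aq ξ = (padicValNat 2 ξ.den : ℝ) * Real.log 2 +
    (padicValNat 3 ξ.den : ℝ) * Real.log 3 := by
  have e1 : av 1 ξ = ((padicNorm 2 ξ : ℚ) : ℝ) := by
    unfold av
    rw [if_neg (by decide), if_pos rfl]
  have e2 : av 2 ξ = ((padicNorm 3 ξ : ℚ) : ℝ) := by
    unfold av
    rw [if_neg (by decide), if_neg (by decide)]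
  have h1 := k1_max 2 ξ
  have h2 := k1_max 3 ξ
  unfold Aq
  rw [e1, e2, h1, h2, Real.log_pow, Real.log_pow]
  push_cast
  rfl

private theorem k1_den {q : ℕ} {u : ℕ × ℕ} {ξ : ℚ} {P : ℤ} (h : (q : ℚ) * sz u * ξ = P) :
    ξ.den ∣ q * (2 ^ u.1 * 3 ^ u.2) := by
  have h5 : ((q : ℤ) * (2 ^ u.1 * 3 ^ u.2)) * ξ.num = P * ξ.den := by
    have h6 : (ξ.den : ℚ) ≠ 0 := by exact_mod_cast ξ.den_nz
    have h7 : ((q : ℚ) * (2 ^ u.1 * 3 ^ u.2)) * ξ.num = P * ξ.den := by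
      rw [← h]
      nth_rewrite 2 [← Rat.num_div_den ξ]
      unfold sz
      push_cast
      field_simp
    exact_mod_cast h7
  have h6 : (ξ.den : ℤ) ∣ ((q : ℤ) * (2 ^ u.1 * 3 ^ u.2)) * ξ.num := ⟨P, by rw [h5]; ring⟩
  have h7 : IsCoprime (ξ.den : ℤ) ξ.num := by
    rw [Int.isCoprime_iff_gcd_eq_one, Int.gcd_comm]
    exact ξ.reduced
  have h8 : (ξ.den : ℤ) ∣ ((q * (2 ^ u.1 * 3 ^ u.2) : ℕ) : ℤ) := by
    push_cast
    exact h7.dvd_of_dvd_mul_right h6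
  exact_mod_cast h8

private theorem k1_Aq_le {q : ℕ} {u : ℕ × ℕ} {ξ : ℚ} {P : ℤ} (hq : 1 ≤ q)
    (h : (q : ℚ) * sz u * ξ = P) : Aq ξ ≤ Real.log q + LL u.1 u.2 := by
  have hd := k1_den h
  have hq0 : (0 : ℝ) < q := by exact_mod_cast hq
  have h1 : 2 ^ padicValNat 2 ξ.den ∣ ξ.den := pow_padicValNat_dvd
  have h2 : 3 ^ padicValNat 3 ξ.den ∣ ξ.den := pow_padicValNat_dvd
  have hc : Nat.Coprime (2 ^ padicValNat 2 ξ.den) (3 ^ padicValNat 3 ξ.den) :=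
    Nat.Coprime.pow _ _ (by norm_num)
  have h3 : 2 ^ padicValNat 2 ξ.den * 3 ^ padicValNat 3 ξ.den ∣ q * (2 ^ u.1 * 3 ^ u.2) :=
    (hc.mul_dvd_of_dvd_of_dvd h1 h2).trans hd
  have hpos : 0 < q * (2 ^ u.1 * 3 ^ u.2) := by positivity
  have h4 := Nat.le_of_dvd hpos h3
  have h5 : ((2 : ℝ) ^ padicValNat 2 ξ.den * 3 ^ padicValNat 3 ξ.den) ≤
      q * (2 ^ u.1 * 3 ^ u.2) := by exact_mod_cast h4
  have h6 := Real.log_le_log (by positivity) h5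
  rw [Real.log_mul (by positivity) (by positivity), Real.log_mul (by positivity) (by positivity),
    Real.log_mul (by positivity) (by positivity), Real.log_pow, Real.log_pow, Real.log_pow,
    Real.log_pow] at h6
  rw [k1_Aq]
  exact h6

private theorem k1_inR {q : ℕ} {u : ℕ × ℕ} {ξ : ℚ} {P : ℤ} (h : (q : ℚ) * sz u * ξ = P) :
    InR ((q : ℚ) * ξ) := by
  refine ⟨u.1 + u.2, 2 ^ u.2 * 3 ^ u.1 * P, ?_⟩
  push_cast
  rw [← h]
  unfold sz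
  push_cast
  have h6 : (6 : ℚ) = 2 * 3 := by norm_num
  rw [h6, mul_pow, pow_add, pow_add]
  ring

/-- the multiplier -/
private theorem k1_int {q : ℕ} {u m : ℕ × ℕ} {ξ : ℚ} {P : ℤ} (hq : 1 ≤ q)
    (h : (q : ℚ) * sz u * ξ = P) (h2 : padicValNat 2 ξ.den ≤ m.1) (h3 : padicValNat 3 ξ.den ≤ m.2) :
    ∃ d : ℕ, 1 ≤ d ∧ d ≤ q ∧ ∃ P' : ℤ, (d : ℚ) * sz m * ξ = P' := by
  have hd := k1_den h
  have e1 : 2 ^ padicValNat 2 ξ.den ∣ ξ.den := pow_padicValNat_dvd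
  have e2 : 3 ^ padicValNat 3 ξ.den ∣ ξ.den := pow_padicValNat_dvd
  have hc : Nat.Coprime (2 ^ padicValNat 2 ξ.den) (3 ^ padicValNat 3 ξ.den) :=
    Nat.Coprime.pow _ _ (by norm_num)
  obtain ⟨d, hdd⟩ := hc.mul_dvd_of_dvd_of_dvd e1 e2
  have hden0 : ξ.den ≠ 0 := ξ.den_nz
  have hd0 : d ≠ 0 := by
    rintro rfl
    rw [mul_zero] at hdd
    exact hden0 hdd
  have c2 : ¬ 2 ∣ d := by
    intro h4
    have h5 : 2 ^ (padicValNat 2 ξ.den + 1) ∣ ξ.den := by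
      obtain ⟨d', rfl⟩ := h4
      rw [pow_succ]
      exact ⟨3 ^ padicValNat 3 ξ.den * d', by nth_rewrite 1 [hdd]; ring⟩
    exact pow_succ_padicValNat_not_dvd hden0 h5
  have c3 : ¬ 3 ∣ d := by
    intro h4
    have h5 : 3 ^ (padicValNat 3 ξ.den + 1) ∣ ξ.den := by
      obtain ⟨d', rfl⟩ := h4
      rw [pow_succ]
      exact ⟨2 ^ padicValNat 2 ξ.den * d', by nth_rewrite 1 [hdd]; ring⟩
    exact pow_succ_padicValNat_not_dvd hden0 h5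
  have hcop : Nat.Coprime d (2 ^ u.1 * 3 ^ u.2) := by
    refine Nat.Coprime.mul_right (Nat.Coprime.pow_right _ ?_) (Nat.Coprime.pow_right _ ?_)
    · exact ((Nat.Prime.coprime_iff_not_dvd Nat.prime_two).2 c2).symm
    · exact ((Nat.Prime.coprime_iff_not_dvd Nat.prime_three).2 c3).symm
  have hdq : d ∣ q := by
    have h4 : d ∣ q * (2 ^ u.1 * 3 ^ u.2) := (Dvd.intro_left _ hdd.symm).trans hd
    exact hcop.dvd_of_dvd_mul_right h4
  refine ⟨d, Nat.one_le_iff_ne_zero.2 hd0, Nat.le_of_dvd hq hdq,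
    2 ^ (m.1 - padicValNat 2 ξ.den) * 3 ^ (m.2 - padicValNat 3 ξ.den) * ξ.num, ?_⟩
  have h6 : (ξ.den : ℚ) ≠ 0 := by exact_mod_cast ξ.den_nz
  have h7 : (ξ.den : ℚ) = 2 ^ padicValNat 2 ξ.den * 3 ^ padicValNat 3 ξ.den * d := by
    exact_mod_cast hdd
  have h8 : ξ * ξ.den = ξ.num := Rat.mul_den_eq_num ξ
  unfold sz
  push_cast
  have h9 : (ξ.num : ℚ) = ξ * (2 ^ padicValNat 2 ξ.den * 3 ^ padicValNat 3 ξ.den * d) := by
    rw [← h8, ← h7]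
  rw [h9]
  have e3 : (2 : ℚ) ^ m.1 = 2 ^ (m.1 - padicValNat 2 ξ.den) * 2 ^ padicValNat 2 ξ.den := by
    rw [← pow_add, Nat.sub_add_cancel h2]
  have e4 : (3 : ℚ) ^ m.2 = 3 ^ (m.2 - padicValNat 3 ξ.den) * 3 ^ padicValNat 3 ξ.den := by
    rw [← pow_add, Nat.sub_add_cancel h3]
  rw [e3, e4]
  ring
private theorem k1_num (C1 C' θ R : ℝ) (hC1 : 1 ≤ C1) (hC : 80 * C1 ≤ C') (hθ : 0 < θ)
    (hθ1 : θ ≤ 1 / 16) (h : C' * θ ≤ C1 ^ 2 / 1600) (hR : 1 ≤ R) (m0 : ℕ)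
    (hm0 : m0 = ⌈3 * C' / C1⌉₊) :
    (1 + 1 / 1000) * (C' * R + C1 * R) + (m0 : ℝ) ^ 2 * (θ * R) ≤ 102 / 100 * (C' * R) ∧
      281 / 100 * (C' * R) ≤ m0 * (C1 * R - θ * R) ∧ (m0 : ℝ) ≤ 3.02 * C' := by
  have hC1p : 0 < C1 := by linarith
  have hC'p : 0 < C' := by linarith
  have hRp : 0 < R := by linarith
  have e1 : 3 * C' / C1 ≤ m0 := by rw [hm0]; exact Nat.le_ceil _
  have e2 : (m0 : ℝ) < 3 * C' / C1 + 1 := by
    rw [hm0]; exact Nat.ceil_lt_add_one (by positivity)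
  have e3 : 3 * C' ≤ m0 * C1 := by rwa [div_le_iff₀ hC1p] at e1
  have e4 : (m0 : ℝ) * C1 ≤ 3 * C' + C1 := by
    have : (m0 : ℝ) * C1 < (3 * C' / C1 + 1) * C1 := mul_lt_mul_of_pos_right e2 hC1p
    have h2 : (3 * C' / C1 + 1) * C1 = 3 * C' + C1 := by field_simp
    linarith
  have e5 : (m0 : ℝ) * C1 ≤ 3.0125 * C' := by linarith
  have hm : (0 : ℝ) ≤ m0 := Nat.cast_nonneg _
  have e6 : (m0 : ℝ) ^ 2 * θ ≤ 0.0057 * C' := by
    have h1 : ((m0 : ℝ) * C1) ^ 2 ≤ (3.0125 * C') ^ 2 :=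
      pow_le_pow_left₀ (by positivity) e5 2
    have h2 : ((m0 : ℝ) * C1) ^ 2 * θ ≤ (3.0125 * C') ^ 2 * θ := mul_le_mul_of_nonneg_right h1 hθ.le
    have h3 : (3.0125 * C') ^ 2 * θ = 3.0125 ^ 2 * C' * (C' * θ) := by ring
    have h4 : 3.0125 ^ 2 * C' * (C' * θ) ≤ 3.0125 ^ 2 * C' * (C1 ^ 2 / 1600) :=
      mul_le_mul_of_nonneg_left h (by positivity)
    have h5 : ((m0 : ℝ) * C1) ^ 2 * θ = ((m0 : ℝ) ^ 2 * θ) * C1 ^ 2 := by ring
    have h6 : ((m0 : ℝ) ^ 2 * θ) * C1 ^ 2 ≤ (0.0057 * C') * C1 ^ 2 := by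
      have h7 : 3.0125 ^ 2 * C' * (C1 ^ 2 / 1600) ≤ (0.0057 * C') * C1 ^ 2 := by
        have : 0 ≤ C' * C1 ^ 2 := by positivity
        nlinarith
      linarith
    exact le_of_mul_le_mul_right h6 (by positivity)
  refine ⟨?_, ?_, ?_⟩
  · have h1 : (1 + 1 / 1000) * (C' + C1) + (m0 : ℝ) ^ 2 * θ ≤ 102 / 100 * C' := by linarith
    have h2 := mul_le_mul_of_nonneg_right h1 hRp.le
    linarith
  · have h1 : (m0 : ℝ) * θ ≤ m0 * C1 * (1 / 16) := by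
      have : θ ≤ C1 * (1 / 16) := by linarith
      have := mul_le_mul_of_nonneg_left this hm
      linarith
    have h2 : 281 / 100 * C' ≤ m0 * C1 - m0 * θ := by linarith
    have h3 := mul_le_mul_of_nonneg_right h2 hRp.le
    linarith
  · have : (m0 : ℝ) * 1 ≤ m0 * C1 := mul_le_mul_of_nonneg_left hC1 hm
    linarith

private theorem k1_fin (N m0 : ℝ) (hN : 480 ≤ N) (hm : m0 ≤ 3.02 * N) {Y : Finset ℚ}
    (hY : (Y.card : ℝ) ≤ m0) (t : ℚ → ℝ) (ht : ∀ ξ ∈ Y, 0 ≤ t ξ ∧ t ξ ≤ 7 / 8 * N)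
    (hs : ∑ ξ ∈ Y, t ξ ≤ 102 / 100 * N) :
    ∑ ξ ∈ Y, (t ξ + 2) ^ 2 ≤ 93 / 100 * N ^ 2 := by
  have h1 : ∀ ξ ∈ Y, (t ξ + 2) ^ 2 ≤ (7 / 8 * N + 4) * t ξ + 4 := by
    intro ξ hξ
    obtain ⟨h2, h3⟩ := ht ξ hξ
    nlinarith
  have h2 := Finset.sum_le_sum h1
  rw [Finset.sum_add_distrib, ← Finset.mul_sum, Finset.sum_const, nsmul_eq_mul] at h2
  have h3 : (7 / 8 * N + 4) * ∑ ξ ∈ Y, t ξ ≤ (7 / 8 * N + 4) * (102 / 100 * N) :=
    mul_le_mul_of_nonneg_left hs (by linarith)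
  nlinarith
private theorem k1_dist (x : ℝ) (u : ℕ × ℕ) (q : ℕ) (z : ℤ) :
    ‖q • sp u (x : AddCircle (1 : ℝ))‖ ≤ |(q : ℝ) * (2 ^ u.1 * 3 ^ u.2) * x - z| := by
  unfold sp
  rw [in_smul, ← AddCircle.coe_nsmul, nsmul_eq_mul, in_norm]
  have h1 : (q : ℝ) * (2 ^ u.1 * 3 ^ u.2) * x = (q : ℝ) * (2 ^ u.1 * 3 ^ u.2 * x) := by ring
  rw [h1]
  exact round_le _ z

private theorem k1_app (x s : ℝ) (u : ℕ × ℕ) (q : ℕ) (hq : 1 ≤ q)
    (h : ‖q • sp u (x : AddCircle (1 : ℝ))‖ ≤ Real.exp (-s)) :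
    ∃ ξ : ℚ, (∃ P : ℤ, (q : ℚ) * sz u * ξ = P) ∧ |x - (ξ : ℝ)| ≤ Real.exp (-(s + LL u.1 u.2)) := by
  unfold sp at h
  rw [in_smul, ← AddCircle.coe_nsmul, nsmul_eq_mul, in_norm] at h
  set P : ℤ := round ((q : ℝ) * (2 ^ u.1 * 3 ^ u.2 * x)) with hP
  have hq0 : (0 : ℝ) < q := by exact_mod_cast hq
  have hq1 : (1 : ℝ) ≤ q := by exact_mod_cast hq
  have hqq : (0 : ℚ) < q := by exact_mod_cast hq
  have hu : (0 : ℝ) < 2 ^ u.1 * 3 ^ u.2 := by positivity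
  have huq : (0 : ℚ) < 2 ^ u.1 * 3 ^ u.2 := by positivity
  refine ⟨(P : ℚ) / ((q : ℚ) * (2 ^ u.1 * 3 ^ u.2)), ⟨P, ?_⟩, ?_⟩
  · unfold sz
    push_cast
    field_simp
  · push_cast
    have h1 : x - (P : ℝ) / ((q : ℝ) * (2 ^ u.1 * 3 ^ u.2)) =
        ((q : ℝ) * (2 ^ u.1 * 3 ^ u.2 * x) - P) / ((q : ℝ) * (2 ^ u.1 * 3 ^ u.2)) := by
      field_simp
    rw [h1, abs_div, abs_of_pos (mul_pos hq0 hu), div_le_iff₀ (mul_pos hq0 hu)]
    have h2 : Real.exp (-(s + LL u.1 u.2)) * ((q : ℝ) * (2 ^ u.1 * 3 ^ u.2)) =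
        q * Real.exp (-s) := by
      rw [← KL_exp_LL]
      have : Real.exp (-(s + LL u.1 u.2)) * Real.exp (LL u.1 u.2) = Real.exp (-s) := by
        rw [← Real.exp_add]
        congr 1
        ring
      calc Real.exp (-(s + LL u.1 u.2)) * ((q : ℝ) * Real.exp (LL u.1 u.2))
          = q * (Real.exp (-(s + LL u.1 u.2)) * Real.exp (LL u.1 u.2)) := by ring
        _ = q * Real.exp (-s) := by rw [this]
    rw [h2]
    have h3 : Real.exp (-s) ≤ q * Real.exp (-s) := le_mul_of_one_le_left (Real.exp_pos _).le hq1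
    exact h.trans h3

private theorem k1_far (C1 C' θ R x : ℝ) (hC1 : 1 ≤ C1) (hC : 80 * C1 ≤ C')
    (hθ1 : θ ≤ 1 / 16) (hR : 1 ≤ R)
    (hE : sp (e0 (C' * R)) (x : AddCircle (1 : ℝ)) ∈ Eab (θ * R) (1 / 4 * R)) (ξ : ℚ)
    (u : ℕ × ℕ) (q : ℕ) (hq : 1 ≤ q) (hqa : (q : ℝ) ≤ Real.exp (θ * R)) (P : ℤ)
    (hP : (q : ℚ) * sz u * ξ = P) (c : ℝ) (hx : |x - (ξ : ℝ)| ≤ Real.exp (-c))
    (hc : c ≤ C' * R + C1 * R) : c - Aq ξ ≤ 7 / 8 * (C' * R) := by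
  by_contra hcon'
  have hcon : 7 / 8 * (C' * R) < c - Aq ξ := not_le.1 hcon'
  have hl2 : 0 < Real.log 2 := Real.log_pos (by norm_num)
  have hl3 : 0 < Real.log 3 := Real.log_pos (by norm_num)
  have hC1R : C1 * R ≤ C' * R / 80 := by
    have := mul_le_mul_of_nonneg_right hC (by linarith : (0 : ℝ) ≤ R)
    linarith
  have hN : 80 * R ≤ C' * R := by
    have h80 : (80 : ℝ) ≤ C' := by linarith
    exact mul_le_mul_of_nonneg_right h80 (by linarith)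
  have hA : Aq ξ < C' * R / 4 := by linarith
  have hA0 := aq_nonneg ξ
  rw [k1_Aq] at hA
  have hv2 : (0 : ℝ) ≤ (padicValNat 2 ξ.den : ℝ) * Real.log 2 := by positivity
  have hv3 : (0 : ℝ) ≤ (padicValNat 3 ξ.den : ℝ) * Real.log 3 := by positivity
  have e2 : padicValNat 2 ξ.den ≤ (e0 (C' * R)).1 := by
    have h1 : (padicValNat 2 ξ.den : ℝ) ≤ C' * R / (4 * Real.log 2) := by
      rw [le_div_iff₀ (by positivity)]
      linarith
    have h2 := h1.trans (Nat.le_ceil _)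
    exact_mod_cast h2
  have e3 : padicValNat 3 ξ.den ≤ (e0 (C' * R)).2 := by
    have h1 : (padicValNat 3 ξ.den : ℝ) ≤ C' * R / (4 * Real.log 3) := by
      rw [le_div_iff₀ (by positivity)]
      linarith
    have h2 := h1.trans (Nat.le_ceil _)
    exact_mod_cast h2
  obtain ⟨d, hd1, hdq, P', hP'⟩ := k1_int hq hP e2 e3
  have hda : (d : ℝ) ≤ Real.exp (θ * R) := (by exact_mod_cast hdq : (d : ℝ) ≤ q).trans hqa
  have h1 := hE d hd1 hda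
  have h2 := k1_dist x (e0 (C' * R)) d P'
  have hd0 : (0 : ℝ) < d := by exact_mod_cast hd1
  set m := e0 (C' * R) with hm
  have h3 : (d : ℝ) * (2 ^ m.1 * 3 ^ m.2) * x - P' =
      (d : ℝ) * (2 ^ m.1 * 3 ^ m.2) * (x - ξ) := by
    have h4 : (P' : ℝ) = (d : ℝ) * (2 ^ m.1 * 3 ^ m.2) * ξ := by
      have h5 : ((P' : ℚ) : ℝ) = (((d : ℚ) * sz m * ξ : ℚ) : ℝ) := by rw [hP']
      unfold sz at h5
      push_cast at h5
      exact h5
    rw [h4]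
    ring
  have hm0 : (0 : ℝ) < 2 ^ m.1 * 3 ^ m.2 := by positivity
  rw [h3, abs_mul, abs_of_pos (mul_pos hd0 hm0), ← KL_exp_LL] at h2
  have hLL : LL m.1 m.2 ≤ C' * R / 2 + 2 := by
    have g1 : (m.1 : ℝ) ≤ C' * R / (4 * Real.log 2) + 1 :=
      (Nat.ceil_lt_add_one (div_nonneg (by linarith) (by positivity))).le
    have g2 : (m.2 : ℝ) ≤ C' * R / (4 * Real.log 3) + 1 :=
      (Nat.ceil_lt_add_one (div_nonneg (by linarith) (by positivity))).le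
    have g3 := mul_le_mul_of_nonneg_right g1 hl2.le
    have g4 := mul_le_mul_of_nonneg_right g2 hl3.le
    have g5 : (C' * R / (4 * Real.log 2) + 1) * Real.log 2 = C' * R / 4 + Real.log 2 := by
      field_simp
    have g6 : (C' * R / (4 * Real.log 3) + 1) * Real.log 3 = C' * R / 4 + Real.log 3 := by
      field_simp
    have g7 := CNT_log2.2
    have g8 := CNT_log3.2
    unfold LL
    linarith
  have h5 : (d : ℝ) * Real.exp (LL m.1 m.2) * |x - (ξ : ℝ)| ≤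
      Real.exp (θ * R) * Real.exp (C' * R / 2 + 2) * Real.exp (-c) := by
    apply mul_le_mul _ hx (abs_nonneg _) (by positivity)
    exact mul_le_mul hda (Real.exp_le_exp.2 hLL) (Real.exp_pos _).le (Real.exp_pos _).le
  rw [← Real.exp_add, ← Real.exp_add] at h5
  have h6 := (h1.trans h2).trans h5
  rw [Real.exp_le_exp] at h6
  have hθR : θ * R ≤ R / 16 := by
    have := mul_le_mul_of_nonneg_right hθ1 (by linarith : (0 : ℝ) ≤ R)
    linarith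
  linarith
private theorem k1_exists_max (F : Finset (ℕ × ℕ)) :
    ∃ m : ℕ × ℕ, F.Nonempty → m ∈ F ∧ ∀ u ∈ F, LL u.1 u.2 ≤ LL m.1 m.2 := by
  by_cases h : F.Nonempty
  · obtain ⟨m, hm, hm2⟩ := F.exists_max_image (fun u => LL u.1 u.2) h
    exact ⟨m, fun _ => ⟨hm, hm2⟩⟩
  · exact ⟨(0, 0), fun h' => absurd h' h⟩

/-- k1 -/
theorem big_few (C1 C' θ : ℝ) (hC1 : 1 ≤ C1) (hC : 80 * C1 ≤ C') (hθ : 0 < θ) (hθ1 : θ ≤ 1 / 16)
    (h : C' * θ ≤ C1 ^ 2 / 1600) :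
    ∃ R0 : ℝ, 1 ≤ R0 ∧ ∀ R ≥ R0, ∀ w : AddCircle (1 : ℝ),
      sp (e0 (C' * R)) w ∈ Eab (θ * R) (1 / 4 * R) → ∀ S : Finset (ℕ × ℕ),
      (∀ u ∈ S, LL u.1 u.2 < C' * R ∧ ∃ q : ℕ, 1 ≤ q ∧ (q : ℝ) ≤ Real.exp (θ * R) ∧
        ‖q • sp u w‖ ≤ Real.exp (-(C1 * R))) →
      om2 * (S.card : ℝ) ≤ 93 / 100 * (C' * R) ^ 2 := by
  classical
  obtain ⟨m0, hm0⟩ : ∃ m0 : ℕ, m0 = ⌈3 * C' / C1⌉₊ := ⟨_, rfl⟩
  obtain ⟨R1, hR1, hpack⟩ := packD m0 (1 / 1000) (by norm_num)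
  refine ⟨max R1 6, le_trans hR1 (le_max_left _ _), ?_⟩
  intro R hR w hE S hS
  have hRR1 : R1 ≤ R := (le_max_left _ _).trans hR
  have hR6 : 6 ≤ R := (le_max_right _ _).trans hR
  have hC' : 80 ≤ C' := by linarith
  obtain ⟨n1, n2, n3⟩ := k1_num C1 C' θ R hC1 hC hθ hθ1 h (by linarith) m0 hm0
  have hN : 80 * R ≤ C' * R := mul_le_mul_of_nonneg_right hC' (by linarith)
  have hRN : R ≤ C1 * R := le_mul_of_one_le_left (by linarith) hC1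
  have hC1R : C1 * R ≤ C' * R / 80 := by
    have := mul_le_mul_of_nonneg_right hC (by linarith : (0 : ℝ) ≤ R)
    linarith
  have hθR : θ * R ≤ R / 16 := by
    have := mul_le_mul_of_nonneg_right hθ1 (by linarith : (0 : ℝ) ≤ R)
    linarith
  have hθR0 : 0 ≤ θ * R := mul_nonneg hθ.le (by linarith)
  obtain ⟨x, rfl⟩ := QuotientAddGroup.mk_surjective w
  change sp (e0 (C' * R)) (x : AddCircle (1 : ℝ)) ∈ Eab (θ * R) (1 / 4 * R) at hE
  -- the approximations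
  have hS2 : ∀ u ∈ S, ∃ q : ℕ, ∃ ξ : ℚ, LL u.1 u.2 < C' * R ∧ 1 ≤ q ∧
      (q : ℝ) ≤ Real.exp (θ * R) ∧ (∃ P : ℤ, (q : ℚ) * sz u * ξ = P) ∧
      |x - (ξ : ℝ)| ≤ Real.exp (-(C1 * R + LL u.1 u.2)) := by
    intro u hu
    obtain ⟨h1, q, h2, h3, h4⟩ := hS u hu
    obtain ⟨ξ, h5, h6⟩ := k1_app x (C1 * R) u q h2 h4
    exact ⟨q, ξ, h1, h2, h3, h5, h6⟩
  choose! Q Ξ hQ using hS2
  have hfib : ∀ ξ ∈ S.image Ξ, (S.filter (fun u => Ξ u = ξ)).Nonempty := by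
    intro ξ hξ
    obtain ⟨u, hu, rfl⟩ := Finset.mem_image.1 hξ
    exact ⟨u, Finset.mem_filter.2 ⟨hu, rfl⟩⟩
  choose M hM using fun ξ : ℚ => k1_exists_max (S.filter (fun u => Ξ u = ξ))
  have hc : ∀ ξ ∈ S.image Ξ, M ξ ∈ S ∧ Ξ (M ξ) = ξ ∧
      ∀ u ∈ S, Ξ u = ξ → LL u.1 u.2 ≤ LL (M ξ).1 (M ξ).2 := by
    intro ξ hξ
    obtain ⟨h1, h2⟩ := hM ξ (hfib ξ hξ)
    rw [Finset.mem_filter] at h1
    exact ⟨h1.1, h1.2, fun u hu hu2 => h2 u (Finset.mem_filter.2 ⟨hu, hu2⟩)⟩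
  -- facts for the approximations
  have hfact : ∀ ξ ∈ S.image Ξ,
      (∃ d : ℕ, 1 ≤ d ∧ (d : ℝ) ≤ Real.exp (θ * R) ∧ InR (d * ξ)) ∧
      Aq ξ ≤ C' * R + C1 * R ∧
      (0 ≤ C1 * R + LL (M ξ).1 (M ξ).2 ∧ C1 * R + LL (M ξ).1 (M ξ).2 ≤ C' * R + C1 * R ∧
        |x - (ξ : ℝ)| ≤ Real.exp (-(C1 * R + LL (M ξ).1 (M ξ).2))) ∧
      C1 * R - θ * R ≤ C1 * R + LL (M ξ).1 (M ξ).2 - Aq ξ ∧
      C1 * R + LL (M ξ).1 (M ξ).2 - Aq ξ ≤ 7 / 8 * (C' * R) := by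
    intro ξ hξ
    obtain ⟨h1, h2, h3⟩ := hc ξ hξ
    obtain ⟨g1, g2, g3, ⟨P, g4⟩, g5⟩ := hQ (M ξ) h1
    rw [h2] at g4 g5
    have hLL0 := KL_LL_nonneg (M ξ).1 (M ξ).2
    have hA := k1_Aq_le g2 g4
    have hlog : Real.log (Q (M ξ) : ℝ) ≤ θ * R := by
      have h7 := Real.log_le_log (by exact_mod_cast g2 : (0 : ℝ) < Q (M ξ)) g3
      rwa [Real.log_exp] at h7
    refine ⟨⟨Q (M ξ), g2, g3, k1_inR g4⟩, by linarith, ⟨by linarith, by linarith, g5⟩,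
      by linarith, ?_⟩
    exact k1_far C1 C' θ R x hC1 hC hθ1 (by linarith) hE ξ (M ξ) (Q (M ξ)) g2 g3 P g4 _ g5
      (by linarith)
  -- packing
  have hpk : ∀ Y ⊆ S.image Ξ, Y.card ≤ m0 →
      ∑ ξ ∈ Y, (C1 * R + LL (M ξ).1 (M ξ).2 - Aq ξ) ≤ 102 / 100 * (C' * R) := by
    intro Y hY hYc
    have h1 := hpack (C' * R + C1 * R) (by linarith) (θ * R) hθR0 (by linarith) x Y hYc
      (fun ξ hξ => (hfact ξ (hY hξ)).1) (fun ξ hξ => (hfact ξ (hY hξ)).2.1)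
      (fun ξ => C1 * R + LL (M ξ).1 (M ξ).2) (fun ξ hξ => (hfact ξ (hY hξ)).2.2.1)
    exact h1.trans n1
  have hcard : (S.image Ξ).card ≤ m0 := by
    by_contra hcon'
    have hcon : m0 < (S.image Ξ).card := not_le.1 hcon'
    obtain ⟨Y, hY, hYc⟩ := Finset.exists_subset_card_eq hcon.le
    have h1 := hpk Y hY hYc.le
    have h2 : ∑ ξ ∈ Y, (C1 * R - θ * R) ≤ ∑ ξ ∈ Y, (C1 * R + LL (M ξ).1 (M ξ).2 - Aq ξ) :=
      Finset.sum_le_sum fun ξ hξ => (hfact ξ (hY hξ)).2.2.2.1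
    rw [Finset.sum_const, nsmul_eq_mul, hYc] at h2
    linarith
  have hsum := hpk _ (Finset.Subset.refl _) hcard
  -- the classes
  have hclass : ∀ ξ ∈ S.image Ξ, om2 * ((S.filter (fun u => Ξ u = ξ)).card : ℝ) ≤
      (C1 * R + LL (M ξ).1 (M ξ).2 - Aq ξ + 2) ^ 2 := by
    intro ξ hξ
    obtain ⟨h1, h2, h3⟩ := hc ξ hξ
    have h4 := big_one (θ * R) (C1 * R) (LL (M ξ).1 (M ξ).2) hθR0 (by linarith) ξ
      (S.filter (fun u => Ξ u = ξ)) (by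
        intro u hu
        rw [Finset.mem_filter] at hu
        obtain ⟨g1, g2, g3, g4, g5⟩ := hQ u hu.1
        rw [hu.2] at g4
        exact ⟨h3 u hu.1 hu.2, Q u, g2, g3, g4⟩)
    have h5 := (hfact ξ hξ).2.2.2.1
    rw [max_eq_right (by linarith)] at h4
    exact h4
  have hSc : (S.card : ℝ) = ∑ ξ ∈ S.image Ξ, ((S.filter (fun u => Ξ u = ξ)).card : ℝ) := by
    rw [Finset.card_eq_sum_card_image Ξ S]
    push_cast
    rfl
  rw [hSc, Finset.mul_sum]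
  refine (Finset.sum_le_sum hclass).trans ?_
  have hm0N : (m0 : ℝ) ≤ 3.02 * (C' * R) := by
    have : C' * 1 ≤ C' * R := mul_le_mul_of_nonneg_left (by linarith) (by linarith)
    linarith
  refine k1_fin (C' * R) m0 (by linarith) hm0N (by exact_mod_cast hcard)
    (fun ξ => C1 * R + LL (M ξ).1 (M ξ).2 - Aq ξ) (fun ξ hξ => ⟨?_, (hfact ξ hξ).2.2.2.2⟩) hsum
  have := (hfact ξ hξ).2.2.2.1
  linarith

end Pool.Agent.SupC
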