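import Pool.Agent.SupC.Defs

/-! Superquadratic complexity: counting multipliers, and the pigeonhole principle. Text, section 2. -/

namespace Pool.Agent.SupC

open Pool.Agent.SubT Pool.Agent.SlowV Pool.Agent.CplxN

open scoped BigOperators ENNReal

open MeasureTheory Set

-- BEGIN c1
private theorem c1_fib (A : Finset ℤ) (X D : ℝ) (hD : 0 < D) (hX : 0 ≤ X)
    (hA : ∀ x ∈ A, |(x : ℝ)| ≤ X) (n : ℕ)
    (hn : ∀ B ⊆ A, (∀ x ∈ B, ∀ x' ∈ B, |(x : ℝ) - x'| < D) → B.card ≤ n) :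
    (A.card : ℝ) ≤ n * (2 * X / D + 1) := by
  classical
  have h1 : A.card ≤ n * (Finset.Icc (0 : ℤ) ⌊2 * X / D⌋).card := by
    apply Finset.card_le_mul_card_image_of_maps_to (f := fun x : ℤ => ⌊((x : ℝ) + X) / D⌋)
    · intro x hx
      have h2 := abs_le.mp (hA x hx)
      rw [Finset.mem_Icc]
      constructor
      · apply Int.floor_nonneg.mpr
        apply div_nonneg _ hD.le
        linarith
      · apply Int.floor_le_floor
        apply div_le_div_of_nonneg_right _ hD.le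
        linarith
    · intro b _
      apply hn _ (Finset.filter_subset _ _)
      intro x hx x' hx'
      rw [Finset.mem_filter] at hx hx'
      have e1 := Int.floor_le (((x : ℝ) + X) / D)
      have e2 := Int.lt_floor_add_one (((x : ℝ) + X) / D)
      have e3 := Int.floor_le (((x' : ℝ) + X) / D)
      have e4 := Int.lt_floor_add_one (((x' : ℝ) + X) / D)
      rw [hx.2] at e1 e2
      rw [hx'.2] at e3 e4
      have e5 : |((x : ℝ) + X) / D - ((x' : ℝ) + X) / D| < 1 := by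
        rw [abs_lt]
        constructor <;> linarith
      have e6 : ((x : ℝ) + X) / D - ((x' : ℝ) + X) / D = ((x : ℝ) - x') / D := by ring
      rw [e6, abs_div, abs_of_pos hD, div_lt_one hD] at e5
      exact e5
  have h3 : ((Finset.Icc (0 : ℤ) ⌊2 * X / D⌋).card : ℝ) ≤ 2 * X / D + 1 := by
    have h4 : 0 ≤ 2 * X / D := by positivity
    have h5 : 0 ≤ ⌊2 * X / D⌋ := Int.floor_nonneg.mpr h4
    rw [Int.card_Icc]
    have h6 : (((⌊2 * X / D⌋ + 1 - 0).toNat : ℕ) : ℝ) = ((⌊2 * X / D⌋ + 1 - 0 : ℤ) : ℝ) := by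
      have h7 : (((⌊2 * X / D⌋ + 1 - 0).toNat : ℕ) : ℤ) = ⌊2 * X / D⌋ + 1 - 0 :=
        Int.toNat_of_nonneg (by omega)
      exact_mod_cast congrArg (Int.cast : ℤ → ℝ) h7
    rw [h6]
    push_cast
    have h8 := Int.floor_le (2 * X / D)
    linarith
  calc (A.card : ℝ) ≤ ((n * (Finset.Icc (0 : ℤ) ⌊2 * X / D⌋).card : ℕ) : ℝ) := by
        exact_mod_cast h1
    _ = n * ((Finset.Icc (0 : ℤ) ⌊2 * X / D⌋).card : ℝ) := by push_cast; ring
    _ ≤ n * (2 * X / D + 1) := mul_le_mul_of_nonneg_left h3 (Nat.cast_nonneg n)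

private theorem c1_norm (g : ℤ) (t : ℝ) :
    ‖g • ((t : ℝ) : AddCircle (1 : ℝ))‖ = |(g : ℝ) * t - round ((g : ℝ) * t)| := by
  have h : g • ((t : ℝ) : AddCircle (1 : ℝ)) = (((g : ℝ) * t : ℝ) : AddCircle (1 : ℝ)) := by
    rw [← AddCircle.coe_zsmul, zsmul_eq_mul]
  rw [h]
  exact UnitAddCircle.norm_eq

private theorem c1_le (g : ℤ) (t : ℝ) (P : ℤ) :
    ‖g • ((t : ℝ) : AddCircle (1 : ℝ))‖ ≤ |(g : ℝ) * t - P| := by
  rw [c1_norm]
  exact round_le _ _

/-- c1 -/
theorem few (w : AddCircle (1 : ℝ)) (X Y G : ℝ) (hX : 1 ≤ X) (hY : 0 < Y) (hG : 1 ≤ G)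
    (hYG : 4 * G * Y ≤ 1) :
    (∃ q : ℕ, 1 ≤ q ∧ (q : ℝ) < G ∧ ‖q • w‖ < Y * G / X) ∨
      ∀ A : Finset ℤ, (∀ x ∈ A, |(x : ℝ)| ≤ X ∧ ‖x • w‖ ≤ Y) →
        (A.card : ℝ) ≤ 2 * X / G + 1 + 16 * X * Y := by
  classical
  by_cases hfirst : ∃ q : ℕ, 1 ≤ q ∧ (q : ℝ) < G ∧ ‖q • w‖ < Y * G / X
  · exact Or.inl hfirst
  right
  push Not at hfirst
  intro A hA
  have hXp : 0 < X := by linarith
  have hGp : 0 < G := by linarith
  by_cases hex : ∃ q : ℕ, 1 ≤ q ∧ ‖q • w‖ ≤ 2 * Y
  swap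
  · -- at most one element
    push Not at hex
    have h10 : A.card ≤ 1 := by
      rw [Finset.card_le_one]
      intro x hx x' hx'
      by_contra hne
      have h2 : 1 ≤ (x - x').natAbs := by
        have : x - x' ≠ 0 := sub_ne_zero.mpr hne
        omega
      have h3 := hex _ h2
      have h4 : ‖(x - x').natAbs • w‖ = ‖(x - x') • w‖ := by
        rw [← natCast_zsmul, Int.natCast_natAbs]
        rcases abs_choice (x - x') with h | h
        · rw [h]
        · rw [h, neg_smul, norm_neg]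
      rw [h4, sub_smul] at h3
      have h5 := norm_sub_le (x • w) (x' • w)
      have h6 := (hA x hx).2
      have h7 := (hA x' hx').2
      linarith
    have h11 : (A.card : ℝ) ≤ 1 := by exact_mod_cast h10
    have h12 : 0 ≤ 2 * X / G := by positivity
    have h13 : 0 ≤ 16 * X * Y := by positivity
    linarith
  -- the smallest good multiplier
  obtain ⟨q, ⟨hq1, hqY⟩, hqmin⟩ : ∃ q : ℕ, (1 ≤ q ∧ ‖q • w‖ ≤ 2 * Y) ∧
      ∀ m : ℕ, 1 ≤ m → ‖m • w‖ ≤ 2 * Y → q ≤ m :=
    ⟨Nat.find hex, Nat.find_spec hex, fun m h1 h2 => Nat.find_min' hex ⟨h1, h2⟩⟩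
  have hdiff : ∀ x ∈ A, ∀ x' ∈ A, ‖(x - x') • w‖ ≤ 2 * Y := by
    intro x hx x' hx'
    rw [sub_smul]
    have h5 := norm_sub_le (x • w) (x' • w)
    have h6 := (hA x hx).2
    have h7 := (hA x' hx').2
    linarith
  have habs : ∀ g : ℤ, ‖g.natAbs • w‖ = ‖g • w‖ := by
    intro g
    rw [← natCast_zsmul, Int.natCast_natAbs]
    rcases abs_choice g with h | h
    · rw [h]
    · rw [h, neg_smul, norm_neg]
  by_cases hqG : G ≤ q
  · have h1 := c1_fib A X G hGp (by linarith) (fun x hx => (hA x hx).1) 1 (by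
      intro B hB hd
      rw [Finset.card_le_one]
      intro x hx x' hx'
      by_contra hne
      have h2 : 1 ≤ (x - x').natAbs := by
        have : x - x' ≠ 0 := sub_ne_zero.mpr hne
        omega
      have h3 := hqmin _ h2 (by rw [habs]; exact hdiff x (hB hx) x' (hB hx'))
      have h4 := hd x hx x' hx'
      have h5 : ((x - x').natAbs : ℝ) = |(x : ℝ) - x'| := by
        rw [Nat.cast_natAbs]; push_cast; rfl
      have h6 : (q : ℝ) ≤ ((x - x').natAbs : ℝ) := by exact_mod_cast h3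
      linarith)
    have h13 : 0 ≤ 16 * X * Y := by positivity
    push_cast at h1
    linarith
  push Not at hqG
  obtain ⟨t, rfl⟩ : ∃ t : ℝ, ((t : ℝ) : AddCircle (1 : ℝ)) = w := QuotientAddGroup.mk_surjective w
  set P : ℤ := round ((q : ℝ) * t) with hP
  set z : ℝ := ‖q • ((t : ℝ) : AddCircle (1 : ℝ))‖ with hz
  have hzP : z = |(q : ℝ) * t - P| := by
    rw [hz, hP, ← natCast_zsmul, c1_norm]
    push_cast
    rfl
  have hzlow : Y * G / X ≤ z := hfirst q hq1 hqG
  have hz0 : 0 < z := lt_of_lt_of_le (by positivity) hzlow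
  -- coprimality
  have hcop : IsCoprime (q : ℤ) P := by
    rw [Int.isCoprime_iff_gcd_eq_one]
    by_contra hd
    set d := Int.gcd (q : ℤ) P with hdd
    have hd0 : 0 < d := by
      apply Int.gcd_pos_of_ne_zero_left
      have : (q : ℤ) ≠ 0 := by exact_mod_cast (by omega : q ≠ 0)
      exact this
    have hd2 : 2 ≤ d := by omega
    obtain ⟨q', hq'⟩ : (d : ℤ) ∣ (q : ℤ) := Int.gcd_dvd_left ..
    obtain ⟨P', hP'⟩ : (d : ℤ) ∣ P := Int.gcd_dvd_right ..
    have hq'0 : 0 < q' := by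
      by_contra hcon
      push Not at hcon
      have h1 : (0 : ℤ) < q := by exact_mod_cast (by omega : 0 < q)
      have h2 : (d : ℤ) * q' ≤ 0 := mul_nonpos_of_nonneg_of_nonpos (by positivity) hcon
      omega
    have h1 : ‖(q'.natAbs) • ((t : ℝ) : AddCircle (1 : ℝ))‖ ≤ 2 * Y := by
      rw [habs]
      refine le_trans (c1_le q' t P') ?_
      have h2 : (q : ℝ) * t - P = d * ((q' : ℝ) * t - P') := by
        have e1 : (q : ℝ) = d * q' := by exact_mod_cast congrArg (Int.cast : ℤ → ℝ) hq'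
        have e2 : (P : ℝ) = d * P' := by exact_mod_cast congrArg (Int.cast : ℤ → ℝ) hP'
        rw [e1, e2]; ring
      have h3 : z = d * |(q' : ℝ) * t - P'| := by
        rw [hzP, h2, abs_mul, abs_of_nonneg (by positivity : (0 : ℝ) ≤ d)]
      have h4 : (1 : ℝ) ≤ d := by exact_mod_cast (by omega : 1 ≤ d)
      have h5 : |(q' : ℝ) * t - P'| ≤ d * |(q' : ℝ) * t - P'| :=
        le_mul_of_one_le_left (abs_nonneg _) h4
      linarith
    have h6 := hqmin q'.natAbs (by omega) h1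
    have h7 : (q : ℤ) ≤ q' := by omega
    have h8 : (2 : ℤ) * q' ≤ d * q' := by
      apply mul_le_mul_of_nonneg_right _ hq'0.le
      exact_mod_cast hd2
    omega
  -- the differences
  have hkey : ∀ g : ℤ, (g : ℝ) < 1 / (2 * z) → 0 ≤ g →
      ‖g • ((t : ℝ) : AddCircle (1 : ℝ))‖ ≤ 2 * Y → ∃ k : ℕ, g = k * q ∧ (k : ℝ) * z ≤ 2 * Y := by
    intro g hg hg0 hgw
    set h : ℤ := round ((g : ℝ) * t) with hh
    rw [c1_norm, ← hh] at hgw
    have hgR : (0 : ℝ) ≤ g := by exact_mod_cast hg0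
    have e0 : ((g * P - q * h : ℤ) : ℝ) = q * ((g : ℝ) * t - h) - g * ((q : ℝ) * t - P) := by
      push_cast; ring
    have e1 : |((g * P - q * h : ℤ) : ℝ)| < 1 := by
      rw [e0]
      have h1 : |(q : ℝ) * ((g : ℝ) * t - h)| ≤ q * (2 * Y) := by
        rw [abs_mul, abs_of_nonneg (by positivity : (0 : ℝ) ≤ q)]
        exact mul_le_mul_of_nonneg_left hgw (by positivity)
      have h2 : |(g : ℝ) * ((q : ℝ) * t - P)| = g * z := by
        rw [abs_mul, abs_of_nonneg hgR, hzP]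
      have h3 : (g : ℝ) * z < 1 / 2 := by
        have := mul_lt_mul_of_pos_right hg hz0
        have h4 : 1 / (2 * z) * z = 1 / 2 := by field_simp
        linarith
      have h5 : (q : ℝ) * (2 * Y) ≤ 1 / 2 := by
        have : (q : ℝ) * (2 * Y) ≤ G * (2 * Y) := mul_le_mul_of_nonneg_right hqG.le (by positivity)
        nlinarith
      have h6 := abs_sub (q * ((g : ℝ) * t - h)) (g * ((q : ℝ) * t - P))
      linarith
    have e2 : g * P - q * h = 0 := by
      have : |g * P - q * h| < 1 := by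
        have h1 : ((|g * P - q * h| : ℤ) : ℝ) < 1 := by
          rw [Int.cast_abs]; exact e1
        exact_mod_cast h1
      exact Int.abs_lt_one_iff.mp this
    have e3 : (q : ℤ) ∣ g := by
      apply hcop.dvd_of_dvd_mul_right
      exact ⟨h, by linarith⟩
    obtain ⟨k, hk⟩ := e3
    have hq0 : (0 : ℤ) < q := by exact_mod_cast (by omega : 0 < q)
    have hk0 : 0 ≤ k := by
      by_contra hcon
      push Not at hcon
      have : (q : ℤ) * k < 0 := mul_neg_of_pos_of_neg hq0 hcon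
      omega
    have e4 : h = k * P := by
      have h1 : (q : ℤ) * h = q * (k * P) := by
        rw [hk] at e2
        linarith
      exact mul_left_cancel₀ hq0.ne' h1
    refine ⟨k.toNat, ?_, ?_⟩
    · have : ((k.toNat : ℕ) : ℤ) = k := Int.toNat_of_nonneg hk0
      rw [this, hk]; ring
    · have h1 : ((k.toNat : ℕ) : ℝ) = (k : ℝ) := by
        have : ((k.toNat : ℕ) : ℤ) = k := Int.toNat_of_nonneg hk0
        exact_mod_cast congrArg (Int.cast : ℤ → ℝ) this
      have hkR : (0 : ℝ) ≤ k := by exact_mod_cast hk0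
      have h2 : (g : ℝ) * t - h = k * ((q : ℝ) * t - P) := by
        have e5 : (g : ℝ) = q * k := by exact_mod_cast congrArg (Int.cast : ℤ → ℝ) hk
        have e6 : (h : ℝ) = k * P := by exact_mod_cast congrArg (Int.cast : ℤ → ℝ) e4
        rw [e5, e6]; ring
      rw [h2, abs_mul, abs_of_nonneg hkR, ← hzP] at hgw
      rw [h1]
      exact hgw
  have hD : (0 : ℝ) < 1 / (2 * z) := by positivity
  have h1 := c1_fib A X (1 / (2 * z)) hD (by linarith) (fun x hx => (hA x hx).1)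
    (⌊2 * Y / z⌋₊ + 1) (by
      intro B hB hd
      rcases B.eq_empty_or_nonempty with hBe | hBn
      · rw [hBe]; simp
      set x0 := B.min' hBn with hx0
      have hx0B : x0 ∈ B := B.min'_mem hBn
      have hq0 : (0 : ℤ) < q := by exact_mod_cast (by omega : 0 < q)
      have hk : ∀ x ∈ B, ∃ k : ℕ, x - x0 = k * q ∧ (k : ℝ) * z ≤ 2 * Y := by
        intro x hx
        have h2 : x0 ≤ x := B.min'_le x hx
        apply hkey
        · have h3 := hd x hx x0 hx0B
          push_cast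
          exact lt_of_le_of_lt (le_abs_self _) h3
        · linarith
        · exact hdiff x (hB hx) x0 (hB hx0B)
      have hinj : B.card ≤ (Finset.range (⌊2 * Y / z⌋₊ + 1)).card := by
        apply Finset.card_le_card_of_injOn (fun x => ((x - x0) / q).toNat)
        · intro x hx
          obtain ⟨k, hk1, hk2⟩ := hk x hx
          have h3 : ((x - x0) / q).toNat = k := by
            rw [hk1, Int.mul_ediv_cancel _ hq0.ne']
            simp
          simp only [Finset.coe_range, Set.mem_Iio]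
          rw [h3]
          apply Nat.lt_succ_of_le
          apply Nat.le_floor
          rw [le_div_iff₀ hz0]
          exact hk2
        · intro x hx x' hx' hxx
          obtain ⟨k, hk1, _⟩ := hk x hx
          obtain ⟨k', hk1', _⟩ := hk x' hx'
          simp only at hxx
          rw [hk1, hk1', Int.mul_ediv_cancel _ hq0.ne', Int.mul_ediv_cancel _ hq0.ne'] at hxx
          simp only [Int.toNat_natCast] at hxx
          rw [hxx] at hk1
          omega
      simpa using hinj)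
  have hz2 : z ≤ 2 * Y := hqY
  have e1 : ((⌊2 * Y / z⌋₊ + 1 : ℕ) : ℝ) ≤ 2 * Y / z + 1 := by
    push_cast
    have := Nat.floor_le (by positivity : 0 ≤ 2 * Y / z)
    linarith
  have e2 : 2 * X / (1 / (2 * z)) = 4 * X * z := by
    field_simp
    ring
  rw [e2] at h1
  have e3 : (A.card : ℝ) ≤ (2 * Y / z + 1) * (4 * X * z + 1) :=
    le_trans h1 (mul_le_mul_of_nonneg_right e1 (by positivity))
  have e4 : (2 * Y / z + 1) * (4 * X * z + 1) = 8 * X * Y + 4 * X * z + 2 * Y / z + 1 := by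
    field_simp
    ring
  have e5 : 4 * X * z ≤ 8 * X * Y := by nlinarith
  have e6 : 2 * Y / z ≤ 2 * X / G := by
    rw [div_le_div_iff₀ hz0 hGp]
    rw [div_le_iff₀ hXp] at hzlow
    nlinarith
  linarith

-- END c1

-- BEGIN d1
/-- d1 -/
theorem siegel (J : Finset (ℕ × ℕ)) (hJ : J.Nonempty) (σ : ℕ × ℕ → ℤ) (M δ : ℝ) (hδ : 0 ≤ δ)
    (Λ : ℕ) (w : AddCircle (1 : ℝ)) (hσ : ∀ p ∈ J, 0 ≤ σ p ∧ (σ p : ℝ) ≤ M)
    (hw : ∀ p ∈ J, ∀ p' ∈ J, ‖(σ p - σ p') • w‖ ≤ δ)
    (hc : ∀ A : Finset ℤ,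
      (∀ x ∈ A, |(x : ℝ)| ≤ J.card * Λ * M ∧ ‖x • w‖ ≤ J.card * Λ * δ) →
        A.card < (Λ + 1) ^ (J.card - 1)) :
    ∃ lam : ℕ × ℕ → ℤ, (∃ p ∈ J, lam p ≠ 0) ∧ (∀ p ∈ J, |lam p| ≤ J.card * Λ) ∧
      ∑ p ∈ J, lam p * σ p = 0 := by
  classical
  obtain ⟨j0, hj0⟩ := hJ
  have hM : 0 ≤ M := le_trans (by exact_mod_cast (hσ j0 hj0).1) (hσ j0 hj0).2
  set E := J.erase j0 with hE
  have hEJ : ∀ p ∈ E, p ∈ J := fun p hp => Finset.mem_of_mem_erase hp
  have hEc : E.card = J.card - 1 := Finset.card_erase_of_mem hj0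
  have hJc : 1 ≤ J.card := Finset.card_pos.mpr ⟨j0, hj0⟩
  let val : (E → Fin (Λ + 1)) → ℤ := fun f => ∑ p : E, (((f p : ℕ) : ℤ)) * (σ p - σ j0)
  have hA := hc (Finset.univ.image val) (by
    intro x hx
    rw [Finset.mem_image] at hx
    obtain ⟨f, _, rfl⟩ := hx
    have hf : ∀ p : E, (((f p : ℕ) : ℝ)) ≤ Λ := by
      intro p
      have := (f p).2
      exact_mod_cast (by omega : (f p : ℕ) ≤ Λ)
    have hcard : ((Finset.univ : Finset E).card : ℝ) ≤ J.card := by
      rw [Finset.card_univ, Fintype.card_coe, hEc]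
      exact_mod_cast Nat.sub_le _ _
    constructor
    · have h1 : ∀ p : E, |(((f p : ℕ) : ℝ)) * ((σ p : ℝ) - σ j0)| ≤ Λ * M := by
        intro p
        rw [abs_mul, abs_of_nonneg (by positivity : (0 : ℝ) ≤ ((f p : ℕ) : ℝ))]
        apply mul_le_mul (hf p) _ (abs_nonneg _) (by positivity)
        have h2 := hσ p (hEJ p p.2)
        have h3 := hσ j0 hj0
        have h4 : (0 : ℝ) ≤ σ p := by exact_mod_cast h2.1
        have h5 : (0 : ℝ) ≤ σ j0 := by exact_mod_cast h3.1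
        rw [abs_le]
        constructor <;> linarith [h2.2, h3.2]
      calc |((val f : ℤ) : ℝ)| = |∑ p : E, (((f p : ℕ) : ℝ)) * ((σ p : ℝ) - σ j0)| := by
            simp only [val]; push_cast; rfl
        _ ≤ ∑ p : E, |(((f p : ℕ) : ℝ)) * ((σ p : ℝ) - σ j0)| := Finset.abs_sum_le_sum_abs _ _
        _ ≤ ∑ _p : E, (Λ : ℝ) * M := Finset.sum_le_sum fun p _ => h1 p
        _ = ((Finset.univ : Finset E).card : ℝ) * (Λ * M) := by
            rw [Finset.sum_const, nsmul_eq_mul]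
        _ ≤ J.card * (Λ * M) := mul_le_mul_of_nonneg_right hcard (by positivity)
        _ = J.card * Λ * M := by ring
    · have h1 : ∀ p : E, ‖((((f p : ℕ) : ℤ)) * (σ p - σ j0)) • w‖ ≤ Λ * δ := by
        intro p
        rw [mul_smul, natCast_zsmul]
        refine le_trans (norm_nsmul_le) ?_
        exact mul_le_mul (hf p) (hw p (hEJ p p.2) j0 hj0) (norm_nonneg _) (by positivity)
      calc ‖(val f) • w‖ = ‖∑ p : E, ((((f p : ℕ) : ℤ)) * (σ p - σ j0)) • w‖ := by
            simp only [val]; rw [Finset.sum_smul]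
        _ ≤ ∑ p : E, ‖((((f p : ℕ) : ℤ)) * (σ p - σ j0)) • w‖ := norm_sum_le _ _
        _ ≤ ∑ _p : E, (Λ : ℝ) * δ := Finset.sum_le_sum fun p _ => h1 p
        _ = ((Finset.univ : Finset E).card : ℝ) * (Λ * δ) := by
            rw [Finset.sum_const, nsmul_eq_mul]
        _ ≤ J.card * (Λ * δ) := mul_le_mul_of_nonneg_right hcard (by positivity)
        _ = J.card * Λ * δ := by ring)
  have hcard2 : (Finset.univ.image val).card < (Finset.univ : Finset (E → Fin (Λ + 1))).card := by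
    rw [Finset.card_univ, Fintype.card_fun, Fintype.card_fin, Fintype.card_coe, hEc]
    exact hA
  obtain ⟨f, _, f', _, hne, hff⟩ := Finset.exists_ne_map_eq_of_card_lt_of_maps_to hcard2
    (f := val) (fun f _ => Finset.mem_image_of_mem val (Finset.mem_univ f))
  let lam : ℕ × ℕ → ℤ := fun p => if h : p ∈ E then (((f ⟨p, h⟩ : ℕ) : ℤ)) - ((f' ⟨p, h⟩ : ℕ) : ℤ)
    else -∑ q : E, ((((f q : ℕ) : ℤ)) - ((f' q : ℕ) : ℤ))
  have hj0E : j0 ∉ E := Finset.notMem_erase j0 J
  have hlamE : ∀ p : E, lam p = (((f p : ℕ) : ℤ)) - ((f' p : ℕ) : ℤ) := by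
    intro p
    simp only [lam]
    rw [dif_pos p.2]
  have hlam0 : lam j0 = -∑ q : E, ((((f q : ℕ) : ℤ)) - ((f' q : ℕ) : ℤ)) := by
    simp only [lam]
    rw [dif_neg hj0E]
  have hb : ∀ p : E, |(((f p : ℕ) : ℤ)) - ((f' p : ℕ) : ℤ)| ≤ Λ := by
    intro p
    have h1 := (f p).2
    have h2 := (f' p).2
    rw [abs_le]
    constructor <;> omega
  refine ⟨lam, ?_, ?_, ?_⟩
  · obtain ⟨p, hp⟩ := Function.ne_iff.mp hne
    refine ⟨p, hEJ p p.2, ?_⟩
    rw [hlamE]
    intro h
    apply hp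
    apply Fin.ext
    omega
  · intro p hp
    by_cases hpE : p ∈ E
    · have h1 := hb ⟨p, hpE⟩
      rw [← hlamE ⟨p, hpE⟩] at h1
      have h2 : (Λ : ℤ) ≤ J.card * Λ := by
        have : (1 : ℤ) ≤ J.card := by exact_mod_cast hJc
        nlinarith [Int.natCast_nonneg Λ]
      exact le_trans h1 h2
    · have h3 : p = j0 := by
        by_contra hne'
        exact hpE (Finset.mem_erase.mpr ⟨hne', hp⟩)
      rw [h3, hlam0, abs_neg]
      calc |∑ q : E, ((((f q : ℕ) : ℤ)) - ((f' q : ℕ) : ℤ))|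
          ≤ ∑ q : E, |((((f q : ℕ) : ℤ)) - ((f' q : ℕ) : ℤ))| := Finset.abs_sum_le_sum_abs _ _
        _ ≤ ∑ _q : E, (Λ : ℤ) := Finset.sum_le_sum fun q _ => hb q
        _ = ((Finset.univ : Finset E).card : ℤ) * Λ := by
            rw [Finset.sum_const, nsmul_eq_mul]
        _ ≤ J.card * Λ := by
            apply mul_le_mul_of_nonneg_right _ (Int.natCast_nonneg Λ)
            rw [Finset.card_univ, Fintype.card_coe, hEc]
            exact_mod_cast Nat.sub_le _ _
  · rw [← Finset.add_sum_erase J _ hj0, ← hE]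
    rw [← Finset.sum_coe_sort E (fun p => lam p * σ p)]
    have h1 : ∑ p : E, lam p * σ p = ∑ p : E, ((((f p : ℕ) : ℤ)) - ((f' p : ℕ) : ℤ)) * σ p := by
      apply Finset.sum_congr rfl
      intro p _
      rw [hlamE]
    rw [h1, hlam0]
    have h2 : val f - val f' = 0 := sub_eq_zero.mpr hff
    simp only [val] at h2
    rw [← Finset.sum_sub_distrib] at h2
    rw [neg_mul, Finset.sum_mul, ← sub_eq_neg_add, ← Finset.sum_sub_distrib]
    rw [← h2]
    apply Finset.sum_congr rfl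
    intro p _
    ring
-- END d1

end Pool.Agent.SupC
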