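import Pool.Agent.SupC.Rel
import Pool.Agent.SupC.Few

/-! Superquadratic complexity: a class has few points in a window. Text, section 4. -/

namespace Pool.Agent.SupC

open Pool.Agent.SubT Pool.Agent.SlowV Pool.Agent.CplxN

open scoped BigOperators ENNReal

open MeasureTheory Set

private theorem f1_exp (p : ℕ × ℕ) : (sz p : ℝ) = Real.exp (LL p.1 p.2) := by
  unfold sz LL
  push_cast
  rw [Real.exp_add, mul_comm (p.1 : ℝ), mul_comm (p.2 : ℝ), Real.exp_mul, Real.exp_mul,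
    Real.exp_log (by norm_num), Real.exp_log (by norm_num), Real.rpow_natCast, Real.rpow_natCast]

private theorem f1_pos (p : ℕ × ℕ) : 0 < sz p := by
  unfold sz
  positivity

private theorem f1_inj {p p' : ℕ × ℕ} (h : sz p = sz p') : p = p' := by
  have h1 : (2 ^ p.1 * 3 ^ p.2 : ℕ) = 2 ^ p'.1 * 3 ^ p'.2 := by
    unfold sz at h
    exact_mod_cast h
  obtain ⟨h2, h3⟩ := DIM1_inj _ _ _ _ h1
  exact Prod.ext h2 h3

private theorem f1_sp (p : ℕ × ℕ) (w : AddCircle (1 : ℝ)) : sp p w = sz p • w := by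
  unfold sp sz
  rw [← natCast_zsmul]
  push_cast
  rfl

private theorem f1_sub (p p' m : ℕ × ℕ) (w : AddCircle (1 : ℝ)) :
    sp (p + m) w - sp (p' + m) w = (sz p - sz p') • sp m w := by
  rw [sp_add, sp_add, f1_sp p, f1_sp p', sub_smul]

private theorem f1_mul (p m : ℕ × ℕ) : sz (p + m) = sz p * sz m := by
  unfold sz
  simp only [Prod.fst_add, Prod.snd_add, pow_add]
  ring

/-- the norm of a multiple -/
private theorem f1_norm (n : ℤ) (x : AddCircle (1 : ℝ)) : ‖n • x‖ ≤ |(n : ℝ)| * ‖x‖ := by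
  have h := norm_zsmul_le n x
  rwa [Int.norm_eq_abs] at h

/-- `q` small and `‖q • sp m w‖` small is impossible below a point of `E` -/
private theorem f1_key (a b : ℝ) (w : AddCircle (1 : ℝ)) (p m : ℕ × ℕ) (q : ℤ) (hq : q ≠ 0)
    (hqa : |(q : ℝ)| ≤ Real.exp a) (hE : sp (p + m) w ∈ Eab a b)
    (h : (sz p : ℝ) * ‖q • sp m w‖ < Real.exp (-b)) : False := by
  have h1 : (1 : ℕ) ≤ q.natAbs := by
    have := Int.natAbs_pos.2 hq
    omega
  have h2 : ((q.natAbs : ℕ) : ℝ) = |(q : ℝ)| := by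
    rw [Nat.cast_natAbs, Int.cast_abs]
  have h3 := hE q.natAbs h1 (by rw [h2]; exact hqa)
  have h4 : ‖q.natAbs • sp (p + m) w‖ = ‖q • sp (p + m) w‖ := by
    rcases Int.natAbs_eq q with h5 | h5
    · conv_rhs => rw [h5]
      rw [natCast_zsmul]
    · conv_rhs => rw [h5]
      rw [neg_smul, norm_neg, natCast_zsmul]
  rw [h4, sp_add, f1_sp p, smul_comm] at h3
  have h5 := f1_norm (sz p) (q • sp m w)
  have h6 : |(sz p : ℝ)| = sz p := abs_of_pos (by exact_mod_cast f1_pos p)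
  rw [h6] at h5
  linarith

/-- two points of a class are far from each other -/
private theorem f1_pair (θ ρ R : ℝ) (hR : 0 < R) (hθ1 : θ ≤ 1 / 4) (hρ1 : ρ ≤ 1 / 4)
    (w : AddCircle (1 : ℝ)) (p p' : ℕ × ℕ) (hne : p ≠ p')
    (hcl : ‖sp p w - sp p' w‖ ≤ Real.exp (-R)) (hE : sp p w ∈ Eab (θ * R) (ρ * R)) :
    θ * R < ht {p, p'} := by
  by_contra hcon
  rw [not_lt] at hcon
  set m := mt {p, p'} with hm
  have hp : p ∈ ({p, p'} : Finset (ℕ × ℕ)) := by simp
  have hp' : p' ∈ ({p, p'} : Finset (ℕ × ℕ)) := by simp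
  obtain ⟨a1, a2⟩ := sub_mt hp
  obtain ⟨b1, b2⟩ := sub_mt hp'
  rw [← hm] at a1 a2 b1 b2
  have a3 := ht_ge hp
  have b3 := ht_ge hp'
  rw [← hm] at a3 b3
  have hs : (sz (p - m) : ℝ) ≤ Real.exp (θ * R) := by
    rw [f1_exp]
    exact Real.exp_le_exp.2 (by linarith)
  have hs' : (sz (p' - m) : ℝ) ≤ Real.exp (θ * R) := by
    rw [f1_exp]
    exact Real.exp_le_exp.2 (by linarith)
  have hpos : (0 : ℝ) < sz (p - m) := by exact_mod_cast f1_pos (p - m)
  have hpos' : (0 : ℝ) < sz (p' - m) := by exact_mod_cast f1_pos (p' - m)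
  have hq0 : sz (p - m) - sz (p' - m) ≠ 0 := by
    intro h
    have h1 := f1_inj (sub_eq_zero.1 h)
    apply hne
    rw [← a1, ← b1, h1]
  refine f1_key (θ * R) (ρ * R) w (p - m) m (sz (p - m) - sz (p' - m)) hq0 ?_ (by rw [a1]; exact hE) ?_
  · push_cast
    rw [abs_le]
    constructor <;> linarith
  · have h1 := f1_sub (p - m) (p' - m) m w
    rw [a1, b1] at h1
    rw [← h1]
    have h2 : (sz (p - m) : ℝ) * ‖sp p w - sp p' w‖ ≤ Real.exp (θ * R) * Real.exp (-R) :=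
      mul_le_mul hs hcl (norm_nonneg _) (Real.exp_pos _).le
    refine lt_of_le_of_lt h2 ?_
    rw [← Real.exp_add]
    apply Real.exp_lt_exp.2
    nlinarith

/-- the size of the coefficients -/
private theorem f1_lam (r r0 : ℕ) (θ R N : ℝ) (hr : 17 ≤ r) (hrr : r ≤ r0) (hθ : 0 < θ)
    (hθ1 : θ ≤ 1 / 4) (hR : 1 ≤ R) (hN : θ * R < N) (hd : 16 * N < r * (θ * R))
    (hRl : 2 * Real.log 32 + 4 * Real.log (4 * r0) ≤ R) :
    ∃ (Lr : ℝ) (Λ : ℕ), Lr * (r - 2) = N - θ * R / 4 + Real.log (4 * r) ∧ 0 ≤ Lr ∧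
      Lr ≤ R / 8 + Real.log (4 * r0) ∧ 1 ≤ (Λ : ℝ) ∧ (Λ : ℝ) ≤ 2 * Real.exp Lr ∧
      4 * r * Real.exp (N - θ * R / 4) ≤ (Λ : ℝ) ^ (r - 2) ∧
      16 * r * Λ * Real.exp (θ * R / 4 - R) ≤ 1 := by
  have hr' : (17 : ℝ) ≤ r := by exact_mod_cast hr
  have hrr' : (r : ℝ) ≤ r0 := by exact_mod_cast hrr
  have hθR : 0 < θ * R := by positivity
  have hr2 : (0 : ℝ) < r - 2 := by linarith
  have hlog4r : 0 ≤ Real.log (4 * r) := Real.log_nonneg (by linarith)
  have hlog4r' : Real.log (4 * r) ≤ Real.log (4 * r0) :=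
    Real.log_le_log (by linarith) (by linarith)
  have hNp : 0 ≤ N - θ * R / 4 + Real.log (4 * r) := by linarith
  refine ⟨(N - θ * R / 4 + Real.log (4 * r)) / (r - 2), ?_⟩
  set Lr : ℝ := (N - θ * R / 4 + Real.log (4 * r)) / (r - 2) with hLr
  have hLr0 : 0 ≤ Lr := div_nonneg hNp hr2.le
  have hLr1 : Lr * (r - 2) = N - θ * R / 4 + Real.log (4 * r) := by
    rw [hLr, div_mul_cancel₀ _ hr2.ne']
  have hLr2 : Lr ≤ R / 8 + Real.log (4 * r0) := by
    rw [hLr, div_le_iff₀ hr2]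
    have h1 : N ≤ r * (θ * R) / 16 := by linarith
    have h2 : (r : ℝ) * (θ * R) ≤ r * R / 4 := by
      have h4 : θ * R ≤ 1 / 4 * R := mul_le_mul_of_nonneg_right hθ1 (by linarith)
      have := mul_le_mul_of_nonneg_left h4 (by linarith : (0 : ℝ) ≤ r)
      linarith
    have h3 : Real.log (4 * r) ≤ Real.log (4 * r0) * (r - 2) := by
      have h5 : (1 : ℝ) ≤ r - 2 := by linarith
      have h6 : 0 ≤ Real.log (4 * r0) := hlog4r.trans hlog4r'
      have := mul_le_mul_of_nonneg_left h5 h6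
      linarith
    have h7 : R / 8 * (r - 2) = r * R / 8 - R / 4 := by ring
    have h8 : (17 : ℝ) * R ≤ r * R := mul_le_mul_of_nonneg_right hr' (by linarith)
    rw [add_mul, h7]
    linarith
  refine ⟨⌈Real.exp Lr⌉₊, hLr1, hLr0, hLr2, ?_⟩
  set Λ : ℕ := ⌈Real.exp Lr⌉₊ with hΛ
  have hexpL : 1 ≤ Real.exp Lr := Real.one_le_exp hLr0
  have hΛ1 : Real.exp Lr ≤ Λ := Nat.le_ceil _
  have hΛ2 : (Λ : ℝ) ≤ 2 * Real.exp Lr := by
    have := (Nat.ceil_lt_add_one (Real.exp_pos Lr).le).le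
    rw [← hΛ] at this
    linarith
  refine ⟨by linarith, hΛ2, ?_, ?_⟩
  · have h1 : (Real.exp Lr) ^ (r - 2) ≤ (Λ : ℝ) ^ (r - 2) :=
      pow_le_pow_left₀ (Real.exp_pos _).le hΛ1 _
    refine le_trans (le_of_eq ?_) h1
    have h2 : (Real.exp Lr) ^ (r - 2) = Real.exp (Lr * (r - 2)) := by
      rw [← Real.exp_nat_mul, Nat.cast_sub (by omega)]
      congr 1
      push_cast
      ring
    rw [h2, hLr1, Real.exp_add, Real.exp_log (by linarith)]
    ring
  · have h1 : 16 * r * Λ ≤ Real.exp (Real.log 32 + Real.log (4 * r0) + Lr) := by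
      rw [Real.exp_add, Real.exp_add, Real.exp_log (by norm_num), Real.exp_log (by linarith)]
      have h2 : 16 * r * (Λ : ℝ) ≤ 16 * r * (2 * Real.exp Lr) :=
        mul_le_mul_of_nonneg_left hΛ2 (by positivity)
      have h3 : 16 * r * (2 * Real.exp Lr) = 32 * r * Real.exp Lr := by ring
      have h4 : 32 * (r : ℝ) * Real.exp Lr ≤ 32 * (4 * r0) * Real.exp Lr :=
        mul_le_mul_of_nonneg_right (by linarith) (Real.exp_pos _).le
      linarith
    have h2 : 16 * r * Λ * Real.exp (θ * R / 4 - R) ≤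
        Real.exp (Real.log 32 + Real.log (4 * r0) + Lr) * Real.exp (θ * R / 4 - R) :=
      mul_le_mul_of_nonneg_right h1 (Real.exp_pos _).le
    refine h2.trans ?_
    rw [← Real.exp_add]
    apply Real.exp_le_one_iff.2
    have h3 : θ * R ≤ 1 / 4 * R := mul_le_mul_of_nonneg_right hθ1 (by linarith)
    linarith

/-- the count against the number of coefficient vectors -/
private theorem f1_cnt (r : ℕ) (Λ E G Y x : ℝ) (hr : 17 ≤ r) (hΛ : 1 ≤ Λ) (hE : 1 ≤ E)
    (hG : 0 < G) (hpow : 4 * r * E ≤ Λ ^ (r - 2)) (hGY : 16 * G * Y ≤ 1)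
    (hx : x ≤ 2 * (r * Λ * E * G) / G + 1 + 16 * (r * Λ * E * G) * Y) :
    x < (Λ + 1) ^ (r - 1) := by
  have hr' : (17 : ℝ) ≤ r := by exact_mod_cast hr
  have h2 : 2 * (r * Λ * E * G) / G = 2 * (r * Λ * E) := by
    field_simp
  have h4 : 0 ≤ r * Λ * E := by positivity
  have h3 : 16 * (r * Λ * E * G) * Y ≤ r * Λ * E := by
    have : 16 * (r * Λ * E * G) * Y = (r * Λ * E) * (16 * G * Y) := by ring
    rw [this]
    have := mul_le_mul_of_nonneg_left hGY h4
    linarith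
  have h5 : (4 * r * E) * (Λ + 1) ≤ (Λ + 1) ^ (r - 1) := by
    have e : r - 1 = (r - 2) + 1 := by omega
    rw [e, pow_succ]
    have h6 : Λ ^ (r - 2) ≤ (Λ + 1) ^ (r - 2) := pow_le_pow_left₀ (by linarith) (by linarith) _
    exact mul_le_mul_of_nonneg_right (hpow.trans h6) (by linarith)
  have h9 : (17 : ℝ) * 1 ≤ r * E := mul_le_mul hr' hE (by norm_num) (by linarith)
  have h10 : (4 * r * E) * (Λ + 1) = 4 * (r * Λ * E) + 4 * (r * E) := by ring
  rw [h2] at hx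
  linarith

/-- the final inequality -/
private theorem f1_end (r r0 : ℕ) (θ R N ε l Lr c0 : ℝ) (hr : 17 ≤ r) (hrr : r ≤ r0)
    (hθ : 0 < θ) (hR : 1 ≤ R) (hd : 16 * N < r * (θ * R)) (hε : ε = θ / (16 * r0))
    (hc0 : c0 = r0 * Real.log (2 * r0) + Real.log (4 * r0)) (hRc : 16 * c0 ≤ θ * (R - 1))
    (hL : Lr * (r - 2) = N - θ * R / 4 + Real.log (4 * r)) (hl : l ≤ Real.log (2 * r0) + Lr)
    (hkey : N ≤ r * (ε * R / 2 + l)) : False := by
  have hr' : (17 : ℝ) ≤ r := by exact_mod_cast hr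
  have hrp : (0 : ℝ) < r := by linarith
  have hrr' : (r : ℝ) ≤ r0 := by exact_mod_cast hrr
  have hr0 : (0 : ℝ) < r0 := by linarith
  have hr2 : (0 : ℝ) ≤ r - 2 := by linarith
  have hε0 : 0 ≤ ε := by rw [hε]; positivity
  have hlog2 : 0 ≤ Real.log (2 * r0) := Real.log_nonneg (by linarith)
  have hlog4 : Real.log (4 * r) ≤ Real.log (4 * r0) := Real.log_le_log (by linarith) (by linarith)
  set B : ℝ := ε * R / 2 + Real.log (2 * r0) with hB
  have hB0 : 0 ≤ B := by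
    have : 0 ≤ ε * R / 2 := by positivity
    linarith
  have h1 : N ≤ r * (B + Lr) := hkey.trans (mul_le_mul_of_nonneg_left (by linarith) hrp.le)
  have h2 : N * (r - 2) ≤ r * (B + Lr) * (r - 2) := mul_le_mul_of_nonneg_right h1 hr2
  have h3 : r * (B + Lr) * (r - 2) = r * (B * (r - 2)) + r * (Lr * (r - 2)) := by ring
  rw [h3, hL] at h2
  have h4 : B * (r - 2) ≤ B * r0 := mul_le_mul_of_nonneg_left (by linarith) hB0
  have h5 : r * (B * (r - 2)) ≤ r * (B * r0) := mul_le_mul_of_nonneg_left h4 hrp.le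
  have h6 : (r : ℝ) * (N - θ * R / 4 + Real.log (4 * r)) ≤
      r * (N - θ * R / 4 + Real.log (4 * r0)) := mul_le_mul_of_nonneg_left (by linarith) hrp.le
  have h7 : r * (θ * R / 4) ≤ r * (θ * R / 8 + B * r0 + Real.log (4 * r0)) := by
    have e1 : (r : ℝ) * (N - θ * R / 4 + Real.log (4 * r0)) =
      r * N - r * (θ * R / 4) + r * Real.log (4 * r0) := by ring
    have e2 : r * (θ * R / 8 + B * r0 + Real.log (4 * r0)) =
      r * (θ * R) / 8 + r * (B * r0) + r * Real.log (4 * r0) := by ring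
    have e3 : N * (r - 2) = r * N - 2 * N := by ring
    rw [e1] at h6
    rw [e2]
    linarith
  have h8 := le_of_mul_le_mul_left h7 hrp
  have h9 : B * r0 = θ * R / 32 + r0 * Real.log (2 * r0) := by
    rw [hB, hε]
    field_simp
    ring
  have hθR : 0 < θ * R := by positivity
  rw [h9] at h8
  have h10 : θ * (R - 1) = θ * R - θ := by ring
  rw [h10] at hRc
  linarith

/-- f1 -/
theorem few_class (θ ρ C' : ℝ) (hθ : 0 < θ) (hθ1 : θ ≤ 1 / 4) (hρ : 0 < ρ) (hρ1 : ρ ≤ 1 / 4)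
    (hC : 1 ≤ C') :
    ∃ R0 : ℝ, 1 ≤ R0 ∧ ∀ R ≥ R0, ∀ (w : AddCircle (1 : ℝ)) (D : Finset (ℕ × ℕ)),
      (∀ p ∈ D, LL p.1 p.2 ≤ C' * R) →
      (∀ p ∈ D, ∀ p' ∈ D, ‖sp p w - sp p' w‖ ≤ Real.exp (-R)) →
      (∀ p ∈ D, sp p w ∈ Eab (θ * R) (ρ * R)) → (D.card : ℝ) ≤ 16 / θ * C' := by
  classical
  obtain ⟨r0, hr0⟩ : ∃ r0 : ℕ, r0 = ⌊16 / θ * C'⌋₊ + 1 := ⟨_, rfl⟩
  have h16 : 64 ≤ 16 / θ * C' := by
    have h1 : 64 ≤ 16 / θ := by
      rw [le_div_iff₀ hθ]
      linarith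
    have h2 : 64 * 1 ≤ 16 / θ * C' := mul_le_mul h1 hC (by norm_num) (by positivity)
    linarith
  have hr0a : 16 / θ * C' < r0 := by
    rw [hr0]
    push_cast
    exact Nat.lt_floor_add_one _
  have hr0b : (64 : ℝ) < r0 := by linarith
  have hr0p : (0 : ℝ) < r0 := by linarith
  obtain ⟨ε, hε⟩ : ∃ ε : ℝ, ε = θ / (16 * r0) := ⟨_, rfl⟩
  have hε0 : 0 < ε := by rw [hε]; positivity
  obtain ⟨R1, hR1, hrel⟩ := rel r0 (C' + 1) ε (by linarith) hε0
  obtain ⟨c0, hc0⟩ : ∃ c0 : ℝ, c0 = r0 * Real.log (2 * r0) + Real.log (4 * r0) := ⟨_, rfl⟩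
  have hlog2 : 0 ≤ Real.log (2 * r0) := Real.log_nonneg (by linarith)
  have hlog4 : 0 ≤ Real.log (4 * r0) := Real.log_nonneg (by linarith)
  have hc00 : 0 ≤ c0 := by rw [hc0]; positivity
  have hl32 : 0 ≤ Real.log 32 := Real.log_nonneg (by norm_num)
  have h16c : 0 ≤ 16 * c0 / θ := by positivity
  refine ⟨R1 + 16 * c0 / θ + 2 * Real.log 32 + 4 * Real.log (4 * r0), by linarith, ?_⟩
  intro R hR w D hDL hDc hDE
  have hRR1 : R1 ≤ R := by linarith
  have hR1' : 1 ≤ R := by linarith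
  have hRp : 0 < R := by linarith
  have hθR : 0 < θ * R := by positivity
  have hRc : 16 * c0 ≤ θ * (R - 1) := by
    have h1 : 16 * c0 / θ ≤ R - 1 := by linarith
    rw [div_le_iff₀ hθ] at h1
    linarith
  have hRl : 2 * Real.log 32 + 4 * Real.log (4 * r0) ≤ R := by linarith
  by_contra hcon
  rw [not_le] at hcon
  have hcard : r0 ≤ D.card := by
    rw [hr0]
    have := (Nat.floor_lt (by positivity)).2 hcon
    omega
  obtain ⟨D0, hD0D, hD0c⟩ := Finset.exists_subset_card_eq hcard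
  have hbig : ∀ I ⊆ D0, 2 ≤ I.card → θ * R < ht I := by
    intro I hI h2
    obtain ⟨p, hp, p', hp', hne⟩ := Finset.one_lt_card.1 (show 1 < I.card by omega)
    refine (f1_pair θ ρ R hRp hθ1 hρ1 w p p' hne (hDc p (hD0D (hI hp)) p' (hD0D (hI hp')))
      (hDE p (hD0D (hI hp)))).trans_le (ht_mono ⟨p, by simp⟩ ?_)
    intro x hx
    rw [Finset.mem_insert, Finset.mem_singleton] at hx
    rcases hx with rfl | rfl
    · exact hp
    · exact hp'
  have h2r0 : 2 ≤ r0 := by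
    have : (2 : ℝ) ≤ r0 := by linarith
    exact_mod_cast this
  -- the maximal subset
  obtain ⟨J, hJ, hmax⟩ := Finset.exists_max_image (D0.powerset.filter fun I => 2 ≤ I.card)
    (fun I => (I.card : ℝ) / ht I) ⟨D0, by
      rw [Finset.mem_filter, Finset.mem_powerset]
      exact ⟨Finset.Subset.refl _, by omega⟩⟩
  rw [Finset.mem_filter, Finset.mem_powerset] at hJ
  obtain ⟨hJD, hJ2⟩ := hJ
  have hmax' : ∀ I ⊆ D0, 2 ≤ I.card → (I.card : ℝ) / ht I ≤ (J.card : ℝ) / ht J := fun I hI h2 =>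
    hmax I (by rw [Finset.mem_filter, Finset.mem_powerset]; exact ⟨hI, h2⟩)
  clear hmax
  obtain ⟨r, hr⟩ : ∃ r : ℕ, r = J.card := ⟨_, rfl⟩
  obtain ⟨N, hN⟩ : ∃ N : ℝ, N = ht J := ⟨_, rfl⟩
  have hNθ : θ * R < N := by
    rw [hN]
    exact hbig J hJD hJ2
  have hN0 : 0 < N := by linarith
  have hJne : J.Nonempty := Finset.card_pos.1 (by omega)
  have hrr0 : r ≤ r0 := by
    rw [hr, ← hD0c]
    exact Finset.card_le_card hJD
  have hrr0' : (r : ℝ) ≤ r0 := by exact_mod_cast hrr0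
  rw [← hr, ← hN] at hmax'
  -- the density of J
  have hD0ht : ht D0 ≤ C' * R := ht_le (Finset.card_pos.1 (by omega)) _
    fun p hp => hDL p (hD0D hp)
  have hD0p : 0 < ht D0 := hθR.trans (hbig D0 (Finset.Subset.refl _) (by omega))
  have hdens : 16 * N < r * (θ * R) := by
    have h1 := hmax' D0 (Finset.Subset.refl _) (by omega)
    rw [hD0c, div_le_div_iff₀ hD0p hN0] at h1
    have h2 : (r : ℝ) * ht D0 ≤ r * (C' * R) := mul_le_mul_of_nonneg_left hD0ht (Nat.cast_nonneg _)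
    have h3 : 16 / θ * C' * N < r0 * N := mul_lt_mul_of_pos_right hr0a hN0
    have h4 : 16 / θ * C' * N < r * (C' * R) := by linarith
    have h5 : 16 / θ * C' * N = C' * (16 * N / θ) := by ring
    have h6 : (r : ℝ) * (C' * R) = C' * (r * R) := by ring
    rw [h5, h6] at h4
    have h7 := lt_of_mul_lt_mul_left h4 (by linarith)
    rw [div_lt_iff₀ hθ] at h7
    linarith
  have hr16 : (16 : ℝ) < r := by
    by_contra h
    rw [not_lt] at h
    have : (r : ℝ) * (θ * R) ≤ 16 * (θ * R) := mul_le_mul_of_nonneg_right h hθR.le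
    linarith
  have hr17 : 17 ≤ r := by
    have : 16 < r := by exact_mod_cast hr16
    omega
  have hr17' : (17 : ℝ) ≤ r := by exact_mod_cast hr17
  have hrp : (0 : ℝ) < r := by linarith
  obtain ⟨m, hm⟩ : ∃ m : ℕ × ℕ, m = mt J := ⟨_, rfl⟩
  have hsub : ∀ p ∈ J, p - m + m = p ∧ LL (p - m).1 (p - m).2 ≤ N := by
    intro p hp
    rw [hm, hN, (sub_mt hp).2]
    exact ⟨(sub_mt hp).1, ht_ge hp⟩
  have hσN : ∀ p ∈ J, 0 ≤ sz (p - m) ∧ (sz (p - m) : ℝ) ≤ Real.exp N := by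
    intro p hp
    refine ⟨(f1_pos _).le, ?_⟩
    rw [f1_exp]
    exact Real.exp_le_exp.2 (hsub p hp).2
  have hσc : ∀ p ∈ J, ∀ p' ∈ J, ‖(sz (p - m) - sz (p' - m)) • sp m w‖ ≤ Real.exp (-R) := by
    intro p hp p' hp'
    rw [← f1_sub, (hsub p hp).1, (hsub p' hp').1]
    exact hDc p (hD0D (hJD hp)) p' (hD0D (hJD hp'))
  -- the size of the coefficients
  obtain ⟨Lr, Λ, hLr1, hLr0, hLr2, hΛp, hΛ2, hpow, hsmall⟩ := f1_lam r r0 θ R N hr17 hrr0 hθ hθ1
    hR1' hNθ hdens hRl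
  obtain ⟨E, hE⟩ : ∃ E : ℝ, E = Real.exp (N - θ * R / 4) := ⟨_, rfl⟩
  obtain ⟨G, hG⟩ : ∃ G : ℝ, G = Real.exp (θ * R / 4) := ⟨_, rfl⟩
  obtain ⟨X, hX⟩ : ∃ X : ℝ, X = r * Λ * Real.exp N := ⟨_, rfl⟩
  obtain ⟨Y, hY⟩ : ∃ Y : ℝ, Y = r * Λ * Real.exp (-R) := ⟨_, rfl⟩
  have hE1 : 1 ≤ E := by rw [hE]; exact Real.one_le_exp (by linarith)
  rw [← hE] at hpow
  have hexpN : 0 < Real.exp N := Real.exp_pos _
  have hXE : X = r * Λ * E * G := by
    rw [hX, hE, hG, mul_assoc ((r : ℝ) * Λ), ← Real.exp_add]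
    congr 2
    ring
  have hrΛ : 1 ≤ (r : ℝ) * Λ := by
    have : (17 : ℝ) * 1 ≤ r * Λ := mul_le_mul hr17' hΛp (by norm_num) hrp.le
    linarith
  have hX1 : 1 ≤ X := by
    rw [hX]
    have h1 : 1 ≤ Real.exp N := Real.one_le_exp hN0.le
    have : (1 : ℝ) * 1 ≤ r * Λ * Real.exp N := mul_le_mul hrΛ h1 (by norm_num) (by linarith)
    linarith
  have hY0 : 0 < Y := by
    rw [hY]
    positivity
  have hG1 : 1 ≤ G := by rw [hG]; exact Real.one_le_exp (by positivity)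
  have hG0 : 0 < G := by linarith
  have hGY : 16 * G * Y ≤ 1 := by
    have : 16 * G * Y = 16 * r * Λ * Real.exp (θ * R / 4 - R) := by
      rw [hG, hY, sub_eq_add_neg, Real.exp_add]
      ring
    rw [this]
    exact hsmall
  have hGYp : 0 < G * Y := by positivity
  rcases few (sp m w) X Y G hX1 hY0 hG1 (by linarith) with ⟨q, hq1, hqG, hq2⟩ | hcount
  · -- the first case
    obtain ⟨p, hp⟩ := hJne
    have hqz : ((q : ℤ) : ℝ) = q := by push_cast; rfl
    refine f1_key (θ * R) (ρ * R) w (p - m) m (q : ℤ) (by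
      have : (1 : ℤ) ≤ q := by exact_mod_cast hq1
      omega) ?_ (by rw [(hsub p hp).1]; exact hDE p (hD0D (hJD hp))) ?_
    · rw [hqz, abs_of_nonneg (Nat.cast_nonneg _)]
      rw [hG] at hqG
      refine hqG.le.trans (Real.exp_le_exp.2 ?_)
      linarith
    · rw [natCast_zsmul]
      have h1 : (sz (p - m) : ℝ) ≤ Real.exp N := (hσN p hp).2
      have h2 : (sz (p - m) : ℝ) * ‖q • sp m w‖ ≤ Real.exp N * (Y * G / X) :=
        mul_le_mul h1 hq2.le (norm_nonneg _) hexpN.le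
      have h3 : Real.exp N * (Y * G / X) = Real.exp (θ * R / 4 - R) := by
        rw [hX, hY, hG, sub_eq_add_neg, Real.exp_add]
        have : (r : ℝ) * Λ ≠ 0 := by positivity
        field_simp
      rw [h3] at h2
      refine lt_of_le_of_lt h2 (Real.exp_lt_exp.2 ?_)
      have h4 : θ * R ≤ 1 / 4 * R := mul_le_mul_of_nonneg_right hθ1 hRp.le
      have h5 : ρ * R ≤ 1 / 4 * R := mul_le_mul_of_nonneg_right hρ1 hRp.le
      linarith
  -- the pigeonhole principle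
  obtain ⟨lam, hlam0, hlam1, hlam2⟩ := siegel J hJne (fun p => sz (p - m)) (Real.exp N)
    (Real.exp (-R)) (Real.exp_pos _).le Λ (sp m w) hσN hσc (by
      intro A hA
      rw [← hr, ← hX, ← hY] at hA
      have h1 := hcount A hA
      rw [hXE] at h1
      have h7 := f1_cnt r Λ E G Y A.card hr17 hΛp hE1 hG0 hpow hGY h1
      rw [← hr]
      exact_mod_cast h7)
  -- the relation
  have hsum : ∑ p ∈ J, lam p * sz p = 0 := by
    have h1 : ∑ p ∈ J, lam p * sz p = (∑ p ∈ J, lam p * sz (p - m)) * sz m := by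
      rw [Finset.sum_mul]
      refine Finset.sum_congr rfl fun p hp => ?_
      have h2 := f1_mul (p - m) m
      rw [(hsub p hp).1] at h2
      rw [h2]
      ring
    rw [h1, hlam2, zero_mul]
  obtain ⟨l, hl⟩ : ∃ l : ℝ, l = Real.log (r * Λ) := ⟨_, rfl⟩
  have hl0 : 0 ≤ l := by rw [hl]; exact Real.log_nonneg hrΛ
  have hlogr : Real.log r ≤ Real.log (2 * r0) - Real.log 2 := by
    rw [Real.log_mul (by norm_num) (by positivity)]
    have := Real.log_le_log hrp hrr0'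
    linarith
  have hlup : l ≤ Real.log (2 * r0) + Lr := by
    rw [hl, Real.log_mul hrp.ne' (by positivity)]
    have h1 : Real.log Λ ≤ Real.log (2 * Real.exp Lr) := Real.log_le_log (by linarith) hΛ2
    rw [Real.log_mul (by norm_num) (Real.exp_pos _).ne', Real.log_exp] at h1
    linarith
  have hlogle : Real.log (2 * r0) ≤ Real.log (4 * r0) :=
    Real.log_le_log (by linarith) (by linarith)
  have hCR : R ≤ C' * R := by
    have := mul_le_mul_of_nonneg_right hC hRp.le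
    linarith
  have hlK : l ≤ (C' + 1) * R := by
    rw [add_mul]
    linarith
  obtain ⟨I, hIJ, hI2, hIht⟩ := hrel R hRR1 J (by omega) (fun p hp => by
      have := hDL p (hD0D (hJD hp))
      rw [add_mul]
      linarith) lam l hl0 hlK (fun p hp => by
      rw [hl, Real.exp_log (by positivity)]
      have h1 := hlam1 p hp
      rw [← hr] at h1
      have h2 : ((|lam p| : ℤ) : ℝ) ≤ ((r * Λ : ℤ) : ℝ) := by exact_mod_cast h1
      rw [Int.cast_abs] at h2
      refine h2.trans (le_of_eq ?_)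
      push_cast
      rfl) hlam0 hsum
  have hmaxI := hmax' I (hIJ.trans hJD) hI2
  have hIp : 0 < ht I := hθR.trans (hbig I (hIJ.trans hJD) hI2)
  rw [div_le_div_iff₀ hIp hN0] at hmaxI
  have hIc : (2 : ℝ) ≤ I.card := by exact_mod_cast hI2
  have hIc0 : (0 : ℝ) < I.card := by linarith
  -- N ≤ r (ε R / 2 + l)
  refine f1_end r r0 θ R N ε l Lr c0 hr17 hrr0 hθ hR1' hdens hε hc0 hRc hLr1 hlup ?_
  have h1 : (r : ℝ) * ht I ≤ r * (ε * R + I.card * l) := mul_le_mul_of_nonneg_left hIht hrp.le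
  have h2 : ε * R ≤ I.card * (ε * R / 2) := by
    have h0 : 0 ≤ ε * R / 2 := by positivity
    have := mul_le_mul_of_nonneg_right hIc h0
    linarith
  have h4 : (r : ℝ) * (ε * R + I.card * l) ≤ r * (I.card * (ε * R / 2) + I.card * l) :=
    mul_le_mul_of_nonneg_left (by linarith) hrp.le
  have h5 : (I.card : ℝ) * N ≤ I.card * (r * (ε * R / 2 + l)) := by
    have e : (r : ℝ) * (I.card * (ε * R / 2) + I.card * l) = I.card * (r * (ε * R / 2 + l)) := by
      ring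
    rw [e] at h4
    linarith
  exact le_of_mul_le_mul_left h5 hIc0

end Pool.Agent.SupC
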