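import Pool.Agent.SupC.Main

/-! Superquadratic complexity: the consequences. Text, COR 1, COR 2. -/

namespace Pool.Agent.SupC

open Pool.Agent.SubT Pool.Agent.SlowV Pool.Agent.CplxN

open scoped BigOperators ENNReal

open MeasureTheory Set Filter Topology

private theorem t0_norm (m : ℕ) (x : AddCircle (1 : ℝ)) (h : (m : ℝ) * ‖x‖ ≤ 1 / 2) :
    ‖m • x‖ = m * ‖x‖ := by
  obtain ⟨r, rfl⟩ := QuotientAddGroup.mk_surjective x
  have h0 : ‖((r : ℝ) : AddCircle (1 : ℝ))‖ = |r - round r| := by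
    rw [AddCircle.norm_eq]
    norm_num
  have h1 : ((r : ℝ) : AddCircle (1 : ℝ)) = ((r - round r : ℝ) : AddCircle (1 : ℝ)) := by
    rw [AddCircle.coe_sub]
    have h2 : (((round r : ℤ) : ℝ) : AddCircle (1 : ℝ)) = 0 := by
      have h3 := AddCircle.coe_period (p := (1 : ℝ))
      have h4 : (((round r : ℤ) : ℝ) : AddCircle (1 : ℝ)) = (round r) • ((1 : ℝ) : AddCircle (1 : ℝ)) := by
        rw [← AddCircle.coe_zsmul]
        congr 1
        simp
      rw [h4, h3, smul_zero]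
    rw [h2, sub_zero]
  show ‖m • ((r : ℝ) : AddCircle (1 : ℝ))‖ = m * ‖((r : ℝ) : AddCircle (1 : ℝ))‖
  have h' : (m : ℝ) * |r - round r| ≤ 1 / 2 := by
    rw [← h0]
    exact h
  rw [h0, h1, ← AddCircle.coe_nsmul]
  have h5 : m • (r - round r) = m * (r - round r) := by simp
  rw [h5]
  have h6 : |(m : ℝ) * (r - round r)| = m * |r - round r| := by
    rw [abs_mul, abs_of_nonneg (Nat.cast_nonneg m)]
  rw [← h6]
  apply (AddCircle.norm_coe_eq_abs_iff (1 : ℝ) one_ne_zero).2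
  rw [h6, abs_one]
  exact h'

private theorem t0_tors (ν : Measure (AddCircle (1 : ℝ))) (hat : ∀ x, ν {x} = 0) :
    ν {w | ∃ m : ℕ, 0 < m ∧ m • w = 0} = 0 := by
  have hc : {w : AddCircle (1 : ℝ) | ∃ m : ℕ, 0 < m ∧ m • w = 0}.Countable := by
    have e : {w : AddCircle (1 : ℝ) | ∃ m : ℕ, 0 < m ∧ m • w = 0} =
        ⋃ m : ℕ, {w | 0 < m ∧ m • w = 0} := by
      ext w; simp
    rw [e]
    refine countable_iUnion fun m => ?_
    by_cases hm : 0 < m
    · refine Set.Finite.countable ?_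
      refine (AddCircle.finite_torsion (1 : ℝ) hm).subset ?_
      intro w hw
      exact hw.2
    · refine Set.Countable.mono ?_ Set.countable_empty
      intro w hw
      exact absurd hw.1 hm
  rw [← Set.biUnion_of_singleton {w : AddCircle (1 : ℝ) | ∃ m : ℕ, 0 < m ∧ m • w = 0}]
  exact (measure_biUnion_null_iff hc).2 fun x _ => hat x

private theorem t0_chain (w : AddCircle (1 : ℝ)) (a b : ℕ → ℝ) (hb : Tendsto b atTop atTop)
    (h : ∀ᶠ j in atTop, w ∉ Eab (a j) (b j))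
    (hab : ∀ᶠ j in atTop, a (j + 1) + 1 ≤ b j) : ∃ m : ℕ, 0 < m ∧ m • w = 0 := by
  obtain ⟨j0, hj0⟩ := eventually_atTop.1 (h.and hab)
  have hm : ∀ j, j0 ≤ j → ∃ m : ℕ, 0 < m ∧ (m : ℝ) ≤ Real.exp (a j) ∧
      ‖m • w‖ < Real.exp (-(b j)) := by
    intro j hj
    have h1 := (hj0 j hj).1
    simp only [Eab, Set.mem_ofPred_eq, not_forall, not_le] at h1
    obtain ⟨q, hq1, hq2, hq3⟩ := h1
    exact ⟨q, hq1, hq2, hq3⟩
  choose! m hm0 hm1 hm2 using hm
  have hstep : ∀ j, j0 ≤ j → ‖m j • w‖ / m j ≤ ‖m (j + 1) • w‖ / m (j + 1) := by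
    intro j hj
    have a0 : (0 : ℝ) < m j := by exact_mod_cast hm0 j hj
    have a1 : (0 : ℝ) < m (j + 1) := by exact_mod_cast hm0 (j + 1) (by omega)
    have h7 : (m (j + 1) : ℝ) * ‖m j • w‖ ≤ 1 / 2 := by
      have h8 : (m (j + 1) : ℝ) * ‖m j • w‖ ≤ Real.exp (a (j + 1)) * Real.exp (-(b j)) :=
        mul_le_mul (hm1 (j + 1) (by omega)) (hm2 j hj).le (norm_nonneg _) (Real.exp_pos _).le
      have h9 : Real.exp (a (j + 1)) * Real.exp (-(b j)) ≤ Real.exp (-1) := by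
        rw [← Real.exp_add]
        apply Real.exp_le_exp.2
        have := (hj0 j hj).2
        linarith
      have h10 : Real.exp (-1) ≤ 1 / 2 := by
        rw [Real.exp_neg, inv_eq_one_div]
        apply one_div_le_one_div_of_le (by norm_num)
        have := Real.add_one_le_exp (1 : ℝ)
        linarith
      linarith
    have h10 := t0_norm (m (j + 1)) (m j • w) h7
    have h11 : ‖m (j + 1) • (m j • w)‖ ≤ m j * ‖m (j + 1) • w‖ := by
      rw [smul_smul, mul_comm, ← smul_smul]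
      exact norm_nsmul_le
    rw [div_le_div_iff₀ a0 a1]
    linarith
  have hmono : ∀ k, ‖m j0 • w‖ / m j0 ≤ ‖m (j0 + k) • w‖ / m (j0 + k) := by
    intro k
    induction k with
    | zero => simp
    | succ k ih => exact ih.trans (hstep (j0 + k) (by omega))
  have hlim : Tendsto (fun k => Real.exp (-(b (j0 + k)))) atTop (𝓝 0) := by
    have h12 : Tendsto (fun k => b (j0 + k)) atTop atTop :=
      hb.comp (tendsto_add_atTop_iff_nat j0 |>.2 tendsto_id |>.congr fun k => by simp [add_comm])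
    exact Real.tendsto_exp_neg_atTop_nhds_zero.comp h12
  have hle : ‖m j0 • w‖ / m j0 ≤ 0 := by
    refine ge_of_tendsto' hlim fun k => (hmono k).trans ?_
    have a1 : (1 : ℝ) ≤ m (j0 + k) := by exact_mod_cast hm0 (j0 + k) (by omega)
    have h13 := hm2 (j0 + k) (by omega)
    have h14 : ‖m (j0 + k) • w‖ / m (j0 + k) ≤ ‖m (j0 + k) • w‖ := div_le_self (norm_nonneg _) a1
    linarith
  refine ⟨m j0, hm0 j0 le_rfl, ?_⟩
  have a0 : (0 : ℝ) < m j0 := by exact_mod_cast hm0 j0 le_rfl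
  rw [div_le_iff₀ a0, zero_mul] at hle
  exact norm_eq_zero.1 (le_antisymm hle (norm_nonneg _))

/-- t0: Borel-Cantelli and the chain (compare `Pool.Agent.CplxN.no_seq`) -/
theorem no_Eab (μ : Measure (AddCircle (1 : ℝ))) [IsProbabilityMeasure μ] (hat : ∀ x, μ {x} = 0)
    (a b F : ℕ → ℝ) (hb : Tendsto b atTop atTop)
    (hab : ∀ᶠ j in atTop, a (j + 1) + 1 ≤ b j) (ha : ∀ᶠ j in atTop, 0 ≤ a j)
    (hF : Summable F) : ¬ ∀ᶠ j in atTop, μ (Eab (a j) (b j)) ≤ ENNReal.ofReal (F j) := by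
  intro h
  obtain ⟨j0, hj0⟩ := eventually_atTop.1 h
  have hsum : ∑' j, μ ((fun j => Eab (a (j0 + j)) (b (j0 + j))) j) ≠ ⊤ := by
    have h1 : Summable (fun j => F (j0 + j)) := by
      simpa [add_comm] using (summable_nat_add_iff j0).2 hF
    refine ne_top_of_le_ne_top ?_ (ENNReal.tsum_le_tsum fun j => hj0 (j0 + j) (by omega))
    exact h1.tsum_ofReal_ne_top
  have hae := ae_eventually_notMem hsum
  have hae2 : ∀ᵐ w ∂μ, w ∈ {w : AddCircle (1 : ℝ) | ∃ m : ℕ, 0 < m ∧ m • w = 0} := by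
    filter_upwards [hae] with w hw
    refine t0_chain w a b hb ?_ hab
    obtain ⟨j1, hj1⟩ := eventually_atTop.1 hw
    refine eventually_atTop.2 ⟨j0 + j1, fun j hj => ?_⟩
    have := hj1 (j - j0) (by omega)
    have e : j0 + (j - j0) = j := by omega
    rw [e] at this
    exact this
  have h1 : ∀ᵐ w ∂μ, False := by
    filter_upwards [hae2, measure_eq_zero_iff_ae_notMem.1 (t0_tors μ hat)] with w h1 h2
    exact h2 h1
  obtain ⟨w, hw⟩ := h1.exists
  exact hw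

/-- t1: atomless measures -/
theorem cor_atomless (μ : Measure (AddCircle (1 : ℝ))) [IsProbabilityMeasure μ]
    (h2 : MeasurePreserving (fun x => (2 : ℕ) • x) μ μ)
    (h3 : MeasurePreserving (fun x => (3 : ℕ) • x) μ μ) (hat : ∀ x, μ {x} = 0)
    (η : ℝ) (hη : 0 < η) (C W : ℝ) (m₀ : ℕ) :
    ∃ m ≥ m₀, ∀ n : ℕ, m ≤ n → (n : ℝ) ≤ W * m →
      ∀ (K : ℕ) (B : Fin K → Set (AddCircle (1 : ℝ))), (K : ℝ) ≤ C * (n : ℝ) ^ 2 →
      (∀ i, ∀ x ∈ B i, ∀ y ∈ B i, (cnt (bx n) far (x - y) : ℝ) ≤ (n : ℝ) ^ (2 - η)) →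
      ENNReal.ofReal ((Real.log n) ^ (-(1 + η))) < μ (⋃ i, B i)ᶜ := by
  by_contra hcon
  push Not at hcon
  obtain ⟨ρ, hρ, hu⟩ := uniform (min η 1) (lt_min hη one_pos) (min_le_right _ _)
  set W' : ℝ := max W 1 with hW'
  have hW1 : 1 ≤ W' := le_max_right _ _
  have hWW : W ≤ W' := le_max_left _ _
  have hW0 : 0 < W' := by linarith
  set θ : ℝ := ρ / (4 * W') with hθ
  have hθ0 : 0 < θ := by positivity
  have hθW : θ * (2 * W') = ρ / 2 := by
    rw [hθ]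
    field_simp
    ring
  obtain ⟨n₀, hn₀⟩ := hu C (1 / 2) θ (by norm_num) (by norm_num) hθ0
  obtain ⟨a, h2a, hlow, hge, hnext⟩ := low_seq (fun n => ∃ (K : ℕ)
      (B : Fin K → Set (AddCircle (1 : ℝ))), (K : ℝ) ≤ C * (n : ℝ) ^ 2 ∧
      (∀ i, ∀ x ∈ B i, ∀ y ∈ B i, (cnt (bx n) far (x - y) : ℝ) ≤ (n : ℝ) ^ (2 - η)) ∧
      μ (⋃ i, B i)ᶜ ≤ ENNReal.ofReal ((Real.log n) ^ (-(1 + η)))) (fun m => W' * m) m₀
    (fun m hm => by
      obtain ⟨n, hn1, hn2, K, B, hK, hB, hP⟩ := hcon m hm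
      exact ⟨n, hn1, hn2.trans (mul_le_mul_of_nonneg_right hWW (Nat.cast_nonneg _)),
        K, B, hK, hB, hP⟩)
  have hlog2 : 0 < Real.log 2 := Real.log_pos (by norm_num)
  have h2a' : ∀ j, (2 : ℝ) ^ j ≤ a j := fun j => by exact_mod_cast h2a j
  have hat' : Tendsto (fun j => (a j : ℝ)) atTop atTop :=
    tendsto_atTop_mono h2a' (tendsto_pow_atTop_atTop_of_one_lt (by norm_num))
  have hb : Tendsto (fun j => ρ * (a j : ℝ)) atTop atTop := hat'.const_mul_atTop hρ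
  refine no_Eab μ hat (fun j => θ * (a j : ℝ)) (fun j => ρ * (a j : ℝ))
    (fun j => 2 * ell j ^ (-(1 + η))) hb ?_ (Filter.Eventually.of_forall fun j => by positivity)
    ((summable_ell η hη).mul_left 2) ?_
  · filter_upwards [hb.eventually_ge_atTop 2] with j hj
    have h4 : (a (j + 1) : ℝ) ≤ W' * (2 * a j) := by
      have := hnext j
      push_cast at this
      exact this
    have h5 : θ * (a (j + 1) : ℝ) ≤ θ * (W' * (2 * a j)) := mul_le_mul_of_nonneg_left h4 hθ0.le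
    have h6 : θ * (W' * (2 * (a j : ℝ))) = ρ / 2 * a j := by
      rw [← hθW]; ring
    linarith
  · filter_upwards [eventually_ge_atTop 1, hat'.eventually_ge_atTop (n₀ : ℝ)] with j hj hj0
    obtain ⟨K, B, hK, hB, hP⟩ := hlow j
    have hn0' : n₀ ≤ a j := by exact_mod_cast hj0
    have ha1 : (1 : ℝ) ≤ a j := (one_le_pow₀ (by norm_num)).trans (h2a' j)
    have h4 := hn₀ (a j) hn0' μ inferInstance h2 h3 K B hK (fun i x hx y hy =>
      (hB i x hx y hy).trans (Real.rpow_le_rpow_of_exponent_le ha1 (by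
        have := min_le_left η 1
        linarith)))
    have h5 : ENNReal.ofReal (1 - 1 / 2) * μ (Eab (θ * (a j : ℝ)) (ρ * (a j : ℝ))) ≤
        ENNReal.ofReal ((Real.log (a j)) ^ (-(1 + η))) := h4.trans hP
    have hell : 0 < ell j := by
      unfold ell
      have : (0 : ℝ) < j := by exact_mod_cast hj
      positivity
    have hell2 : ell j ≤ Real.log (a j) := by
      have h6 := Real.log_le_log (by positivity) (h2a' j)
      rwa [Real.log_pow] at h6
    have h7 : (Real.log (a j)) ^ (-(1 + η)) ≤ ell j ^ (-(1 + η)) :=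
      Real.rpow_le_rpow_of_nonpos hell hell2 (by linarith)
    have e : μ (Eab (θ * (a j : ℝ)) (ρ * (a j : ℝ))) =
        ENNReal.ofReal 2 * (ENNReal.ofReal (1 - 1 / 2) *
          μ (Eab (θ * (a j : ℝ)) (ρ * (a j : ℝ)))) := by
      rw [← mul_assoc, ← ENNReal.ofReal_mul (by norm_num)]
      norm_num
    rw [e, ENNReal.ofReal_mul (by norm_num)]
    exact mul_le_mul' le_rfl (h5.trans (ENNReal.ofReal_le_ofReal h7))

/-- a point which is not very well approximable is in the sets `Eab` at all large scales -/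
private theorem t2_ev (x : AddCircle (1 : ℝ)) (A : ℝ) (hA : 0 ≤ A) (hx : x ∉ vwa A) (θ ρ : ℝ)
    (hρ : 0 < ρ) (hAθ : A * θ ≤ ρ) :
    ∀ᶠ n : ℕ in atTop, x ∈ Eab (θ * n) (ρ * n) := by
  unfold vwa at hx
  rw [Set.mem_ofPred_eq] at hx
  push Not at hx
  obtain ⟨Q, hQ⟩ := hx
  have hpos : ∀ q : ℕ, 0 < q → 0 < ‖q • x‖ := by
    intro q hq
    rw [norm_pos_iff]
    intro h0
    have h1 := hQ (max Q 1 * q) (by
      have h2 : Q ≤ max Q 1 := le_max_left _ _
      exact h2.trans (Nat.le_mul_of_pos_right _ hq))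
    rw [mul_smul, h0, smul_zero, norm_zero] at h1
    have h3 : (0 : ℝ) < ((max Q 1 * q : ℕ) : ℝ) := by
      exact_mod_cast Nat.mul_pos (lt_of_lt_of_le one_pos (le_max_right Q 1)) hq
    exact absurd h1 (not_le.2 (Real.rpow_pos_of_pos h3 _))
  obtain ⟨δ, hδ0, hδ⟩ : ∃ δ > 0, ∀ q : ℕ, 0 < q → q < Q → δ ≤ ‖q • x‖ := by
    rcases Nat.eq_zero_or_pos (Q - 1) with hQ1 | hQ1
    · exact ⟨1, one_pos, fun q h1 h2 => by omega⟩
    · have hne : (Finset.Ico 1 Q).Nonempty := ⟨1, by simp; omega⟩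
      obtain ⟨q0, hq0, hmin⟩ := Finset.exists_min_image (Finset.Ico 1 Q) (fun q => ‖q • x‖) hne
      rw [Finset.mem_Ico] at hq0
      exact ⟨‖q0 • x‖, hpos q0 (by omega), fun q h1 h2 => hmin q (Finset.mem_Ico.2 ⟨h1, h2⟩)⟩
  have ht : Tendsto (fun n : ℕ => ρ * (n : ℝ)) atTop atTop :=
    (tendsto_natCast_atTop_atTop (R := ℝ)).const_mul_atTop hρ
  filter_upwards [ht.eventually_ge_atTop (-Real.log δ)] with n hn
  intro q hq1 hq2
  by_cases hqQ : q < Q
  · refine le_trans ?_ (hδ q (by omega) hqQ)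
    rw [← Real.exp_log hδ0]
    exact Real.exp_le_exp.2 (by linarith)
  · refine le_trans ?_ (hQ q (not_lt.1 hqQ))
    have hqpos : (0 : ℝ) < q := by exact_mod_cast hq1
    rw [Real.rpow_def_of_pos hqpos]
    apply Real.exp_le_exp.2
    have h1 : Real.log q ≤ θ * n := by
      rw [← Real.log_exp (θ * n)]
      exact Real.log_le_log hqpos hq2
    have h2 : A * Real.log q ≤ A * (θ * n) := mul_le_mul_of_nonneg_left h1 hA
    have h3 : A * (θ * n) ≤ ρ * n := by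
      rw [← mul_assoc]
      exact mul_le_mul_of_nonneg_right hAθ (Nat.cast_nonneg _)
    linarith

/-- t2: measures which do not live on the Liouville numbers -/
theorem cor_dio (μ : Measure (AddCircle (1 : ℝ))) [IsProbabilityMeasure μ]
    (h2 : MeasurePreserving (fun x => (2 : ℕ) • x) μ μ)
    (h3 : MeasurePreserving (fun x => (3 : ℕ) • x) μ μ) (hat : ∀ x, μ {x} = 0)
    (η κ : ℝ) (hη : 0 < η) (hκ : 0 < κ) (hκ1 : κ ≤ 1)
    (hL : μ {x | ∀ (A : ℝ) (Q : ℕ), ∃ q ≥ Q, ‖q • x‖ < (q : ℝ) ^ (-A)} < ENNReal.ofReal κ)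
    (C : ℝ) :
    ∃ n₀ : ℕ, ∀ n ≥ n₀,
      ∀ (K : ℕ) (B : Fin K → Set (AddCircle (1 : ℝ))), (K : ℝ) ≤ C * (n : ℝ) ^ 2 →
      (∀ i, ∀ x ∈ B i, ∀ y ∈ B i, (cnt (bx n) far (x - y) : ℝ) ≤ (n : ℝ) ^ (2 - η)) →
      ENNReal.ofReal (1 - κ) < μ (⋃ i, B i)ᶜ := by
  -- one exponent
  obtain ⟨A, hA⟩ : ∃ A : ℕ, μ (vwa A) < ENNReal.ofReal κ := by
    have h4 : Tendsto (fun A : ℕ => μ (vwa A)) atTop (𝓝 (μ (⋂ A : ℕ, vwa A))) :=
      tendsto_measure_iInter_atTop (fun m => (vwa_meas _).nullMeasurableSet)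
        (fun A A' h => vwa_anti (by exact_mod_cast h)) ⟨0, measure_ne_top _ _⟩
    have h5 : (⋂ A : ℕ, vwa (A : ℝ)) ⊆
        {x | ∀ A : ℝ, ∀ Q : ℕ, ∃ q ≥ Q, ‖q • x‖ < (q : ℝ) ^ (-A)} := by
      intro x hx A Q
      obtain ⟨A', hA'⟩ := exists_nat_ge A
      obtain ⟨q, h6, h7⟩ := vwa_anti hA' (Set.mem_iInter.1 hx A') Q
      exact ⟨q, h6, h7⟩
    exact ((h4.eventually_lt_const ((measure_mono h5).trans_lt hL))).exists
  obtain ⟨w, hw⟩ : ∃ w : ℝ, w = (μ (vwa A)).toReal := ⟨_, rfl⟩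
  have hw0 : 0 ≤ w := by rw [hw]; exact ENNReal.toReal_nonneg
  have hwκ : w < κ := by
    rw [hw]
    exact (ENNReal.lt_ofReal_iff_toReal_lt (measure_ne_top _ _)).1 hA
  have hAw : μ (vwa A) = ENNReal.ofReal w := by
    rw [hw]; exact (ENNReal.ofReal_toReal (measure_ne_top _ _)).symm
  have hA0 : (0 : ℝ) ≤ A := Nat.cast_nonneg _
  have hcompl : μ (vwa A)ᶜ = ENNReal.ofReal (1 - w) := by
    rw [prob_compl_eq_one_sub (vwa_meas _), hAw, ← ENNReal.ofReal_one, ← ENNReal.ofReal_sub _ hw0]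
  obtain ⟨δ, hδ⟩ : ∃ δ : ℝ, δ = κ - w := ⟨_, rfl⟩
  have hδ0 : 0 < δ := by linarith
  have hδ1 : δ ≤ 1 := by linarith
  -- the constants
  obtain ⟨ρ, hρ, huni⟩ := uniform (min η 1) (lt_min hη one_pos) (min_le_right _ _)
  obtain ⟨θ, hθ⟩ : ∃ θ : ℝ, θ = ρ / ((A : ℝ) + 1) := ⟨_, rfl⟩
  have hθ0 : 0 < θ := by rw [hθ]; positivity
  have hAθ : (A : ℝ) * θ ≤ ρ := by
    rw [hθ, mul_div_assoc', div_le_iff₀ (by positivity)]
    nlinarith
  obtain ⟨n₁, hn₁⟩ := huni C (δ / 4) θ (by linarith) (by linarith) hθ0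
  -- the sets of the points which are in all later `Eab`
  obtain ⟨F, hF⟩ : ∃ F : ℕ → Set (AddCircle (1 : ℝ)),
      ∀ m, F m = ⋂ k : ℕ, Eab (θ * ((m + k : ℕ) : ℝ)) (ρ * ((m + k : ℕ) : ℝ)) := ⟨_, fun _ => rfl⟩
  have hmono : Monotone F := by
    intro m m' hmm x hx
    rw [hF, Set.mem_iInter] at hx ⊢
    intro k
    have h4 := hx (m' + k - m)
    have e : m + (m' + k - m) = m' + k := by omega
    rwa [e] at h4
  have hsub : (vwa A)ᶜ ⊆ ⋃ m, F m := by
    intro x hx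
    obtain ⟨m, hm⟩ := eventually_atTop.1 (t2_ev x A hA0 hx θ ρ hρ hAθ)
    rw [Set.mem_iUnion]
    refine ⟨m, ?_⟩
    rw [hF, Set.mem_iInter]
    exact fun k => hm (m + k) (by omega)
  have htend : Tendsto (fun m => μ (F m)) atTop (𝓝 (μ (⋃ m, F m))) :=
    tendsto_measure_iUnion_atTop hmono
  have hlt : ENNReal.ofReal (1 - κ + δ / 2) < μ (⋃ m, F m) := by
    refine lt_of_lt_of_le ?_ (measure_mono hsub)
    rw [hcompl]
    exact (ENNReal.ofReal_lt_ofReal_iff (by linarith)).2 (by linarith)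
  obtain ⟨m, hm⟩ := (htend.eventually_const_lt hlt).exists
  refine ⟨max (max n₁ m) 1, fun n hn K B hK hB => ?_⟩
  have hnn : n₁ ≤ n := (le_max_left _ _).trans ((le_max_left _ _).trans hn)
  have hnm : m ≤ n := (le_max_right _ _).trans ((le_max_left _ _).trans hn)
  have hn1 : 1 ≤ n := (le_max_right _ _).trans hn
  have hE : ENNReal.ofReal (1 - κ + δ / 2) ≤ μ (Eab (θ * n) (ρ * n)) := by
    refine hm.le.trans (measure_mono ?_)
    intro x hx
    rw [hF, Set.mem_iInter] at hx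
    have h4 := hx (n - m)
    rwa [Nat.add_sub_cancel' hnm] at h4
  have h5 := hn₁ n hnn μ inferInstance h2 h3 K B hK (fun i x hx y hy => by
    refine (hB i x hx y hy).trans (Real.rpow_le_rpow_of_exponent_le (by exact_mod_cast hn1) ?_)
    have := min_le_left η 1
    linarith)
  refine lt_of_lt_of_le ?_ h5
  refine lt_of_lt_of_le ?_ (mul_le_mul_right hE _)
  rw [← ENNReal.ofReal_mul (by linarith)]
  refine (ENNReal.ofReal_lt_ofReal_iff ?_).2 ?_
  · have h6 : 0 < 1 - δ / 4 := by linarith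
    have h7 : 0 < 1 - κ + δ / 2 := by linarith
    positivity
  · nlinarith

end Pool.Agent.SupC
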