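import Pool.Agent.SupC.Defs
import Pool.Agent.CplxN.Det

/-! Superquadratic complexity: codes, without boundary term. Text, section 6. -/

namespace Pool.Agent.SupC

open Pool.Agent.SubT Pool.Agent.SlowV Pool.Agent.CplxN

open scoped BigOperators ENNReal

open MeasureTheory Set

/-- the base points of the windows -/
private def abx (M m n : ℕ) : Finset (ℕ × ℕ) :=
  Finset.Ico M (n - M - m) ×ˢ Finset.Ico M (n - M - m)

private theorem mem_abx {M m n : ℕ} {p : ℕ × ℕ} : p ∈ abx M m n ↔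
    (M ≤ p.1 ∧ p.1 < n - M - m) ∧ (M ≤ p.2 ∧ p.2 < n - M - m) := by
  simp [abx]

private theorem in_lower (M m n : ℕ) (p : ℕ × ℕ) (hp : p.1 ≤ m ∧ p.2 ≤ m)
    (S : Set (AddCircle (1 : ℝ))) (x : AddCircle (1 : ℝ)) :
    cnt (ibx (M + m) n) S x ≤ cnt (abx M m n) S (sp p x) := by
  classical
  unfold cnt
  refine Finset.card_le_card_of_injOn (fun u => (u.1 - p.1, u.2 - p.2)) ?_ ?_
  · intro u hu
    simp only [Finset.coe_filter, mem_ibx, Set.mem_ofPred_eq, mem_abx] at hu ⊢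
    obtain ⟨⟨⟨h1, h2⟩, h3, h4⟩, h5⟩ := hu
    refine ⟨⟨⟨by omega, by omega⟩, by omega, by omega⟩, ?_⟩
    rw [← sp_add]
    have e : ((u.1 - p.1, u.2 - p.2) : ℕ × ℕ) + p = u := by
      ext
      · simp only [Prod.fst_add]; omega
      · simp only [Prod.snd_add]; omega
    rwa [e]
  · intro u hu w hw h
    simp only [Finset.coe_filter, mem_ibx, Set.mem_ofPred_eq] at hu hw
    simp only [Prod.mk.injEq] at h
    ext
    · omega
    · omega

private theorem in_upper (M m n : ℕ) (p : ℕ × ℕ) (hp : p.1 ≤ m ∧ p.2 ≤ m)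
    (S : Set (AddCircle (1 : ℝ))) (x : AddCircle (1 : ℝ)) :
    cnt (abx M m n) S (sp p x) ≤ cnt (ibx M n) S x := by
  classical
  unfold cnt
  refine Finset.card_le_card_of_injOn (fun u => u + p) ?_ ?_
  · intro u hu
    simp only [Finset.coe_filter, Set.mem_ofPred_eq, mem_abx, mem_ibx, Prod.fst_add,
      Prod.snd_add] at hu ⊢
    obtain ⟨⟨⟨h1, h2⟩, h3, h4⟩, h5⟩ := hu
    refine ⟨⟨⟨by omega, by omega⟩, by omega, by omega⟩, ?_⟩
    rwa [sp_add]
  · intro u _ w _ h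
    exact add_right_cancel h

/-- i1: one dyadic range, from the inner box of margin `M` to the inner box of margin `M + m`
(compare `Pool.Agent.CplxN.box_step`) -/
theorem ibx_step (κ K L : ℝ) (hκ : 0 < κ) (hκ1 : κ ≤ 1 / 64) (hK : 1 ≤ K)
    (hL : 3 * (K + 2) ≤ L) :
    ∃ g0 : ℝ, 256 ≤ g0 ∧ ∀ g ≥ g0, ∀ (y : AddCircle (1 : ℝ)) (n M m : ℕ), 2 * (L * g) ≤ m →
      (cnt (ibx (M + m) n) (shell g) y : ℝ) ≤
        4 * (16 / L + 8 / K) * (cnt (ibx M n) (outs (κ * g)) y : ℝ) := by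
  obtain ⟨g0, hg0, h⟩ := pw_circle κ K L hκ hκ1 hK hL
  refine ⟨g0, hg0, fun g hg y n M m hm => ?_⟩
  have hg1 : 256 ≤ g := hg0.trans hg
  have hL9 : 9 ≤ L := by linarith
  have hLg : 9 * 256 ≤ L * g := mul_le_mul hL9 hg1 (by norm_num) (by linarith)
  have hcpos : 0 ≤ 16 / L + 8 / K := by positivity
  set c : ℝ := 16 / L + 8 / K with hc
  obtain ⟨hc1, hc2⟩ := win_card K L g hK hL hg1
  set W := KL_T (L * g - (K + 2) * g) with hW
  set V := KL_T (L * g) with hV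
  have h2 : 0 < Real.log 2 := Real.log_pos (by norm_num)
  have h2' : (0.69 : ℝ) < Real.log 2 := by
    have := Real.log_two_gt_d9
    linarith
  have h23 : Real.log 2 ≤ Real.log 3 := Real.log_le_log (by norm_num) (by norm_num)
  have hVm : ∀ p ∈ V, p.1 ≤ m ∧ p.2 ≤ m := by
    intro p hp
    rw [hV, KL_mem_T] at hp
    unfold LL at hp
    have hp1 : (0 : ℝ) ≤ p.1 := Nat.cast_nonneg _
    have hp2 : (0 : ℝ) ≤ p.2 := Nat.cast_nonneg _
    have a1 : (0 : ℝ) ≤ p.1 * Real.log 2 := by positivity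
    have a2 : (p.2 : ℝ) * Real.log 2 ≤ p.2 * Real.log 3 := mul_le_mul_of_nonneg_left h23 hp2
    have a3 : (0 : ℝ) ≤ p.2 * Real.log 2 := by positivity
    have a4 : (p.1 : ℝ) * 0.69 ≤ p.1 * Real.log 2 := mul_le_mul_of_nonneg_left h2'.le hp1
    have a5 : (p.2 : ℝ) * 0.69 ≤ p.2 * Real.log 2 := mul_le_mul_of_nonneg_left h2'.le hp2
    constructor
    · have : (p.1 : ℝ) ≤ m := by linarith
      exact_mod_cast this
    · have : (p.2 : ℝ) ≤ m := by linarith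
      exact_mod_cast this
  have hWV : W ⊆ V := by
    intro p hp
    rw [hW, KL_mem_T] at hp
    rw [hV, KL_mem_T]
    have : 0 ≤ (K + 2) * g := by positivity
    linarith
  -- the pointwise inequality at `s_v y`
  have hpt : ∀ z : AddCircle (1 : ℝ), (cnt W (shell g) z : ℝ) ≤ c * (cnt V (outs (κ * g)) z : ℝ) := by
    intro z
    have h5 := h g hg z
    rw [cnt_sum, cnt_sum] at h5
    rw [← ENNReal.ofReal_natCast, ← ENNReal.ofReal_natCast, ← ENNReal.ofReal_mul hcpos] at h5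
    exact (ENNReal.ofReal_le_ofReal_iff (by positivity)).1 h5
  have h6 : (W.card : ℝ) * (cnt (ibx (M + m) n) (shell g) y : ℝ) ≤
      ∑ v ∈ abx M m n, (cnt W (shell g) (sp v y) : ℝ) := by
    have : W.card * cnt (ibx (M + m) n) (shell g) y ≤
        ∑ v ∈ abx M m n, cnt W (shell g) (sp v y) := by
      rw [shift_sum]
      have h20 := Finset.card_nsmul_le_sum W (fun p => cnt (abx M m n) (shell g) (sp p y))
        (cnt (ibx (M + m) n) (shell g) y) (fun p hp => in_lower M m n p (hVm p (hWV hp)) _ _)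
      rwa [smul_eq_mul] at h20
    exact_mod_cast this
  have h7 : ∑ v ∈ abx M m n, (cnt V (outs (κ * g)) (sp v y) : ℝ) ≤
      (V.card : ℝ) * (cnt (ibx M n) (outs (κ * g)) y : ℝ) := by
    have : ∑ v ∈ abx M m n, cnt V (outs (κ * g)) (sp v y) ≤
        V.card * cnt (ibx M n) (outs (κ * g)) y := by
      rw [shift_sum]
      have h20 := Finset.sum_le_card_nsmul V (fun p => cnt (abx M m n) (outs (κ * g)) (sp p y))
        (cnt (ibx M n) (outs (κ * g)) y) (fun p hp => in_upper M m n p (hVm p hp) _ _)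
      rwa [smul_eq_mul] at h20
    exact_mod_cast this
  have h8 : (W.card : ℝ) * (cnt (ibx (M + m) n) (shell g) y : ℝ) ≤
      (W.card : ℝ) * (4 * c * (cnt (ibx M n) (outs (κ * g)) y : ℝ)) := by
    calc (W.card : ℝ) * (cnt (ibx (M + m) n) (shell g) y : ℝ)
        ≤ ∑ v ∈ abx M m n, (cnt W (shell g) (sp v y) : ℝ) := h6
      _ ≤ ∑ v ∈ abx M m n, c * (cnt V (outs (κ * g)) (sp v y) : ℝ) :=
          Finset.sum_le_sum fun v _ => hpt _
      _ = c * ∑ v ∈ abx M m n, (cnt V (outs (κ * g)) (sp v y) : ℝ) := by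
          rw [Finset.mul_sum]
      _ ≤ c * ((V.card : ℝ) * (cnt (ibx M n) (outs (κ * g)) y : ℝ)) :=
          mul_le_mul_of_nonneg_left h7 hcpos
      _ ≤ c * ((4 * (W.card : ℝ)) * (cnt (ibx M n) (outs (κ * g)) y : ℝ)) := by
          gcongr
      _ = (W.card : ℝ) * (4 * c * (cnt (ibx M n) (outs (κ * g)) y : ℝ)) := by ring
  exact le_of_mul_le_mul_left h8 hc2

/-- i2 (compare `Pool.Agent.CplxN.box_iter`) -/
theorem ibx_iter (δ : ℝ) (hδ : 0 < δ) (hδ1 : δ ≤ 1 / 2) :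
    ∃ G L : ℝ, 256 ≤ G ∧ 1 ≤ L ∧ ∀ (y : AddCircle (1 : ℝ)) (n J M : ℕ),
      4 * L * (G * 2 ^ J) ≤ M →
      (cnt (ibx M n) (dp (G * 2 ^ J)) y : ℝ) ≤ (1 + δ) ^ J * (cnt (bx n) (dp G) y : ℝ) := by
  set K : ℝ := max 1 (64 / δ) with hK
  set L : ℝ := max (3 * (K + 2)) (128 / δ) with hL
  have hK1 : 1 ≤ K := le_max_left _ _
  have hK2 : 64 / δ ≤ K := le_max_right _ _
  have hL1 : 3 * (K + 2) ≤ L := le_max_left _ _
  have hL2 : 128 / δ ≤ L := le_max_right _ _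
  have hK0 : 0 < K := by linarith
  have hL0 : 0 < L := by linarith
  have hL1' : 1 ≤ L := by linarith
  have hcδ : 4 * (16 / L + 8 / K) ≤ δ := by
    have h1 : 16 / L ≤ δ / 8 := by
      rw [div_le_iff₀ hL0]
      rw [div_le_iff₀ hδ] at hL2
      linarith
    have h2 : 8 / K ≤ δ / 8 := by
      rw [div_le_iff₀ hK0]
      rw [div_le_iff₀ hδ] at hK2
      linarith
    linarith
  obtain ⟨G, hG, h⟩ := ibx_step (1 / 64) K L (by norm_num) le_rfl hK1 hL1
  refine ⟨G, L, hG, by linarith, fun y n J => ?_⟩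
  induction J with
  | zero =>
    intro M _
    simp only [pow_zero, one_mul, mul_one]
    exact_mod_cast cnt_mono (ibx_sub M n) (Set.Subset.refl _) y
  | succ J ih =>
    intro M hM
    have h2J : (1 : ℝ) ≤ 2 ^ J := one_le_pow₀ (by norm_num)
    set g : ℝ := G * 2 ^ J with hg
    have hgG : G ≤ g := by
      rw [hg]
      nlinarith
    have hg0 : 256 ≤ g := by linarith
    have hLg : 256 ≤ L * g := by nlinarith
    have e1 : G * 2 ^ (J + 1) = 2 * g := by rw [hg]; ring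
    rw [e1] at hM ⊢
    set m : ℕ := ⌈2 * (L * g)⌉₊ with hm
    have hm1 : 2 * (L * g) ≤ m := Nat.le_ceil _
    have hm2 : (m : ℝ) < 2 * (L * g) + 1 := Nat.ceil_lt_add_one (by linarith)
    have hM1 : (m : ℝ) ≤ M := by nlinarith
    obtain ⟨M', hM'⟩ := Nat.exists_eq_add_of_le (by exact_mod_cast hM1 : m ≤ M)
    rw [add_comm] at hM'
    have hM2 : (M : ℝ) = M' + m := by exact_mod_cast hM'
    have hM3 : 4 * L * g ≤ M' := by nlinarith
    have ih' := ih M' hM3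
    have hsub : dp (2 * g) ⊆ dp g ∪ shell g := by
      intro x hx
      by_cases hxg : x ∈ dp g
      · exact Or.inl hxg
      · exact Or.inr ⟨hx, not_le.1 hxg⟩
    have h3 : (cnt (ibx M n) (dp (2 * g)) y : ℝ) ≤
        (cnt (ibx M n) (dp g) y : ℝ) + (cnt (ibx M n) (shell g) y : ℝ) := by
      exact_mod_cast cnt_union (ibx M n) _ _ _ hsub y
    have h4 := h g hgG y n M' m hm1
    rw [← hM'] at h4
    have h5 : (cnt (ibx M' n) (outs (1 / 64 * g)) y : ℝ) ≤ (cnt (ibx M' n) (dp g) y : ℝ) := by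
      have : outs (1 / 64 * g) ⊆ dp g := by
        intro x hx
        have hx' : 1 / 36 * Real.exp (-(1 / 64 * g)) < ‖x‖ := hx
        refine le_trans ?_ hx'.le
        apply mul_le_mul_of_nonneg_left _ (by norm_num)
        apply Real.exp_le_exp.2
        linarith
      exact_mod_cast cnt_mono (Finset.Subset.refl _) this y
    have h6 : 4 * (16 / L + 8 / K) * (cnt (ibx M' n) (outs (1 / 64 * g)) y : ℝ) ≤
        δ * (cnt (ibx M' n) (dp g) y : ℝ) :=
      mul_le_mul hcδ h5 (Nat.cast_nonneg _) hδ.le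
    have h7 : (cnt (ibx M n) (dp g) y : ℝ) ≤ (cnt (ibx M' n) (dp g) y : ℝ) := by
      have : ibx M n ⊆ ibx M' n := by
        intro p hp
        rw [mem_ibx] at hp ⊢
        omega
      exact_mod_cast cnt_mono this (Set.Subset.refl _) y
    have h8 : (1 + δ) * (cnt (ibx M' n) (dp g) y : ℝ) ≤
        (1 + δ) * ((1 + δ) ^ J * (cnt (bx n) (dp G) y : ℝ)) :=
      mul_le_mul_of_nonneg_left ih' (by linarith)
    have e2 : (1 + δ) * ((1 + δ) ^ J * (cnt (bx n) (dp G) y : ℝ)) =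
        (1 + δ) ^ (J + 1) * (cnt (bx n) (dp G) y : ℝ) := by ring
    linarith

/-- i3 (compare `Pool.Agent.CplxN.det`) -/
theorem inner (η : ℝ) (hη : 0 < η) (hη1 : η ≤ 1) :
    ∃ G c2 C : ℝ, 256 ≤ G ∧ 0 < c2 ∧ c2 ≤ 1 ∧ 1 ≤ C ∧ ∀ (y : AddCircle (1 : ℝ)) (n J : ℕ), 1 ≤ n →
      G * 2 ^ J ≤ c2 * n → (cnt (bx n) far y : ℝ) ≤ (n : ℝ) ^ (2 - η) →
      (cnt (ibx (n / 4) n) (dp (G * 2 ^ J)) y : ℝ) ≤ C * (n : ℝ) ^ (2 - η / 2) := by
  have h2η : (1 : ℝ) < (2 : ℝ) ^ (η / 2) := Real.one_lt_rpow (by norm_num) (by linarith)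
  set δ : ℝ := min (1 / 2) ((2 : ℝ) ^ (η / 2) - 1) with hδ
  have hδ0 : 0 < δ := lt_min (by norm_num) (by linarith)
  have hδ1 : δ ≤ 1 / 2 := min_le_left _ _
  have hδ2 : 1 + δ ≤ (2 : ℝ) ^ (η / 2) := by
    have := min_le_right (1 / 2 : ℝ) ((2 : ℝ) ^ (η / 2) - 1)
    rw [← hδ] at this
    linarith
  obtain ⟨G, L, hG, hL, h⟩ := ibx_iter δ hδ0 hδ1
  obtain ⟨k, hk⟩ : ∃ k : ℕ, 1 / 4 ≤ (2 : ℝ) ^ k * (1 / 36 * Real.exp (-G)) := by
    obtain ⟨k, hk⟩ := pow_unbounded_of_one_lt (9 * Real.exp G) (by norm_num : (1 : ℝ) < 2)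
    refine ⟨k, ?_⟩
    have h1 : 0 < Real.exp (-G) := Real.exp_pos _
    have h2 : Real.exp G * Real.exp (-G) = 1 := by rw [← Real.exp_add]; simp
    have h3 : 9 * Real.exp G * (1 / 36 * Real.exp (-G)) = 1 / 4 := by
      calc 9 * Real.exp G * (1 / 36 * Real.exp (-G)) = 1 / 4 * (Real.exp G * Real.exp (-G)) := by ring
        _ = 1 / 4 := by rw [h2]; ring
    rw [← h3]
    exact mul_le_mul_of_nonneg_right hk.le (by positivity)
  have hL0 : 0 < L := by linarith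
  refine ⟨G, 1 / (32 * L), ((k : ℝ) + 1) ^ 2, hG, by positivity, ?_, ?_,
    fun y n J hn hGJ hfar => ?_⟩
  · rw [div_le_one (by positivity)]
    linarith
  · have : (0 : ℝ) ≤ k := Nat.cast_nonneg _
    nlinarith
  have hn0 : (1 : ℝ) ≤ n := by exact_mod_cast hn
  have hnpos : (0 : ℝ) < n := by linarith
  have h2J : (1 : ℝ) ≤ 2 ^ J := one_le_pow₀ (by norm_num)
  have hGJ1 : 32 * L * (G * 2 ^ J) ≤ n := by
    have e : 1 / (32 * L) * (n : ℝ) = n / (32 * L) := by ring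
    rw [e, le_div_iff₀ (by positivity)] at hGJ
    linarith
  have hGJ2 : 256 ≤ L * (G * 2 ^ J) := by
    have : 256 ≤ G * 2 ^ J := by nlinarith
    nlinarith
  have hM : 4 * L * (G * 2 ^ J) ≤ ((n / 4 : ℕ) : ℝ) := by
    have h1 : (n : ℝ) ≤ 4 * ((n / 4 : ℕ) : ℝ) + 4 := by
      have : n ≤ 4 * (n / 4) + 4 := by omega
      exact_mod_cast this
    linarith
  have h1 := h y n J (n / 4) hM
  have h2 : (cnt (bx n) (dp G) y : ℝ) ≤ (k + 1) * (cnt (bx n) far y + k * n) := by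
    exact_mod_cast start G k hk y n
  have h3 : (n : ℝ) ≤ (n : ℝ) ^ (2 - η) := by
    conv_lhs => rw [← Real.rpow_one (n : ℝ)]
    exact Real.rpow_le_rpow_of_exponent_le hn0 (by linarith)
  have hk0 : (0 : ℝ) ≤ k := Nat.cast_nonneg _
  have hp : 0 < (n : ℝ) ^ (2 - η) := Real.rpow_pos_of_pos hnpos _
  have h4 : (cnt (bx n) (dp G) y : ℝ) ≤ (k + 1) ^ 2 * (n : ℝ) ^ (2 - η) := by
    refine h2.trans ?_
    have h5 : (cnt (bx n) far y : ℝ) + k * n ≤ (k + 1) * (n : ℝ) ^ (2 - η) := by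
      have := mul_le_mul_of_nonneg_left h3 hk0
      linarith
    calc ((k : ℝ) + 1) * (cnt (bx n) far y + k * n) ≤ (k + 1) * ((k + 1) * (n : ℝ) ^ (2 - η)) :=
          mul_le_mul_of_nonneg_left h5 (by positivity)
      _ = (k + 1) ^ 2 * (n : ℝ) ^ (2 - η) := by ring
  have h6 : (1 + δ) ^ J ≤ (n : ℝ) ^ (η / 2) := by
    have h7 : (1 + δ) ^ J ≤ ((2 : ℝ) ^ (η / 2)) ^ J := pow_le_pow_left₀ (by linarith) hδ2 J
    have h8 : ((2 : ℝ) ^ (η / 2)) ^ J = ((2 : ℝ) ^ J) ^ (η / 2) := by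
      rw [← Real.rpow_natCast, ← Real.rpow_natCast, ← Real.rpow_mul (by norm_num),
        ← Real.rpow_mul (by norm_num), mul_comm]
    have h9 : (2 : ℝ) ^ J ≤ n := by
      have a1 : (0 : ℝ) < 2 ^ J := by positivity
      have a2 : (2 : ℝ) ^ J ≤ G * 2 ^ J := by nlinarith
      have a3 : G * 2 ^ J ≤ L * (G * 2 ^ J) := by nlinarith
      linarith
    rw [h8] at h7
    exact h7.trans (Real.rpow_le_rpow (by positivity) h9 (by linarith))
  have h10 : (1 + δ) ^ J * (cnt (bx n) (dp G) y : ℝ) ≤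
      (n : ℝ) ^ (η / 2) * ((k + 1) ^ 2 * (n : ℝ) ^ (2 - η)) :=
    mul_le_mul h6 h4 (Nat.cast_nonneg _) (by positivity)
  have h11 : (n : ℝ) ^ (η / 2) * ((k + 1) ^ 2 * (n : ℝ) ^ (2 - η)) =
      (k + 1) ^ 2 * (n : ℝ) ^ (2 - η / 2) := by
    have : (n : ℝ) ^ (2 - η / 2) = (n : ℝ) ^ (η / 2) * (n : ℝ) ^ (2 - η) := by
      rw [← Real.rpow_add hnpos]
      congr 1
      ring
    rw [this]
    ring
  linarith

end Pool.Agent.SupC
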