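import Pool.Agent.SupC.Big
import Pool.Agent.SupC.Inner

/-! The corner lemma: points which are close at most times of an `n`-box are exactly close from the
corner on. One rational number approximates their difference. -/

namespace Pool.Agent.SupC

open Pool.Agent.SubT Pool.Agent.SlowV Pool.Agent.CplxN

open scoped BigOperators ENNReal

open MeasureTheory Set Filter Topology

private theorem q1_max (p : ℕ) [hp : Fact p.Prime] (ξ : ℚ) :
    max 1 ((padicNorm p ξ : ℚ) : ℝ) = (p : ℝ) ^ (padicValNat p ξ.den) := by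
  have hp1 : (1 : ℝ) < p := by exact_mod_cast hp.out.one_lt
  by_cases h0 : ξ = 0
  · subst h0
    simp
  · have e0 : ((padicNorm p ξ : ℚ) : ℝ) =
        (p : ℝ) ^ (-((padicValInt p ξ.num : ℤ) - (padicValNat p ξ.den : ℤ))) := by
      rw [padicNorm.eq_zpow_of_nonzero h0, padicValRat_def, Rat.cast_zpow, Rat.cast_natCast]
    rw [e0]
    by_cases hd : p ∣ ξ.den
    · have h4 : padicValInt p ξ.num = 0 := by
        apply padicValInt.eq_zero_of_not_dvd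
        intro h5
        have h6 : p ∣ ξ.num.natAbs := Int.natCast_dvd.1 h5
        have h7 := Nat.dvd_gcd h6 hd
        rw [ξ.reduced] at h7
        exact hp.out.one_lt.ne' (Nat.dvd_one.1 h7)
      rw [h4]
      have h5 : -(((0 : ℕ) : ℤ) - (padicValNat p ξ.den : ℤ)) = ((padicValNat p ξ.den : ℕ) : ℤ) := by
        simp
      rw [h5, zpow_natCast]
      exact max_eq_right (one_le_pow₀ hp1.le)
    · have h4 : padicValNat p ξ.den = 0 := padicValNat.eq_zero_of_not_dvd hd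
      rw [h4, pow_zero]
      apply max_eq_left
      have h5 : -((padicValInt p ξ.num : ℤ) - ((0 : ℕ) : ℤ)) = -((padicValInt p ξ.num : ℕ) : ℤ) := by
        simp
      rw [h5, zpow_neg, zpow_natCast]
      exact inv_le_one_of_one_le₀ (one_le_pow₀ hp1.le)

private theorem q1_Aq (ξ : ℚ) : Aq ξ = (padicValNat 2 ξ.den : ℝ) * Real.log 2 +
    (padicValNat 3 ξ.den : ℝ) * Real.log 3 := by
  have e1 : av 1 ξ = ((padicNorm 2 ξ : ℚ) : ℝ) := by
    unfold av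
    rw [if_neg (by decide), if_pos rfl]
  have e2 : av 2 ξ = ((padicNorm 3 ξ : ℚ) : ℝ) := by
    unfold av
    rw [if_neg (by decide), if_neg (by decide)]
  have h1 := q1_max 2 ξ
  have h2 := q1_max 3 ξ
  unfold Aq
  rw [e1, e2, h1, h2, Real.log_pow, Real.log_pow]
  push_cast
  rfl

private theorem q1_den {q : ℕ} {u : ℕ × ℕ} {ξ : ℚ} {P : ℤ} (h : (q : ℚ) * sz u * ξ = P) :
    ξ.den ∣ q * (2 ^ u.1 * 3 ^ u.2) := by
  have h5 : ((q : ℤ) * (2 ^ u.1 * 3 ^ u.2)) * ξ.num = P * ξ.den := by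
    have h6 : (ξ.den : ℚ) ≠ 0 := by exact_mod_cast ξ.den_nz
    have h7 : ((q : ℚ) * (2 ^ u.1 * 3 ^ u.2)) * ξ.num = P * ξ.den := by
      rw [← h]
      nth_rewrite 2 [← Rat.num_div_den ξ]
      unfold sz
      push_cast
      field_simp
    exact_mod_cast h7
  have h6 : (ξ.den : ℤ) ∣ ((q : ℤ) * (2 ^ u.1 * 3 ^ u.2)) * ξ.num := ⟨P, by rw [h5]; ring⟩
  have h7 : IsCoprime (ξ.den : ℤ) ξ.num := by
    rw [Int.isCoprime_iff_gcd_eq_one, Int.gcd_comm]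
    exact ξ.reduced
  have h8 : (ξ.den : ℤ) ∣ ((q * (2 ^ u.1 * 3 ^ u.2) : ℕ) : ℤ) := by
    push_cast
    exact h7.dvd_of_dvd_mul_right h6
  exact_mod_cast h8

private theorem q1_Aq_le {q : ℕ} {u : ℕ × ℕ} {ξ : ℚ} {P : ℤ} (hq : 1 ≤ q)
    (h : (q : ℚ) * sz u * ξ = P) : Aq ξ ≤ Real.log q + LL u.1 u.2 := by
  have hd := q1_den h
  have hq0 : (0 : ℝ) < q := by exact_mod_cast hq
  have h1 : 2 ^ padicValNat 2 ξ.den ∣ ξ.den := pow_padicValNat_dvd
  have h2 : 3 ^ padicValNat 3 ξ.den ∣ ξ.den := pow_padicValNat_dvd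
  have hc : Nat.Coprime (2 ^ padicValNat 2 ξ.den) (3 ^ padicValNat 3 ξ.den) :=
    Nat.Coprime.pow _ _ (by norm_num)
  have h3 : 2 ^ padicValNat 2 ξ.den * 3 ^ padicValNat 3 ξ.den ∣ q * (2 ^ u.1 * 3 ^ u.2) :=
    (hc.mul_dvd_of_dvd_of_dvd h1 h2).trans hd
  have hpos : 0 < q * (2 ^ u.1 * 3 ^ u.2) := by positivity
  have h4 := Nat.le_of_dvd hpos h3
  have h5 : ((2 : ℝ) ^ padicValNat 2 ξ.den * 3 ^ padicValNat 3 ξ.den) ≤
      q * (2 ^ u.1 * 3 ^ u.2) := by exact_mod_cast h4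
  have h6 := Real.log_le_log (by positivity) h5
  rw [Real.log_mul (by positivity) (by positivity), Real.log_mul (by positivity) (by positivity),
    Real.log_mul (by positivity) (by positivity), Real.log_pow, Real.log_pow, Real.log_pow,
    Real.log_pow] at h6
  rw [q1_Aq]
  exact h6

private theorem q1_inR {q : ℕ} {u : ℕ × ℕ} {ξ : ℚ} {P : ℤ} (h : (q : ℚ) * sz u * ξ = P) :
    InR ((q : ℚ) * ξ) := by
  refine ⟨u.1 + u.2, 2 ^ u.2 * 3 ^ u.1 * P, ?_⟩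
  push_cast
  rw [← h]
  unfold sz
  push_cast
  have h6 : (6 : ℚ) = 2 * 3 := by norm_num
  rw [h6, mul_pow, pow_add, pow_add]
  ring

/-- the multiplier -/
private theorem q1_int {q : ℕ} {u m : ℕ × ℕ} {ξ : ℚ} {P : ℤ} (hq : 1 ≤ q)
    (h : (q : ℚ) * sz u * ξ = P) (h2 : padicValNat 2 ξ.den ≤ m.1) (h3 : padicValNat 3 ξ.den ≤ m.2) :
    ∃ d : ℕ, 1 ≤ d ∧ d ≤ q ∧ ∃ P' : ℤ, (d : ℚ) * sz m * ξ = P' := by
  have hd := q1_den h
  have e1 : 2 ^ padicValNat 2 ξ.den ∣ ξ.den := pow_padicValNat_dvd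
  have e2 : 3 ^ padicValNat 3 ξ.den ∣ ξ.den := pow_padicValNat_dvd
  have hc : Nat.Coprime (2 ^ padicValNat 2 ξ.den) (3 ^ padicValNat 3 ξ.den) :=
    Nat.Coprime.pow _ _ (by norm_num)
  obtain ⟨d, hdd⟩ := hc.mul_dvd_of_dvd_of_dvd e1 e2
  have hden0 : ξ.den ≠ 0 := ξ.den_nz
  have hd0 : d ≠ 0 := by
    rintro rfl
    rw [mul_zero] at hdd
    exact hden0 hdd
  have c2 : ¬ 2 ∣ d := by
    intro h4
    have h5 : 2 ^ (padicValNat 2 ξ.den + 1) ∣ ξ.den := by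
      obtain ⟨d', rfl⟩ := h4
      rw [pow_succ]
      exact ⟨3 ^ padicValNat 3 ξ.den * d', by nth_rewrite 1 [hdd]; ring⟩
    exact pow_succ_padicValNat_not_dvd hden0 h5
  have c3 : ¬ 3 ∣ d := by
    intro h4
    have h5 : 3 ^ (padicValNat 3 ξ.den + 1) ∣ ξ.den := by
      obtain ⟨d', rfl⟩ := h4
      rw [pow_succ]
      exact ⟨2 ^ padicValNat 2 ξ.den * d', by nth_rewrite 1 [hdd]; ring⟩
    exact pow_succ_padicValNat_not_dvd hden0 h5
  have hcop : Nat.Coprime d (2 ^ u.1 * 3 ^ u.2) := by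
    refine Nat.Coprime.mul_right (Nat.Coprime.pow_right _ ?_) (Nat.Coprime.pow_right _ ?_)
    · exact ((Nat.Prime.coprime_iff_not_dvd Nat.prime_two).2 c2).symm
    · exact ((Nat.Prime.coprime_iff_not_dvd Nat.prime_three).2 c3).symm
  have hdq : d ∣ q := by
    have h4 : d ∣ q * (2 ^ u.1 * 3 ^ u.2) := (Dvd.intro_left _ hdd.symm).trans hd
    exact hcop.dvd_of_dvd_mul_right h4
  refine ⟨d, Nat.one_le_iff_ne_zero.2 hd0, Nat.le_of_dvd hq hdq,
    2 ^ (m.1 - padicValNat 2 ξ.den) * 3 ^ (m.2 - padicValNat 3 ξ.den) * ξ.num, ?_⟩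
  have h6 : (ξ.den : ℚ) ≠ 0 := by exact_mod_cast ξ.den_nz
  have h7 : (ξ.den : ℚ) = 2 ^ padicValNat 2 ξ.den * 3 ^ padicValNat 3 ξ.den * d := by
    exact_mod_cast hdd
  have h8 : ξ * ξ.den = ξ.num := Rat.mul_den_eq_num ξ
  unfold sz
  push_cast
  have h9 : (ξ.num : ℚ) = ξ * (2 ^ padicValNat 2 ξ.den * 3 ^ padicValNat 3 ξ.den * d) := by
    rw [← h8, ← h7]
  rw [h9]
  have e3 : (2 : ℚ) ^ m.1 = 2 ^ (m.1 - padicValNat 2 ξ.den) * 2 ^ padicValNat 2 ξ.den := by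
    rw [← pow_add, Nat.sub_add_cancel h2]
  have e4 : (3 : ℚ) ^ m.2 = 3 ^ (m.2 - padicValNat 3 ξ.den) * 3 ^ padicValNat 3 ξ.den := by
    rw [← pow_add, Nat.sub_add_cancel h3]
  rw [e3, e4]
  ring
private theorem q1_dist (x : ℝ) (u : ℕ × ℕ) (q : ℕ) (z : ℤ) :
    ‖q • sp u (x : AddCircle (1 : ℝ))‖ ≤ |(q : ℝ) * (2 ^ u.1 * 3 ^ u.2) * x - z| := by
  unfold sp
  rw [in_smul, ← AddCircle.coe_nsmul, nsmul_eq_mul, in_norm]
  have h1 : (q : ℝ) * (2 ^ u.1 * 3 ^ u.2) * x = (q : ℝ) * (2 ^ u.1 * 3 ^ u.2 * x) := by ring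
  rw [h1]
  exact round_le _ z

private theorem q1_app (x s : ℝ) (u : ℕ × ℕ) (q : ℕ) (hq : 1 ≤ q)
    (h : ‖q • sp u (x : AddCircle (1 : ℝ))‖ ≤ Real.exp (-s)) :
    ∃ ξ : ℚ, (∃ P : ℤ, (q : ℚ) * sz u * ξ = P) ∧ |x - (ξ : ℝ)| ≤ Real.exp (-(s + LL u.1 u.2)) := by
  unfold sp at h
  rw [in_smul, ← AddCircle.coe_nsmul, nsmul_eq_mul, in_norm] at h
  set P : ℤ := round ((q : ℝ) * (2 ^ u.1 * 3 ^ u.2 * x)) with hP
  have hq0 : (0 : ℝ) < q := by exact_mod_cast hq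
  have hq1 : (1 : ℝ) ≤ q := by exact_mod_cast hq
  have hqq : (0 : ℚ) < q := by exact_mod_cast hq
  have hu : (0 : ℝ) < 2 ^ u.1 * 3 ^ u.2 := by positivity
  have huq : (0 : ℚ) < 2 ^ u.1 * 3 ^ u.2 := by positivity
  refine ⟨(P : ℚ) / ((q : ℚ) * (2 ^ u.1 * 3 ^ u.2)), ⟨P, ?_⟩, ?_⟩
  · unfold sz
    push_cast
    field_simp
  · push_cast
    have h1 : x - (P : ℝ) / ((q : ℝ) * (2 ^ u.1 * 3 ^ u.2)) =
        ((q : ℝ) * (2 ^ u.1 * 3 ^ u.2 * x) - P) / ((q : ℝ) * (2 ^ u.1 * 3 ^ u.2)) := by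
      field_simp
    rw [h1, abs_div, abs_of_pos (mul_pos hq0 hu), div_le_iff₀ (mul_pos hq0 hu)]
    have h2 : Real.exp (-(s + LL u.1 u.2)) * ((q : ℝ) * (2 ^ u.1 * 3 ^ u.2)) =
        q * Real.exp (-s) := by
      rw [← KL_exp_LL]
      have : Real.exp (-(s + LL u.1 u.2)) * Real.exp (LL u.1 u.2) = Real.exp (-s) := by
        rw [← Real.exp_add]
        congr 1
        ring
      calc Real.exp (-(s + LL u.1 u.2)) * ((q : ℝ) * Real.exp (LL u.1 u.2))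
          = q * (Real.exp (-(s + LL u.1 u.2)) * Real.exp (LL u.1 u.2)) := by ring
        _ = q * Real.exp (-s) := by rw [this]
    rw [h2]
    have h3 : Real.exp (-s) ≤ q * Real.exp (-s) := le_mul_of_one_le_left (Real.exp_pos _).le hq1
    exact h.trans h3

private theorem q1_exists_max (F : Finset (ℕ × ℕ)) :
    ∃ m : ℕ × ℕ, F.Nonempty → m ∈ F ∧ ∀ u ∈ F, LL u.1 u.2 ≤ LL m.1 m.2 := by
  by_cases h : F.Nonempty
  · obtain ⟨m, hm, hm2⟩ := F.exists_max_image (fun u => LL u.1 u.2) h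
    exact ⟨m, fun _ => ⟨hm, hm2⟩⟩
  · exact ⟨(0, 0), fun h' => absurd h' h⟩

private theorem q1_alg (κ σ N m0 : ℝ) (hκ : 0 < κ) (hκ1 : κ ≤ 1) (hσ : 0 < σ) (hσκ : σ ≤ κ / 16)
    (hm00 : 0 ≤ m0) (hN : 0 < N) (hNbig : 200 * (m0 + 1) ≤ κ * N)
    {Y : Finset ℚ} (hY : (Y.card : ℝ) ≤ m0) (t : ℚ → ℝ)
    (ht : ∀ ξ ∈ Y, 0 ≤ t ξ ∧ t ξ ≤ (1 - κ / 2) * N)
    (hs : ∑ ξ ∈ Y, t ξ ≤ (1 + κ / 16) * (N + σ * N)) :
    ∑ ξ ∈ Y, (t ξ + 2) ^ 2 < (1 - κ / 8) * N ^ 2 := by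
  have h1 : ∀ ξ ∈ Y, (t ξ + 2) ^ 2 ≤ ((1 - κ / 2) * N + 4) * t ξ + 4 := by
    intro ξ hξ
    obtain ⟨h2, h3⟩ := ht ξ hξ
    nlinarith
  have h2 := Finset.sum_le_sum h1
  rw [Finset.sum_add_distrib, ← Finset.mul_sum, Finset.sum_const, nsmul_eq_mul] at h2
  have hκN : 0 < (1 - κ / 2) * N + 4 := by nlinarith
  have h3 : ((1 - κ / 2) * N + 4) * ∑ ξ ∈ Y, t ξ ≤
      ((1 - κ / 2) * N + 4) * ((1 + κ / 16) * (N + σ * N)) :=
    mul_le_mul_of_nonneg_left hs hκN.le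
  have h4 : (1 + κ / 16) * (N + σ * N) ≤ (1 + κ * (17 / 128)) * N := by
    have h5 : σ * N ≤ κ / 16 * N := mul_le_mul_of_nonneg_right hσκ hN.le
    have h6 : (1 + κ / 16) * (N + σ * N) ≤ (1 + κ / 16) * (N + κ / 16 * N) :=
      mul_le_mul_of_nonneg_left (by linarith) (by linarith)
    have h7 : (1 + κ / 16) * (N + κ / 16 * N) = (1 + κ / 8 + κ ^ 2 / 256) * N := by ring
    have h8 : (1 + κ / 8 + κ ^ 2 / 256) * N ≤ (1 + κ * (17 / 128)) * N := by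
      apply mul_le_mul_of_nonneg_right _ hN.le
      nlinarith
    linarith
  have h5 : ((1 - κ / 2) * N + 4) * ((1 + κ / 16) * (N + σ * N)) ≤
      ((1 - κ / 2) * N + 4) * ((1 + κ * (17 / 128)) * N) :=
    mul_le_mul_of_nonneg_left h4 hκN.le
  have h6 : ((1 - κ / 2) * N + 4) * ((1 + κ * (17 / 128)) * N) + m0 * 4 < (1 - κ / 8) * N ^ 2 := by
    have h7 : (1 - κ / 2) * (1 + κ * (17 / 128)) ≤ 1 - κ * (47 / 128) := by nlinarith
    have h8 : ((1 - κ / 2) * N + 4) * ((1 + κ * (17 / 128)) * N) =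
        ((1 - κ / 2) * (1 + κ * (17 / 128))) * N ^ 2 + 4 * (1 + κ * (17 / 128)) * N := by ring
    have h9 : ((1 - κ / 2) * (1 + κ * (17 / 128))) * N ^ 2 ≤ (1 - κ * (47 / 128)) * N ^ 2 :=
      mul_le_mul_of_nonneg_right h7 (by positivity)
    have h10 : 4 * (1 + κ * (17 / 128)) * N ≤ 5 * N := by
      apply mul_le_mul_of_nonneg_right _ hN.le
      linarith
    have h11 : 200 * (m0 + 1) * N ≤ κ * N * N := mul_le_mul_of_nonneg_right hNbig hN.le
    have hN1 : 1 ≤ N := by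
      have : κ * N ≤ 1 * N := mul_le_mul_of_nonneg_right hκ1 hN.le
      nlinarith
    have h12 : m0 * 4 ≤ 4 * m0 * N := by nlinarith
    nlinarith
  have h13 : (Y.card : ℝ) * 4 ≤ m0 * 4 := mul_le_mul_of_nonneg_right hY (by norm_num)
  linarith

/-- one rational number approximates `w` in almost the whole window -/
theorem one_patch (σ κ : ℝ) (hσ : 0 < σ) (hκ : 0 < κ) (hκ1 : κ ≤ 1) (hσκ : σ ≤ κ / 16) :
    ∃ N0 : ℝ, 1 ≤ N0 ∧ ∀ N ≥ N0, ∀ w : AddCircle (1 : ℝ), ∀ S : Finset (ℕ × ℕ),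
      (∀ u ∈ S, LL u.1 u.2 < N ∧ ‖sp u w‖ ≤ Real.exp (-(σ * N))) →
      (1 - κ / 8) * N ^ 2 ≤ om2 * (S.card : ℝ) →
      ∀ m : ℕ × ℕ, κ * N ≤ m.1 * Real.log 2 → κ * N ≤ m.2 * Real.log 3 →
        ‖sp m w‖ ≤ Real.exp (LL m.1 m.2 - (1 - κ) * N) := by
  classical
  obtain ⟨m0, hm0⟩ : ∃ m0 : ℕ, m0 = ⌈2 / σ⌉₊ := ⟨_, rfl⟩
  obtain ⟨R1, hR1, hpack⟩ := packD m0 (κ / 16) (by positivity)
  have hm0a : 2 / σ ≤ m0 := by rw [hm0]; exact Nat.le_ceil _
  have hm0b : (m0 : ℝ) < 2 / σ + 1 := by rw [hm0]; exact Nat.ceil_lt_add_one (by positivity)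
  have hσ1 : σ ≤ 1 / 16 := by linarith
  have hm0c : 2 ≤ m0 * σ := by rwa [div_le_iff₀ hσ] at hm0a
  have hm0d : (m0 : ℝ) * σ ≤ 4 := by
    have h1 : (m0 : ℝ) * σ ≤ (2 / σ + 1) * σ := mul_le_mul_of_nonneg_right hm0b.le hσ.le
    have h2 : (2 / σ + 1) * σ = 2 + σ := by field_simp
    linarith
  have hm00 : (0 : ℝ) ≤ m0 := Nat.cast_nonneg _
  refine ⟨max R1 (max (200 * (m0 + 1) / κ) (3 / σ)), le_trans hR1 (le_max_left _ _), ?_⟩
  intro N hN w S hS hcardS m hmA hmB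
  have hRR1 : R1 ≤ N := (le_max_left _ _).trans hN
  have hN1 : 1 ≤ N := hR1.trans hRR1
  have hNp : 0 < N := by linarith
  have hNbig : 200 * ((m0 : ℝ) + 1) ≤ κ * N := by
    have h1 := ((le_max_left _ _).trans (le_max_right _ _)).trans hN
    rw [div_le_iff₀ hκ] at h1
    linarith
  have hσN3 : 3 ≤ σ * N := by
    have h1 := ((le_max_right _ _).trans (le_max_right _ _)).trans hN
    rw [div_le_iff₀ hσ] at h1
    linarith
  have hσN : σ * N ≤ κ / 16 * N := mul_le_mul_of_nonneg_right hσκ hNp.le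
  have hκN : κ * N ≤ N := by
    have := mul_le_mul_of_nonneg_right hκ1 hNp.le
    linarith
  obtain ⟨x, rfl⟩ := QuotientAddGroup.mk_surjective w
  -- the approximations
  have hS2 : ∀ u ∈ S, ∃ ξ : ℚ, LL u.1 u.2 < N ∧ (∃ P : ℤ, ((1 : ℕ) : ℚ) * sz u * ξ = P) ∧
      |x - (ξ : ℝ)| ≤ Real.exp (-(σ * N + LL u.1 u.2)) := by
    intro u hu
    obtain ⟨h1, h4⟩ := hS u hu
    obtain ⟨ξ, h5, h6⟩ := q1_app x (σ * N) u 1 le_rfl (by rw [one_smul]; exact h4)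
    exact ⟨ξ, h1, h5, h6⟩
  choose! Ξ hQ using hS2
  have hfib : ∀ ξ ∈ S.image Ξ, (S.filter (fun u => Ξ u = ξ)).Nonempty := by
    intro ξ hξ
    obtain ⟨u, hu, rfl⟩ := Finset.mem_image.1 hξ
    exact ⟨u, Finset.mem_filter.2 ⟨hu, rfl⟩⟩
  choose M hM using fun ξ : ℚ => q1_exists_max (S.filter (fun u => Ξ u = ξ))
  have hc : ∀ ξ ∈ S.image Ξ, M ξ ∈ S ∧ Ξ (M ξ) = ξ ∧
      ∀ u ∈ S, Ξ u = ξ → LL u.1 u.2 ≤ LL (M ξ).1 (M ξ).2 := by
    intro ξ hξ
    obtain ⟨h1, h2⟩ := hM ξ (hfib ξ hξ)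
    rw [Finset.mem_filter] at h1
    exact ⟨h1.1, h1.2, fun u hu hu2 => h2 u (Finset.mem_filter.2 ⟨hu, hu2⟩)⟩
  by_contra hcon
  rw [not_le] at hcon
  -- facts for the approximations
  have hfact : ∀ ξ ∈ S.image Ξ,
      (∃ d : ℕ, 1 ≤ d ∧ (d : ℝ) ≤ Real.exp 0 ∧ InR (d * ξ)) ∧
      Aq ξ ≤ N + σ * N ∧
      (0 ≤ σ * N + LL (M ξ).1 (M ξ).2 ∧ σ * N + LL (M ξ).1 (M ξ).2 ≤ N + σ * N ∧
        |x - (ξ : ℝ)| ≤ Real.exp (-(σ * N + LL (M ξ).1 (M ξ).2))) ∧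
      σ * N ≤ σ * N + LL (M ξ).1 (M ξ).2 - Aq ξ ∧
      σ * N + LL (M ξ).1 (M ξ).2 - Aq ξ ≤ (1 - κ / 2) * N := by
    intro ξ hξ
    obtain ⟨h1, h2, h3⟩ := hc ξ hξ
    obtain ⟨g1, ⟨P, g4⟩, g5⟩ := hQ (M ξ) h1
    rw [h2] at g4 g5
    have hLL0 := KL_LL_nonneg (M ξ).1 (M ξ).2
    have hA := q1_Aq_le le_rfl g4
    rw [Nat.cast_one, Real.log_one, zero_add] at hA
    refine ⟨⟨1, le_rfl, by simp, q1_inR g4⟩, by linarith, ⟨by linarith, by linarith, g5⟩,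
      by linarith, ?_⟩
    by_contra hfar
    rw [not_le] at hfar
    -- the rational number `ξ` does it
    have hA2 : Aq ξ ≤ κ * N := by linarith
    rw [q1_Aq] at hA2
    have hl2 : 0 < Real.log 2 := Real.log_pos (by norm_num)
    have hl3 : 0 < Real.log 3 := Real.log_pos (by norm_num)
    have hv2 : (0 : ℝ) ≤ (padicValNat 2 ξ.den : ℝ) * Real.log 2 := by positivity
    have hv3 : (0 : ℝ) ≤ (padicValNat 3 ξ.den : ℝ) * Real.log 3 := by positivity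
    have e2 : padicValNat 2 ξ.den ≤ m.1 := by
      have h4 : (padicValNat 2 ξ.den : ℝ) * Real.log 2 ≤ m.1 * Real.log 2 := by linarith
      exact_mod_cast le_of_mul_le_mul_right h4 hl2
    have e3 : padicValNat 3 ξ.den ≤ m.2 := by
      have h4 : (padicValNat 3 ξ.den : ℝ) * Real.log 3 ≤ m.2 * Real.log 3 := by linarith
      exact_mod_cast le_of_mul_le_mul_right h4 hl3
    obtain ⟨d, hd1, hdq, P', hP'⟩ := q1_int le_rfl g4 e2 e3
    obtain rfl : d = 1 := le_antisymm hdq hd1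
    have h5 := q1_dist x m 1 P'
    rw [one_smul] at h5
    have hm1 : (0 : ℝ) < 2 ^ m.1 * 3 ^ m.2 := by positivity
    have h6 : ((1 : ℕ) : ℝ) * (2 ^ m.1 * 3 ^ m.2) * x - P' =
        (2 ^ m.1 * 3 ^ m.2) * (x - ξ) := by
      have h4 : (P' : ℝ) = (2 ^ m.1 * 3 ^ m.2) * ξ := by
        have h5 : ((P' : ℚ) : ℝ) = ((((1 : ℕ) : ℚ) * sz m * ξ : ℚ) : ℝ) := by rw [hP']
        unfold sz at h5
        push_cast at h5
        rw [h5]
        ring
      rw [h4]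
      push_cast
      ring
    rw [h6, abs_mul, abs_of_pos hm1, ← KL_exp_LL] at h5
    have h7 : Real.exp (LL m.1 m.2) * |x - (ξ : ℝ)| ≤
        Real.exp (LL m.1 m.2) * Real.exp (-(σ * N + LL (M ξ).1 (M ξ).2)) :=
      mul_le_mul_of_nonneg_left g5 (Real.exp_pos _).le
    rw [← Real.exp_add] at h7
    have h8 := hcon.trans_le (h5.trans h7)
    rw [Real.exp_lt_exp] at h8
    have h9 := aq_nonneg ξ
    have h10 : κ / 2 * N ≤ κ * N := by nlinarith
    linarith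
  -- packing
  have hpk : ∀ Y ⊆ S.image Ξ, Y.card ≤ m0 →
      ∑ ξ ∈ Y, (σ * N + LL (M ξ).1 (M ξ).2 - Aq ξ) ≤ (1 + κ / 16) * (N + σ * N) := by
    intro Y hY hYc
    have h1 := hpack (N + σ * N) (by linarith) 0 le_rfl (by linarith) x Y hYc
      (fun ξ hξ => (hfact ξ (hY hξ)).1) (fun ξ hξ => (hfact ξ (hY hξ)).2.1)
      (fun ξ => σ * N + LL (M ξ).1 (M ξ).2) (fun ξ hξ => (hfact ξ (hY hξ)).2.2.1)
    rwa [mul_zero, add_zero] at h1
  have hsmall : (1 + κ / 16) * (N + σ * N) < 2 * N := by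
    have h1 : N + σ * N ≤ 17 / 16 * N := by nlinarith
    have h2 : (1 + κ / 16) * (N + σ * N) ≤ 17 / 16 * (17 / 16 * N) :=
      mul_le_mul (by linarith) h1 (by positivity) (by norm_num)
    linarith
  have hcard : (S.image Ξ).card ≤ m0 := by
    by_contra hcon'
    have hcon : m0 < (S.image Ξ).card := not_le.1 hcon'
    obtain ⟨Y, hY, hYc⟩ := Finset.exists_subset_card_eq hcon.le
    have h1 := hpk Y hY hYc.le
    have h2 : ∑ ξ ∈ Y, (σ * N) ≤ ∑ ξ ∈ Y, (σ * N + LL (M ξ).1 (M ξ).2 - Aq ξ) :=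
      Finset.sum_le_sum fun ξ hξ => (hfact ξ (hY hξ)).2.2.2.1
    rw [Finset.sum_const, nsmul_eq_mul, hYc] at h2
    have h3 : 2 * N ≤ (m0 : ℝ) * (σ * N) := by
      have := mul_le_mul_of_nonneg_right hm0c hNp.le
      linarith
    linarith
  have hsum := hpk _ (Finset.Subset.refl _) hcard
  -- the classes
  have hclass : ∀ ξ ∈ S.image Ξ, om2 * ((S.filter (fun u => Ξ u = ξ)).card : ℝ) ≤
      (σ * N + LL (M ξ).1 (M ξ).2 - Aq ξ + 2) ^ 2 := by
    intro ξ hξ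
    obtain ⟨h1, h2, h3⟩ := hc ξ hξ
    have h4 := big_one 0 (σ * N) (LL (M ξ).1 (M ξ).2) le_rfl (by linarith) ξ
      (S.filter (fun u => Ξ u = ξ)) (by
        intro u hu
        rw [Finset.mem_filter] at hu
        obtain ⟨g1, g4, g5⟩ := hQ u hu.1
        rw [hu.2] at g4
        exact ⟨h3 u hu.1 hu.2, 1, le_rfl, by simp, g4⟩)
    have h5 := (hfact ξ hξ).2.2.2.1
    rw [max_eq_right (by linarith)] at h4
    exact h4
  have hSc : (S.card : ℝ) = ∑ ξ ∈ S.image Ξ, ((S.filter (fun u => Ξ u = ξ)).card : ℝ) := by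
    rw [Finset.card_eq_sum_card_image Ξ S]
    push_cast
    rfl
  rw [hSc, Finset.mul_sum] at hcardS
  have hfin := q1_alg κ σ N m0 hκ hκ1 hσ hσκ hm00 hNp hNbig (by exact_mod_cast hcard)
    (fun ξ => σ * N + LL (M ξ).1 (M ξ).2 - Aq ξ) (fun ξ hξ => ⟨by
      have := (hfact ξ hξ).2.2.2.1
      linarith, (hfact ξ hξ).2.2.2.2⟩) hsum
  have h1 := hcardS.trans (Finset.sum_le_sum hclass)
  exact absurd (h1.trans_lt hfin) (lt_irrefl _)

private theorem q1_cover (y : AddCircle (1 : ℝ)) (D : Set (AddCircle (1 : ℝ))) (n m : ℕ)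
    (hm : 8 ≤ m) (B : ℝ) (hB : 0 ≤ B)
    (h : ∀ p : ℕ × ℕ, p.1 + m ≤ n → p.2 + m ≤ n → (cnt (ibx (m / 4) m) D (sp p y) : ℝ) ≤ B)
    (F : Finset (ℕ × ℕ))
    (hF : ∀ u ∈ F, m / 4 ≤ u.1 ∧ m / 4 ≤ u.2 ∧ u.1 + m ≤ n ∧ u.2 + m ≤ n ∧ sp u y ∈ D) :
    (F.card : ℝ) ≤ ((n / (m / 4) + 1 : ℕ) : ℝ) ^ 2 * B := by
  classical
  set k := m / 4 with hk
  have hk2 : 2 ≤ k := by omega
  have hkm : 4 * k ≤ m := by omega
  set g : ℕ × ℕ → ℕ × ℕ := fun u => ((u.1 - k) / k, (u.2 - k) / k) with hg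
  set I : Finset (ℕ × ℕ) := Finset.range (n / k + 1) ×ˢ Finset.range (n / k + 1) with hI
  have hmaps : ∀ u ∈ F, g u ∈ I := by
    intro u hu
    obtain ⟨h1, h2, h3, h4, -⟩ := hF u hu
    simp only [hI, hg, Finset.mem_product, Finset.mem_range]
    constructor
    · exact Nat.lt_succ_of_le (Nat.div_le_div_right (by omega))
    · exact Nat.lt_succ_of_le (Nat.div_le_div_right (by omega))
  rw [Finset.card_eq_sum_card_fiberwise hmaps]
  push_cast
  have hfib : ∀ p ∈ I, ((F.filter (fun u => g u = p)).card : ℝ) ≤ B := by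
    intro p hp
    rcases (F.filter (fun u => g u = p)).eq_empty_or_nonempty with he | ⟨u0, hu0⟩
    · rw [he]
      simpa using hB
    · rw [Finset.mem_filter] at hu0
      obtain ⟨h1, h2, h3, h4, h5⟩ := hF u0 hu0.1
      have hp1 : (u0.1 - k) / k = p.1 := by rw [← hu0.2]
      have hp2 : (u0.2 - k) / k = p.2 := by rw [← hu0.2]
      have g1 : p.1 * k ≤ u0.1 - k := by rw [← hp1]; exact Nat.div_mul_le_self _ _
      have g2 : p.2 * k ≤ u0.2 - k := by rw [← hp2]; exact Nat.div_mul_le_self _ _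
      refine le_trans ?_ (h (p.1 * k, p.2 * k) (by simp only; omega) (by simp only; omega))
      have hcard : (F.filter (fun u => g u = p)).card ≤
          cnt (ibx k m) D (sp (p.1 * k, p.2 * k) y) := by
        unfold cnt
        apply Finset.card_le_card_of_injOn (fun u => (u.1 - p.1 * k, u.2 - p.2 * k))
        · intro u hu
          rw [Finset.mem_coe, Finset.mem_filter] at hu
          obtain ⟨f1, f2, f3, f4, f5⟩ := hF u hu.1
          have q1 : (u.1 - k) / k = p.1 := by rw [← hu.2]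
          have q2 : (u.2 - k) / k = p.2 := by rw [← hu.2]
          have l1 : p.1 * k ≤ u.1 - k := by rw [← q1]; exact Nat.div_mul_le_self _ _
          have l2 : p.2 * k ≤ u.2 - k := by rw [← q2]; exact Nat.div_mul_le_self _ _
          have l3 : u.1 - k < p.1 * k + k := by
            have := Nat.lt_div_mul_add (a := u.1 - k) (by omega : 0 < k)
            rwa [q1] at this
          have l4 : u.2 - k < p.2 * k + k := by
            have := Nat.lt_div_mul_add (a := u.2 - k) (by omega : 0 < k)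
            rwa [q2] at this
          rw [Finset.mem_coe, Finset.mem_filter]
          refine ⟨?_, ?_⟩
          · unfold ibx
            rw [Finset.mem_product, Finset.mem_Ico, Finset.mem_Ico]
            simp only
            omega
          · rw [← sp_add]
            have e : (u.1 - p.1 * k, u.2 - p.2 * k) + (p.1 * k, p.2 * k) = u := by
              ext
              · simp only [Prod.fst_add]; omega
              · simp only [Prod.snd_add]; omega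
            rw [e]
            exact f5
        · intro u hu v hv huv
          rw [Finset.mem_coe, Finset.mem_filter] at hu hv
          obtain ⟨f1, f2, -⟩ := hF u hu.1
          obtain ⟨f1', f2', -⟩ := hF v hv.1
          have q1 : (u.1 - k) / k = p.1 := by rw [← hu.2]
          have q2 : (u.2 - k) / k = p.2 := by rw [← hu.2]
          have l1 : p.1 * k ≤ u.1 - k := by rw [← q1]; exact Nat.div_mul_le_self _ _
          have l2 : p.2 * k ≤ u.2 - k := by rw [← q2]; exact Nat.div_mul_le_self _ _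
          have q1' : (v.1 - k) / k = p.1 := by rw [← hv.2]
          have q2' : (v.2 - k) / k = p.2 := by rw [← hv.2]
          have l1' : p.1 * k ≤ v.1 - k := by rw [← q1']; exact Nat.div_mul_le_self _ _
          have l2' : p.2 * k ≤ v.2 - k := by rw [← q2']; exact Nat.div_mul_le_self _ _
          simp only [Prod.mk.injEq] at huv
          exact Prod.ext (by omega) (by omega)
      exact_mod_cast hcard
  refine (Finset.sum_le_sum hfib).trans ?_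
  rw [Finset.sum_const, nsmul_eq_mul, hI, Finset.card_product, Finset.card_range]
  push_cast
  rw [sq]

private theorem q1_sub (y : AddCircle (1 : ℝ)) (S : Set (AddCircle (1 : ℝ))) (n m : ℕ)
    (p : ℕ × ℕ) (h1 : p.1 + m ≤ n) (h2 : p.2 + m ≤ n) :
    cnt (bx m) S (sp p y) ≤ cnt (bx n) S y := by
  classical
  unfold cnt
  apply Finset.card_le_card_of_injOn (fun u => u + p)
  · intro u hu
    rw [Finset.mem_coe, Finset.mem_filter, mem_bx] at hu
    rw [Finset.mem_coe, Finset.mem_filter, mem_bx]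
    refine ⟨⟨?_, ?_⟩, ?_⟩
    · simp only [Prod.fst_add]; omega
    · simp only [Prod.snd_add]; omega
    · rw [sp_add]
      exact hu.2
  · intro u _ v _ huv
    exact add_right_cancel huv

private theorem q1_pow (η δ n m : ℝ) (hη : 0 < η) (hη1 : η ≤ 1) (hδ0 : 0 < δ) (hδ1 : δ ≤ 1 / 256)
    (hnp : 0 < n) (hm3 : δ * n / 2 ≤ m) (e1 : (2 / δ) ^ 2 ≤ n ^ (η / 2)) :
    n ^ (2 - η) ≤ m ^ (2 - η / 2) := by
  have h1 : (δ * n / 2) ^ (2 - η / 2) ≤ m ^ (2 - η / 2) :=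
    Real.rpow_le_rpow (by positivity) hm3 (by linarith)
  refine le_trans ?_ h1
  have h2 : δ * n / 2 = (δ / 2) * n := by ring
  rw [h2, Real.mul_rpow (by positivity) hnp.le]
  have h3 : (δ / 2) ^ (2 : ℝ) ≤ (δ / 2) ^ (2 - η / 2) :=
    Real.rpow_le_rpow_of_exponent_ge (by positivity) (by linarith) (by linarith)
  have h4 : n ^ (2 - η / 2) = n ^ (2 - η) * n ^ (η / 2) := by
    rw [← Real.rpow_add hnp]
    congr 1
    ring
  rw [h4]
  have h5 : 0 < n ^ (2 - η) := Real.rpow_pos_of_pos hnp _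
  have h6 : 1 ≤ (δ / 2) ^ (2 - η / 2) * n ^ (η / 2) := by
    have h7 : (δ / 2) ^ (2 : ℝ) * (2 / δ) ^ 2 = 1 := by
      rw [Real.rpow_two]
      field_simp
    calc (1 : ℝ) = (δ / 2) ^ (2 : ℝ) * (2 / δ) ^ 2 := h7.symm
      _ ≤ (δ / 2) ^ (2 - η / 2) * n ^ (η / 2) :=
          mul_le_mul h3 e1 (by positivity) (Real.rpow_pos_of_pos (by positivity) _).le
  calc n ^ (2 - η) = n ^ (2 - η) * 1 := (mul_one _).symm
    _ ≤ n ^ (2 - η) * ((δ / 2) ^ (2 - η / 2) * n ^ (η / 2)) :=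
        mul_le_mul_of_nonneg_left h6 h5.le
    _ = (δ / 2) ^ (2 - η / 2) * (n ^ (2 - η) * n ^ (η / 2)) := by ring

private theorem q1_scale (G x : ℝ) (hG : 0 < G) (hGx : G ≤ x) :
    ∃ J : ℕ, G * 2 ^ J ≤ x ∧ x < G * 2 ^ (J + 1) := by
  classical
  have hex : ∃ j : ℕ, x < G * 2 ^ (j + 1) := by
    obtain ⟨j, hj⟩ := pow_unbounded_of_one_lt (x / G) (by norm_num : (1 : ℝ) < 2)
    refine ⟨j, ?_⟩
    rw [div_lt_iff₀ hG] at hj
    rw [pow_succ]
    have h1 : 0 < (2 : ℝ) ^ j := by positivity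
    have h2 : 0 < G * 2 ^ j := by positivity
    linarith
  refine ⟨Nat.find hex, ?_, Nat.find_spec hex⟩
  rcases Nat.eq_zero_or_pos (Nat.find hex) with h0 | h0
  · rw [h0]
    simpa using hGx
  · have h1 := Nat.find_min hex (Nat.sub_lt h0 one_pos)
    have e : Nat.find hex - 1 + 1 = Nat.find hex := by omega
    rw [not_lt, e] at h1
    exact h1

private theorem q1_log : 0.69 ≤ Real.log 2 ∧ Real.log 2 ≤ 0.7 ∧ om2 ≤ 1.6 ∧
    Real.log 2 ≤ Real.log 3 := by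
  have h1 := Real.log_two_gt_d9
  have h2 := Real.log_two_lt_d9
  have h3 := CNT_log3.2
  have hl3 : 0 < Real.log 3 := Real.log_pos (by norm_num)
  refine ⟨by linarith, by linarith, ?_, Real.log_le_log (by norm_num) (by norm_num)⟩
  unfold om2
  have h4 : Real.log 2 * Real.log 3 ≤ 0.7 * Real.log 3 :=
    mul_le_mul_of_nonneg_right (by linarith) hl3.le
  linarith

/-- a point of the window is far from the upper sides of the box -/
private theorem q1_side (κ δ : ℝ) (n m : ℕ) (hδ : δ ≤ κ / 4) (hm1 : (m : ℝ) ≤ δ * n)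
    (v : ℕ × ℕ) (hv : LL v.1 v.2 < (1 - κ / 4) * (n * Real.log 2)) :
    v.1 + m < n ∧ v.2 + m < n := by
  have hl2 : 0 < Real.log 2 := Real.log_pos (by norm_num)
  have hl3 : 0 < Real.log 3 := Real.log_pos (by norm_num)
  have h0 : Real.log 2 ≤ Real.log 3 := q1_log.2.2.2
  have h3 : (1 - κ / 4) * (n * Real.log 2) = (1 - κ / 4) * n * Real.log 2 := by ring
  have h4 : δ * n ≤ κ / 4 * n := mul_le_mul_of_nonneg_right hδ (Nat.cast_nonneg _)
  have ha : 0 ≤ (v.1 : ℝ) * Real.log 2 := by positivity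
  have hb : 0 ≤ (v.2 : ℝ) * Real.log 3 := by positivity
  have hb2 : (v.2 : ℝ) * Real.log 2 ≤ v.2 * Real.log 3 :=
    mul_le_mul_of_nonneg_left h0 (Nat.cast_nonneg _)
  unfold LL at hv
  rw [h3] at hv
  have h1 : (v.1 : ℝ) < (1 - κ / 4) * n := by
    have : (v.1 : ℝ) * Real.log 2 < (1 - κ / 4) * n * Real.log 2 := by linarith
    exact lt_of_mul_lt_mul_right this hl2.le
  have h2 : (v.2 : ℝ) < (1 - κ / 4) * n := by
    have : (v.2 : ℝ) * Real.log 2 < (1 - κ / 4) * n * Real.log 2 := by linarith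
    exact lt_of_mul_lt_mul_right this hl2.le
  constructor
  · have : (v.1 : ℝ) + m < n := by linarith
    exact_mod_cast this
  · have : (v.2 : ℝ) + m < n := by linarith
    exact_mod_cast this

private theorem q1_nk (δ : ℝ) (n m : ℕ) (hδ0 : 0 < δ) (hδ1 : δ ≤ 1 / 256) (_hn : (0 : ℝ) < n)
    (hm3 : δ * n / 2 ≤ m) (hm8 : 8 ≤ m) : ((n / (m / 4) + 1 : ℕ) : ℝ) ≤ 34 / δ := by
  have h1 : ((n / (m / 4) : ℕ) : ℝ) ≤ (n : ℝ) / ((m / 4 : ℕ) : ℝ) := Nat.cast_div_le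
  have h2 : (m : ℝ) / 8 ≤ ((m / 4 : ℕ) : ℝ) := by
    have h3 : m ≤ 8 * (m / 4) := by omega
    have h4 : (m : ℝ) ≤ 8 * ((m / 4 : ℕ) : ℝ) := by exact_mod_cast h3
    linarith
  have hm8' : (8 : ℝ) ≤ m := by exact_mod_cast hm8
  have h5 : (n : ℝ) / ((m / 4 : ℕ) : ℝ) ≤ 16 / δ := by
    rw [div_le_div_iff₀ (by linarith) hδ0]
    linarith
  have h6 : 1 ≤ 16 / δ := by
    rw [le_div_iff₀ hδ0]
    linarith
  push_cast
  have h7 : 16 / δ + 16 / δ ≤ 34 / δ := by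
    rw [← add_div]
    exact div_le_div_of_nonneg_right (by norm_num) hδ0.le
  linarith

/-- the strips near the lower sides -/
private theorem q1_strip (δ : ℝ) (n m : ℕ) (hm1 : (m : ℝ) ≤ δ * n) :
    ((m / 4 : ℕ) : ℝ) * n ≤ δ / 4 * (n : ℝ) ^ 2 := by
  have h1 : ((m / 4 : ℕ) : ℝ) ≤ m / 4 := by exact_mod_cast Nat.cast_div_le (α := ℝ)
  have h2 : ((m / 4 : ℕ) : ℝ) ≤ δ * n / 4 := by linarith
  have h3 : ((m / 4 : ℕ) : ℝ) * n ≤ δ * n / 4 * n :=
    mul_le_mul_of_nonneg_right h2 (Nat.cast_nonneg _)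
  linarith

/-- almost all points of the window are good -/
private theorem q1_count (κ δ σ T N B : ℝ) (n m : ℕ) (y : AddCircle (1 : ℝ)) (hκ : 0 < κ)
    (hκ1 : κ < 1) (hδ : δ = κ / 256) (hnp : (0 : ℝ) < n) (hm1 : (m : ℝ) ≤ δ * n)
    (hm3 : δ * n / 2 ≤ m) (hm8 : 8 ≤ m) (hB0 : 0 ≤ B)
    (hbox : ∀ p : ℕ × ℕ, p.1 + m ≤ n → p.2 + m ≤ n →
      (cnt (ibx (m / 4) m) (dp T) (sp p y) : ℝ) ≤ B)
    (hN : N = (1 - κ / 4) * (n * Real.log 2)) (hTσ : σ * N ≤ T)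
    (hF3 : 1.6 * ((34 / δ) ^ 2 * B) ≤ κ / 512 * (n : ℝ) ^ 2) :
    (1 - κ / 4 / 8) * N ^ 2 ≤
      om2 * (((KL_T N).filter (fun v => ‖sp v y‖ ≤ Real.exp (-(σ * N)))).card : ℝ) := by
  classical
  obtain ⟨l1, l2, hom, l3⟩ := q1_log
  have hδ0 : 0 < δ := by rw [hδ]; positivity
  have hδ1 : δ ≤ 1 / 256 := by rw [hδ]; linarith
  have hNlow : 0.51 * n ≤ N := by
    have h1 : (n : ℝ) * 0.69 ≤ n * Real.log 2 := mul_le_mul_of_nonneg_left l1 hnp.le
    have h2 : 3 / 4 * (n * Real.log 2) ≤ N := by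
      rw [hN]
      apply mul_le_mul_of_nonneg_right (by linarith)
      have : 0 < Real.log 2 := by linarith
      positivity
    linarith
  have hNp : 0 < N := by linarith
  set S : Finset (ℕ × ℕ) := (KL_T N).filter (fun v => ‖sp v y‖ ≤ Real.exp (-(σ * N))) with hS
  have hV := cnt_ge N hNp.le
  set X1 : Finset (ℕ × ℕ) := Finset.range (m / 4) ×ˢ Finset.range n with hX1
  set X2 : Finset (ℕ × ℕ) := Finset.range n ×ˢ Finset.range (m / 4) with hX2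
  set F : Finset (ℕ × ℕ) := (bx n).filter (fun v => m / 4 ≤ v.1 ∧ m / 4 ≤ v.2 ∧ v.1 + m ≤ n ∧
    v.2 + m ≤ n ∧ sp v y ∈ dp T) with hF
  have hFc := q1_cover y (dp T) n m hm8 B hB0 hbox F (fun v hv => (Finset.mem_filter.1 hv).2)
  have hcov : KL_T N ⊆ S ∪ (X1 ∪ X2 ∪ F) := by
    intro v hv
    have hvN : LL v.1 v.2 < N := by rwa [KL_mem_T] at hv
    obtain ⟨hw1, hw2⟩ := q1_side κ δ n m (by linarith) hm1 v (by rw [← hN]; exact hvN)
    rw [Finset.mem_union, Finset.mem_union, Finset.mem_union]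
    by_cases hc1 : v.1 < m / 4
    · right; left; left
      rw [hX1, Finset.mem_product, Finset.mem_range, Finset.mem_range]
      exact ⟨hc1, by omega⟩
    by_cases hc2 : v.2 < m / 4
    · right; left; right
      rw [hX2, Finset.mem_product, Finset.mem_range, Finset.mem_range]
      exact ⟨by omega, hc2⟩
    by_cases hc3 : ‖sp v y‖ ≤ Real.exp (-(σ * N))
    · left
      rw [hS, Finset.mem_filter]
      exact ⟨hv, hc3⟩
    · right; right
      rw [hF, Finset.mem_filter, mem_bx]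
      refine ⟨⟨by omega, by omega⟩, by omega, by omega, by omega, by omega, ?_⟩
      rw [not_le] at hc3
      show 1 / 36 * Real.exp (-T) ≤ ‖sp v y‖
      have h8 : Real.exp (-T) ≤ Real.exp (-(σ * N)) := Real.exp_le_exp.2 (by linarith)
      have h9 := Real.exp_pos (-T)
      linarith
  have hcc : ((KL_T N).card : ℝ) ≤ S.card + (X1.card + X2.card + F.card) := by
    have h1 := (Finset.card_le_card hcov).trans (Finset.card_union_le _ _)
    have h2 := Finset.card_union_le (X1 ∪ X2) F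
    have h3 := Finset.card_union_le X1 X2
    have h4 : (KL_T N).card ≤ S.card + (X1.card + X2.card + F.card) := by omega
    exact_mod_cast h4
  have hstrip := q1_strip δ n m hm1
  have hX1c : (X1.card : ℝ) ≤ δ / 4 * (n : ℝ) ^ 2 := by
    rw [hX1, Finset.card_product, Finset.card_range, Finset.card_range]
    push_cast
    exact hstrip
  have hX2c : (X2.card : ℝ) ≤ δ / 4 * (n : ℝ) ^ 2 := by
    rw [hX2, Finset.card_product, Finset.card_range, Finset.card_range]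
    push_cast
    rw [mul_comm]
    exact hstrip
  have hnk := q1_nk δ n m hδ0 hδ1 hnp hm3 hm8
  have hFc2 : (F.card : ℝ) ≤ (34 / δ) ^ 2 * B :=
    hFc.trans (mul_le_mul_of_nonneg_right (pow_le_pow_left₀ (Nat.cast_nonneg _) hnk 2) hB0)
  have hFc3 : 1.6 * (F.card : ℝ) ≤ κ / 512 * (n : ℝ) ^ 2 := by linarith
  have hNsq : 0.26 * (n : ℝ) ^ 2 ≤ N ^ 2 := by
    have h1 : (0.51 * (n : ℝ)) ^ 2 ≤ N ^ 2 := pow_le_pow_left₀ (by positivity) hNlow 2
    have h2 : 0 ≤ (n : ℝ) ^ 2 := by positivity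
    have h3 : (0.51 * (n : ℝ)) ^ 2 = 0.2601 * (n : ℝ) ^ 2 := by ring
    linarith
  have hn2 : 0 ≤ (n : ℝ) ^ 2 := by positivity
  have hbad : om2 * ((X1.card : ℝ) + X2.card + F.card) ≤ κ / 32 * N ^ 2 := by
    have h1 : om2 * ((X1.card : ℝ) + X2.card + F.card) ≤
        1.6 * ((X1.card : ℝ) + X2.card + F.card) :=
      mul_le_mul_of_nonneg_right hom (by positivity)
    have h2 : 1.6 * ((X1.card : ℝ) + X2.card + F.card) ≤
        1.6 * (δ / 2 * (n : ℝ) ^ 2) + κ / 512 * (n : ℝ) ^ 2 := by linarith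
    have h3 : 1.6 * (δ / 2 * (n : ℝ) ^ 2) + κ / 512 * (n : ℝ) ^ 2 ≤
        κ / 32 * (0.26 * (n : ℝ) ^ 2) := by
      rw [hδ]
      have : 0 ≤ κ * (n : ℝ) ^ 2 := by positivity
      linarith
    have h4 : κ / 32 * (0.26 * (n : ℝ) ^ 2) ≤ κ / 32 * N ^ 2 :=
      mul_le_mul_of_nonneg_left hNsq (by positivity)
    linarith
  have h5 : om2 * ((KL_T N).card : ℝ) ≤ om2 * (S.card + (X1.card + X2.card + F.card)) :=
    mul_le_mul_of_nonneg_left hcc om2_pos.le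
  have h6 : om2 * ((S.card : ℝ) + (X1.card + X2.card + F.card)) =
      om2 * (S.card : ℝ) + om2 * ((X1.card : ℝ) + X2.card + F.card) := by ring
  have h7 : (1 - κ / 4 / 8) * N ^ 2 = N ^ 2 - κ / 32 * N ^ 2 := by ring
  rw [h7]
  linarith

private theorem q1_F3 (κ δ C η n : ℝ) (hκ : 0 < κ) (hnp : 0 < n)
    (e2 : 64 * 8 * (1.6 * ((34 / δ) ^ 2 * C)) / κ ≤ n ^ (η / 4)) :
    1.6 * ((34 / δ) ^ 2 * (C * n ^ (2 - η / 4))) ≤ κ / 512 * n ^ 2 := by
  have h1 : n ^ (2 - η / 4) * n ^ (η / 4) = n ^ 2 := by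
    rw [← Real.rpow_add hnp, ← Real.rpow_two]
    congr 1
    ring
  rw [div_le_iff₀ hκ] at e2
  have h2 : 0 < n ^ (2 - η / 4) := Real.rpow_pos_of_pos hnp _
  have h3 := mul_le_mul_of_nonneg_left e2 h2.le
  have h4 : n ^ (2 - η / 4) * (n ^ (η / 4) * κ) = κ * n ^ 2 := by
    rw [← mul_assoc, h1]; ring
  rw [h4] at h3
  have h5 : n ^ (2 - η / 4) * (64 * 8 * (1.6 * ((34 / δ) ^ 2 * C))) =
      512 * (1.6 * ((34 / δ) ^ 2 * (C * n ^ (2 - η / 4)))) := by ring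
  rw [h5] at h3
  linarith

/-- q1 **the corner lemma** -/
theorem corner (η κ : ℝ) (hη : 0 < η) (hη1 : η ≤ 1) (hκ : 0 < κ) :
    ∃ n₀ : ℕ, ∀ n : ℕ, n₀ ≤ n → ∀ y : AddCircle (1 : ℝ),
      (cnt (bx n) far y : ℝ) ≤ (n : ℝ) ^ (2 - η) →
      ∀ u : ℕ × ℕ, κ * n ≤ u.1 → κ * n ≤ u.2 →
        ‖sp u y‖ ≤ Real.exp (LL u.1 u.2 - (1 - κ) * (n * Real.log 2)) := by
  classical
  obtain ⟨l1, l2, hom, l3⟩ := q1_log
  have hl2 : 0 < Real.log 2 := by linarith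
  have hl3 : 0 < Real.log 3 := by linarith
  rcases le_or_gt 1 κ with hκ1 | hκ1
  · refine ⟨0, fun n _ y _ u _ _ => ?_⟩
    have h1 : ‖sp u y‖ ≤ 1 := by
      have := AddCircle.norm_le_half_period (1 : ℝ) one_ne_zero (x := sp u y)
      rw [abs_one] at this
      linarith
    refine h1.trans (Real.one_le_exp ?_)
    have h2 := KL_LL_nonneg u.1 u.2
    have h3 : 0 ≤ (n : ℝ) * Real.log 2 := by positivity
    have h4 : (1 - κ) * ((n : ℝ) * Real.log 2) ≤ 0 :=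
      mul_nonpos_of_nonpos_of_nonneg (by linarith) h3
    linarith
  obtain ⟨G, c2, C, hG, hc2, hc21, hC, hin⟩ := inner (η / 2) (by linarith) (by linarith)
  obtain ⟨δ, hδ⟩ : ∃ δ : ℝ, δ = κ / 256 := ⟨_, rfl⟩
  have hδ0 : 0 < δ := by rw [hδ]; positivity
  have hδ1 : δ ≤ 1 / 256 := by rw [hδ]; linarith
  obtain ⟨σ, hσ0, hσ1, hσ2⟩ : ∃ σ : ℝ, 0 < σ ∧ σ ≤ κ / 64 ∧ σ ≤ c2 * δ / 4 :=
    ⟨min (κ / 64) (c2 * δ / 4), lt_min (by positivity) (by positivity), min_le_left _ _,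
      min_le_right _ _⟩
  obtain ⟨N0, hN0, hone⟩ := one_patch σ (κ / 4) hσ0 (by positivity) (by linarith) (by linarith)
  have ev1 : ∀ᶠ n : ℕ in atTop, (2 / δ) ^ 2 ≤ (n : ℝ) ^ (η / 2) :=
    ((tendsto_rpow_atTop (by linarith : (0 : ℝ) < η / 2)).comp
      tendsto_natCast_atTop_atTop).eventually_ge_atTop _
  have ev2 : ∀ᶠ n : ℕ in atTop, 64 * 8 * (1.6 * ((34 / δ) ^ 2 * C)) / κ ≤ (n : ℝ) ^ (η / 4) :=
    ((tendsto_rpow_atTop (by linarith : (0 : ℝ) < η / 4)).comp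
      tendsto_natCast_atTop_atTop).eventually_ge_atTop _
  have ev3 : ∀ᶠ n : ℕ in atTop, max (16 / δ) (max (2 * G / (c2 * δ)) (4 * N0)) ≤ (n : ℝ) :=
    tendsto_natCast_atTop_atTop.eventually_ge_atTop _
  obtain ⟨n₀, hn₀⟩ := eventually_atTop.1 (ev1.and (ev2.and ev3))
  refine ⟨n₀, fun n hn y hy u hu1 hu2 => ?_⟩
  obtain ⟨e1, e2, e3⟩ := hn₀ n hn
  have e3a : 16 / δ ≤ n := (le_max_left _ _).trans e3
  have e3b : 2 * G / (c2 * δ) ≤ n := ((le_max_left _ _).trans (le_max_right _ _)).trans e3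
  have e3c : 4 * N0 ≤ n := ((le_max_right _ _).trans (le_max_right _ _)).trans e3
  have hn1 : (1 : ℝ) ≤ n := by linarith
  have hnp : (0 : ℝ) < n := by linarith
  rw [div_le_iff₀ hδ0] at e3a
  rw [div_le_iff₀ (mul_pos hc2 hδ0)] at e3b
  -- the small boxes
  obtain ⟨m, hm⟩ : ∃ m : ℕ, m = ⌊δ * n⌋₊ := ⟨_, rfl⟩
  have hm1 : (m : ℝ) ≤ δ * n := by rw [hm]; exact Nat.floor_le (by positivity)
  have hm2 : δ * n - 1 < m := by rw [hm]; exact Nat.sub_one_lt_floor _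
  have hm3 : δ * n / 2 ≤ m := by linarith
  have hm8 : 8 ≤ m := by
    have : (8 : ℝ) ≤ m := by linarith
    exact_mod_cast this
  have hmp : (0 : ℝ) < m := by
    have : (8 : ℝ) ≤ m := by exact_mod_cast hm8
    linarith
  have hmn : (m : ℝ) ≤ n := by
    have h1 : δ * n ≤ 1 * n := mul_le_mul_of_nonneg_right (by linarith) hnp.le
    linarith
  -- the scale
  have hcm : c2 * (δ * n / 2) ≤ c2 * m := mul_le_mul_of_nonneg_left hm3 hc2.le
  have hGm : G ≤ c2 * m := by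
    have h1 : c2 * (δ * n / 2) = (n * (c2 * δ)) / 2 := by ring
    linarith
  obtain ⟨J, hJ1, hJ2⟩ := q1_scale G (c2 * m) (by linarith) hGm
  obtain ⟨T, hT⟩ : ∃ T : ℝ, T = G * 2 ^ J := ⟨_, rfl⟩
  have hT1 : c2 * δ / 4 * n ≤ T := by
    rw [pow_succ, ← mul_assoc, ← hT] at hJ2
    have h1 : c2 * (δ * n / 2) = 2 * (c2 * δ / 4 * n) := by ring
    linarith
  -- the mismatches in the small boxes
  have hpow := q1_pow η δ n m hη hη1 hδ0 hδ1 hnp hm3 e1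
  have hB0 : 0 ≤ C * (n : ℝ) ^ (2 - η / 4) :=
    mul_nonneg (by linarith) (Real.rpow_pos_of_pos hnp _).le
  have hbox : ∀ p : ℕ × ℕ, p.1 + m ≤ n → p.2 + m ≤ n →
      (cnt (ibx (m / 4) m) (dp T) (sp p y) : ℝ) ≤ C * (n : ℝ) ^ (2 - η / 4) := by
    intro p hp1 hp2
    have h1 : (cnt (bx m) far (sp p y) : ℝ) ≤ (m : ℝ) ^ (2 - η / 2) :=
      le_trans (le_trans (by exact_mod_cast q1_sub y far n m p hp1 hp2) hy) hpow
    have h2 := hin (sp p y) m J (by omega) hJ1 h1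
    rw [← hT] at h2
    refine h2.trans ?_
    have h3 : (2 : ℝ) - η / 2 / 2 = 2 - η / 4 := by ring
    rw [h3]
    exact mul_le_mul_of_nonneg_left (Real.rpow_le_rpow hmp.le hmn (by linarith)) (by linarith)
  -- the window
  obtain ⟨N, hN⟩ : ∃ N : ℝ, N = (1 - κ / 4) * (n * Real.log 2) := ⟨_, rfl⟩
  have hnl : 0 ≤ (n : ℝ) * Real.log 2 := by positivity
  have hNnl : N ≤ n * Real.log 2 := by
    have h1 : 0 ≤ κ / 4 * ((n : ℝ) * Real.log 2) := by positivity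
    rw [hN]
    linarith
  have hNn : N ≤ n := by
    have h1 : (n : ℝ) * Real.log 2 ≤ n * 1 := mul_le_mul_of_nonneg_left (by linarith) hnp.le
    linarith
  have hNlow : 0.51 * n ≤ N := by
    have h1 : (n : ℝ) * 0.69 ≤ n * Real.log 2 := mul_le_mul_of_nonneg_left l1 hnp.le
    have h2 : 3 / 4 * (n * Real.log 2) ≤ N := by
      rw [hN]
      exact mul_le_mul_of_nonneg_right (by linarith) hnl
    linarith
  have hNN0 : N0 ≤ N := by linarith
  have hNp : 0 < N := by linarith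
  have hTσ : σ * N ≤ T := by
    have h7 : σ * N ≤ c2 * δ / 4 * n :=
      mul_le_mul hσ2 hNn hNp.le (by positivity)
    linarith
  have hScard := q1_count κ δ σ T N (C * (n : ℝ) ^ (2 - η / 4)) n m y hκ hκ1 hδ hnp hm1 hm3 hm8
    hB0 hbox hN hTσ (q1_F3 κ δ C η n hκ hnp e2)
  have hκN : ∀ a : ℝ, κ * n ≤ a → κ / 4 * N ≤ a * Real.log 2 := by
    intro a ha
    have h1 : κ * n * Real.log 2 ≤ a * Real.log 2 := mul_le_mul_of_nonneg_right ha hl2.le
    have h3 : κ / 4 * N ≤ κ / 4 * (n * Real.log 2) :=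
      mul_le_mul_of_nonneg_left hNnl (by positivity)
    have h4 : 0 ≤ κ * (n * Real.log 2) := by positivity
    linarith
  have hfin := hone N hNN0 y ((KL_T N).filter (fun v => ‖sp v y‖ ≤ Real.exp (-(σ * N))))
    (fun v hv => by
      rw [Finset.mem_filter, KL_mem_T] at hv
      exact hv) hScard u (hκN u.1 hu1)
    ((hκN u.2 hu2).trans (mul_le_mul_of_nonneg_left l3 (Nat.cast_nonneg _)))
  refine hfin.trans (Real.exp_le_exp.2 ?_)
  have h1 : (1 - κ) * (n * Real.log 2) ≤ (1 - κ / 4) * N := by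
    have h3 : (1 - κ / 4) * N = ((1 - κ / 4) * (1 - κ / 4)) * (n * Real.log 2) := by
      rw [hN]; ring
    rw [h3]
    apply mul_le_mul_of_nonneg_right _ hnl
    have h2 : 0 ≤ κ ^ 2 := by positivity
    have h4 : (1 - κ / 4) * (1 - κ / 4) = 1 - κ / 2 + κ ^ 2 / 16 := by ring
    linarith
  linarith

end Pool.Agent.SupC
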