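import Pool.Agent.CplxN.Start

/-! Superquadratic complexity of the atomless `×2`, `×3`-invariant measures: definitions.
Text: team-store MP_e27144_an_super_helper11.md. -/

namespace Pool.Agent.SupC

open Pool.Agent.SubT Pool.Agent.SlowV Pool.Agent.CplxN

open scoped BigOperators ENNReal

open MeasureTheory Set

/-- the points without a good rational approximation with a small denominator:
`‖q x‖ ≥ e ^ (-b)` for `1 ≤ q ≤ e ^ a` -/
def Eab (a b : ℝ) : Set (AddCircle (1 : ℝ)) :=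
  {x | ∀ q : ℕ, 1 ≤ q → (q : ℝ) ≤ Real.exp a → Real.exp (-b) ≤ ‖q • x‖}

/-- the integer `2 ^ p.1 * 3 ^ p.2` -/
def sz (p : ℕ × ℕ) : ℤ := 2 ^ p.1 * 3 ^ p.2

/-- the meet of a finite set of pairs -/
noncomputable def mt (I : Finset (ℕ × ℕ)) : ℕ × ℕ :=
  (sInf ((fun p : ℕ × ℕ => p.1) '' (I : Set (ℕ × ℕ))),
    sInf ((fun p : ℕ × ℕ => p.2) '' (I : Set (ℕ × ℕ))))

/-- the logarithmic height of the projective point with coordinates `2 ^ p.1 * 3 ^ p.2`, `p ∈ I` -/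
noncomputable def ht (I : Finset (ℕ × ℕ)) : ℝ :=
  sSup ((fun p : ℕ × ℕ => LL p.1 p.2) '' (I : Set (ℕ × ℕ))) - LL (mt I).1 (mt I).2

/-- the central point of the window `L < N` -/
noncomputable def e0 (N : ℝ) : ℕ × ℕ :=
  (⌈N / (4 * Real.log 2)⌉₊, ⌈N / (4 * Real.log 3)⌉₊)

end Pool.Agent.SupC
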