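import Pool.Agent.SupC.Defs

/-! Superquadratic complexity: runs of approximable points in the direction of `×2`.
Text, (r1), (r2). -/

namespace Pool.Agent.SupC

open Pool.Agent.SubT Pool.Agent.SlowV Pool.Agent.CplxN

open scoped BigOperators ENNReal

open MeasureTheory Set

-- BEGIN r1

theorem r1_norm (q : ℕ) (t : ℝ) : ‖q • (t : AddCircle (1 : ℝ))‖ = |q * t - round (q * t)| := by
  have h : q • (t : AddCircle (1 : ℝ)) = ((q * t : ℝ) : AddCircle (1 : ℝ)) := by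
    rw [← AddCircle.coe_nsmul, nsmul_eq_mul]
  rw [h]
  exact UnitAddCircle.norm_eq

theorem r1_le (q : ℕ) (t : ℝ) (P : ℤ) : ‖q • (t : AddCircle (1 : ℝ))‖ ≤ |q * t - P| := by
  rw [r1_norm]
  exact round_le _ _

theorem r1_not (a b : ℝ) (t : ℝ) (j : ℕ) (h : (2 ^ j : ℕ) • (t : AddCircle (1 : ℝ)) ∉ Eab a b) :
    ∃ (q : ℕ) (P : ℤ), 1 ≤ q ∧ (q : ℝ) ≤ Real.exp a ∧ |q * 2 ^ j * t - P| < Real.exp (-b) := by
  by_contra hcon
  push Not at hcon
  apply h
  intro q h1 h2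
  rw [smul_smul, r1_norm]
  have h4 : (((q * 2 ^ j : ℕ) : ℝ)) = q * 2 ^ j := by push_cast; rfl
  rw [h4]
  exact hcon q _ h1 h2

theorem r1_zero {n : ℤ} (h : |(n : ℝ)| < 1) : n = 0 := by
  have h1 : |n| < 1 := by exact_mod_cast h
  exact Int.abs_lt_one_iff.1 h1

/-- r1 -/
theorem run_big (a b : ℝ) (ha : 0 ≤ a) (hab : a + 2 ≤ b) (x : AddCircle (1 : ℝ)) (k : ℕ)
    (h : ∀ j ≤ k, (2 ^ j : ℕ) • x ∉ Eab a b) :
    ∃ q : ℕ, 1 ≤ q ∧ (q : ℝ) ≤ Real.exp a ∧ ‖q • x‖ ≤ Real.exp (a - b) / 2 ^ k := by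
  obtain ⟨t, rfl⟩ := QuotientAddGroup.mk_surjective x
  change ∀ j ≤ k, (2 ^ j : ℕ) • (t : AddCircle (1 : ℝ)) ∉ Eab a b at h
  change ∃ q : ℕ, 1 ≤ q ∧ (q : ℝ) ≤ Real.exp a ∧ ‖q • (t : AddCircle (1 : ℝ))‖ ≤ Real.exp (a - b) / 2 ^ k
  have hea : 0 < Real.exp a := Real.exp_pos a
  have heb : 0 < Real.exp (-b) := Real.exp_pos _
  have h4 : Real.exp a * Real.exp (-b) < 1 / 4 := by
    rw [← Real.exp_add]
    have h1 : Real.exp (a + -b) ≤ Real.exp (-2) := Real.exp_le_exp.2 (by linarith)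
    have h2 : Real.exp (-2) < 1 / 4 := by
      rw [Real.exp_neg, ← one_div]
      apply one_div_lt_one_div_of_lt (by norm_num)
      have h3 : (2 : ℝ) < Real.exp 1 := lt_trans (by norm_num) Real.exp_one_gt_d9
      have h5 : Real.exp 2 = Real.exp 1 * Real.exp 1 := by rw [← Real.exp_add]; norm_num
      rw [h5]
      nlinarith
    linarith
  obtain ⟨q0, P0, h01, h02, h03⟩ := r1_not a b t 0 (h 0 (Nat.zero_le k))
  have key : ∀ j ≤ k, ∃ (q : ℕ) (P : ℤ), 1 ≤ q ∧ (q : ℝ) ≤ Real.exp a ∧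
      |q * 2 ^ j * t - P| < Real.exp (-b) ∧ (q0 : ℤ) * P = P0 * q * 2 ^ j := by
    intro j
    induction j with
    | zero =>
      intro _
      refine ⟨q0, P0, h01, h02, h03, ?_⟩
      ring
    | succ j ih =>
      intro hj
      obtain ⟨q, P, hq1, hq2, hq3, hq4⟩ := ih (by omega)
      obtain ⟨q', P', hp1, hp2, hp3⟩ := r1_not a b t (j + 1) (h (j + 1) hj)
      refine ⟨q', P', hp1, hp2, hp3, ?_⟩
      have hz : (q : ℤ) * P' - 2 * q' * P = 0 := by
        apply r1_zero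
        push_cast
        have e1 : (q : ℝ) * P' - 2 * q' * P =
            2 * q' * (q * 2 ^ j * t - P) - q * (q' * 2 ^ (j + 1) * t - P') := by ring
        rw [e1]
        have hq0 : (0 : ℝ) < q := by exact_mod_cast hq1
        have hp0 : (0 : ℝ) < q' := by exact_mod_cast hp1
        calc |2 * q' * (q * 2 ^ j * t - P) - q * (q' * 2 ^ (j + 1) * t - P')|
            ≤ |2 * q' * (q * 2 ^ j * t - P)| + |q * (q' * 2 ^ (j + 1) * t - P')| := abs_sub _ _
          _ = 2 * q' * |q * 2 ^ j * t - P| + q * |q' * 2 ^ (j + 1) * t - P'| := by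
              rw [abs_mul, abs_mul (q : ℝ), abs_of_pos (by positivity : (0 : ℝ) < 2 * q'), abs_of_pos hq0]
          _ ≤ 2 * Real.exp a * Real.exp (-b) + Real.exp a * Real.exp (-b) := by
              apply add_le_add
              · exact mul_le_mul (by linarith) hq3.le (abs_nonneg _) (by positivity)
              · exact mul_le_mul hq2 hp3.le (abs_nonneg _) (by positivity)
          _ < 1 := by nlinarith
      have hq0 : (q : ℤ) ≠ 0 := by exact_mod_cast (by omega : q ≠ 0)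
      apply mul_left_cancel₀ hq0
      have e2 : (q : ℤ) * P' = 2 * q' * P := by linarith
      calc (q : ℤ) * (q0 * P') = q0 * (q * P') := by ring
        _ = 2 * q' * (q0 * P) := by rw [e2]; ring
        _ = (q : ℤ) * (P0 * q' * 2 ^ (j + 1)) := by rw [hq4]; ring
  obtain ⟨q, P, hq1, hq2, hq3, hq4⟩ := key k le_rfl
  refine ⟨q0, h01, h02, ?_⟩
  refine (r1_le q0 t P0).trans ?_
  have hq0 : (0 : ℝ) < q := by exact_mod_cast hq1
  have h00 : (0 : ℝ) < q0 := by exact_mod_cast h01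
  have hqr : (1 : ℝ) ≤ q := by exact_mod_cast hq1
  have h4r : (q0 : ℝ) * P = P0 * q * 2 ^ k := by exact_mod_cast hq4
  have e3 : (q0 * t - P0 : ℝ) * (q * 2 ^ k) = q0 * (q * 2 ^ k * t - P) := by
    calc (q0 * t - P0 : ℝ) * (q * 2 ^ k) = q0 * (q * 2 ^ k * t) - P0 * q * 2 ^ k := by ring
      _ = q0 * (q * 2 ^ k * t - P) := by rw [← h4r]; ring
  have e4 : |(q0 * t - P0 : ℝ)| * (q * 2 ^ k) = q0 * |q * 2 ^ k * t - P| := by
    rw [← abs_of_pos (by positivity : (0 : ℝ) < q * 2 ^ k), ← abs_mul, e3, abs_mul, abs_of_pos h00,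
      abs_of_pos (by positivity : (0 : ℝ) < q * 2 ^ k)]
  rw [le_div_iff₀ (by positivity), show a - b = a + -b from sub_eq_add_neg a b, Real.exp_add]
  calc |(q0 * t - P0 : ℝ)| * 2 ^ k ≤ |(q0 * t - P0 : ℝ)| * (q * 2 ^ k) := by
        apply mul_le_mul_of_nonneg_left _ (abs_nonneg _)
        nlinarith [pow_pos (by norm_num : (0 : ℝ) < 2) k]
    _ = q0 * |q * 2 ^ k * t - P| := e4
    _ ≤ Real.exp a * Real.exp (-b) := mul_le_mul h02 hq3.le (abs_nonneg _) hea.le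

-- END r1

-- BEGIN r2

/-- r2 -/
theorem run_E (a b : ℝ) (ha : 0 ≤ a) (hab : a + 2 ≤ b) (x : AddCircle (1 : ℝ))
    (h1 : x ∉ Eab a b) (h2 : (2 : ℕ) • x ∈ Eab a b) (j : ℕ) (hj : 1 ≤ j)
    (hj2 : (2 : ℝ) ^ j ≤ Real.exp (b - a) / 4) : (2 ^ j : ℕ) • x ∈ Eab a b := by
  by_contra h3
  obtain ⟨t, rfl⟩ := QuotientAddGroup.mk_surjective x
  change (t : AddCircle (1 : ℝ)) ∉ Eab a b at h1
  change (2 : ℕ) • (t : AddCircle (1 : ℝ)) ∈ Eab a b at h2
  change (2 ^ j : ℕ) • (t : AddCircle (1 : ℝ)) ∉ Eab a b at h3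
  have hea : 0 < Real.exp a := Real.exp_pos a
  have heb : 0 < Real.exp (-b) := Real.exp_pos _
  -- the minimal denominator
  have hex : ∃ q : ℕ, 1 ≤ q ∧ (q : ℝ) ≤ Real.exp a ∧ ∃ P : ℤ, |q * t - P| < Real.exp (-b) := by
    obtain ⟨q, P, g1, g2, g3⟩ := r1_not a b t 0 (by rwa [pow_zero, one_smul])
    exact ⟨q, g1, g2, P, by rwa [pow_zero, mul_one] at g3⟩
  classical
  set q := Nat.find hex with hqdef
  obtain ⟨hq1, hq2, P, hq3⟩ := Nat.find_spec hex
  rw [← hqdef] at hq1 hq2 hq3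
  have hmin : ∀ m < q, ¬ (1 ≤ m ∧ (m : ℝ) ≤ Real.exp a ∧ ∃ P : ℤ, |m * t - P| < Real.exp (-b)) :=
    fun m hm => Nat.find_min hex hm
  have hq0 : (0 : ℝ) < q := by exact_mod_cast hq1
  -- q odd
  have hodd : ¬ 2 ∣ q := by
    rintro ⟨m, hm⟩
    have hm1 : 1 ≤ m := by omega
    have hm2 : (m : ℝ) ≤ Real.exp a := by
      have : (m : ℝ) ≤ q := by exact_mod_cast (by omega : m ≤ q)
      linarith
    have h4 := h2 m hm1 hm2
    rw [smul_smul, mul_comm m 2, ← hm] at h4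
    exact absurd (h4.trans (r1_le q t P)) (not_le.2 hq3)
  -- gcd (q, P) = 1
  have hcop : IsCoprime (q : ℤ) P := by
    rw [Int.isCoprime_iff_gcd_eq_one]
    by_contra hg
    set g := Int.gcd q P with hgdef
    have hg0 : g ≠ 0 := by
      intro h0
      have := (Int.gcd_eq_zero_iff.1 (hgdef ▸ h0)).1
      omega
    have hg2 : 2 ≤ g := by omega
    obtain ⟨m, hm⟩ : (g : ℤ) ∣ q := Int.gcd_dvd_left ..
    obtain ⟨P1, hP1⟩ : (g : ℤ) ∣ P := Int.gcd_dvd_right ..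
    have hgz : (2 : ℤ) ≤ g := by exact_mod_cast hg2
    have hqz : (1 : ℤ) ≤ q := by exact_mod_cast hq1
    have hm1 : 1 ≤ m := by
      by_contra hm0
      have : m ≤ 0 := by omega
      nlinarith
    have hmq : m < q := by nlinarith
    obtain ⟨m', rfl⟩ := Int.eq_ofNat_of_zero_le (by omega : 0 ≤ m)
    have hmq' : m' < q := by exact_mod_cast hmq
    apply hmin m' hmq'
    refine ⟨by exact_mod_cast hm1, ?_, P1, ?_⟩
    · have : (m' : ℝ) ≤ q := by exact_mod_cast hmq'.le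
      linarith
    · have e1 : (q : ℝ) = g * m' := by exact_mod_cast hm
      have e2 : (P : ℝ) = g * P1 := by exact_mod_cast hP1
      have e3 : (q * t - P : ℝ) = g * (m' * t - P1) := by rw [e1, e2]; ring
      rw [e3, abs_mul, Nat.abs_cast] at hq3
      have hgr : (1 : ℝ) ≤ g := by exact_mod_cast (by omega : 1 ≤ g)
      nlinarith [abs_nonneg (m' * t - P1 : ℝ)]
  -- the bad multiple
  obtain ⟨q', P', hp1, hp2, hp3⟩ := r1_not a b t j h3
  have hp0 : (0 : ℝ) < q' := by exact_mod_cast hp1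
  have hz : (q : ℤ) * P' - q' * 2 ^ j * P = 0 := by
    apply r1_zero
    push_cast
    have e1 : (q : ℝ) * P' - q' * 2 ^ j * P =
        q' * 2 ^ j * (q * t - P) - q * (q' * 2 ^ j * t - P') := by ring
    rw [e1]
    have e5 : Real.exp a * (Real.exp (b - a) / 4) * Real.exp (-b) = 1 / 4 := by
      have : Real.exp a * Real.exp (b - a) * Real.exp (-b) = 1 := by
        rw [← Real.exp_add, ← Real.exp_add, ← Real.exp_zero]
        congr 1
        ring
      linarith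
    have e6 : Real.exp a * Real.exp (-b) < 1 / 4 := by
      rw [← Real.exp_add]
      have h1 : Real.exp (a + -b) ≤ Real.exp (-2) := Real.exp_le_exp.2 (by linarith)
      have h2 : Real.exp (-2) < 1 / 4 := by
        rw [Real.exp_neg, ← one_div]
        apply one_div_lt_one_div_of_lt (by norm_num)
        have h3 : (2 : ℝ) < Real.exp 1 := lt_trans (by norm_num) Real.exp_one_gt_d9
        have h5 : Real.exp 2 = Real.exp 1 * Real.exp 1 := by rw [← Real.exp_add]; norm_num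
        rw [h5]
        nlinarith
      linarith
    calc |q' * 2 ^ j * (q * t - P) - q * (q' * 2 ^ j * t - P')|
        ≤ |q' * 2 ^ j * (q * t - P)| + |q * (q' * 2 ^ j * t - P')| := abs_sub _ _
      _ = q' * 2 ^ j * |q * t - P| + q * |q' * 2 ^ j * t - P'| := by
          rw [abs_mul, abs_mul (q : ℝ), abs_of_pos (by positivity : (0 : ℝ) < q' * 2 ^ j), abs_of_pos hq0]
      _ ≤ Real.exp a * (Real.exp (b - a) / 4) * Real.exp (-b) + Real.exp a * Real.exp (-b) := by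
          apply add_le_add
          · apply mul_le_mul _ hq3.le (abs_nonneg _) (by positivity)
            exact mul_le_mul hp2 hj2 (by positivity) hea.le
          · exact mul_le_mul hq2 hp3.le (abs_nonneg _) (by positivity)
      _ < 1 := by linarith
  have hz' : (q : ℤ) * P' = q' * 2 ^ j * P := by linarith
  have hdvd : (q : ℤ) ∣ q' := by
    have d1 : (q : ℤ) ∣ q' * 2 ^ j * P := ⟨P', hz'.symm⟩
    have d2 : (q : ℤ) ∣ q' * 2 ^ j := hcop.dvd_of_dvd_mul_right d1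
    have d3 : IsCoprime (q : ℤ) (2 ^ j) := by
      apply IsCoprime.pow_right
      rw [Int.isCoprime_iff_gcd_eq_one]
      have : Nat.Coprime q 2 := by
        rw [Nat.coprime_comm]
        exact (Nat.Prime.coprime_iff_not_dvd Nat.prime_two).2 hodd
      exact_mod_cast this
    exact d3.dvd_of_dvd_mul_right d2
  obtain ⟨m, hm⟩ := hdvd
  have hqz : (1 : ℤ) ≤ q := by exact_mod_cast hq1
  have hpz : (1 : ℤ) ≤ q' := by exact_mod_cast hp1
  have hm1 : 1 ≤ m := by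
    by_contra hm0
    have : m ≤ 0 := by omega
    nlinarith
  have hP : P' = m * 2 ^ j * P := by
    have hq0' : (q : ℤ) ≠ 0 := by omega
    apply mul_left_cancel₀ hq0'
    rw [hz', hm]
    ring
  -- contradiction to 2 x ∈ E
  have e7 : (q' * 2 ^ j * t - P' : ℝ) = m * 2 ^ j * (q * t - P) := by
    have g1 : (q' : ℝ) = q * m := by exact_mod_cast hm
    have g2 : (P' : ℝ) = m * 2 ^ j * P := by exact_mod_cast hP
    rw [g1, g2]
    ring
  have hmr : (1 : ℝ) ≤ m := by exact_mod_cast hm1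
  have h2j : (2 : ℝ) ≤ 2 ^ j := by
    calc (2 : ℝ) = 2 ^ 1 := by norm_num
      _ ≤ 2 ^ j := pow_le_pow_right₀ (by norm_num) hj
  have h5 := h2 q hq1 hq2
  have h6 : ‖q • (2 : ℕ) • (t : AddCircle (1 : ℝ))‖ ≤ 2 * |q * t - P| := by
    rw [smul_smul]
    refine (r1_le (q * 2) t (2 * P)).trans ?_
    have e8 : (((q * 2 : ℕ) : ℝ) * t - ((2 * P : ℤ) : ℝ)) = 2 * (q * t - P) := by push_cast; ring
    rw [e8, abs_mul, abs_two]
  rw [e7, abs_mul, abs_of_pos (by positivity : (0 : ℝ) < m * 2 ^ j)] at hp3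
  have h7 : 2 * |q * t - P| ≤ m * 2 ^ j * |q * t - P| := by
    apply mul_le_mul_of_nonneg_right _ (abs_nonneg _)
    nlinarith
  linarith

-- END r2

-- BEGIN r3

open Classical in
/-- r3 -/
theorem run_count (a b : ℝ) (ha : 0 ≤ a) (hab : a + 2 ≤ b) (x : AddCircle (1 : ℝ)) (k k' : ℕ)
    (hk : (2 : ℝ) ^ k' ≤ Real.exp (b - a) / 4) :
    x ∈ Eab a b ∨ (∃ q : ℕ, 1 ≤ q ∧ (q : ℝ) ≤ Real.exp a ∧ ‖q • x‖ ≤ Real.exp (a - b) / 2 ^ k) ∨
      k' ≤ ((Finset.range (k + k' + 1)).filter fun j => (2 ^ j : ℕ) • x ∈ Eab a b).card := by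
  by_cases h1 : x ∈ Eab a b
  · exact Or.inl h1
  by_cases h2 : ∃ q : ℕ, 1 ≤ q ∧ (q : ℝ) ≤ Real.exp a ∧ ‖q • x‖ ≤ Real.exp (a - b) / 2 ^ k
  · exact Or.inr (Or.inl h2)
  refine Or.inr (Or.inr ?_)
  have h3 : ∃ j, j ≤ k ∧ (2 ^ j : ℕ) • x ∈ Eab a b := by
    by_contra h
    push Not at h
    exact h2 (run_big a b ha hab x k h)
  set j0 := Nat.find h3 with hj0
  obtain ⟨hk0, hE0⟩ := Nat.find_spec h3
  rw [← hj0] at hk0 hE0
  have hne : j0 ≠ 0 := by
    intro h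
    rw [h, pow_zero, one_smul] at hE0
    exact h1 hE0
  obtain ⟨i0, hi0⟩ := Nat.exists_eq_succ_of_ne_zero hne
  have hy1 : (2 ^ i0 : ℕ) • x ∉ Eab a b := by
    intro h
    exact Nat.find_min h3 (m := i0) (by rw [← hj0]; omega) ⟨by omega, h⟩
  have hy2 : (2 : ℕ) • (2 ^ i0 : ℕ) • x ∈ Eab a b := by
    rw [smul_smul]
    have : 2 * 2 ^ i0 = 2 ^ j0 := by rw [hi0, Nat.succ_eq_add_one, pow_succ]; ring
    rw [this]
    exact hE0
  have hsub : (Finset.Ico (i0 + 1) (i0 + 1 + k')) ⊆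
      (Finset.range (k + k' + 1)).filter fun j => (2 ^ j : ℕ) • x ∈ Eab a b := by
    intro i hi
    rw [Finset.mem_Ico] at hi
    rw [Finset.mem_filter, Finset.mem_range]
    refine ⟨by omega, ?_⟩
    obtain ⟨l, rfl⟩ := Nat.exists_eq_add_of_le (by omega : i0 ≤ i)
    have h5 : (2 ^ l : ℕ) • (2 ^ i0 : ℕ) • x ∈ Eab a b := by
      apply run_E a b ha hab _ hy1 hy2 l (by omega)
      refine le_trans (pow_le_pow_right₀ (by norm_num) (by omega : l ≤ k')) hk
    rw [smul_smul] at h5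
    rwa [pow_add, mul_comm]
  have h6 := Finset.card_le_card hsub
  rw [Nat.card_Ico] at h6
  omega

-- END r3

end Pool.Agent.SupC
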