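import Pool.Agent.SupC.Big
import Pool.Agent.SupC.Run

/-! Superquadratic complexity: the local density of `Eab`. Text, (k2). -/

namespace Pool.Agent.SupC

open Pool.Agent.SubT Pool.Agent.SlowV Pool.Agent.CplxN

open scoped BigOperators ENNReal

open MeasureTheory Set

-- BEGIN k2 (helper63)

private theorem k2_sp (u : ℕ × ℕ) (j : ℕ) (w : AddCircle (1 : ℝ)) :
    sp (u + (j, 0)) w = (2 ^ j : ℕ) • sp u w := by
  rw [add_comm, sp_add, sp_zero_right]

open Classical in
/-- double counting -/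
private theorem k2_count (G T : Finset (ℕ × ℕ)) (E : Set (AddCircle (1 : ℝ)))
    (w : AddCircle (1 : ℝ)) (k' D : ℕ) (hD : k' ≤ D)
    (hT : ∀ u ∈ G, ∀ j < D, sp (u + (j, 0)) w ∈ E → u + (j, 0) ∈ T)
    (h0 : 1 ≤ D)
    (hG : ∀ u ∈ G, sp u w ∈ E ∨
      k' ≤ ((Finset.range D).filter fun j => (2 ^ j : ℕ) • sp u w ∈ E).card) :
    k' * G.card ≤ 2 * D * T.card := by
  set G1 := G.filter (fun u => sp u w ∈ E) with hG1
  set G2 := G.filter (fun u => ¬ sp u w ∈ E) with hG2
  have h1 : G1.card + G2.card = G.card := Finset.card_filter_add_card_filter_not _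
  have h2 : G1.card ≤ T.card := by
    apply Finset.card_le_card
    intro u hu
    rw [hG1, Finset.mem_filter] at hu
    have h := hT u hu.1 0 (by omega) (by
      have e : u + ((0, 0) : ℕ × ℕ) = u := add_zero u
      rw [e]
      exact hu.2)
    have e : u + ((0, 0) : ℕ × ℕ) = u := add_zero u
    rwa [e] at h
  have h3 : k' * G2.card ≤ ∑ u ∈ G2,
      ((Finset.range D).filter fun j => (2 ^ j : ℕ) • sp u w ∈ E).card := by
    have := Finset.card_nsmul_le_sum G2
      (fun u => ((Finset.range D).filter fun j => (2 ^ j : ℕ) • sp u w ∈ E).card) k'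
      (fun u hu => by
        rw [hG2, Finset.mem_filter] at hu
        exact (hG u hu.1).resolve_left hu.2)
    rwa [smul_eq_mul, mul_comm] at this
  have h4 : ∑ u ∈ G2, ((Finset.range D).filter fun j => (2 ^ j : ℕ) • sp u w ∈ E).card ≤
      T.card * D := by
    rw [← Finset.card_sigma]
    have e : (T ×ˢ Finset.range D).card = T.card * D := by
      rw [Finset.card_product, Finset.card_range]
    rw [← e]
    refine Finset.card_le_card_of_injOn (fun x => (x.1 + (x.2, 0), x.2)) ?_ ?_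
    · rintro ⟨u, j⟩ hx
      rw [Finset.mem_coe, Finset.mem_sigma] at hx
      obtain ⟨hu, hj⟩ := hx
      simp only at hu hj
      rw [Finset.mem_filter, Finset.mem_range] at hj
      rw [hG2, Finset.mem_filter] at hu
      rw [Finset.mem_coe, Finset.mem_product]
      refine ⟨hT u hu.1 j hj.1 ?_, Finset.mem_range.2 hj.1⟩
      rw [k2_sp]
      exact hj.2
    · rintro ⟨u, j⟩ _ ⟨u', j'⟩ _ h
      simp only [Prod.mk.injEq] at h
      obtain ⟨h, rfl⟩ := h
      have := add_right_cancel h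
      rw [this]
  calc k' * G.card = k' * G1.card + k' * G2.card := by rw [← h1, mul_add]
    _ ≤ D * T.card + T.card * D := Nat.add_le_add (Nat.mul_le_mul hD h2) (h3.trans h4)
    _ = 2 * D * T.card := by ring

/-- k2 -/
theorem dens (C1 C' θ : ℝ) (hC1 : 1 ≤ C1) (hC : 80 * C1 ≤ C') (hθ : 0 < θ) (hθ1 : θ ≤ 1 / 16)
    (h : C' * θ ≤ C1 ^ 2 / 1600) :
    ∃ R0 : ℝ, 1 ≤ R0 ∧ ∀ R ≥ R0, ∀ w : AddCircle (1 : ℝ),
      sp (e0 (C' * R)) w ∈ Eab (θ * R) (1 / 4 * R) →
      (C' * R) ^ 2 / (2000 * C1) ≤ (cnt (bx ⌈2 * (C' * R)⌉₊) (Eab (θ * R) (1 / 4 * R)) w : ℝ) := by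
  classical
  obtain ⟨R0, hR0, hbig⟩ := big_few C1 C' θ hC1 hC hθ hθ1 h
  refine ⟨max R0 1000, hR0.trans (le_max_left _ _), fun R hR w hw => ?_⟩
  have hR1 : R ≥ R0 := (le_max_left _ _).trans hR
  have hR2 : 1000 ≤ R := (le_max_right _ _).trans hR
  have hRpos : 0 < R := by linarith
  have hC1R : R ≤ C1 * R := by nlinarith
  have hC'R : 80 * (C1 * R) ≤ C' * R := by
    have := mul_le_mul_of_nonneg_right hC hRpos.le
    linarith
  obtain ⟨N, hN⟩ : ∃ N : ℝ, N = C' * R := ⟨_, rfl⟩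
  obtain ⟨E, hE⟩ : ∃ E : Set (AddCircle (1 : ℝ)), E = Eab (θ * R) (1 / 4 * R) := ⟨_, rfl⟩
  have hbig' := hbig R hR1 w hw
  rw [← hN] at hbig' hC'R ⊢
  rw [← hE]
  have l2 : (0.693 : ℝ) < Real.log 2 := by
    have := Real.log_two_gt_d9
    linarith
  have l2' : Real.log 2 < 0.694 := by
    have := Real.log_two_lt_d9
    linarith
  have l3 : (1 : ℝ) < Real.log 3 := by
    have h1 := Real.exp_one_lt_d9
    rw [Real.lt_log_iff_exp_lt (by norm_num)]
    linarith
  have l3' : Real.log 3 < 1.4 := by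
    have h1 : Real.log 3 ≤ Real.log 4 := Real.log_le_log (by norm_num) (by norm_num)
    have h2 : Real.log 4 = 2 * Real.log 2 := by
      rw [show (4 : ℝ) = 2 ^ 2 by norm_num, Real.log_pow]
      norm_num
    linarith
  have lpos : 0 < Real.log 2 := by linarith
  -- the lengths
  obtain ⟨k, hk⟩ : ∃ k : ℕ, k = ⌈C1 * R / Real.log 2⌉₊ := ⟨_, rfl⟩
  obtain ⟨k', hk'⟩ : ∃ k' : ℕ, k' = ⌊(3 / 16 * R - 2) / Real.log 2⌋₊ := ⟨_, rfl⟩
  have hk1 : C1 * R ≤ k * Real.log 2 := by
    have : C1 * R / Real.log 2 ≤ k := by rw [hk]; exact Nat.le_ceil _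
    rwa [div_le_iff₀ lpos] at this
  have hk2 : k * Real.log 2 ≤ C1 * R + 1 := by
    have h1 : (k : ℝ) < C1 * R / Real.log 2 + 1 := by
      rw [hk]; exact Nat.ceil_lt_add_one (by positivity)
    have h2 : (k : ℝ) * Real.log 2 ≤ (C1 * R / Real.log 2 + 1) * Real.log 2 :=
      mul_le_mul_of_nonneg_right h1.le lpos.le
    have h3 : (C1 * R / Real.log 2 + 1) * Real.log 2 = C1 * R + Real.log 2 := by
      field_simp
    linarith
  have hk3 : k' * Real.log 2 ≤ 3 / 16 * R - 2 := by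
    have : (k' : ℝ) ≤ (3 / 16 * R - 2) / Real.log 2 := by
      rw [hk']
      refine Nat.floor_le (div_nonneg (by linarith) lpos.le)
    rwa [le_div_iff₀ lpos] at this
  have hk4 : 18 / 100 * R ≤ k' * Real.log 2 := by
    have h1 : (3 / 16 * R - 2) / Real.log 2 < k' + 1 := by
      rw [hk']; exact Nat.lt_floor_add_one _
    rw [div_lt_iff₀ lpos] at h1
    linarith
  have hexp2 : (4 : ℝ) ≤ Real.exp 2 := by
    have h1 := Real.exp_one_gt_d9
    have h2 : Real.exp 2 = Real.exp 1 * Real.exp 1 := by rw [← Real.exp_add]; norm_num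
    rw [h2]
    nlinarith
  have hpow : ∀ j : ℕ, (2 : ℝ) ^ j = Real.exp (j * Real.log 2) := fun j => by
    rw [mul_comm, Real.exp_mul, Real.exp_log (by norm_num), Real.rpow_natCast]
  have hab : θ * R + 2 ≤ 1 / 4 * R := by nlinarith
  have hab2 : 3 / 16 * R ≤ 1 / 4 * R - θ * R := by nlinarith
  have hkk : (2 : ℝ) ^ k' ≤ Real.exp (1 / 4 * R - θ * R) / 4 := by
    rw [le_div_iff₀ (by norm_num), hpow]
    calc Real.exp (k' * Real.log 2) * 4 ≤ Real.exp (k' * Real.log 2) * Real.exp 2 :=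
          mul_le_mul_of_nonneg_left hexp2 (Real.exp_pos _).le
      _ = Real.exp (k' * Real.log 2 + 2) := by rw [← Real.exp_add]
      _ ≤ Real.exp (1 / 4 * R - θ * R) := Real.exp_le_exp.2 (by linarith)
  have hkb : Real.exp (θ * R - 1 / 4 * R) / 2 ^ k ≤ Real.exp (-(C1 * R)) := by
    rw [hpow, ← Real.exp_sub]
    exact Real.exp_le_exp.2 (by linarith)
  -- the sets
  set V := KL_T N with hV
  set S := V.filter (fun u => ∃ q : ℕ, 1 ≤ q ∧ (q : ℝ) ≤ Real.exp (θ * R) ∧
    ‖q • sp u w‖ ≤ Real.exp (-(C1 * R))) with hS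
  set G := V.filter (fun u => ¬ ∃ q : ℕ, 1 ≤ q ∧ (q : ℝ) ≤ Real.exp (θ * R) ∧
    ‖q • sp u w‖ ≤ Real.exp (-(C1 * R))) with hG
  have hSG : S.card + G.card = V.card := Finset.card_filter_add_card_filter_not _
  have hSc : om2 * (S.card : ℝ) ≤ 93 / 100 * N ^ 2 := by
    refine hbig' S fun u hu => ?_
    rw [hS, Finset.mem_filter, hV, KL_mem_T] at hu
    exact hu
  have hNpos : 0 < N := by linarith
  have hVc : N ^ 2 ≤ om2 * (V.card : ℝ) := cnt_ge N hNpos.le
  have hGc : 7 / 100 * N ^ 2 ≤ om2 * (G.card : ℝ) := by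
    have e : (S.card : ℝ) + G.card = V.card := by exact_mod_cast hSG
    rw [← e, mul_add] at hVc
    linarith
  set T := (bx ⌈2 * N⌉₊).filter (fun p => sp p w ∈ E) with hT
  have hcnt : (cnt (bx ⌈2 * N⌉₊) E w : ℝ) = T.card := by
    unfold cnt
    rw [hT]
  rw [hcnt]
  have hmain : k' * G.card ≤ 2 * (k + k' + 1) * T.card := by
    refine k2_count G T E w k' (k + k' + 1) (by omega) ?_ (by omega) ?_
    · intro u hu j hj hE'
      rw [hG, Finset.mem_filter, hV, KL_mem_T] at hu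
      rw [hT, Finset.mem_filter, mem_bx]
      refine ⟨?_, hE'⟩
      have hu1 := hu.1
      unfold LL at hu1
      have a1 : (0 : ℝ) ≤ u.1 := Nat.cast_nonneg _
      have a2 : (0 : ℝ) ≤ u.2 := Nat.cast_nonneg _
      have a3 : (0 : ℝ) ≤ u.1 * Real.log 2 := by positivity
      have a4 : (0 : ℝ) ≤ u.2 * Real.log 3 := by positivity
      have a5 : (u.1 : ℝ) * 0.693 ≤ u.1 * Real.log 2 := mul_le_mul_of_nonneg_left l2.le a1
      have a6 : (u.2 : ℝ) * 1 ≤ u.2 * Real.log 3 := mul_le_mul_of_nonneg_left l3.le a2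
      have hj1 : (j : ℝ) ≤ k + k' := by
        have : j ≤ k + k' := by omega
        exact_mod_cast this
      have hj2 : (j : ℝ) * Real.log 2 ≤ k * Real.log 2 + k' * Real.log 2 := by
        rw [← add_mul]
        exact mul_le_mul_of_nonneg_right hj1 lpos.le
      have a7 : (j : ℝ) * 0.693 ≤ j * Real.log 2 :=
        mul_le_mul_of_nonneg_left l2.le (Nat.cast_nonneg _)
      have hceil : 2 * N ≤ (⌈2 * N⌉₊ : ℝ) := Nat.le_ceil _
      have e1 : (u + ((j, 0) : ℕ × ℕ)).1 = u.1 + j := rfl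
      have e2 : (u + ((j, 0) : ℕ × ℕ)).2 = u.2 := rfl
      rw [e1, e2]
      constructor
      · have h5 : ((u.1 + j : ℕ) : ℝ) < (⌈2 * N⌉₊ : ℝ) := by
          push_cast
          linarith
        exact_mod_cast h5
      · have h5 : ((u.2 : ℕ) : ℝ) < (⌈2 * N⌉₊ : ℝ) := by
          linarith
        exact_mod_cast h5
    · intro u hu
      rw [hG, Finset.mem_filter] at hu
      rcases run_count (θ * R) (1 / 4 * R) (by positivity) hab (sp u w) k k' hkk with h1 | h1 | h1
      · exact Or.inl (by rw [hE]; exact h1)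
      · exfalso
        obtain ⟨q, hq1, hq2, hq3⟩ := h1
        exact hu.2 ⟨q, hq1, hq2, hq3.trans hkb⟩
      · right
        rw [hE]
        exact h1
  have hmain' : (k' : ℝ) * G.card ≤ 2 * (k + k' + 1) * T.card := by exact_mod_cast hmain
  have hom : om2 ≤ 4 := by
    have h5 : Real.log 2 * Real.log 3 ≤ 0.694 * 1.4 :=
      mul_le_mul l2'.le l3'.le (by linarith) (by norm_num)
    unfold om2
    linarith
  have hDl : ((k : ℝ) + k' + 1) * Real.log 2 ≤ 119 / 100 * (C1 * R) := by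
    have e : ((k : ℝ) + k' + 1) * Real.log 2 = k * Real.log 2 + k' * Real.log 2 + Real.log 2 := by
      ring
    rw [e]
    linarith
  have hTc : (0 : ℝ) ≤ T.card := Nat.cast_nonneg _
  have hGc0 : (0 : ℝ) ≤ G.card := Nat.cast_nonneg _
  have hk'0 : (0 : ℝ) ≤ k' := Nat.cast_nonneg _
  have c1 : 18 / 100 * R * (7 / 100 * N ^ 2) ≤ (k' * Real.log 2) * (om2 * G.card) :=
    mul_le_mul hk4 hGc (by positivity) (by positivity)
  have c2 : (k' * Real.log 2) * (om2 * G.card) ≤
      (om2 * Real.log 2) * (2 * (k + k' + 1) * T.card) := by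
    calc (k' * Real.log 2) * (om2 * G.card) = (om2 * Real.log 2) * (k' * G.card) := by ring
      _ ≤ _ := mul_le_mul_of_nonneg_left hmain' (mul_pos om2_pos lpos).le
  have c3 : (om2 * Real.log 2) * (2 * (k + k' + 1) * T.card) ≤
      8 * (119 / 100 * (C1 * R)) * T.card := by
    have e1 : (om2 * Real.log 2) * (2 * (k + k' + 1) * T.card) =
        om2 * (2 * (((k : ℝ) + k' + 1) * Real.log 2) * T.card) := by ring
    rw [e1]
    have e2 : 8 * (119 / 100 * (C1 * R)) * (T.card : ℝ) =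
        4 * (2 * (119 / 100 * (C1 * R)) * T.card) := by ring
    rw [e2]
    have hD0 : 0 ≤ ((k : ℝ) + k' + 1) * Real.log 2 := by positivity
    refine mul_le_mul hom ?_ (by positivity) (by norm_num)
    exact mul_le_mul_of_nonneg_right (by linarith) hTc
  have c4 : R * (126 / 10000 * N ^ 2) ≤ R * (952 / 100 * C1 * T.card) := by
    have e : 8 * (119 / 100 * (C1 * R)) * (T.card : ℝ) = R * (952 / 100 * C1 * T.card) := by ring
    rw [← e]
    refine le_trans (le_of_eq (by ring)) (c1.trans (c2.trans c3))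
  have c5 := le_of_mul_le_mul_left c4 hRpos
  rw [div_le_iff₀ (by positivity)]
  have c6 : 0 ≤ C1 * (T.card : ℝ) := by positivity
  have e1 : (T.card : ℝ) * (2000 * C1) = 2000 * (C1 * T.card) := by ring
  have e2 : 952 / 100 * C1 * (T.card : ℝ) = 952 / 100 * (C1 * T.card) := by ring
  rw [e2] at c5
  rw [e1]
  linarith

-- END k2 (helper63)

end Pool.Agent.SupC
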