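import Pool.Agent.SupC.Cls
import Pool.Agent.CplxN.Meas

/-! Invariant measures: the mass of small intervals is `o(1 / log ^ 2)` off the Liouville part.
Pointwise form of the theorem on classes. -/

namespace Pool.Agent.SupC

open Pool.Agent.SubT Pool.Agent.SlowV Pool.Agent.CplxN

open scoped BigOperators ENNReal

open MeasureTheory Set

private theorem frost_closed (a b : ℝ) : IsClosed (Eab a b) := by
  have h : Eab a b = ⋂ q : ℕ, {x : AddCircle (1 : ℝ) |
      (1 ≤ q ∧ (q : ℝ) ≤ Real.exp a) → Real.exp (-b) ≤ ‖q • x‖} := by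
    ext x
    rw [mem_iInter]
    exact ⟨fun h q hq => h q hq.1 hq.2, fun h q h1 h2 => h q ⟨h1, h2⟩⟩
  rw [h]
  refine isClosed_iInter fun q => ?_
  by_cases hq : 1 ≤ q ∧ (q : ℝ) ≤ Real.exp a
  · have : {x : AddCircle (1 : ℝ) | (1 ≤ q ∧ (q : ℝ) ≤ Real.exp a) → Real.exp (-b) ≤ ‖q • x‖} =
        {x | Real.exp (-b) ≤ ‖q • x‖} :=
      Set.ext fun x => ⟨fun h' => h' hq, fun h' _ => h'⟩
    rw [this]
    exact isClosed_le continuous_const (continuous_norm.comp (continuous_nsmul q))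
  · have : {x : AddCircle (1 : ℝ) | (1 ≤ q ∧ (q : ℝ) ≤ Real.exp a) → Real.exp (-b) ≤ ‖q • x‖} =
        univ :=
      Set.ext fun x => ⟨fun _ => trivial, fun _ h' => absurd h' hq⟩
    rw [this]
    exact isClosed_univ

/-- (F) the mass of a set of diameter at most `e ^ (-R)` -/
theorem ball_small (θ ε : ℝ) (hθ : 0 < θ) (hθ1 : θ ≤ 1 / 4) (hε : 0 < ε) :
    ∃ R0 : ℝ, 1 ≤ R0 ∧ ∀ R ≥ R0, ∀ μ : Measure (AddCircle (1 : ℝ)), IsProbabilityMeasure μ →
      MeasurePreserving (fun x => (2 : ℕ) • x) μ μ →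
      MeasurePreserving (fun x => (3 : ℕ) • x) μ μ →
      ∀ I : Set (AddCircle (1 : ℝ)), (∀ x ∈ I, ∀ y ∈ I, ‖x - y‖ ≤ Real.exp (-R)) →
        μ (I ∩ Eab (θ * R) (1 / 4 * R)) ≤ ENNReal.ofReal (ε / R ^ 2) := by
  have hom := om2_pos
  obtain ⟨C', hC1, hC2⟩ : ∃ C' : ℝ, 1 ≤ C' ∧ 16 * om2 / (θ * ε) ≤ C' :=
    ⟨max 1 (16 * om2 / (θ * ε)), le_max_left _ _, le_max_right _ _⟩
  obtain ⟨R0, hR0, H⟩ := few_class θ (1 / 4) C' hθ hθ1 (by norm_num) le_rfl hC1
  refine ⟨R0, hR0, fun R hR μ hμ h2 h3 I hI => ?_⟩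
  have hRp : 0 < R := by linarith
  have hCR : 0 < C' * R := by positivity
  have hcl : ∀ x ∈ closure I, ∀ y ∈ closure I, ‖x - y‖ ≤ Real.exp (-R) := by
    have h1 : IsClosed {q : AddCircle (1 : ℝ) × AddCircle (1 : ℝ) | ‖q.1 - q.2‖ ≤ Real.exp (-R)} :=
      isClosed_le (continuous_norm.comp (continuous_fst.sub continuous_snd)) continuous_const
    have h2 : closure (I ×ˢ I) ⊆
        {q : AddCircle (1 : ℝ) × AddCircle (1 : ℝ) | ‖q.1 - q.2‖ ≤ Real.exp (-R)} :=
      closure_minimal (fun q hq => hI q.1 hq.1 q.2 hq.2) h1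
    intro x hx y hy
    have h3 : (x, y) ∈ closure (I ×ˢ I) := by
      rw [closure_prod_eq]
      exact ⟨hx, hy⟩
    exact h2 h3
  obtain ⟨A, hA⟩ : ∃ A : Set (AddCircle (1 : ℝ)), A = closure I ∩ Eab (θ * R) (1 / 4 * R) :=
    ⟨_, rfl⟩
  have hA1 : ∀ x ∈ A, x ∈ closure I := fun x hx => by rw [hA] at hx; exact hx.1
  have hA2 : ∀ x ∈ A, x ∈ Eab (θ * R) (1 / 4 * R) := fun x hx => by rw [hA] at hx; exact hx.2
  have hAm : MeasurableSet A := by
    rw [hA]
    exact (isClosed_closure.inter (frost_closed _ _)).measurableSet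
  have hcnt : ∀ w : AddCircle (1 : ℝ), (cnt (KL_T (C' * R)) A w : ℝ) ≤ 16 / θ * C' := by
    intro w
    classical
    unfold cnt
    apply H R hR w
    · intro p hp
      rw [Finset.mem_filter] at hp
      exact (KL_mem_T.mp hp.1).le
    · intro p hp p' hp'
      rw [Finset.mem_filter] at hp hp'
      exact hcl _ (hA1 _ hp.2) _ (hA1 _ hp'.2)
    · intro p hp
      rw [Finset.mem_filter] at hp
      exact hA2 _ hp.2
  have hint := cnt_lintegral μ h2 h3 (KL_T (C' * R)) A hAm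
  have hle : ∫⁻ x, (cnt (KL_T (C' * R)) A x : ℝ≥0∞) ∂μ ≤ ENNReal.ofReal (16 / θ * C') := by
    calc ∫⁻ x, (cnt (KL_T (C' * R)) A x : ℝ≥0∞) ∂μ
        ≤ ∫⁻ _x, ENNReal.ofReal (16 / θ * C') ∂μ := by
          apply lintegral_mono
          intro x
          change (cnt (KL_T (C' * R)) A x : ℝ≥0∞) ≤ ENNReal.ofReal (16 / θ * C')
          rw [← ENNReal.ofReal_natCast]
          exact ENNReal.ofReal_le_ofReal (hcnt x)
      _ = ENNReal.ofReal (16 / θ * C') := by simp
  rw [hint] at hle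
  have hcard := cnt_ge (C' * R) hCR.le
  have hcardpos : 0 < ((KL_T (C' * R)).card : ℝ) := by
    have h4 : 0 < om2 * ((KL_T (C' * R)).card : ℝ) := lt_of_lt_of_le (by positivity) hcard
    exact pos_of_mul_pos_right h4 hom.le
  set c : ℝ := ((KL_T (C' * R)).card : ℝ) with hc
  have hμA : μ A ≤ ENNReal.ofReal (16 / θ * C' / c) := by
    rw [ENNReal.ofReal_div_of_pos hcardpos, ENNReal.le_div_iff_mul_le]
    · rw [hc, ENNReal.ofReal_natCast, mul_comm]
      exact hle
    · left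
      exact (ENNReal.ofReal_pos.2 hcardpos).ne'
    · left
      exact ENNReal.ofReal_ne_top
  have hsub : I ∩ Eab (θ * R) (1 / 4 * R) ⊆ A := by
    rw [hA]
    exact inter_subset_inter_left _ subset_closure
  refine le_trans (measure_mono hsub) (le_trans hμA ?_)
  apply ENNReal.ofReal_le_ofReal
  rw [div_le_div_iff₀ hcardpos (by positivity)]
  have h5 : 16 * om2 ≤ C' * (θ * ε) := by
    rw [div_le_iff₀ (by positivity)] at hC2
    exact hC2
  have h7 : 16 * C' * R ^ 2 ≤ θ * ε * c := by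
    have h8 : 16 * om2 * (C' * R ^ 2) ≤ C' * (θ * ε) * (C' * R ^ 2) :=
      mul_le_mul_of_nonneg_right h5 (by positivity)
    have h9 : C' * (θ * ε) * (C' * R ^ 2) = (θ * ε) * (C' * R) ^ 2 := by ring
    have h10 : (θ * ε) * (C' * R) ^ 2 ≤ (θ * ε) * (om2 * c) :=
      mul_le_mul_of_nonneg_left hcard (by positivity)
    have h11 : om2 * (16 * C' * R ^ 2) ≤ om2 * (θ * ε * c) := by nlinarith
    exact le_of_mul_le_mul_left h11 hom
  calc 16 / θ * C' * R ^ 2 = (16 * C' * R ^ 2) / θ := by ring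
    _ ≤ (θ * ε * c) / θ := div_le_div_of_nonneg_right h7 hθ.le
    _ = ε * c := by field_simp

/-- the points with `‖q x‖ ≥ c q ^ (-A)` for all `q ≥ 1` -/
def Dio (A c : ℝ) : Set (AddCircle (1 : ℝ)) :=
  {x | ∀ q : ℕ, 1 ≤ q → c * (q : ℝ) ^ (-A) ≤ ‖q • x‖}

theorem dio_closed (A c : ℝ) : IsClosed (Dio A c) := by
  have h : Dio A c = ⋂ q : ℕ, {x : AddCircle (1 : ℝ) | 1 ≤ q → c * (q : ℝ) ^ (-A) ≤ ‖q • x‖} := by
    ext x
    rw [mem_iInter]
    exact Iff.rfl
  rw [h]
  refine isClosed_iInter fun q => ?_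
  by_cases hq : 1 ≤ q
  · have : {x : AddCircle (1 : ℝ) | 1 ≤ q → c * (q : ℝ) ^ (-A) ≤ ‖q • x‖} =
        {x | c * (q : ℝ) ^ (-A) ≤ ‖q • x‖} :=
      Set.ext fun x => ⟨fun h' => h' hq, fun h' _ => h'⟩
    rw [this]
    exact isClosed_le continuous_const (continuous_norm.comp (continuous_nsmul q))
  · have : {x : AddCircle (1 : ℝ) | 1 ≤ q → c * (q : ℝ) ^ (-A) ≤ ‖q • x‖} = univ :=
      Set.ext fun x => ⟨fun _ => trivial, fun _ h' => absurd h' hq⟩
    rw [this]
    exact isClosed_univ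

theorem dio_sub (A c : ℝ) (hA : 0 < A) (hc : 0 < c) : ∃ R1 : ℝ, 1 ≤ R1 ∧ ∀ R ≥ R1,
    Dio A c ⊆ Eab (min (1 / 4) (1 / (8 * A)) * R) (1 / 4 * R) := by
  refine ⟨max 1 (8 * |Real.log c|), le_max_left _ _, fun R hR x hx q hq1 hq => ?_⟩
  have hR1 : 1 ≤ R := le_trans (le_max_left _ _) hR
  have hR2 : 8 * |Real.log c| ≤ R := le_trans (le_max_right _ _) hR
  have hq0 : (0 : ℝ) < q := by exact_mod_cast hq1
  refine le_trans ?_ (hx q hq1)
  have h1 : Real.log q ≤ 1 / (8 * A) * R := by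
    rw [← Real.log_exp (1 / (8 * A) * R)]
    apply Real.log_le_log hq0
    refine le_trans hq ?_
    apply Real.exp_le_exp.2
    exact mul_le_mul_of_nonneg_right (min_le_right _ _) (by linarith)
  have h2 : A * Real.log q ≤ R / 8 := by
    calc A * Real.log q ≤ A * (1 / (8 * A) * R) := mul_le_mul_of_nonneg_left h1 hA.le
      _ = R / 8 := by field_simp
  have h3 : -(R / 8) ≤ Real.log c := by
    have := neg_abs_le (Real.log c)
    linarith
  have h4 : c * (q : ℝ) ^ (-A) = Real.exp (Real.log c + -(A * Real.log q)) := by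
    rw [Real.exp_add, Real.exp_log hc, Real.rpow_def_of_pos hq0]
    congr 2
    ring
  rw [h4]
  apply Real.exp_le_exp.2
  linarith

/-- (F1) **all intervals, all invariant measures** -/
theorem frost (A c ε : ℝ) (hA : 0 < A) (hc : 0 < c) (hε : 0 < ε) :
    ∃ R0 : ℝ, 1 ≤ R0 ∧ ∀ R ≥ R0, ∀ μ : Measure (AddCircle (1 : ℝ)), IsProbabilityMeasure μ →
      MeasurePreserving (fun x => (2 : ℕ) • x) μ μ →
      MeasurePreserving (fun x => (3 : ℕ) • x) μ μ →
      ∀ I : Set (AddCircle (1 : ℝ)), (∀ x ∈ I, ∀ y ∈ I, ‖x - y‖ ≤ Real.exp (-R)) →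
        μ (I ∩ Dio A c) ≤ ENNReal.ofReal (ε / R ^ 2) := by
  obtain ⟨R1, hR1, H1⟩ := dio_sub A c hA hc
  obtain ⟨R0, hR0, H0⟩ := ball_small (min (1 / 4) (1 / (8 * A))) ε (by positivity)
    (min_le_left _ _) hε
  refine ⟨max R0 R1, le_max_of_le_left hR0, fun R hR μ hμ h2 h3 I hI => ?_⟩
  exact le_trans (measure_mono (inter_subset_inter_right _ (H1 R (le_trans (le_max_right _ _) hR))))
    (H0 R (le_trans (le_max_left _ _) hR) μ hμ h2 h3 I hI)

/-- the gauge `1 / log ^ 2 (1 / r)` -/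
noncomputable def lgauge (r : ℝ≥0∞) : ℝ≥0∞ := ENNReal.ofReal (1 / Real.log r.toReal ^ 2)

theorem null_dio (A c : ℝ) (hA : 0 < A) (hc : 0 < c) (μ : Measure (AddCircle (1 : ℝ)))
    (hμ : IsProbabilityMeasure μ) (h2 : MeasurePreserving (fun x => (2 : ℕ) • x) μ μ)
    (h3 : MeasurePreserving (fun x => (3 : ℕ) • x) μ μ) (F : Set (AddCircle (1 : ℝ)))
    (hF : Measure.mkMetric lgauge F < ∞) : μ (F ∩ Dio A c) = 0 := by
  have hmain : ∀ ε : ℝ, 0 < ε → μ (F ∩ Dio A c) ≤ ENNReal.ofReal ε * Measure.mkMetric lgauge F := by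
    intro ε hε
    obtain ⟨R0, hR0, H⟩ := frost A c ε hA hc hε
    have hpos : 0 < ENNReal.ofReal ε := ENNReal.ofReal_pos.2 hε
    have h1 : μ.restrict (Dio A c) ≤ Measure.mkMetric (fun r => ENNReal.ofReal ε * lgauge r) := by
      apply Measure.le_mkMetric _ _ (ENNReal.ofReal (Real.exp (-R0)))
        (ENNReal.ofReal_pos.2 (Real.exp_pos _))
      intro s hs
      rw [Measure.restrict_apply' (dio_closed A c).measurableSet]
      have hdist : ∀ x ∈ s, ∀ y ∈ s, ENNReal.ofReal ‖x - y‖ ≤ Metric.ediam s := by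
        intro x hx y hy
        rw [← dist_eq_norm, ← edist_dist]
        exact Metric.edist_le_ediam_of_mem hx hy
      have hne : Metric.ediam s ≠ ∞ := ne_top_of_le_ne_top ENNReal.ofReal_ne_top hs
      rcases eq_or_ne (Metric.ediam s) 0 with h0 | h0
      · -- diameter zero
        have h4 : ∀ x ∈ s, ∀ y ∈ s, ‖x - y‖ = 0 := by
          intro x hx y hy
          have := hdist x hx y hy
          rw [h0, nonpos_iff_eq_zero, ENNReal.ofReal_eq_zero] at this
          exact le_antisymm this (norm_nonneg _)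
        have h5 : μ (s ∩ Dio A c) ≤ 0 := by
          apply ENNReal.le_of_forall_pos_le_add
          intro δ hδ _
          rw [zero_add]
          have hδ' : (0 : ℝ) < δ := by exact_mod_cast hδ
          have h6 := H (max R0 (ε / δ)) (le_max_left _ _) μ hμ h2 h3 s (by
            intro x hx y hy
            rw [h4 x hx y hy]
            exact (Real.exp_pos _).le)
          refine le_trans h6 ?_
          rw [← ENNReal.ofReal_coe_nnreal]
          apply ENNReal.ofReal_le_ofReal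
          have h7 : ε / δ ≤ max R0 (ε / δ) := le_max_right _ _
          have h8 : 1 ≤ max R0 (ε / δ) := le_max_of_le_left hR0
          rw [div_le_iff₀ (by positivity)]
          rw [div_le_iff₀ hδ'] at h7
          nlinarith
        exact le_trans h5 (zero_le)
      · set d : ℝ := (Metric.ediam s).toReal with hd
        have hd0 : 0 < d := ENNReal.toReal_pos h0 hne
        have hdR : d ≤ Real.exp (-R0) := by
          rw [hd]
          exact ENNReal.toReal_le_of_le_ofReal (Real.exp_pos _).le hs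
        have hlog : R0 ≤ -Real.log d := by
          have := Real.log_le_log hd0 hdR
          rw [Real.log_exp] at this
          linarith
        have h6 := H (-Real.log d) hlog μ hμ h2 h3 s (by
          intro x hx y hy
          rw [neg_neg, Real.exp_log hd0, hd]
          have h7 := hdist x hx y hy
          exact (ENNReal.ofReal_le_iff_le_toReal hne).1 h7)
        refine le_trans h6 ?_
        change ENNReal.ofReal (ε / (-Real.log d) ^ 2) ≤
          ENNReal.ofReal ε * ENNReal.ofReal (1 / Real.log (Metric.ediam s).toReal ^ 2)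
        rw [← ENNReal.ofReal_mul hε.le, ← hd]
        apply ENNReal.ofReal_le_ofReal
        rw [neg_sq]
        exact (mul_one_div ε _).ge
    have h2' : Measure.mkMetric (fun r => ENNReal.ofReal ε * lgauge r) ≤
        ENNReal.ofReal ε • (Measure.mkMetric lgauge : Measure (AddCircle (1 : ℝ))) := by
      apply Measure.mkMetric_mono_smul ENNReal.ofReal_ne_top hpos.ne'
      exact Filter.Eventually.of_forall fun r => le_rfl
    have h3' := (h1.trans h2') F
    rw [Measure.restrict_apply' (dio_closed A c).measurableSet] at h3'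
    exact h3'
  have htop : Measure.mkMetric lgauge F ≠ ∞ := hF.ne
  obtain ⟨M, hM⟩ : ∃ M : ℝ, 0 < M ∧ Measure.mkMetric lgauge F ≤ ENNReal.ofReal M := by
    refine ⟨(Measure.mkMetric lgauge F).toReal + 1, by positivity, ?_⟩
    rw [← ENNReal.ofReal_toReal htop]
    apply ENNReal.ofReal_le_ofReal
    rw [ENNReal.toReal_ofReal ENNReal.toReal_nonneg]
    linarith
  apply le_antisymm _ (zero_le)
  apply ENNReal.le_of_forall_pos_le_add
  intro δ hδ _
  rw [zero_add]
  have hδ' : (0 : ℝ) < δ := by exact_mod_cast hδ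
  refine le_trans (hmain (δ / M) (by have := hM.1; positivity)) ?_
  refine le_trans (mul_le_mul_right hM.2 _) ?_
  rw [← ENNReal.ofReal_mul (by have := hM.1; positivity), ← ENNReal.ofReal_coe_nnreal]
  apply ENNReal.ofReal_le_ofReal
  rw [div_mul_cancel₀ _ hM.1.ne']

/-- (F2) **null sets**: a set of non-Liouville numbers with finite Hausdorff measure for the gauge
`1 / log ^ 2 (1 / r)` is null for all invariant measures -/
theorem null_gauge (μ : Measure (AddCircle (1 : ℝ))) (hμ : IsProbabilityMeasure μ)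
    (h2 : MeasurePreserving (fun x => (2 : ℕ) • x) μ μ)
    (h3 : MeasurePreserving (fun x => (3 : ℕ) • x) μ μ) (F : Set (AddCircle (1 : ℝ)))
    (hL : ∀ x ∈ F, ∃ A : ℝ, ∃ Q : ℕ, ∀ q : ℕ, Q ≤ q → (q : ℝ) ^ (-A) ≤ ‖q • x‖)
    (hF : Measure.mkMetric lgauge F < ∞) : μ F = 0 := by
  have hcov : F ⊆ ⋃ n : ℕ, F ∩ Dio (n + 1 : ℝ) (1 / (n + 1 : ℝ)) := by
    intro x hx
    obtain ⟨A, Q, hAQ⟩ := hL x hx
    -- x is not a torsion point
    have hnt : ∀ q : ℕ, 1 ≤ q → 0 < ‖q • x‖ := by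
      intro q hq
      rw [norm_pos_iff]
      intro h0
      have h1 : ((Q + 1) * q) • x = 0 := by rw [mul_smul, h0, smul_zero]
      have h2 := hAQ ((Q + 1) * q) (by nlinarith)
      rw [h1, norm_zero] at h2
      have h3 : (0 : ℝ) < (((Q + 1) * q : ℕ) : ℝ) := by exact_mod_cast (by positivity)
      have h4 := Real.rpow_pos_of_pos h3 (-A)
      linarith
    obtain ⟨c, hc0, hc⟩ : ∃ c : ℝ, 0 < c ∧ ∀ q : ℕ, 1 ≤ q → q < Q → c ≤ ‖q • x‖ := by
      by_cases hne : ((Finset.range Q).filter (fun q => 1 ≤ q)).Nonempty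
      · obtain ⟨q0, hq0, hq1⟩ := Finset.exists_min_image _ (fun q => ‖q • x‖) hne
        rw [Finset.mem_filter, Finset.mem_range] at hq0
        refine ⟨‖q0 • x‖, hnt q0 hq0.2, fun q h1 h2 => hq1 q ?_⟩
        rw [Finset.mem_filter, Finset.mem_range]
        exact ⟨h2, h1⟩
      · refine ⟨1, one_pos, fun q h1 h2 => ?_⟩
        exact absurd ⟨q, by rw [Finset.mem_filter, Finset.mem_range]; exact ⟨h2, h1⟩⟩ hne
    obtain ⟨n, hn⟩ := exists_nat_ge (max A (1 / c))
    rw [mem_iUnion]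
    refine ⟨n, hx, fun q hq => ?_⟩
    have hqR : (1 : ℝ) ≤ q := by exact_mod_cast hq
    have hn0 : (0 : ℝ) ≤ n := Nat.cast_nonneg n
    have e1 : (q : ℝ) ^ (-(n + 1 : ℝ)) ≤ 1 :=
      Real.rpow_le_one_of_one_le_of_nonpos hqR (by linarith)
    have e2 : 1 / (n + 1 : ℝ) ≤ 1 := by
      rw [div_le_one (by positivity)]
      linarith
    have e3 : 0 < (q : ℝ) ^ (-(n + 1 : ℝ)) := Real.rpow_pos_of_pos (by linarith) _
    by_cases hqQ : Q ≤ q
    · calc 1 / (n + 1 : ℝ) * (q : ℝ) ^ (-(n + 1 : ℝ)) ≤ 1 * (q : ℝ) ^ (-(n + 1 : ℝ)) :=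
            mul_le_mul_of_nonneg_right e2 e3.le
        _ = (q : ℝ) ^ (-(n + 1 : ℝ)) := one_mul _
        _ ≤ (q : ℝ) ^ (-A) := by
            apply Real.rpow_le_rpow_of_exponent_le hqR
            have := le_trans (le_max_left _ _) hn
            linarith
        _ ≤ ‖q • x‖ := hAQ q hqQ
    · have h5 : 1 / (n + 1 : ℝ) ≤ c := by
        have h6 := le_trans (le_max_right A (1 / c)) hn
        rw [div_le_iff₀ hc0] at h6
        rw [div_le_iff₀ (by positivity)]
        nlinarith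
      calc 1 / (n + 1 : ℝ) * (q : ℝ) ^ (-(n + 1 : ℝ)) ≤ 1 / (n + 1 : ℝ) * 1 :=
            mul_le_mul_of_nonneg_left e1 (by positivity)
        _ ≤ c := by rw [mul_one]; exact h5
        _ ≤ ‖q • x‖ := hc q hq (not_le.1 hqQ)
  refine measure_mono_null hcov ?_
  rw [measure_iUnion_null_iff]
  intro n
  exact null_dio _ _ (by positivity) (by positivity) μ hμ h2 h3 F hF

end Pool.Agent.SupC
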