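import Pool.Agent.SupC.Defs

/-! Superquadratic complexity: heights. -/

namespace Pool.Agent.SupC

open Pool.Agent.SubT Pool.Agent.SlowV Pool.Agent.CplxN

open scoped BigOperators ENNReal

open MeasureTheory Set

/-- h1 -/
theorem mt_le {I : Finset (ℕ × ℕ)} {p : ℕ × ℕ} (hp : p ∈ I) : (mt I).1 ≤ p.1 ∧ (mt I).2 ≤ p.2 :=
  ⟨Nat.sInf_le ⟨p, hp, rfl⟩, Nat.sInf_le ⟨p, hp, rfl⟩⟩

/-- h2 -/
theorem mt_mem {I : Finset (ℕ × ℕ)} (hI : I.Nonempty) :
    (∃ p ∈ I, p.1 = (mt I).1) ∧ ∃ p ∈ I, p.2 = (mt I).2 := by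
  obtain ⟨p0, hp0⟩ := hI
  constructor
  · obtain ⟨p, hp, h⟩ := Nat.sInf_mem (s := (fun p : ℕ × ℕ => p.1) '' (I : Set (ℕ × ℕ)))
      ⟨_, p0, hp0, rfl⟩
    exact ⟨p, hp, h⟩
  · obtain ⟨p, hp, h⟩ := Nat.sInf_mem (s := (fun p : ℕ × ℕ => p.2) '' (I : Set (ℕ × ℕ)))
      ⟨_, p0, hp0, rfl⟩
    exact ⟨p, hp, h⟩

private theorem ht_fin (I : Finset (ℕ × ℕ)) :
    ((fun p : ℕ × ℕ => LL p.1 p.2) '' (I : Set (ℕ × ℕ))).Finite := I.finite_toSet.image _

/-- h3 -/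
theorem ht_ge {I : Finset (ℕ × ℕ)} {p : ℕ × ℕ} (hp : p ∈ I) :
    LL p.1 p.2 - LL (mt I).1 (mt I).2 ≤ ht I := by
  have h := le_csSup (ht_fin I).bddAbove ⟨p, hp, rfl⟩
  unfold ht
  simp only at h
  linarith

/-- h4 -/
theorem ht_eq {I : Finset (ℕ × ℕ)} (hI : I.Nonempty) :
    ∃ p ∈ I, LL p.1 p.2 - LL (mt I).1 (mt I).2 = ht I := by
  have hne : ((fun p : ℕ × ℕ => LL p.1 p.2) '' (I : Set (ℕ × ℕ))).Nonempty :=
    Set.Nonempty.image _ hI
  obtain ⟨p, hp, h⟩ := hne.csSup_mem (ht_fin I)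
  refine ⟨p, hp, ?_⟩
  unfold ht
  rw [← h]

theorem LL_mono {a b a' b' : ℕ} (h1 : a ≤ a') (h2 : b ≤ b') : LL a b ≤ LL a' b' := by
  unfold LL
  have h3 : (a : ℝ) ≤ a' := by exact_mod_cast h1
  have h4 : (b : ℝ) ≤ b' := by exact_mod_cast h2
  have h5 : 0 < Real.log 2 := Real.log_pos (by norm_num)
  have h6 : 0 < Real.log 3 := Real.log_pos (by norm_num)
  nlinarith

/-- h5 -/
theorem ht_mono {I J : Finset (ℕ × ℕ)} (hI : I.Nonempty) (h : I ⊆ J) : ht I ≤ ht J := by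
  obtain ⟨p, hp, he⟩ := ht_eq hI
  rw [← he]
  refine le_trans ?_ (ht_ge (h hp))
  obtain ⟨⟨p1, hp1, h1⟩, p2, hp2, h2⟩ := mt_mem hI
  have h3 := LL_mono (mt_le (h hp1)).1 (mt_le (h hp2)).2
  rw [h1, h2] at h3
  linarith

/-- h6 -/
theorem ht_le {I : Finset (ℕ × ℕ)} (hI : I.Nonempty) (N : ℝ) (h : ∀ p ∈ I, LL p.1 p.2 ≤ N) :
    ht I ≤ N := by
  obtain ⟨p, hp, he⟩ := ht_eq hI
  have h1 := h p hp
  have h2 : 0 ≤ LL (mt I).1 (mt I).2 := by
    unfold LL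
    have h5 : 0 < Real.log 2 := Real.log_pos (by norm_num)
    have h6 : 0 < Real.log 3 := Real.log_pos (by norm_num)
    positivity
  linarith

/-- h7: translation by the meet -/
theorem sub_mt {I : Finset (ℕ × ℕ)} {p : ℕ × ℕ} (hp : p ∈ I) :
    (p - mt I) + mt I = p ∧ LL (p - mt I).1 (p - mt I).2 = LL p.1 p.2 - LL (mt I).1 (mt I).2 := by
  obtain ⟨h1, h2⟩ := mt_le hp
  constructor
  · ext
    · simp only [Prod.fst_add, Prod.fst_sub]; omega
    · simp only [Prod.snd_add, Prod.snd_sub]; omega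
  · unfold LL
    simp only [Prod.fst_sub, Prod.snd_sub]
    rw [Nat.cast_sub h1, Nat.cast_sub h2]
    ring

/-- h8: heights are translation invariant -/
theorem ht_image (I : Finset (ℕ × ℕ)) (hI : I.Nonempty) (m : ℕ × ℕ)
    (hm : ∀ p ∈ I, m.1 ≤ p.1 ∧ m.2 ≤ p.2) : ht (I.image fun p => p - m) = ht I := by
  classical
  set I' := I.image fun p => p - m with hI'
  have hI'ne : I'.Nonempty := hI.image _
  obtain ⟨⟨p1, hp1, h1⟩, p2, hp2, h2⟩ := mt_mem hI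
  obtain ⟨⟨q1, hq1, g1⟩, q2, hq2, g2⟩ := mt_mem hI'ne
  have hmem : ∀ p ∈ I, p - m ∈ I' := fun p hp => Finset.mem_image_of_mem _ hp
  have e1 : (mt I').1 + m.1 = (mt I).1 := by
    apply le_antisymm
    · have h3 := (mt_le (hmem p1 hp1)).1
      have h4 := (hm p1 hp1).1
      simp only [Prod.fst_sub] at h3
      omega
    · rw [hI', Finset.mem_image] at hq1
      obtain ⟨p, hp, rfl⟩ := hq1
      have h3 := (mt_le hp).1
      have h4 := (hm p hp).1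
      simp only [Prod.fst_sub] at g1
      omega
  have e2 : (mt I').2 + m.2 = (mt I).2 := by
    apply le_antisymm
    · have h3 := (mt_le (hmem p2 hp2)).2
      have h4 := (hm p2 hp2).2
      simp only [Prod.snd_sub] at h3
      omega
    · rw [hI', Finset.mem_image] at hq2
      obtain ⟨p, hp, rfl⟩ := hq2
      have h3 := (mt_le hp).2
      have h4 := (hm p hp).2
      simp only [Prod.snd_sub] at g2
      omega
  have e3 : LL (mt I).1 (mt I).2 = LL (mt I').1 (mt I').2 + LL m.1 m.2 := by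
    rw [← e1, ← e2]
    unfold LL
    push_cast
    ring
  have e4 : ∀ p ∈ I, LL (p - m).1 (p - m).2 = LL p.1 p.2 - LL m.1 m.2 := by
    intro p hp
    obtain ⟨h3, h4⟩ := hm p hp
    unfold LL
    simp only [Prod.fst_sub, Prod.snd_sub]
    rw [Nat.cast_sub h3, Nat.cast_sub h4]
    ring
  apply le_antisymm
  · obtain ⟨p', hp', he⟩ := ht_eq hI'ne
    rw [hI', Finset.mem_image] at hp'
    obtain ⟨p, hp, rfl⟩ := hp'
    have h3 := ht_ge hp
    have h4 := e4 p hp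
    linarith
  · obtain ⟨p, hp, he⟩ := ht_eq hI
    have h3 := ht_ge (hmem p hp)
    have h4 := e4 p hp
    linarith

end Pool.Agent.SupC
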