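import Pool.Agent.SupC.Frost

/-! Local dimension: the mass of a ball of radius `r` is `o (1 / (log r) ^ 2)`. -/

namespace Pool.Agent.SupC

open Pool.Agent.SubT Pool.Agent.SlowV Pool.Agent.CplxN

open scoped BigOperators ENNReal

open MeasureTheory Set Filter Topology

private theorem l_norm (m : ℕ) (x : AddCircle (1 : ℝ)) (h : (m : ℝ) * ‖x‖ ≤ 1 / 2) :
    ‖m • x‖ = m * ‖x‖ := by
  obtain ⟨r, rfl⟩ := QuotientAddGroup.mk_surjective x
  have h0 : ‖((r : ℝ) : AddCircle (1 : ℝ))‖ = |r - round r| := by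
    rw [AddCircle.norm_eq]
    norm_num
  have h1 : ((r : ℝ) : AddCircle (1 : ℝ)) = ((r - round r : ℝ) : AddCircle (1 : ℝ)) := by
    rw [AddCircle.coe_sub]
    have h2 : (((round r : ℤ) : ℝ) : AddCircle (1 : ℝ)) = 0 := by
      have h3 := AddCircle.coe_period (p := (1 : ℝ))
      have h4 : (((round r : ℤ) : ℝ) : AddCircle (1 : ℝ)) = (round r) • ((1 : ℝ) : AddCircle (1 : ℝ)) := by
        rw [← AddCircle.coe_zsmul]
        congr 1
        simp
      rw [h4, h3, smul_zero]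
    rw [h2, sub_zero]
  show ‖m • ((r : ℝ) : AddCircle (1 : ℝ))‖ = m * ‖((r : ℝ) : AddCircle (1 : ℝ))‖
  have h' : (m : ℝ) * |r - round r| ≤ 1 / 2 := by
    rw [← h0]
    exact h
  rw [h0, h1, ← AddCircle.coe_nsmul]
  have h5 : m • (r - round r) = m * (r - round r) := by simp
  rw [h5]
  have h6 : |(m : ℝ) * (r - round r)| = m * |r - round r| := by
    rw [abs_mul, abs_of_nonneg (Nat.cast_nonneg m)]
  rw [← h6]
  apply (AddCircle.norm_coe_eq_abs_iff (1 : ℝ) one_ne_zero).2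
  rw [h6, abs_one]
  exact h'

private theorem l_chain (w : AddCircle (1 : ℝ)) (a b : ℕ → ℝ) (hb : Tendsto b atTop atTop)
    (h : ∀ᶠ j in atTop, w ∉ Eab (a j) (b j))
    (hab : ∀ᶠ j in atTop, a (j + 1) + 1 ≤ b j) : ∃ m : ℕ, 0 < m ∧ m • w = 0 := by
  obtain ⟨j0, hj0⟩ := eventually_atTop.1 (h.and hab)
  have hm : ∀ j, j0 ≤ j → ∃ m : ℕ, 0 < m ∧ (m : ℝ) ≤ Real.exp (a j) ∧
      ‖m • w‖ < Real.exp (-(b j)) := by
    intro j hj
    have h1 := (hj0 j hj).1
    simp only [Eab, Set.mem_ofPred_eq, not_forall, not_le] at h1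
    obtain ⟨q, hq1, hq2, hq3⟩ := h1
    exact ⟨q, hq1, hq2, hq3⟩
  choose! m hm0 hm1 hm2 using hm
  have hstep : ∀ j, j0 ≤ j → ‖m j • w‖ / m j ≤ ‖m (j + 1) • w‖ / m (j + 1) := by
    intro j hj
    have a0 : (0 : ℝ) < m j := by exact_mod_cast hm0 j hj
    have a1 : (0 : ℝ) < m (j + 1) := by exact_mod_cast hm0 (j + 1) (by omega)
    have h7 : (m (j + 1) : ℝ) * ‖m j • w‖ ≤ 1 / 2 := by
      have h8 : (m (j + 1) : ℝ) * ‖m j • w‖ ≤ Real.exp (a (j + 1)) * Real.exp (-(b j)) :=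
        mul_le_mul (hm1 (j + 1) (by omega)) (hm2 j hj).le (norm_nonneg _) (Real.exp_pos _).le
      have h9 : Real.exp (a (j + 1)) * Real.exp (-(b j)) ≤ Real.exp (-1) := by
        rw [← Real.exp_add]
        apply Real.exp_le_exp.2
        have := (hj0 j hj).2
        linarith
      have h10 : Real.exp (-1) ≤ 1 / 2 := by
        rw [Real.exp_neg, inv_eq_one_div]
        apply one_div_le_one_div_of_le (by norm_num)
        have := Real.add_one_le_exp (1 : ℝ)
        linarith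
      linarith
    have h10 := l_norm (m (j + 1)) (m j • w) h7
    have h11 : ‖m (j + 1) • (m j • w)‖ ≤ m j * ‖m (j + 1) • w‖ := by
      rw [smul_smul, mul_comm, ← smul_smul]
      exact norm_nsmul_le
    rw [div_le_div_iff₀ a0 a1]
    linarith
  have hmono : ∀ k, ‖m j0 • w‖ / m j0 ≤ ‖m (j0 + k) • w‖ / m (j0 + k) := by
    intro k
    induction k with
    | zero => simp
    | succ k ih => exact ih.trans (hstep (j0 + k) (by omega))
  have hlim : Tendsto (fun k => Real.exp (-(b (j0 + k)))) atTop (𝓝 0) := by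
    have h12 : Tendsto (fun k => b (j0 + k)) atTop atTop :=
      hb.comp (tendsto_add_atTop_iff_nat j0 |>.2 tendsto_id |>.congr fun k => by simp [add_comm])
    exact Real.tendsto_exp_neg_atTop_nhds_zero.comp h12
  have hle : ‖m j0 • w‖ / m j0 ≤ 0 := by
    refine ge_of_tendsto' hlim fun k => (hmono k).trans ?_
    have a1 : (1 : ℝ) ≤ m (j0 + k) := by exact_mod_cast hm0 (j0 + k) (by omega)
    have h13 := hm2 (j0 + k) (by omega)
    have h14 : ‖m (j0 + k) • w‖ / m (j0 + k) ≤ ‖m (j0 + k) • w‖ := div_le_self (norm_nonneg _) a1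
    linarith
  refine ⟨m j0, hm0 j0 le_rfl, ?_⟩
  have a0 : (0 : ℝ) < m j0 := by exact_mod_cast hm0 j0 le_rfl
  rw [div_le_iff₀ a0, zero_mul] at hle
  exact norm_eq_zero.1 (le_antisymm hle (norm_nonneg _))

/-- balls around the points of `Eab (θ R) (R / 8)` -/
theorem loc_E (θ ε : ℝ) (hθ : 0 < θ) (hθ1 : θ ≤ 1 / 4) (hε : 0 < ε) :
    ∃ R0 : ℝ, 1 ≤ R0 ∧ ∀ R ≥ R0, ∀ x ∈ Eab (θ * R) (R / 8),
      ∀ μ : Measure (AddCircle (1 : ℝ)), IsProbabilityMeasure μ →
      MeasurePreserving (fun x => (2 : ℕ) • x) μ μ →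
      MeasurePreserving (fun x => (3 : ℕ) • x) μ μ →
      μ (Metric.ball x (Real.exp (-R) / 2)) ≤ ENNReal.ofReal (ε / R ^ 2) := by
  obtain ⟨R0, hR0, h⟩ := ball_small θ ε hθ hθ1 hε
  refine ⟨R0 + 8, by linarith, fun R hR x hx μ hμ h2 h3 => ?_⟩
  have hR0' : R0 ≤ R := by linarith
  have hR8 : 8 ≤ R := by linarith
  refine le_trans (measure_mono ?_) (h R hR0' μ hμ h2 h3 (Metric.ball x (Real.exp (-R) / 2)) ?_)
  · intro y hy
    refine ⟨hy, fun q hq1 hq2 => ?_⟩
    have hxq := hx q hq1 hq2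
    have hd : ‖y - x‖ < Real.exp (-R) / 2 := by
      rw [← dist_eq_norm]
      exact hy
    have h4 : ‖q • x‖ ≤ ‖q • y‖ + ‖q • (y - x)‖ := by
      have e : q • x = q • y - q • (y - x) := by
        rw [smul_sub]
        abel
      rw [e]
      exact norm_sub_le _ _
    have h5 : ‖q • (y - x)‖ ≤ q * ‖y - x‖ := norm_nsmul_le
    have h6 : (q : ℝ) * ‖y - x‖ ≤ Real.exp (θ * R) * (Real.exp (-R) / 2) :=
      mul_le_mul hq2 hd.le (norm_nonneg _) (Real.exp_pos _).le
    have h7 : Real.exp (θ * R) * (Real.exp (-R) / 2) ≤ Real.exp (-(1 / 4 * R)) := by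
      have h8 : Real.exp (θ * R) * Real.exp (-R) ≤ Real.exp (-(1 / 4 * R)) := by
        rw [← Real.exp_add]
        apply Real.exp_le_exp.2
        nlinarith
      have h9 := Real.exp_pos (θ * R)
      have h10 := Real.exp_pos (-R)
      nlinarith
    have h8 : 2 * Real.exp (-(1 / 4 * R)) ≤ Real.exp (-(R / 8)) := by
      have h9 : Real.exp (-(R / 8)) = Real.exp (R / 8) * Real.exp (-(1 / 4 * R)) := by
        rw [← Real.exp_add]
        congr 1
        ring
      rw [h9]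
      have h10 : (2 : ℝ) ≤ Real.exp (R / 8) := by
        have := Real.add_one_le_exp (R / 8)
        linarith
      exact mul_le_mul_of_nonneg_right h10 (Real.exp_pos _).le
    linarith
  · intro y hy z hz
    have hy' : dist y x < Real.exp (-R) / 2 := hy
    have hz' : dist z x < Real.exp (-R) / 2 := hz
    rw [← dist_eq_norm]
    have h4 := dist_triangle_right y z x
    linarith

/-- the scale `R = -log (2 r)` -/
private theorem l_scale (r : ℝ) (hr : 0 < r) (R0 : ℝ) (hR0 : 1 ≤ R0) (hr1 : r < Real.exp (-(R0 + 2))) :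
    ∃ R, R0 ≤ R ∧ Real.exp (-R) / 2 = r ∧ (Real.log r) ^ 2 ≤ 4 * R ^ 2 ∧ 0 < R := by
  have hl : Real.log r < -(R0 + 2) := by
    rw [Real.log_lt_iff_lt_exp hr]
    exact hr1
  have hl2 : Real.log 2 ≤ 1 := by
    have := Real.log_two_lt_d9
    linarith
  have hl20 : 0 < Real.log 2 := Real.log_pos (by norm_num)
  refine ⟨-Real.log r - Real.log 2, by linarith, ?_, ?_, by linarith⟩
  · have e : -(-Real.log r - Real.log 2) = Real.log r + Real.log 2 := by ring
    rw [e, Real.exp_add, Real.exp_log hr, Real.exp_log (by norm_num)]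
    ring
  · have h1 : -Real.log r ≤ 2 * (-Real.log r - Real.log 2) := by linarith
    have h2 : 0 ≤ -Real.log r := by linarith
    nlinarith

/-- **points which are not Liouville numbers** -/
theorem loc_dio (x : AddCircle (1 : ℝ))
    (hx : ¬ ∀ (A : ℝ) (Q : ℕ), ∃ q : ℕ, Q ≤ q ∧ ‖q • x‖ < (q : ℝ) ^ (-A)) (ε : ℝ) (hε : 0 < ε) :
    ∃ r₀ : ℝ, 0 < r₀ ∧ ∀ r : ℝ, 0 < r → r < r₀ →
      ∀ μ : Measure (AddCircle (1 : ℝ)), IsProbabilityMeasure μ →
      MeasurePreserving (fun x => (2 : ℕ) • x) μ μ →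
      MeasurePreserving (fun x => (3 : ℕ) • x) μ μ →
      μ (Metric.ball x r) ≤ ENNReal.ofReal (ε / (Real.log r) ^ 2) := by
  push Not at hx
  obtain ⟨A₀, Q₀, hAQ⟩ := hx
  -- normalisation
  obtain ⟨A, hA1, hA⟩ : ∃ A : ℝ, 1 ≤ A ∧ A₀ ≤ A := ⟨max A₀ 1, le_max_right _ _, le_max_left _ _⟩
  obtain ⟨Q, hQ1, hQ⟩ : ∃ Q : ℕ, 1 ≤ Q ∧ Q₀ ≤ Q := ⟨max Q₀ 1, le_max_right _ _, le_max_left _ _⟩
  have hq : ∀ q : ℕ, Q ≤ q → (q : ℝ) ^ (-A) ≤ ‖q • x‖ := by
    intro q hq
    refine le_trans ?_ (hAQ q (hQ.trans hq))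
    have h1 : (1 : ℝ) ≤ q := by exact_mod_cast hQ1.trans hq
    exact Real.rpow_le_rpow_of_exponent_le h1 (by linarith)
  have hne : ∀ q : ℕ, 1 ≤ q → q • x ≠ 0 := by
    intro q hq1 h0
    have h1 := hq (q * Q) (Nat.le_mul_of_pos_left _ hq1)
    have h2 : (q * Q) • x = 0 := by
      rw [mul_comm, mul_smul, h0, smul_zero]
    rw [h2, norm_zero] at h1
    have h3 : (0 : ℝ) < ((q * Q : ℕ) : ℝ) := by
      have : 0 < q * Q := Nat.mul_pos hq1 hQ1
      exact_mod_cast this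
    exact absurd h1 (not_le.2 (Real.rpow_pos_of_pos h3 _))
  obtain ⟨δ, hδ0, hδ⟩ : ∃ δ > 0, ∀ q : ℕ, 1 ≤ q → q < Q → δ ≤ ‖q • x‖ := by
    rcases (Finset.Ico 1 Q).eq_empty_or_nonempty with he | he
    · refine ⟨1, one_pos, fun q h1 h2 => ?_⟩
      have : q ∈ Finset.Ico 1 Q := Finset.mem_Ico.2 ⟨h1, h2⟩
      rw [he] at this
      exact absurd this (Finset.notMem_empty _)
    · obtain ⟨q0, hq0, hmin⟩ := Finset.exists_min_image (Finset.Ico 1 Q) (fun q => ‖q • x‖) he
      rw [Finset.mem_Ico] at hq0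
      exact ⟨‖q0 • x‖, norm_pos_iff.2 (hne q0 hq0.1), fun q h1 h2 =>
        hmin q (Finset.mem_Ico.2 ⟨h1, h2⟩)⟩
  set θ : ℝ := 1 / (16 * A) with hθ
  have hθ0 : 0 < θ := by positivity
  have hθA : θ * A = 1 / 16 := by
    rw [hθ]
    field_simp
  have hθ1 : θ ≤ 1 / 4 := by nlinarith
  obtain ⟨R0, hR0, h⟩ := loc_E θ (ε / 4) hθ0 hθ1 (by linarith)
  set R1 : ℝ := max R0 (8 * |Real.log δ| + 1) with hR1
  have hR1a : R0 ≤ R1 := le_max_left _ _
  have hR1b : 8 * |Real.log δ| + 1 ≤ R1 := le_max_right _ _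
  refine ⟨Real.exp (-(R1 + 2)), Real.exp_pos _, fun r hr hr1 μ hμ h2 h3 => ?_⟩
  obtain ⟨R, hR, hRr, hRl, hR0'⟩ := l_scale r hr R1 (by linarith) hr1
  have hxE : x ∈ Eab (θ * R) (R / 8) := by
    intro q hq1 hq2
    by_cases hqQ : q < Q
    · refine le_trans ?_ (hδ q hq1 hqQ)
      rw [← Real.exp_log hδ0]
      apply Real.exp_le_exp.2
      have := neg_abs_le (Real.log δ)
      linarith
    · refine le_trans ?_ (hq q (not_lt.1 hqQ))
      have hqp : (0 : ℝ) < q := by exact_mod_cast hq1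
      rw [Real.rpow_def_of_pos hqp]
      apply Real.exp_le_exp.2
      have h4 : Real.log q ≤ θ * R := by
        rw [Real.log_le_iff_le_exp hqp]
        exact hq2
      have h5 : Real.log q * A ≤ θ * R * A := mul_le_mul_of_nonneg_right h4 (by linarith)
      have h6 : θ * R * A = R / 16 := by
        rw [mul_assoc, mul_comm R A, ← mul_assoc, hθA]
        ring
      linarith
  have h4 := h R (hR1a.trans hR) x hxE μ hμ h2 h3
  rw [hRr] at h4
  refine h4.trans (ENNReal.ofReal_le_ofReal ?_)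
  have hlr : 0 < (Real.log r) ^ 2 := by
    have : Real.log r < 0 := by
      rw [Real.log_neg_iff hr]
      refine hr1.trans ?_
      rw [Real.exp_lt_one_iff]
      linarith
    rw [sq]
    exact mul_pos_of_neg_of_neg this this
  rw [div_le_div_iff₀ (by positivity) hlr]
  nlinarith

/-- **irrational points** -/
theorem loc_irr (x : AddCircle (1 : ℝ)) (hx : ∀ q : ℕ, 0 < q → q • x ≠ 0) (ε : ℝ) (hε : 0 < ε)
    (W : ℝ) (r₀ : ℝ) (hr₀ : 0 < r₀) :
    ∃ r : ℝ, 0 < r ∧ r < r₀ ∧ r < 1 ∧ ∀ s : ℝ, r ^ W ≤ s → s ≤ r →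
      ∀ μ : Measure (AddCircle (1 : ℝ)), IsProbabilityMeasure μ →
      MeasurePreserving (fun x => (2 : ℕ) • x) μ μ →
      MeasurePreserving (fun x => (3 : ℕ) • x) μ μ →
      μ (Metric.ball x s) ≤ ENNReal.ofReal (ε / (Real.log s) ^ 2) := by
  set W' : ℝ := max W 1 with hW'
  have hW1 : 1 ≤ W' := le_max_right _ _
  have hWW : W ≤ W' := le_max_left _ _
  set θ : ℝ := 1 / (64 * W') with hθ
  have hθ0 : 0 < θ := by positivity
  have hθW : θ * (2 * W') = 1 / 32 := by
    rw [hθ]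
    field_simp
    norm_num
  have hθ1 : θ ≤ 1 / 4 := by nlinarith
  obtain ⟨R0, hR0, h⟩ := loc_E θ (ε / 4) hθ0 hθ1 (by linarith)
  by_contra hcon
  push Not at hcon
  have hpow : Tendsto (fun j : ℕ => (2 : ℝ) ^ j) atTop atTop :=
    tendsto_pow_atTop_atTop_of_one_lt (by norm_num)
  suffices key : ∃ m : ℕ, 0 < m ∧ m • x = 0 by
    obtain ⟨m, hm0, hm⟩ := key
    exact hx m hm0 hm
  refine l_chain x (fun j => 1 / 32 * (2 : ℝ) ^ j) (fun j => (2 : ℝ) ^ j / 8)
    (hpow.atTop_div_const (by norm_num)) ?_ ?_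
  · filter_upwards [hpow.eventually_ge_atTop (R0 + |Real.log r₀| + 2)] with j hj hxE
    have hR0j : R0 ≤ (2 : ℝ) ^ j := by
      have := abs_nonneg (Real.log r₀)
      linarith
    set R : ℝ := (2 : ℝ) ^ j with hRd
    have hR2 : 2 ≤ R := by
      have := abs_nonneg (Real.log r₀)
      linarith
    have hl2 : Real.log 2 ≤ 1 := by
      have := Real.log_two_lt_d9
      linarith
    have hl20 : 0 < Real.log 2 := Real.log_pos (by norm_num)
    have hrp : 0 < Real.exp (-R) / 2 := by positivity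
    have he1 : Real.exp (-R) < 1 := Real.exp_lt_one_iff.2 (by linarith)
    have hrr : Real.exp (-R) / 2 < r₀ := by
      have h1 : Real.exp (-R) < r₀ := by
        rw [← Real.exp_log hr₀]
        apply Real.exp_lt_exp.2
        have := neg_abs_le (Real.log r₀)
        linarith
      have := Real.exp_pos (-R)
      linarith
    obtain ⟨s, hs1, hs2, μ, hμ, h2, h3, h4⟩ := hcon _ hrp hrr (by linarith)
    have hlogr : Real.log (Real.exp (-R) / 2) = -R - Real.log 2 := by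
      rw [Real.log_div (Real.exp_pos _).ne' (by norm_num), Real.log_exp]
    have hsp : 0 < s := lt_of_lt_of_le (Real.rpow_pos_of_pos hrp _) hs1
    have hlogs : Real.log s ≤ -R - Real.log 2 := by
      rw [← hlogr]
      exact Real.log_le_log hsp hs2
    have hlogs2 : -(W' * (R + Real.log 2)) ≤ Real.log s := by
      have h5 := Real.log_le_log (Real.rpow_pos_of_pos hrp _) hs1
      rw [Real.log_rpow hrp, hlogr] at h5
      have h6 : W * (R + Real.log 2) ≤ W' * (R + Real.log 2) :=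
        mul_le_mul_of_nonneg_right hWW (by linarith)
      linarith
    obtain ⟨R', hR'⟩ : ∃ R' : ℝ, R' = -Real.log s - Real.log 2 := ⟨_, rfl⟩
    have hR'1 : R ≤ R' := by linarith
    have hR'2 : R' ≤ 2 * W' * R := by
      have h7 : W' * (R + Real.log 2) ≤ W' * (2 * R) :=
        mul_le_mul_of_nonneg_left (by linarith) (by linarith)
      linarith
    have hs : Real.exp (-R') / 2 = s := by
      have e : -R' = Real.log s + Real.log 2 := by rw [hR']; ring
      rw [e, Real.exp_add, Real.exp_log hsp, Real.exp_log (by norm_num)]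
      ring
    have hxE' : x ∈ Eab (θ * R') (R' / 8) := by
      intro q hq1 hq2
      refine le_trans (Real.exp_le_exp.2 ?_) (hxE q hq1 (hq2.trans (Real.exp_le_exp.2 ?_)))
      · linarith
      · have h8 : θ * R' ≤ θ * (2 * W' * R) := mul_le_mul_of_nonneg_left hR'2 hθ0.le
        have h9 : θ * (2 * W' * R) = 1 / 32 * R := by
          rw [← hθW]; ring
        linarith
    have h5 := h R' (hR0j.trans hR'1) x hxE' μ hμ h2 h3
    rw [hs] at h5
    refine absurd h4 (not_lt.2 (h5.trans (ENNReal.ofReal_le_ofReal ?_)))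
    have h6 : 0 < Real.log s ^ 2 := by
      have h7 : Real.log s < 0 := by linarith
      rw [sq]
      exact mul_pos_of_neg_of_neg h7 h7
    have hR'0 : 0 < R' := by linarith
    rw [div_le_div_iff₀ (by positivity) h6]
    have h7 : Real.log s ^ 2 ≤ 4 * R' ^ 2 := by
      have h8 : -Real.log s ≤ 2 * R' := by linarith
      have h9 : 0 ≤ -Real.log s := by linarith
      nlinarith
    nlinarith
  · filter_upwards [hpow.eventually_ge_atTop 16] with j hj
    have e : (2 : ℝ) ^ (j + 1) = 2 * 2 ^ j := by rw [pow_succ]; ring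
    rw [e]
    linarith

end Pool.Agent.SupC
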