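import Pool.Agent.SupC.Corner
import Pool.Agent.SupC.Loc
import Pool.Agent.SupC.Cor

/-! Superquadratic complexity at every point, uniform in the measure: the local theorem. -/

namespace Pool.Agent.SupC

open Pool.Agent.SubT Pool.Agent.SlowV Pool.Agent.CplxN

open scoped BigOperators ENNReal

open MeasureTheory Set Filter Topology

/-- q2 **local theorem** -/
theorem local_sys (η θ ε : ℝ) (hη : 0 < η) (hη1 : η ≤ 1) (hθ : 0 < θ) (hε : 0 < ε) :
    ∃ n₀ : ℕ, ∀ n : ℕ, n₀ ≤ n → ∀ (X : Type) (_ : MeasurableSpace X) (P : Measure X),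
      IsProbabilityMeasure P → ∀ S R : X → X, MeasurePreserving S P P → MeasurePreserving R P P →
      ∀ φ : X → AddCircle (1 : ℝ), Measurable φ →
      (∀ᵐ ω ∂P, φ (S ω) = (2 : ℕ) • φ ω) → (∀ᵐ ω ∂P, φ (R ω) = (3 : ℕ) • φ ω) →
      ∀ B : Set X, (∀ x ∈ B, ∀ y ∈ B, (cnt (bx n) far (φ x - φ y) : ℝ) ≤ (n : ℝ) ^ (2 - η)) →
      ∀ x ∈ B, φ x ∈ Eab (θ * n) (n / 30) → P B ≤ ENNReal.ofReal (ε / (n : ℝ) ^ 2) := by
  obtain ⟨κ, hκ0, hκ1, hκ2⟩ : ∃ κ : ℝ, 0 < κ ∧ κ ≤ 1 / 20 ∧ κ ≤ θ / 8 :=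
    ⟨min (1 / 20) (θ / 8), lt_min (by norm_num) (by positivity), min_le_left _ _, min_le_right _ _⟩
  obtain ⟨θ', hθ'0, hθ'1, hθ'2⟩ : ∃ θ' : ℝ, 0 < θ' ∧ θ' ≤ 1 / 4 ∧ θ' ≤ θ :=
    ⟨min (1 / 4) θ, lt_min (by norm_num) hθ, min_le_left _ _, min_le_right _ _⟩
  obtain ⟨n1, hcor⟩ := corner η κ hη hη1 hκ0
  obtain ⟨R0, hR0, hloc⟩ := loc_E θ' (ε / 9) hθ'0 hθ'1 (by positivity)
  obtain ⟨n2, hn2⟩ := exists_nat_ge (3 * R0 + 20 + 5 / θ)
  refine ⟨max n1 n2, fun n hn X _ P hP S R hS hR φ hφ h2 h3 B hB x hx hxE => ?_⟩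
  have hnn1 : n1 ≤ n := (le_max_left _ _).trans hn
  have hnr : 3 * R0 + 20 + 5 / θ ≤ n := hn2.trans (by exact_mod_cast (le_max_right n1 n2).trans hn)
  have hθ5 : 0 < 5 / θ := by positivity
  have hn20 : (20 : ℝ) ≤ n := by linarith
  have hn5 : 5 ≤ θ * n := by
    have h5 : 5 / θ ≤ n := by linarith
    rw [div_le_iff₀ hθ] at h5
    linarith
  -- logarithms
  have hl6 : Real.log 2 + Real.log 3 ≤ 2 := by
    rw [← Real.log_mul (by norm_num) (by norm_num)]
    have h6 : (2 : ℝ) * 3 ≤ Real.exp 2 := by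
      have e : Real.exp 2 = Real.exp 1 * Real.exp 1 := by
        rw [← Real.exp_add]
        norm_num
      rw [e]
      have := Real.exp_one_gt_d9
      nlinarith
    calc Real.log (2 * 3) ≤ Real.log (Real.exp 2) := Real.log_le_log (by norm_num) h6
      _ = 2 := Real.log_exp 2
  have hl2a := Real.log_two_gt_d9
  have hl2b := Real.log_two_lt_d9
  -- the corner
  obtain ⟨k, hk⟩ : ∃ k : ℕ, k = ⌈κ * n⌉₊ := ⟨_, rfl⟩
  have hk1 : κ * n ≤ k := by
    rw [hk]
    exact Nat.le_ceil _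
  have hk2 : (k : ℝ) ≤ κ * n + 1 := by
    rw [hk]
    exact (Nat.ceil_lt_add_one (by positivity)).le
  have hLL : LL k k ≤ 2 * (κ * n + 1) := by
    have hk0 : (0 : ℝ) ≤ k := Nat.cast_nonneg k
    unfold LL
    calc (k : ℝ) * Real.log 2 + k * Real.log 3 = k * (Real.log 2 + Real.log 3) := by ring
      _ ≤ k * 2 := mul_le_mul_of_nonneg_left hl6 hk0
      _ ≤ 2 * (κ * n + 1) := by linarith
  have hpow : ((2 ^ k * 3 ^ k : ℕ) : ℝ) = Real.exp (LL k k) := by
    unfold LL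
    rw [Real.exp_add, mul_comm (k : ℝ), mul_comm (k : ℝ), Real.exp_mul, Real.exp_mul,
      Real.exp_log (by norm_num), Real.exp_log (by norm_num), Real.rpow_natCast, Real.rpow_natCast]
    push_cast
    ring
  set z : AddCircle (1 : ℝ) := sp (k, k) (φ x) with hz
  have hrad : ∀ y ∈ B, sp (k, k) (φ y) ∈ Metric.ball z (Real.exp (-((n : ℝ) / 3)) / 2) := by
    intro y hy
    have h4 := hcor n hnn1 (φ y - φ x) (hB y hy x hx) (k, k) hk1 hk1
    have e : sp (k, k) (φ y - φ x) = sp (k, k) (φ y) - sp (k, k) (φ x) := by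
      unfold sp
      rw [smul_sub]
    rw [e] at h4
    rw [Metric.mem_ball, dist_eq_norm]
    refine lt_of_le_of_lt h4 ?_
    have h5 : LL k k - (1 - κ) * (n * Real.log 2) ≤ -((n : ℝ) / 3) - 1 := by
      have h6 : κ * n ≤ 1 / 20 * n := mul_le_mul_of_nonneg_right hκ1 (by linarith)
      have h7 : 19 / 20 * (n * (69 / 100)) ≤ (1 - κ) * (n * Real.log 2) := by
        apply mul_le_mul (by linarith) _ (by positivity) (by linarith)
        exact mul_le_mul_of_nonneg_left (by linarith) (by linarith)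
      linarith
    have h8 : Real.exp (-((n : ℝ) / 3) - 1) < Real.exp (-((n : ℝ) / 3)) / 2 := by
      rw [Real.exp_sub]
      apply div_lt_div_of_pos_left (Real.exp_pos _) (by norm_num)
      have := Real.exp_one_gt_d9
      linarith
    exact lt_of_le_of_lt (Real.exp_le_exp.2 h5) h8
  -- the centre
  have hzE : z ∈ Eab (θ' * ((n : ℝ) / 3)) ((n : ℝ) / 3 / 8) := by
    intro q hq1 hq2
    have h4 : q • z = (q * (2 ^ k * 3 ^ k)) • φ x := by
      rw [hz]
      unfold sp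
      rw [smul_smul]
    rw [h4]
    refine le_trans (Real.exp_le_exp.2 (by linarith)) (hxE (q * (2 ^ k * 3 ^ k)) ?_ ?_)
    · exact Nat.mul_pos hq1 (by positivity)
    · have h5 : ((q * (2 ^ k * 3 ^ k) : ℕ) : ℝ) = q * Real.exp (LL k k) := by
        rw [← hpow]
        push_cast
        ring
      rw [h5]
      calc (q : ℝ) * Real.exp (LL k k)
          ≤ Real.exp (θ' * ((n : ℝ) / 3)) * Real.exp (2 * (κ * n + 1)) :=
            mul_le_mul hq2 (Real.exp_le_exp.2 hLL) (Real.exp_pos _).le (Real.exp_pos _).le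
        _ = Real.exp (θ' * ((n : ℝ) / 3) + 2 * (κ * n + 1)) := by rw [← Real.exp_add]
        _ ≤ Real.exp (θ * n) := by
            apply Real.exp_le_exp.2
            have h6 : κ * n ≤ θ / 8 * n := mul_le_mul_of_nonneg_right hκ2 (by linarith)
            have h7 : θ' * ((n : ℝ) / 3) ≤ θ * ((n : ℝ) / 3) :=
              mul_le_mul_of_nonneg_right hθ'2 (by linarith)
            linarith
  -- the mass
  have m2 := map_mp P hS φ hφ 2 h2
  have m3 := map_mp P hR φ hφ 3 h3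
  have hprob : IsProbabilityMeasure (P.map φ) := Measure.isProbabilityMeasure_map hφ.aemeasurable
  have h4 := hloc ((n : ℝ) / 3) (by linarith) z hzE (P.map φ) hprob m2 m3
  have hmp := GR1_mp (P.map φ) m2 m3 k k
  have hmb : MeasurableSet (Metric.ball z (Real.exp (-((n : ℝ) / 3)) / 2)) :=
    Metric.isOpen_ball.measurableSet
  have h5 : P B ≤ (P.map φ) (Metric.ball z (Real.exp (-((n : ℝ) / 3)) / 2)) := by
    rw [← hmp.measure_preimage hmb.nullMeasurableSet,
      Measure.map_apply hφ (hmp.measurable hmb)]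
    exact measure_mono fun y hy => hrad y hy
  refine h5.trans (h4.trans (le_of_eq ?_))
  congr 1
  have : (n : ℝ) ≠ 0 := by linarith
  field_simp
  norm_num

end Pool.Agent.SupC
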