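import Pool.Agent.SupC.Local

/-! Superquadratic complexity at the points which are not Liouville numbers and at all irrational points. -/

namespace Pool.Agent.SupC

open Pool.Agent.SubT Pool.Agent.SlowV Pool.Agent.CplxN

open scoped BigOperators ENNReal

open MeasureTheory Set Filter Topology

private theorem q3_norm (m : ℕ) (x : AddCircle (1 : ℝ)) (h : (m : ℝ) * ‖x‖ ≤ 1 / 2) :
    ‖m • x‖ = m * ‖x‖ := by
  obtain ⟨r, rfl⟩ := QuotientAddGroup.mk_surjective x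
  have h0 : ‖((r : ℝ) : AddCircle (1 : ℝ))‖ = |r - round r| := by
    rw [AddCircle.norm_eq]
    norm_num
  have h1 : ((r : ℝ) : AddCircle (1 : ℝ)) = ((r - round r : ℝ) : AddCircle (1 : ℝ)) := by
    rw [AddCircle.coe_sub]
    have h2 : (((round r : ℤ) : ℝ) : AddCircle (1 : ℝ)) = 0 := by
      have h3 := AddCircle.coe_period (p := (1 : ℝ))
      have h4 : (((round r : ℤ) : ℝ) : AddCircle (1 : ℝ)) =
          (round r) • ((1 : ℝ) : AddCircle (1 : ℝ)) := by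
        rw [← AddCircle.coe_zsmul]
        congr 1
        simp
      rw [h4, h3, smul_zero]
    rw [h2, sub_zero]
  show ‖m • ((r : ℝ) : AddCircle (1 : ℝ))‖ = m * ‖((r : ℝ) : AddCircle (1 : ℝ))‖
  have h' : (m : ℝ) * |r - round r| ≤ 1 / 2 := by
    rw [← h0]
    exact h
  rw [h0, h1, ← AddCircle.coe_nsmul]
  have h5 : m • (r - round r) = m * (r - round r) := by simp
  rw [h5]
  have h6 : |(m : ℝ) * (r - round r)| = m * |r - round r| := by
    rw [abs_mul, abs_of_nonneg (Nat.cast_nonneg m)]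
  rw [← h6]
  apply (AddCircle.norm_coe_eq_abs_iff (1 : ℝ) one_ne_zero).2
  rw [h6, abs_one]
  exact h'

private theorem q3_chain (w : AddCircle (1 : ℝ)) (a b : ℕ → ℝ) (hb : Tendsto b atTop atTop)
    (h : ∀ᶠ j in atTop, w ∉ Eab (a j) (b j))
    (hab : ∀ᶠ j in atTop, a (j + 1) + 1 ≤ b j) : ∃ m : ℕ, 0 < m ∧ m • w = 0 := by
  obtain ⟨j0, hj0⟩ := eventually_atTop.1 (h.and hab)
  have hm : ∀ j, j0 ≤ j → ∃ m : ℕ, 0 < m ∧ (m : ℝ) ≤ Real.exp (a j) ∧
      ‖m • w‖ < Real.exp (-(b j)) := by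
    intro j hj
    have h1 := (hj0 j hj).1
    simp only [Eab, Set.mem_ofPred_eq, not_forall, not_le] at h1
    obtain ⟨q, hq1, hq2, hq3⟩ := h1
    exact ⟨q, hq1, hq2, hq3⟩
  choose! m hm0 hm1 hm2 using hm
  have hstep : ∀ j, j0 ≤ j → ‖m j • w‖ / m j ≤ ‖m (j + 1) • w‖ / m (j + 1) := by
    intro j hj
    have a0 : (0 : ℝ) < m j := by exact_mod_cast hm0 j hj
    have a1 : (0 : ℝ) < m (j + 1) := by exact_mod_cast hm0 (j + 1) (by omega)
    have h7 : (m (j + 1) : ℝ) * ‖m j • w‖ ≤ 1 / 2 := by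
      have h8 : (m (j + 1) : ℝ) * ‖m j • w‖ ≤ Real.exp (a (j + 1)) * Real.exp (-(b j)) :=
        mul_le_mul (hm1 (j + 1) (by omega)) (hm2 j hj).le (norm_nonneg _) (Real.exp_pos _).le
      have h9 : Real.exp (a (j + 1)) * Real.exp (-(b j)) ≤ Real.exp (-1) := by
        rw [← Real.exp_add]
        apply Real.exp_le_exp.2
        have := (hj0 j hj).2
        linarith
      have h10 : Real.exp (-1) ≤ 1 / 2 := by
        rw [Real.exp_neg, inv_eq_one_div]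
        apply one_div_le_one_div_of_le (by norm_num)
        have := Real.add_one_le_exp (1 : ℝ)
        linarith
      linarith
    have h10 := q3_norm (m (j + 1)) (m j • w) h7
    have h11 : ‖m (j + 1) • (m j • w)‖ ≤ m j * ‖m (j + 1) • w‖ := by
      rw [smul_smul, mul_comm, ← smul_smul]
      exact norm_nsmul_le
    rw [div_le_div_iff₀ a0 a1]
    linarith
  have hmono : ∀ k, ‖m j0 • w‖ / m j0 ≤ ‖m (j0 + k) • w‖ / m (j0 + k) := by
    intro k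
    induction k with
    | zero => simp
    | succ k ih => exact ih.trans (hstep (j0 + k) (by omega))
  have hlim : Tendsto (fun k => Real.exp (-(b (j0 + k)))) atTop (𝓝 0) := by
    have h12 : Tendsto (fun k => b (j0 + k)) atTop atTop :=
      hb.comp (tendsto_add_atTop_iff_nat j0 |>.2 tendsto_id |>.congr fun k => by simp [add_comm])
    exact Real.tendsto_exp_neg_atTop_nhds_zero.comp h12
  have hle : ‖m j0 • w‖ / m j0 ≤ 0 := by
    refine ge_of_tendsto' hlim fun k => (hmono k).trans ?_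
    have a1 : (1 : ℝ) ≤ m (j0 + k) := by exact_mod_cast hm0 (j0 + k) (by omega)
    have h13 := hm2 (j0 + k) (by omega)
    have h14 : ‖m (j0 + k) • w‖ / m (j0 + k) ≤ ‖m (j0 + k) • w‖ := div_le_self (norm_nonneg _) a1
    linarith
  refine ⟨m j0, hm0 j0 le_rfl, ?_⟩
  have a0 : (0 : ℝ) < m j0 := by exact_mod_cast hm0 j0 le_rfl
  rw [div_le_iff₀ a0, zero_mul] at hle
  exact norm_eq_zero.1 (le_antisymm hle (norm_nonneg _))

/-- q3a -/
theorem local_dio (z : AddCircle (1 : ℝ))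
    (hz : ∃ A : ℝ, ∃ Q : ℕ, ∀ q : ℕ, Q ≤ q → (q : ℝ) ^ (-A) ≤ ‖q • z‖)
    (η ε : ℝ) (hη : 0 < η) (hη1 : η ≤ 1) (hε : 0 < ε) :
    ∃ n₀ : ℕ, ∀ n : ℕ, n₀ ≤ n → ∀ (X : Type) (_ : MeasurableSpace X) (P : Measure X),
      IsProbabilityMeasure P → ∀ S R : X → X, MeasurePreserving S P P → MeasurePreserving R P P →
      ∀ φ : X → AddCircle (1 : ℝ), Measurable φ →
      (∀ᵐ ω ∂P, φ (S ω) = (2 : ℕ) • φ ω) → (∀ᵐ ω ∂P, φ (R ω) = (3 : ℕ) • φ ω) →
      ∀ B : Set X, (∀ x ∈ B, ∀ y ∈ B, (cnt (bx n) far (φ x - φ y) : ℝ) ≤ (n : ℝ) ^ (2 - η)) →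
      ∀ x ∈ B, φ x = z → P B ≤ ENNReal.ofReal (ε / (n : ℝ) ^ 2) := by
  obtain ⟨A₀, Q₀, hAQ⟩ := hz
  -- normalisation
  obtain ⟨A, hA1, hA⟩ : ∃ A : ℝ, 1 ≤ A ∧ A₀ ≤ A := ⟨max A₀ 1, le_max_right _ _, le_max_left _ _⟩
  obtain ⟨Q, hQ1, hQ⟩ : ∃ Q : ℕ, 1 ≤ Q ∧ Q₀ ≤ Q := ⟨max Q₀ 1, le_max_right _ _, le_max_left _ _⟩
  have hq : ∀ q : ℕ, Q ≤ q → (q : ℝ) ^ (-A) ≤ ‖q • z‖ := by
    intro q hq
    refine le_trans ?_ (hAQ q (hQ.trans hq))
    have h1 : (1 : ℝ) ≤ q := by exact_mod_cast hQ1.trans hq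
    exact Real.rpow_le_rpow_of_exponent_le h1 (by linarith)
  have hne : ∀ q : ℕ, 1 ≤ q → q • z ≠ 0 := by
    intro q hq1 h0
    have h1 := hq (q * Q) (Nat.le_mul_of_pos_left _ hq1)
    have h2 : (q * Q) • z = 0 := by
      rw [mul_comm, mul_smul, h0, smul_zero]
    rw [h2, norm_zero] at h1
    have h3 : (0 : ℝ) < ((q * Q : ℕ) : ℝ) := by
      have : 0 < q * Q := Nat.mul_pos hq1 hQ1
      exact_mod_cast this
    exact absurd h1 (not_le.2 (Real.rpow_pos_of_pos h3 _))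
  obtain ⟨δ, hδ0, hδ⟩ : ∃ δ > 0, ∀ q : ℕ, 1 ≤ q → q < Q → δ ≤ ‖q • z‖ := by
    rcases (Finset.Ico 1 Q).eq_empty_or_nonempty with he | he
    · refine ⟨1, one_pos, fun q h1 h2 => ?_⟩
      have : q ∈ Finset.Ico 1 Q := Finset.mem_Ico.2 ⟨h1, h2⟩
      rw [he] at this
      exact absurd this (Finset.notMem_empty _)
    · obtain ⟨q0, hq0, hmin⟩ := Finset.exists_min_image (Finset.Ico 1 Q) (fun q => ‖q • z‖) he
      rw [Finset.mem_Ico] at hq0
      exact ⟨‖q0 • z‖, norm_pos_iff.2 (hne q0 hq0.1), fun q h1 h2 =>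
        hmin q (Finset.mem_Ico.2 ⟨h1, h2⟩)⟩
  obtain ⟨n1, hn1⟩ := local_sys η (1 / (30 * A)) ε hη hη1 (by positivity) hε
  obtain ⟨n2, hn2⟩ := exists_nat_ge (30 * |Real.log δ|)
  refine ⟨max n1 n2, fun n hn X _ P hP S R hS hR φ hφ h2 h3 B hB x hx hxz => ?_⟩
  refine hn1 n ((le_max_left _ _).trans hn) X _ P hP S R hS hR φ hφ h2 h3 B hB x hx ?_
  have hn2' : 30 * |Real.log δ| ≤ n :=
    hn2.trans (by exact_mod_cast (le_max_right n1 n2).trans hn)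
  rw [hxz]
  intro q hq1 hq2
  by_cases hqQ : q < Q
  · refine le_trans ?_ (hδ q hq1 hqQ)
    rw [← Real.exp_log hδ0]
    apply Real.exp_le_exp.2
    have := neg_abs_le (Real.log δ)
    linarith
  · refine le_trans ?_ (hq q (not_lt.1 hqQ))
    have hqp : (0 : ℝ) < q := by exact_mod_cast hq1
    rw [Real.rpow_def_of_pos hqp]
    apply Real.exp_le_exp.2
    have h4 : Real.log q ≤ 1 / (30 * A) * n := by
      rw [Real.log_le_iff_le_exp hqp]
      exact hq2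
    have h5 : Real.log q * A ≤ 1 / (30 * A) * n * A := mul_le_mul_of_nonneg_right h4 (by linarith)
    have h6 : 1 / (30 * A) * n * A = n / 30 := by
      field_simp
    linarith

/-- q3b -/
theorem local_irr (z : AddCircle (1 : ℝ)) (hz : ∀ q : ℕ, 0 < q → q • z ≠ 0)
    (η ε W : ℝ) (hη : 0 < η) (hη1 : η ≤ 1) (hε : 0 < ε) (m₀ : ℕ) :
    ∃ m : ℕ, m₀ ≤ m ∧ ∀ n : ℕ, m ≤ n → (n : ℝ) ≤ W * m →
      ∀ (X : Type) (_ : MeasurableSpace X) (P : Measure X),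
      IsProbabilityMeasure P → ∀ S R : X → X, MeasurePreserving S P P → MeasurePreserving R P P →
      ∀ φ : X → AddCircle (1 : ℝ), Measurable φ →
      (∀ᵐ ω ∂P, φ (S ω) = (2 : ℕ) • φ ω) → (∀ᵐ ω ∂P, φ (R ω) = (3 : ℕ) • φ ω) →
      ∀ B : Set X, (∀ x ∈ B, ∀ y ∈ B, (cnt (bx n) far (φ x - φ y) : ℝ) ≤ (n : ℝ) ^ (2 - η)) →
      ∀ x ∈ B, φ x = z → P B ≤ ENNReal.ofReal (ε / (n : ℝ) ^ 2) := by
  obtain ⟨W', hW1, hWW⟩ : ∃ W' : ℝ, 1 ≤ W' ∧ W ≤ W' := ⟨max W 1, le_max_right _ _, le_max_left _ _⟩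
  have hW0 : 0 < W' := by linarith
  obtain ⟨n1, hn1⟩ := local_sys η (1 / (240 * W')) ε hη hη1 (by positivity) hε
  by_contra hcon
  push Not at hcon
  have hpow : Tendsto (fun j : ℕ => (2 : ℝ) ^ j) atTop atTop :=
    tendsto_pow_atTop_atTop_of_one_lt (by norm_num)
  suffices key : ∃ m : ℕ, 0 < m ∧ m • z = 0 by
    obtain ⟨m, hm0, hm⟩ := key
    exact hz m hm0 hm
  refine q3_chain z (fun j => 1 / 240 * (2 : ℝ) ^ j) (fun j => (2 : ℝ) ^ j / 30)
    (hpow.atTop_div_const (by norm_num)) ?_ ?_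
  · filter_upwards [hpow.eventually_ge_atTop ((m₀ : ℝ) + n1)] with j hj hzE
    have hc : ((2 ^ j : ℕ) : ℝ) = (2 : ℝ) ^ j := by push_cast; rfl
    have hjm : m₀ ≤ 2 ^ j := by
      have : (m₀ : ℝ) ≤ ((2 ^ j : ℕ) : ℝ) := by
        rw [hc]
        have := (Nat.cast_nonneg n1 : (0 : ℝ) ≤ n1)
        linarith
      exact_mod_cast this
    have hjn : n1 ≤ 2 ^ j := by
      have : (n1 : ℝ) ≤ ((2 ^ j : ℕ) : ℝ) := by
        rw [hc]
        have := (Nat.cast_nonneg m₀ : (0 : ℝ) ≤ m₀)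
        linarith
      exact_mod_cast this
    obtain ⟨n, hn, hnW, X, hX, P, hP, S, R, hS, hR, φ, hφ, h2, h3, B, hB, x, hx, hxz, hlt⟩ :=
      hcon (2 ^ j) hjm
    rw [hc] at hnW
    have hpj : (0 : ℝ) < (2 : ℝ) ^ j := by positivity
    have hnr : (2 : ℝ) ^ j ≤ n := by
      rw [← hc]
      exact_mod_cast hn
    refine absurd hlt (not_lt.2 (hn1 n (hjn.trans hn) X hX P hP S R hS hR φ hφ h2 h3 B hB x hx ?_))
    rw [hxz]
    intro q hq1 hq2
    refine le_trans (Real.exp_le_exp.2 ?_) (hzE q hq1 (hq2.trans (Real.exp_le_exp.2 ?_)))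
    · linarith
    · have h8 : (n : ℝ) ≤ W' * 2 ^ j := hnW.trans (mul_le_mul_of_nonneg_right hWW hpj.le)
      have h9 : 1 / (240 * W') * (n : ℝ) ≤ 1 / (240 * W') * (W' * 2 ^ j) :=
        mul_le_mul_of_nonneg_left h8 (by positivity)
      have h10 : 1 / (240 * W') * (W' * (2 : ℝ) ^ j) = 1 / 240 * 2 ^ j := by
        field_simp
      linarith
  · filter_upwards [hpow.eventually_ge_atTop 40] with j hj
    have e : (2 : ℝ) ^ (j + 1) = 2 * 2 ^ j := by rw [pow_succ]; ring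
    rw [e]
    linarith

end Pool.Agent.SupC
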