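import Pool.Agent.SupC.Star
import Pool.Agent.SupC.Dens
import Pool.Agent.CplxN.Dio

/-! Superquadratic complexity: the uniform inequality. Text, section 7. -/

namespace Pool.Agent.SupC

open Pool.Agent.SubT Pool.Agent.SlowV Pool.Agent.CplxN

open scoped BigOperators ENNReal

open MeasureTheory Set

/-- j0 -/
theorem Eab_closed (a b : ℝ) : IsClosed (Eab a b) := by
  have e : Eab a b = ⋂ q : ℕ, ⋂ (_ : 1 ≤ q), ⋂ (_ : (q : ℝ) ≤ Real.exp a),
      {x : AddCircle (1 : ℝ) | Real.exp (-b) ≤ ‖q • x‖} := by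
    ext x
    simp only [Eab, Set.mem_iInter, Set.mem_ofPred_eq]
  rw [e]
  refine isClosed_iInter fun q => isClosed_iInter fun _ => isClosed_iInter fun _ => ?_
  exact isClosed_le continuous_const (continuous_nsmul q).norm

/-- j0 -/
theorem Eab_mono {a b a' b' : ℝ} (ha : a ≤ a') (hb : b' ≤ b) : Eab a' b' ⊆ Eab a b := by
  intro x hx q hq hqa
  exact (Real.exp_le_exp.2 (by linarith)).trans (hx q hq (hqa.trans (Real.exp_le_exp.2 ha)))

/-- the size of the large box -/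
theorem j2_size (N : ℝ) (hN : 8 ≤ N) (n : ℕ) (hnN : (n : ℝ) ≤ N) :
    ((⌈2 * N⌉₊ + 2 * ⌈N⌉₊ + n : ℕ) : ℝ) ^ 2 ≤ 36 * N ^ 2 := by
  have h1 : (⌈2 * N⌉₊ : ℝ) < 2 * N + 1 := Nat.ceil_lt_add_one (by linarith)
  have h2 : (⌈N⌉₊ : ℝ) < N + 1 := Nat.ceil_lt_add_one (by linarith)
  have h3 : ((⌈2 * N⌉₊ + 2 * ⌈N⌉₊ + n : ℕ) : ℝ) ≤ 6 * N := by
    push_cast
    linarith
  calc ((⌈2 * N⌉₊ + 2 * ⌈N⌉₊ + n : ℕ) : ℝ) ^ 2 ≤ (6 * N) ^ 2 :=
        pow_le_pow_left₀ (Nat.cast_nonneg _) h3 2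
    _ = 36 * N ^ 2 := by ring

theorem j2_e0 (N : ℝ) (hN : 8 ≤ N) : (e0 N).1 ≤ ⌈N⌉₊ ∧ (e0 N).2 ≤ ⌈N⌉₊ := by
  have h2 : (0.6 : ℝ) < Real.log 2 := by
    have := Real.log_two_gt_d9
    linarith
  have h3 : Real.log 2 ≤ Real.log 3 := Real.log_le_log (by norm_num) (by norm_num)
  unfold e0
  constructor
  · apply Nat.ceil_mono
    rw [div_le_iff₀ (by linarith)]
    nlinarith
  · apply Nat.ceil_mono
    rw [div_le_iff₀ (by linarith)]
    nlinarith

theorem j2_alg (A x y d N : ℝ) (hd : d ≠ 0) (hN : N ≠ 0) :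
    A * x * y / (d * N ^ 2) * (36 * N ^ 2) = x * y * (36 * A / d) := by
  field_simp

theorem j2_fin (a b m : ℕ) (c κ e w : ℝ) (ha : 0 < a) (hb : 0 < b) (hc : 0 ≤ c) (he : 0 ≤ e)
    (hw : 0 ≤ w)
    (h : (b : ℝ≥0∞) * ((a : ℝ≥0∞) * ENNReal.ofReal e) ≤
      (a : ℝ≥0∞) * ((b : ℝ≥0∞) * ENNReal.ofReal w) +
        ENNReal.ofReal c * ((m : ℝ≥0∞) * ENNReal.ofReal e))
    (hk : c * m ≤ (b : ℝ) * a * κ) (hκ1 : κ ≤ 1) :
    ENNReal.ofReal (1 - κ) * ENNReal.ofReal e ≤ ENNReal.ofReal w := by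
  have ha' : (0 : ℝ) < a := by exact_mod_cast ha
  have hb' : (0 : ℝ) < b := by exact_mod_cast hb
  have h1 : (b : ℝ) * ((a : ℝ) * e) ≤ (a : ℝ) * ((b : ℝ) * w) + c * ((m : ℝ) * e) := by
    rw [← ENNReal.ofReal_natCast, ← ENNReal.ofReal_natCast, ← ENNReal.ofReal_natCast,
      ← ENNReal.ofReal_mul (by positivity), ← ENNReal.ofReal_mul (by positivity),
      ← ENNReal.ofReal_mul (by positivity), ← ENNReal.ofReal_mul (by positivity),
      ← ENNReal.ofReal_mul (by positivity), ← ENNReal.ofReal_mul (by positivity),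
      ← ENNReal.ofReal_add (by positivity) (by positivity)] at h
    exact (ENNReal.ofReal_le_ofReal_iff (by positivity)).1 h
  rw [← ENNReal.ofReal_mul (by linarith)]
  apply ENNReal.ofReal_le_ofReal
  have h2 : c * ((m : ℝ) * e) ≤ (b : ℝ) * a * κ * e := by
    rw [← mul_assoc]
    exact mul_le_mul_of_nonneg_right hk he
  have h3 : ((b : ℝ) * a) * e ≤ ((b : ℝ) * a) * (w + κ * e) := by
    nlinarith
  have h4 := le_of_mul_le_mul_left h3 (by positivity)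
  linarith

open Classical in
/-- the pointwise inequality -/
theorem j2_point (E : Set (AddCircle (1 : ℝ))) (N d A : ℝ) (hN : 8 ≤ N) (hd : 0 < d)
    (hA : 0 ≤ A) (n K : ℕ) (hnN : (n : ℝ) ≤ N)
    (B : Fin K → Set (AddCircle (1 : ℝ))) (V : Set (AddCircle (1 : ℝ))) (hV : (⋃ i, B i)ᶜ ⊆ V)
    (hdens : ∀ w : AddCircle (1 : ℝ), sp (e0 N) w ∈ E → d * N ^ 2 ≤ (cnt (bx ⌈2 * N⌉₊) E w : ℝ))
    (hstar : ∀ z : AddCircle (1 : ℝ), (∑ v ∈ bx ⌈N⌉₊, ∑ u ∈ ibx (n / 4) n,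
      (if sp v z ∈ (⋃ i, B i) ∧ sp (v + u) z ∈ E then (1 : ℝ) else 0)) ≤
        A * ((bx ⌈N⌉₊).card : ℝ) * ((ibx (n / 4) n).card : ℝ)) (z : AddCircle (1 : ℝ)) :
    (∑ v ∈ bx ⌈N⌉₊, (cnt (ibx (n / 4) n) E (sp ((⌈N⌉₊, ⌈N⌉₊) + v) z) : ℝ)) ≤
      ((ibx (n / 4) n).card : ℝ) * (cnt (bx ⌈N⌉₊) V (sp (⌈N⌉₊, ⌈N⌉₊) z) : ℝ) +
      A * ((bx ⌈N⌉₊).card : ℝ) * ((ibx (n / 4) n).card : ℝ) / (d * N ^ 2) *
        (cnt (bx (⌈2 * N⌉₊ + 2 * ⌈N⌉₊ + n)) E z : ℝ) := by
  classical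
  set W : ℕ := ⌈N⌉₊ with hW
  set M : ℕ := ⌈2 * N⌉₊ + 2 * W + n with hM
  set z1 := sp (W, W) z with hz1
  set I := ibx (n / 4) n with hI
  have hdN : 0 < d * N ^ 2 := by positivity
  -- split
  have h1 : (∑ v ∈ bx W, (cnt I E (sp ((W, W) + v) z) : ℝ)) ≤
      (I.card : ℝ) * (cnt (bx W) V z1 : ℝ) + ∑ v ∈ bx W, ∑ u ∈ I,
      (if sp v z1 ∈ (⋃ i, B i) ∧ sp (v + u) z1 ∈ E then (1 : ℝ) else 0) := by
    have e1 : (I.card : ℝ) * (cnt (bx W) V z1 : ℝ) = ∑ v ∈ bx W, ∑ u ∈ I,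
        (if sp v z1 ∈ V then (1 : ℝ) else 0) := by
      unfold cnt
      rw [Finset.card_filter]
      push_cast
      rw [Finset.mul_sum]
      refine Finset.sum_congr rfl fun v _ => ?_
      rw [Finset.sum_const, nsmul_eq_mul]
    rw [e1, ← Finset.sum_add_distrib]
    refine Finset.sum_le_sum fun v _ => ?_
    rw [← Finset.sum_add_distrib]
    unfold cnt
    rw [Finset.card_filter]
    push_cast
    refine Finset.sum_le_sum fun u _ => ?_
    have e2 : sp u (sp ((W, W) + v) z) = sp (v + u) z1 := by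
      rw [hz1, ← sp_add, ← sp_add]
      congr 1
      abel
    rw [e2]
    by_cases hE : sp (v + u) z1 ∈ E
    · rw [if_pos hE]
      by_cases hU : sp v z1 ∈ (⋃ i, B i)
      · rw [if_pos (And.intro hU hE)]
        split_ifs <;> norm_num
      · rw [if_pos (hV hU)]
        split_ifs <;> norm_num
    · rw [if_neg hE]
      split_ifs <;> norm_num
  refine h1.trans ?_
  have h2 : (∑ v ∈ bx W, ∑ u ∈ I,
      (if sp v z1 ∈ (⋃ i, B i) ∧ sp (v + u) z1 ∈ E then (1 : ℝ) else 0)) ≤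
      A * ((bx W).card : ℝ) * (I.card : ℝ) / (d * N ^ 2) * (cnt (bx M) E z : ℝ) := by
    by_cases hex : ∃ v ∈ bx W, ∃ u ∈ I, sp (v + u) z1 ∈ E
    · obtain ⟨v, hv, u, hu, hE⟩ := hex
      refine (hstar z1).trans ?_
      have h3 : d * N ^ 2 ≤ (cnt (bx M) E z : ℝ) := by
        obtain ⟨he1, he2⟩ := j2_e0 N hN
        rw [mem_bx] at hv
        rw [hI, mem_ibx] at hu
        set c : ℕ × ℕ := (W, W) + v + u with hc
        have hc1 : c.1 = W + v.1 + u.1 := by rw [hc]; simp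
        have hc2 : c.2 = W + v.2 + u.2 := by rw [hc]; simp
        have hcE : sp c z ∈ E := by
          rw [hc, add_assoc, add_comm, sp_add, ← hz1]
          exact hE
        set s : ℕ × ℕ := (c.1 - (e0 N).1, c.2 - (e0 N).2) with hs
        have hes : e0 N + s = c := by
          refine Prod.ext ?_ ?_
          · have : (e0 N + s).1 = (e0 N).1 + s.1 := rfl
            rw [this, hs]
            show (e0 N).1 + (c.1 - (e0 N).1) = c.1
            omega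
          · have : (e0 N + s).2 = (e0 N).2 + s.2 := rfl
            rw [this, hs]
            show (e0 N).2 + (c.2 - (e0 N).2) = c.2
            omega
        have h4 := hdens (sp s z) (by rw [← sp_add, hes]; exact hcE)
        refine h4.trans ?_
        have h5 : cnt (bx ⌈2 * N⌉₊) E (sp s z) ≤ cnt (bx M) E z := by
          unfold cnt
          refine Finset.card_le_card_of_injOn (fun p => p + s) ?_ ?_
          · intro p hp
            obtain ⟨hp1, hp2⟩ := Finset.mem_filter.1 (Finset.mem_coe.1 hp)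
            rw [mem_bx] at hp1
            refine Finset.mem_coe.2 (Finset.mem_filter.2 ⟨?_, ?_⟩)
            · rw [mem_bx]
              have a1 : (p + s).1 = p.1 + (c.1 - (e0 N).1) := rfl
              have a2 : (p + s).2 = p.2 + (c.2 - (e0 N).2) := rfl
              rw [a1, a2]
              omega
            · rw [sp_add]
              exact hp2
          · intro p _ q _ h
            exact add_right_cancel h
        exact_mod_cast h5
      have h6 : 0 ≤ A * ((bx W).card : ℝ) * (I.card : ℝ) := by positivity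
      calc A * ((bx W).card : ℝ) * (I.card : ℝ)
          = A * ((bx W).card : ℝ) * (I.card : ℝ) / (d * N ^ 2) * (d * N ^ 2) := by
            rw [div_mul_cancel₀ _ hdN.ne']
        _ ≤ A * ((bx W).card : ℝ) * (I.card : ℝ) / (d * N ^ 2) * (cnt (bx M) E z : ℝ) :=
            mul_le_mul_of_nonneg_left h3 (by positivity)
    · have : (∑ v ∈ bx W, ∑ u ∈ I,
          (if sp v z1 ∈ (⋃ i, B i) ∧ sp (v + u) z1 ∈ E then (1 : ℝ) else 0)) = 0 := by
        refine Finset.sum_eq_zero fun v hv => Finset.sum_eq_zero fun u hu => ?_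
        rw [if_neg]
        rintro ⟨_, h⟩
        exact hex ⟨v, hv, u, hu, h⟩
      rw [this]
      positivity
  linarith

open Classical in
/-- j2: integration. `E` is a measurable set with positive local density near each of its points,
`V` contains the uncovered points. -/
theorem integrate (μ : Measure (AddCircle (1 : ℝ))) [IsProbabilityMeasure μ]
    (h2 : MeasurePreserving (fun x => (2 : ℕ) • x) μ μ)
    (h3 : MeasurePreserving (fun x => (3 : ℕ) • x) μ μ)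
    (E : Set (AddCircle (1 : ℝ))) (hE : MeasurableSet E) (N d A κ : ℝ) (hN : 8 ≤ N) (hd : 0 < d)
    (hA : 0 ≤ A) (n K : ℕ) (hn : 8 ≤ n) (hnN : (n : ℝ) ≤ N)
    (B : Fin K → Set (AddCircle (1 : ℝ)))
    (hdens : ∀ w : AddCircle (1 : ℝ), sp (e0 N) w ∈ E → d * N ^ 2 ≤ (cnt (bx ⌈2 * N⌉₊) E w : ℝ))
    (hstar : ∀ z : AddCircle (1 : ℝ), (∑ v ∈ bx ⌈N⌉₊, ∑ u ∈ ibx (n / 4) n,
      (if sp v z ∈ (⋃ i, B i) ∧ sp (v + u) z ∈ E then (1 : ℝ) else 0)) ≤
        A * ((bx ⌈N⌉₊).card : ℝ) * ((ibx (n / 4) n).card : ℝ))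
    (hκ : 64 * A / d ≤ κ) (hκ1 : κ ≤ 1) :
    ENNReal.ofReal (1 - κ) * μ E ≤ μ (⋃ i, B i)ᶜ := by
  classical
  set W : ℕ := ⌈N⌉₊ with hW
  set M : ℕ := ⌈2 * N⌉₊ + 2 * W + n with hM
  set I := ibx (n / 4) n with hI
  set V := toMeasurable μ (⋃ i, B i)ᶜ with hVdef
  have hV1 : (⋃ i, B i)ᶜ ⊆ V := subset_toMeasurable _ _
  have hV2 : MeasurableSet V := measurableSet_toMeasurable _ _
  have hV3 : μ V = μ (⋃ i, B i)ᶜ := measure_toMeasurable _
  have hN0 : 0 < N := by linarith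
  have hdN : 0 < d * N ^ 2 := by positivity
  have hWpos : 0 < W := Nat.ceil_pos.2 hN0
  have hWc : 0 < ((bx W).card : ℝ) := by
    rw [card_bx]
    exact_mod_cast Nat.mul_pos hWpos hWpos
  have hIc : 0 < (I.card : ℝ) := by
    have : I.card = (n - n / 4 - n / 4) * (n - n / 4 - n / 4) := by
      rw [hI]; simp [ibx]
    rw [this]
    have h5 : 0 < n - n / 4 - n / 4 := by omega
    exact_mod_cast Nat.mul_pos h5 h5
  set c : ℝ := A * ((bx W).card : ℝ) * (I.card : ℝ) / (d * N ^ 2) with hc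
  have hc0 : 0 ≤ c := by positivity
  have hpt := fun z => j2_point E N d A hN hd hA n K hnN B V hV1 hdens hstar z
  -- in extended nonnegative reals
  have hpt2 : ∀ z : AddCircle (1 : ℝ), (∑ v ∈ bx W, (cnt I E (sp ((W, W) + v) z) : ℝ≥0∞)) ≤
      (I.card : ℝ≥0∞) * (cnt (bx W) V (sp (W, W) z) : ℝ≥0∞) +
        ENNReal.ofReal c * (cnt (bx M) E z : ℝ≥0∞) := by
    intro z
    have h := ENNReal.ofReal_le_ofReal (hpt z)
    rw [ENNReal.ofReal_add (by positivity) (by positivity), ENNReal.ofReal_mul (by positivity),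
      ENNReal.ofReal_mul hc0, ENNReal.ofReal_sum_of_nonneg (fun _ _ => Nat.cast_nonneg _)] at h
    simp only [ENNReal.ofReal_natCast] at h
    exact h
  have hmp : ∀ p : ℕ × ℕ, MeasurePreserving (sp p) μ μ := fun p => GR1_mp μ h2 h3 p.1 p.2
  have i1 : ∀ v : ℕ × ℕ, ∫⁻ z, (cnt I E (sp ((W, W) + v) z) : ℝ≥0∞) ∂μ = (I.card : ℝ≥0∞) * μ E := by
    intro v
    rw [← cnt_lintegral μ h2 h3 I E hE]
    exact (hmp ((W, W) + v)).lintegral_comp (f := fun z => (cnt I E z : ℝ≥0∞))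
      (cnt_measurable I E hE)
  have i2 : ∫⁻ z, (cnt (bx W) V (sp (W, W) z) : ℝ≥0∞) ∂μ = ((bx W).card : ℝ≥0∞) * μ V := by
    rw [← cnt_lintegral μ h2 h3 (bx W) V hV2]
    exact (hmp (W, W)).lintegral_comp (f := fun z => (cnt (bx W) V z : ℝ≥0∞))
      (cnt_measurable (bx W) V hV2)
  have i3 := cnt_lintegral μ h2 h3 (bx M) E hE
  have m1 : ∀ v : ℕ × ℕ, Measurable (fun z => (cnt I E (sp ((W, W) + v) z) : ℝ≥0∞)) := fun v =>
    (cnt_measurable I E hE).comp (hmp _).measurable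
  have m2 : Measurable (fun z => (cnt (bx W) V (sp (W, W) z) : ℝ≥0∞)) :=
    (cnt_measurable (bx W) V hV2).comp (hmp _).measurable
  have m3 := cnt_measurable (bx M) E hE
  have hint : ((bx W).card : ℝ≥0∞) * ((I.card : ℝ≥0∞) * μ E) ≤
      (I.card : ℝ≥0∞) * (((bx W).card : ℝ≥0∞) * μ V) +
        ENNReal.ofReal c * (((bx M).card : ℝ≥0∞) * μ E) := by
    have h := lintegral_mono (μ := μ) hpt2
    rw [lintegral_finsetSum _ (fun v _ => m1 v), Finset.sum_congr rfl (fun v _ => i1 v),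
      Finset.sum_const, nsmul_eq_mul,
      lintegral_add_left (m2.const_mul _), lintegral_const_mul _ m2, lintegral_const_mul _ m3,
      i2, i3] at h
    exact h
  -- back to real numbers
  rw [← hV3]
  have heE : μ E = ENNReal.ofReal (μ E).toReal := (ENNReal.ofReal_toReal (measure_ne_top _ _)).symm
  have hwV : μ V = ENNReal.ofReal (μ V).toReal := (ENNReal.ofReal_toReal (measure_ne_top _ _)).symm
  rw [heE, hwV] at hint ⊢
  refine j2_fin I.card (bx W).card (bx M).card c κ _ _ (by exact_mod_cast hIc)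
    (by exact_mod_cast hWc) hc0 ENNReal.toReal_nonneg ENNReal.toReal_nonneg hint ?_ hκ1
  have hMc : ((bx M).card : ℝ) ≤ 36 * N ^ 2 := by
    rw [card_bx]
    have := j2_size N hN n hnN
    rw [← hW, ← hM] at this
    push_cast
    nlinarith
  have h9 : c * ((bx M).card : ℝ) ≤ c * (36 * N ^ 2) := mul_le_mul_of_nonneg_left hMc hc0
  have h10 : c * (36 * N ^ 2) = ((bx W).card : ℝ) * (I.card : ℝ) * (36 * A / d) := by
    rw [hc]
    exact j2_alg A _ _ d N hd.ne' hN0.ne'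
  have h11 : 36 * A / d ≤ κ := by
    refine le_trans ?_ hκ
    apply div_le_div_of_nonneg_right _ hd.le
    linarith
  rw [h10] at h9
  refine h9.trans ?_
  apply mul_le_mul_of_nonneg_left h11
  exact (mul_pos hWc hIc).le

/-- the number of pairs as a double sum -/
private theorem j3_sum (A D : Finset (ℕ × ℕ)) (P : (ℕ × ℕ) × (ℕ × ℕ) → Prop) [DecidablePred P] :
    (∑ v ∈ A, ∑ u ∈ D, (if P (v, u) then (1 : ℝ) else 0)) =
      (((A ×ˢ D).filter P).card : ℝ) := by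
  rw [Finset.card_filter, ← Finset.sum_product']
  push_cast
  rfl

/-- the inner box has at least a quarter of the points -/
private theorem j3_card (n : ℕ) : (n : ℝ) ^ 2 / 4 ≤ ((ibx (n / 4) n).card : ℝ) := by
  have h1 : (ibx (n / 4) n).card = (n - n / 4 - n / 4) * (n - n / 4 - n / 4) := by
    unfold ibx
    rw [Finset.card_product, Nat.card_Ico]
  have h2 : n ≤ 2 * (n - n / 4 - n / 4) := by omega
  rw [h1]
  have h3 : (n : ℝ) ≤ 2 * ((n - n / 4 - n / 4 : ℕ) : ℝ) := by exact_mod_cast h2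
  push_cast at h3 ⊢
  have h4 : (0 : ℝ) ≤ (n : ℝ) := Nat.cast_nonneg _
  nlinarith

/-- the choice of the constants -/
private theorem j3_const (C κ θ c2 : ℝ) (hκ : 0 < κ) (hκ1 : κ ≤ 1) (hθ : 0 < θ) (hC : 1 ≤ C)
    (hc : 0 < c2) (hc1 : c2 ≤ 1) :
    ∃ C1 C' θ' : ℝ, 1 ≤ C1 ∧ 80 * C1 ≤ C' ∧ 0 < θ' ∧ θ' ≤ θ ∧ θ' ≤ 1 / 16 ∧
      C' * θ' ≤ C1 ^ 2 / 1600 ∧ 2 / c2 ≤ C' ∧
      128000 * C1 * (320 * C / (θ' * C' * c2 ^ 2)) ≤ κ / 2 := by
  have hκc : 0 < κ * c2 ^ 2 := by positivity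
  have hκc1 : κ * c2 ^ 2 ≤ 1 := by
    have : c2 ^ 2 ≤ 1 := by nlinarith
    nlinarith
  set C1 : ℝ := 131072000000 * C / (κ * c2 ^ 2) with hC1
  set θ' : ℝ := min θ (1 / 16) with hθ'
  have hθ0 : 0 < θ' := lt_min hθ (by norm_num)
  have hθ1 : θ' ≤ 1 / 16 := min_le_right _ _
  have h1 : 131072000000 ≤ C1 := by
    rw [hC1, le_div_iff₀ hκc]
    nlinarith
  have h2 : 131072000000 ≤ C1 * c2 := by
    have : C1 * c2 = 131072000000 * C / (κ * c2) := by
      rw [hC1]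
      field_simp
    rw [this, le_div_iff₀ (by positivity)]
    have : κ * c2 ≤ 1 := by nlinarith
    nlinarith
  refine ⟨C1, C1 ^ 2 / (1600 * θ'), θ', by linarith, ?_, hθ0, min_le_left _ _, hθ1, ?_, ?_, ?_⟩
  · rw [le_div_iff₀ (by positivity)]
    nlinarith
  · have : C1 ^ 2 / (1600 * θ') * θ' = C1 ^ 2 / 1600 := by
      field_simp
    rw [this]
  · rw [div_le_div_iff₀ hc (by positivity)]
    have h3 : C1 * 131072000000 ≤ C1 * (C1 * c2) := mul_le_mul_of_nonneg_left h2 (by linarith)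
    nlinarith
  · have h3 : θ' * (C1 ^ 2 / (1600 * θ')) = C1 ^ 2 / 1600 := by
      field_simp
    rw [h3]
    have h4 : 128000 * C1 * (320 * C / (C1 ^ 2 / 1600 * c2 ^ 2)) =
        65536000000 * C / (C1 * c2 ^ 2) := by
      field_simp
      norm_num
    rw [h4, hC1]
    have h5 : 65536000000 * C / (131072000000 * C / (κ * c2 ^ 2) * c2 ^ 2) = κ / 2 := by
      have : C ≠ 0 := by linarith
      field_simp
      norm_num
    rw [h5]

/-- j3: **the uniform inequality** -/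
theorem uniform (η : ℝ) (hη : 0 < η) (hη1 : η ≤ 1) :
    ∃ ρ : ℝ, 0 < ρ ∧ ∀ C κ θ : ℝ, 0 < κ → κ ≤ 1 → 0 < θ → ∃ n₀ : ℕ, ∀ n ≥ n₀,
      ∀ μ : Measure (AddCircle (1 : ℝ)), IsProbabilityMeasure μ →
      MeasurePreserving (fun x => (2 : ℕ) • x) μ μ →
      MeasurePreserving (fun x => (3 : ℕ) • x) μ μ →
      ∀ (K : ℕ) (B : Fin K → Set (AddCircle (1 : ℝ))), (K : ℝ) ≤ C * (n : ℝ) ^ 2 →
      (∀ i, ∀ x ∈ B i, ∀ y ∈ B i, (cnt (bx n) far (x - y) : ℝ) ≤ (n : ℝ) ^ (2 - η)) →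
      ENNReal.ofReal (1 - κ) * μ (Eab (θ * n) (ρ * n)) ≤ μ (⋃ i, B i)ᶜ := by
  classical
  obtain ⟨G, c2, Ci, hG, hc2, hc21, hCi, hin⟩ := inner η hη hη1
  refine ⟨c2 / 8, by positivity, ?_⟩
  intro C κ θ hκ hκ1 hθ
  obtain ⟨C1, C', θ', hC1, hC', hθ0, hθθ, hθ1, hCC, hc2C, hmain⟩ :=
    j3_const (max C 1) κ θ c2 hκ hκ1 hθ (le_max_right _ _) hc2 hc21
  have hC'1 : 80 ≤ C' := by linarith
  obtain ⟨R1, hR11, hstar⟩ := star_count θ' (1 / 4) C' hθ0 (by linarith) (by norm_num) le_rfl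
    (by linarith)
  obtain ⟨R2, hR21, hdens⟩ := dens C1 C' θ' hC1 hC' hθ0 hθ1 hCC
  -- the last condition on `n`
  have hlim : ∃ n₁ : ℕ, ∀ n ≥ n₁, 128000 * C1 * (4 * Ci * (n : ℝ) ^ (-(η / 2))) ≤ κ / 2 := by
    have h1 : Filter.Tendsto (fun n : ℕ => 128000 * C1 * (4 * Ci * (n : ℝ) ^ (-(η / 2))))
        Filter.atTop (nhds (128000 * C1 * (4 * Ci * 0))) :=
      (((tendsto_rpow_neg_atTop (by positivity : 0 < η / 2)).comp
        tendsto_natCast_atTop_atTop).const_mul (4 * Ci)).const_mul (128000 * C1)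
    rw [mul_zero, mul_zero] at h1
    have h2 := h1.eventually_le_const (show (0 : ℝ) < κ / 2 by positivity)
    exact Filter.eventually_atTop.1 h2
  obtain ⟨n₁, hn₁⟩ := hlim
  refine ⟨max (max n₁ 8) (max ⌈G / c2⌉₊ ⌈2 * max R1 R2 / c2⌉₊), ?_⟩
  intro n hn μ hμ h2 h3 K B hK hB
  have hna : n₁ ≤ n := ((le_max_left _ _).trans (le_max_left _ _)).trans hn
  have hnb : 8 ≤ n := ((le_max_right _ _).trans (le_max_left _ _)).trans hn
  have hnc : G / c2 ≤ n := (Nat.le_ceil _).trans (by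
    exact_mod_cast ((le_max_left _ _).trans (le_max_right _ _)).trans hn)
  have hnd : 2 * max R1 R2 / c2 ≤ n := (Nat.le_ceil _).trans (by
    exact_mod_cast ((le_max_right _ _).trans (le_max_right _ _)).trans hn)
  rw [div_le_iff₀ hc2] at hnc hnd
  have hn0 : (8 : ℝ) ≤ n := by exact_mod_cast hnb
  have hGpos : 0 < G := by linarith
  -- the depth
  obtain ⟨J, hJ1, hJ2⟩ := exists_nat_pow_near (x := c2 * n / G) (y := (2 : ℝ))
    (by rw [le_div_iff₀ hGpos]; linarith) (by norm_num)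
  rw [le_div_iff₀ hGpos] at hJ1
  rw [div_lt_iff₀ hGpos, pow_succ] at hJ2
  set R : ℝ := G * 2 ^ J with hR
  have hRle : R ≤ c2 * n := by rw [hR]; linarith
  have hRge : c2 * n / 2 ≤ R := by rw [hR]; linarith
  have hRn : R ≤ n := by nlinarith
  have hR1 : R1 ≤ R := by
    have := le_max_left R1 R2
    linarith
  have hR2 : R2 ≤ R := by
    have := le_max_right R1 R2
    linarith
  have hR0 : 1 ≤ R := hR11.trans hR1
  have hnN : (n : ℝ) ≤ C' * R := by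
    have h5 : (2 / c2) * (c2 * n / 2) ≤ C' * R :=
      mul_le_mul hc2C hRge (by positivity) (by linarith)
    have h6 : (2 / c2) * (c2 * n / 2) = n := by field_simp
    linarith
  -- the larger set
  have hsub : Eab (θ * n) (c2 / 8 * n) ⊆ Eab (θ' * R) (1 / 4 * R) := by
    refine Eab_mono ?_ (by linarith)
    exact mul_le_mul hθθ hRn (by linarith) hθ.le
  refine (mul_le_mul_right (measure_mono hsub) _).trans ?_
  -- the count
  set h : ℝ := Ci * (n : ℝ) ^ (2 - η / 2) with hh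
  have hh0 : 0 ≤ h := by positivity
  have hBi : ∀ i, ∀ x ∈ B i, ∀ y ∈ B i, (cnt (ibx (n / 4) n) (dp R) (x - y) : ℝ) ≤ h := by
    intro i x hx y hy
    exact hin (x - y) n J (by omega) hRle (hB i x hx y hy)
  have hKn : (K : ℝ) ≤ max C 1 * (n : ℝ) ^ 2 :=
    hK.trans (mul_le_mul_of_nonneg_right (le_max_left _ _) (by positivity))
  set Cm : ℝ := max C 1 with hCm
  have hCm1 : 1 ≤ Cm := le_max_right _ _
  set A : ℝ := 320 * Cm / (θ' * C' * c2 ^ 2) + 4 * Ci * (n : ℝ) ^ (-(η / 2)) with hA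
  have hA0 : 0 ≤ A := by positivity
  have hW : C' * R ≤ (⌈C' * R⌉₊ : ℝ) := Nat.le_ceil _
  have hcard : (((bx ⌈C' * R⌉₊).card : ℕ) : ℝ) = (⌈C' * R⌉₊ : ℝ) ^ 2 := by
    rw [card_bx]
    push_cast
    ring
  have hW2 : (C' * (c2 * n / 2)) ^ 2 ≤ (⌈C' * R⌉₊ : ℝ) ^ 2 := by
    refine pow_le_pow_left₀ (by positivity) ?_ 2
    exact (mul_le_mul_of_nonneg_left hRge (by linarith)).trans hW
  refine integrate μ h2 h3 (Eab (θ' * R) (1 / 4 * R)) (Eab_closed _ _).measurableSet (C' * R)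
    (1 / (2000 * C1)) A κ (by nlinarith) (by positivity) hA0 n K hnb hnN B ?_ ?_ ?_ hκ1
  · intro w hw
    have := hdens R hR2 w hw
    rw [one_div, inv_mul_eq_div]
    exact this
  · intro z
    have h5 := hstar R hR1 z n K B h hnN hh0 hBi
    have h6 := j3_sum (bx ⌈C' * R⌉₊) (ibx (n / 4) n)
      (fun p => sp p.1 z ∈ (⋃ i, B i) ∧ sp (p.1 + p.2) z ∈ Eab (θ' * R) (1 / 4 * R))
    have h7 : (∑ v ∈ bx ⌈C' * R⌉₊, ∑ u ∈ ibx (n / 4) n,
        (if sp v z ∈ (⋃ i, B i) ∧ sp (v + u) z ∈ Eab (θ' * R) (1 / 4 * R) then (1 : ℝ) else 0)) ≤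
        80 / θ' * C' * K * ((ibx (n / 4) n).card : ℝ) + ((bx ⌈C' * R⌉₊).card : ℝ) * h := by
      refine le_trans (le_of_eq ?_) h5
      exact h6
    refine h7.trans ?_
    set I : ℝ := ((ibx (n / 4) n).card : ℝ) with hI
    have hIc : (n : ℝ) ^ 2 / 4 ≤ I := j3_card n
    have hI0 : 0 ≤ I := Nat.cast_nonneg _
    rw [hcard]
    set W : ℝ := (⌈C' * R⌉₊ : ℝ) with hWdef
    have h8 : 80 / θ' * C' * K ≤ 320 * Cm / (θ' * C' * c2 ^ 2) * W ^ 2 := by
      have h9 : 80 / θ' * C' * K ≤ 80 / θ' * C' * (Cm * (n : ℝ) ^ 2) :=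
        mul_le_mul_of_nonneg_left hKn (by positivity)
      have h10 : 320 * Cm / (θ' * C' * c2 ^ 2) * (C' * (c2 * n / 2)) ^ 2 =
          80 / θ' * C' * (Cm * (n : ℝ) ^ 2) := by
        field_simp
        norm_num
      have h11 : 320 * Cm / (θ' * C' * c2 ^ 2) * (C' * (c2 * n / 2)) ^ 2 ≤
          320 * Cm / (θ' * C' * c2 ^ 2) * W ^ 2 :=
        mul_le_mul_of_nonneg_left hW2 (by positivity)
      linarith
    have h12 : h ≤ 4 * Ci * (n : ℝ) ^ (-(η / 2)) * I := by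
      have h13 : (n : ℝ) ^ (2 - η / 2) = (n : ℝ) ^ 2 * (n : ℝ) ^ (-(η / 2)) := by
        rw [show (2 - η / 2 : ℝ) = ((2 : ℕ) : ℝ) + (-(η / 2)) by push_cast; ring,
          Real.rpow_add (by linarith), Real.rpow_natCast]
      rw [hh, h13]
      have h14 : 0 ≤ Ci * (n : ℝ) ^ (-(η / 2)) := by positivity
      nlinarith
    have h15 : 80 / θ' * C' * K * I ≤ 320 * Cm / (θ' * C' * c2 ^ 2) * W ^ 2 * I :=
      mul_le_mul_of_nonneg_right h8 hI0
    have h16 : W ^ 2 * h ≤ W ^ 2 * (4 * Ci * (n : ℝ) ^ (-(η / 2)) * I) :=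
      mul_le_mul_of_nonneg_left h12 (by positivity)
    rw [hA]
    nlinarith
  · have h5 := hn₁ n hna
    have h6 : 64 * A / (1 / (2000 * C1)) = 128000 * C1 * (320 * Cm / (θ' * C' * c2 ^ 2)) +
        128000 * C1 * (4 * Ci * (n : ℝ) ^ (-(η / 2))) := by
      rw [hA]
      field_simp
      ring
    rw [h6]
    linarith

end Pool.Agent.SupC
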