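import Pool.Agent.SupC.Defs
import Pool.Agent.SubT.ProdPts

/-! Superquadratic complexity: packing with denominators. Text, (g1). -/

namespace Pool.Agent.SupC

open Pool.Agent.SubT Pool.Agent.SlowV Pool.Agent.CplxN

open scoped BigOperators ENNReal

open MeasureTheory Set

-- BEGIN g1
private theorem g1_logmax_le (v : Pl) (hv : v ≠ 0) (q : ℚ) :
    Real.log (max 1 (av v q)) ≤ Aq q := by
  have h1 : 0 ≤ Real.log (max 1 (av 1 q)) := Real.log_nonneg (le_max_left _ _)
  have h2 : 0 ≤ Real.log (max 1 (av 2 q)) := Real.log_nonneg (le_max_left _ _)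
  unfold Aq
  have hv' : v = 1 ∨ v = 2 := by
    fin_cases v
    · exact absurd rfl hv
    · exact Or.inl rfl
    · exact Or.inr rfl
  rcases hv' with h | h
  · rw [h]; linarith
  · rw [h]; linarith

/-- the core: a fixed enumeration -/
private theorem g1_core (r m : ℕ) (η R a : ℝ) (hR : 1 ≤ R) (haR : a ≤ R) (x : ℝ)
    (q : Fin (r + 1) → ℚ) (hinj : Function.Injective q) (D : ℕ) (hD1 : 1 ≤ D)
    (hDa : (D : ℝ) ≤ Real.exp (m * a)) (hq : ∀ i, InR ((D : ℚ) * q i)) (hA : ∀ i, Aq (q i) ≤ R)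
    (c : Fin (r + 1) → ℝ) (hc : ∀ i, 0 ≤ c i ∧ c i ≤ R)
    (hxq : ∀ i, |x - (q i : ℝ)| ≤ Real.exp (-c i))
    (hprod : (∀ i, InR ((D : ℚ) * q i)) → Function.Injective (fun i => (D : ℚ) * q i) →
      (∀ v i j, i ≠ j → av v ((D : ℚ) * q i - (D : ℚ) * q j) ≤ (Real.exp R) ^ ((m : ℝ) + 4)) →
      ∀ mc : Pl → Fin (r + 1),
        -(η * Real.log (Real.exp R)) ≤
          ∑ v, ∑ i ∈ Finset.univ.erase (mc v),
            Real.log (av v ((D : ℚ) * q i - (D : ℚ) * q (mc v)))) :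
    ∑ i, (c i - Aq (q i)) ≤ (1 + η) * R + r * (m * a + 1) := by
  classical
  have hD0 : (0 : ℝ) < D := by exact_mod_cast hD1
  have hDq : (D : ℚ) ≠ 0 := by
    have : (0 : ℚ) < D := by exact_mod_cast hD1
    exact this.ne'
  have hQ4 : (Real.exp R) ^ ((m : ℝ) + 4) = Real.exp ((m + 4) * R) := by
    rw [← Real.exp_mul, mul_comm]
  have hm0 : (0 : ℝ) ≤ m := Nat.cast_nonneg _
  have hmR : 0 ≤ (m : ℝ) * R := by positivity
  have hmaR : (m : ℝ) * a ≤ m * R := mul_le_mul_of_nonneg_left haR hm0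
  have hlog2 : (2 : ℝ) ≤ Real.exp 1 := by
    have := Real.add_one_le_exp (1 : ℝ)
    linarith
  have hle1 : ∀ i, |x - (q i : ℝ)| ≤ 1 := fun i => by
    refine (hxq i).trans ?_
    exact Real.exp_le_one_iff.2 (by linarith [(hc i).1])
  have hfin : ∀ v : Pl, v ≠ 0 → ∀ i, av v (q i) ≤ Real.exp ((m + 4) * R) := by
    intro v hv i
    have h1 := (g1_logmax_le v hv (q i)).trans (hA i)
    have h2 : av v (q i) ≤ max 1 (av v (q i)) := le_max_right _ _
    have h3 : 0 < max 1 (av v (q i)) := lt_of_lt_of_le one_pos (le_max_left _ _)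
    have h4 : max 1 (av v (q i)) ≤ Real.exp R := by
      rw [← Real.log_le_iff_le_exp h3]
      exact h1
    have h5 : Real.exp R ≤ Real.exp ((m + 4) * R) := Real.exp_le_exp.2 (by nlinarith)
    linarith
  have hreal : ∀ i j, |(q i : ℝ) - (q j : ℝ)| ≤ |x - (q i : ℝ)| + |x - (q j : ℝ)| := by
    intro i j
    have : ((q i : ℝ) - (q j : ℝ)) = (x - (q j : ℝ)) - (x - (q i : ℝ)) := by ring
    rw [this]
    refine (abs_sub _ _).trans ?_
    linarith
  have hav0 : ∀ i j, av 0 ((D : ℚ) * q i - (D : ℚ) * q j) = D * |(q i : ℝ) - (q j : ℝ)| := by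
    intro i j
    rw [← mul_sub, av_mul, av_real, av_real]
    push_cast
    rw [abs_of_pos hD0]
  have havf : ∀ (v : Pl), v ≠ 0 → ∀ i j,
      av v ((D : ℚ) * q i - (D : ℚ) * q j) ≤ max (av v (q i)) (av v (q j)) := by
    intro v hv i j
    rw [← mul_sub, av_mul]
    have h1 : av v (D : ℚ) ≤ 1 := by
      have := av_int_le_one hv (D : ℤ)
      simpa using this
    have h2 : av v (q i - q j) ≤ max (av v (q i)) (av v (q j)) := by
      rw [sub_eq_add_neg]
      refine (av_add_le_max hv _ _).trans ?_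
      rw [av_neg]
    calc av v (D : ℚ) * av v (q i - q j) ≤ 1 * av v (q i - q j) :=
          mul_le_mul_of_nonneg_right h1 (av_nonneg _ _)
      _ = av v (q i - q j) := one_mul _
      _ ≤ _ := h2
  have hbd : ∀ v i j, i ≠ j → av v ((D : ℚ) * q i - (D : ℚ) * q j) ≤
      (Real.exp R) ^ ((m : ℝ) + 4) := by
    intro v i j _
    rw [hQ4]
    by_cases hv : v = 0
    · rw [hv, hav0]
      have h1 := hreal i j
      have h2 := hle1 i
      have h3 := hle1 j
      have h5 : (D : ℝ) * |(q i : ℝ) - (q j : ℝ)| ≤ Real.exp (m * a) * Real.exp 1 :=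
        mul_le_mul hDa (by linarith) (abs_nonneg _) (Real.exp_pos _).le
      refine h5.trans ?_
      rw [← Real.exp_add]
      exact Real.exp_le_exp.2 (by linarith)
    · exact (havf v hv i j).trans (max_le (hfin v hv i) (hfin v hv j))
  have hne : (Finset.univ : Finset (Fin (r + 1))).Nonempty := ⟨0, Finset.mem_univ _⟩
  obtain ⟨m0, -, hm0⟩ := Finset.exists_max_image Finset.univ c hne
  obtain ⟨m1, -, hm1⟩ := Finset.exists_min_image Finset.univ
    (fun i => Real.log (max 1 (av 1 (q i)))) hne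
  obtain ⟨m2, -, hm2⟩ := Finset.exists_min_image Finset.univ
    (fun i => Real.log (max 1 (av 2 (q i)))) hne
  have hinjD : Function.Injective (fun i => (D : ℚ) * q i) :=
    fun i j h => hinj (mul_left_cancel₀ hDq h)
  have hpos : ∀ (v : Pl) (i j : Fin (r + 1)), i ≠ j →
      0 < av v ((D : ℚ) * q i - (D : ℚ) * q j) := by
    intro v i j hij
    exact av_pos v (sub_ne_zero.2 fun h => hij (hinjD h))
  -- finite places
  have hf : ∀ (v : Pl), v ≠ 0 → ∀ m : Fin (r + 1),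
      (∀ i, Real.log (max 1 (av v (q m))) ≤ Real.log (max 1 (av v (q i)))) →
      ∑ i ∈ Finset.univ.erase m, Real.log (av v ((D : ℚ) * q i - (D : ℚ) * q m)) ≤
        ∑ i, Real.log (max 1 (av v (q i))) := by
    intro v hv m hm
    have h1 : ∑ i ∈ Finset.univ.erase m, Real.log (av v ((D : ℚ) * q i - (D : ℚ) * q m)) ≤
        ∑ i ∈ Finset.univ.erase m, Real.log (max 1 (av v (q i))) := by
      refine Finset.sum_le_sum fun i hi => ?_
      have hne : i ≠ m := Finset.ne_of_mem_erase hi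
      refine Real.log_le_log (hpos v i m hne) ?_
      have hmi : max 1 (av v (q m)) ≤ max 1 (av v (q i)) := by
        have hp : ∀ j, 0 < max 1 (av v (q j)) := fun j =>
          lt_of_lt_of_le one_pos (le_max_left _ _)
        exact (Real.log_le_log_iff (hp m) (hp i)).1 (hm i)
      refine (havf v hv i m).trans (max_le (le_max_right _ _) ?_)
      exact (le_max_right _ _).trans hmi
    refine h1.trans ?_
    refine Finset.sum_le_sum_of_subset_of_nonneg (Finset.erase_subset _ _) ?_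
    intro i _ _
    exact Real.log_nonneg (le_max_left _ _)
  let mc : Pl → Fin (r + 1) := fun v => if v = 0 then m0 else if v = 1 then m1 else m2
  have h1 := hprod hq hinjD hbd mc
  rw [Real.log_exp, Fin.sum_univ_three] at h1
  have e0 : mc 0 = m0 := if_pos rfl
  have e1 : mc 1 = m1 := by
    change (if (1 : Pl) = 0 then m0 else if (1 : Pl) = 1 then m1 else m2) = m1
    rw [if_neg (by decide), if_pos rfl]
  have e2 : mc 2 = m2 := by
    change (if (2 : Pl) = 0 then m0 else if (2 : Pl) = 1 then m1 else m2) = m2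
    rw [if_neg (by decide), if_neg (by decide)]
  rw [e0, e1, e2] at h1
  have hr1 : ∑ i ∈ Finset.univ.erase m0, Real.log (av 0 ((D : ℚ) * q i - (D : ℚ) * q m0)) ≤
      ∑ i ∈ Finset.univ.erase m0, ((m * a + 1) - c i) := by
    refine Finset.sum_le_sum fun i hi => ?_
    have hne : i ≠ m0 := Finset.ne_of_mem_erase hi
    rw [Real.log_le_iff_le_exp (hpos 0 i m0 hne), hav0]
    have h2 := hreal i m0
    have h3 := hxq i
    have h4 := hxq m0
    have h5 : Real.exp (-c m0) ≤ Real.exp (-c i) :=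
      Real.exp_le_exp.2 (neg_le_neg (hm0 i (Finset.mem_univ i)))
    have h6 := Real.exp_pos (-c i)
    have h7 : |(q i : ℝ) - (q m0 : ℝ)| ≤ Real.exp 1 * Real.exp (-c i) := by nlinarith
    calc (D : ℝ) * |(q i : ℝ) - (q m0 : ℝ)| ≤
          Real.exp (m * a) * (Real.exp 1 * Real.exp (-c i)) :=
          mul_le_mul hDa h7 (abs_nonneg _) (Real.exp_pos _).le
      _ = Real.exp (m * a + 1 - c i) := by
          rw [← Real.exp_add, ← Real.exp_add]
          congr 1
          ring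
  have hr2 : ∑ i ∈ Finset.univ.erase m0, ((m * a + 1) - c i) =
      r * (m * a + 1) + (c m0 - ∑ i, c i) := by
    rw [Finset.sum_sub_distrib, Finset.sum_const, Finset.card_erase_of_mem (Finset.mem_univ _),
      Finset.card_univ, Fintype.card_fin, nsmul_eq_mul,
      ← Finset.add_sum_erase Finset.univ c (Finset.mem_univ m0)]
    push_cast
    ring
  have hf1 := hf 1 (by decide) m1 (fun i => hm1 i (Finset.mem_univ i))
  have hf2 := hf 2 (by decide) m2 (fun i => hm2 i (Finset.mem_univ i))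
  have hAs : ∑ i, Aq (q i) = ∑ i, Real.log (max 1 (av 1 (q i))) +
      ∑ i, Real.log (max 1 (av 2 (q i))) := by
    rw [← Finset.sum_add_distrib]
    rfl
  have hcm := (hc m0).2
  rw [Finset.sum_sub_distrib]
  linarith

/-- g1 (compare `Pool.Agent.SlowV.packing`) -/
theorem packD (m : ℕ) (ε : ℝ) (hε : 0 < ε) :
    ∃ R0 : ℝ, 1 ≤ R0 ∧ ∀ R ≥ R0, ∀ a : ℝ, 0 ≤ a → a ≤ R → ∀ x : ℝ, ∀ QQ : Finset ℚ,
      QQ.card ≤ m → (∀ ξ ∈ QQ, ∃ d : ℕ, 1 ≤ d ∧ (d : ℝ) ≤ Real.exp a ∧ InR (d * ξ)) →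
      (∀ ξ ∈ QQ, Aq ξ ≤ R) → ∀ c : ℚ → ℝ,
      (∀ ξ ∈ QQ, 0 ≤ c ξ ∧ c ξ ≤ R ∧ |x - (ξ : ℝ)| ≤ Real.exp (-c ξ)) →
      ∑ ξ ∈ QQ, (c ξ - Aq ξ) ≤ (1 + ε) * R + m ^ 2 * a := by
  classical
  choose Q0 hQ1 hQ2 using fun r : ℕ => prod_pts r ((m : ℝ) + 4) (ε / 2) (by positivity)
    (by linarith)
  refine ⟨1 + (2 * m / ε + ∑ r ∈ Finset.range (m + 1), |Real.log (Q0 r)|), ?_, ?_⟩
  · have : 0 ≤ 2 * m / ε + ∑ r ∈ Finset.range (m + 1), |Real.log (Q0 r)| := by positivity
    linarith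
  intro R hRR a ha haR x QQ hcard hd hA c hc
  have hsn : 0 ≤ ∑ r ∈ Finset.range (m + 1), |Real.log (Q0 r)| :=
    Finset.sum_nonneg fun _ _ => abs_nonneg _
  have hme : 0 ≤ 2 * (m : ℝ) / ε := by positivity
  have hR1 : 1 ≤ R := by linarith
  have hmR : (m : ℝ) ≤ ε / 2 * R := by
    have h1 : 2 * (m : ℝ) / ε ≤ R := by linarith
    rw [div_le_iff₀ hε] at h1
    linarith
  rcases QQ.eq_empty_or_nonempty with rfl | hne
  · simp only [Finset.sum_empty]
    positivity
  obtain ⟨r, hr⟩ : ∃ r, QQ.card = r + 1 := by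
    have := Finset.card_pos.2 hne
    exact ⟨QQ.card - 1, by omega⟩
  have hrm : r ∈ Finset.range (m + 1) := Finset.mem_range.2 (by omega)
  have hQle : Real.exp R ≥ Q0 r := by
    have h1 : |Real.log (Q0 r)| ≤ ∑ r ∈ Finset.range (m + 1), |Real.log (Q0 r)| :=
      Finset.single_le_sum (f := fun r => |Real.log (Q0 r)|) (fun _ _ => abs_nonneg _) hrm
    have h2 : Real.log (Q0 r) ≤ R := by
      have := le_abs_self (Real.log (Q0 r))
      linarith
    have h3 : 0 < Q0 r := by linarith [hQ1 r]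
    exact (Real.log_le_iff_le_exp h3).1 h2
  have hprod := hQ2 r (Real.exp R) hQle
  choose! d hd1 hd2 hd3 using hd
  let e : Fin (r + 1) ≃ QQ :=
    (Fintype.equivFinOfCardEq (by rw [Fintype.card_coe]; exact hr)).symm
  let D : ℕ := ∏ ξ ∈ QQ, d ξ
  have hD1 : 1 ≤ D := Finset.one_le_prod' (fun ξ hξ => hd1 ξ hξ)
  have hDa : (D : ℝ) ≤ Real.exp (m * a) := by
    have h1 : (D : ℝ) ≤ ∏ ξ ∈ QQ, Real.exp a := by
      change ((∏ ξ ∈ QQ, d ξ : ℕ) : ℝ) ≤ _
      push_cast
      exact Finset.prod_le_prod (fun ξ _ => Nat.cast_nonneg _) (fun ξ hξ => hd2 ξ hξ)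
    rw [Finset.prod_const, ← Real.exp_nat_mul] at h1
    refine h1.trans (Real.exp_le_exp.2 ?_)
    exact mul_le_mul_of_nonneg_right (by exact_mod_cast hcard) ha
  have hDR : ∀ ξ ∈ QQ, InR ((D : ℚ) * ξ) := by
    intro ξ hξ
    have h1 : (D : ℚ) = ((∏ η ∈ QQ.erase ξ, d η : ℕ) : ℚ) * d ξ := by
      change ((∏ ξ ∈ QQ, d ξ : ℕ) : ℚ) = _
      rw [← Finset.mul_prod_erase QQ d hξ]
      push_cast
      ring
    rw [h1, mul_assoc]
    refine inR_mul ?_ (hd3 ξ hξ)
    have := inR_int ((∏ η ∈ QQ.erase ξ, d η : ℕ) : ℤ)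
    simpa using this
  have hcore := g1_core r m (ε / 2) R a hR1 haR x (fun i => (e i : ℚ))
    (fun a b hab => e.injective (Subtype.ext hab)) D hD1 hDa
    (fun i => hDR _ (e i).2) (fun i => hA _ (e i).2)
    (fun i => c (e i : ℚ)) (fun i => ⟨(hc _ (e i).2).1, (hc _ (e i).2).2.1⟩)
    (fun i => (hc _ (e i).2).2.2) (hprod _)
  have hs : ∑ i, (c (e i : ℚ) - Aq (e i : ℚ)) = ∑ q ∈ QQ, (c q - Aq q) := by
    rw [e.sum_comp (fun p : QQ => c (p : ℚ) - Aq (p : ℚ))]
    exact Finset.sum_coe_sort QQ (fun p => c p - Aq p)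
  rw [hs] at hcore
  refine hcore.trans ?_
  have hrm' : (r : ℝ) ≤ m := by
    have : r ≤ m := by omega
    exact_mod_cast this
  have h1 : (r : ℝ) * (m * a + 1) ≤ m * (m * a + 1) :=
    mul_le_mul_of_nonneg_right hrm' (by positivity)
  nlinarith
-- END g1

end Pool.Agent.SupC
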