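import Pool.Agent.SupC.Tool
import Pool.Agent.SupC.Ht
import Pool.Agent.SubT.Place

/-! Superquadratic complexity: linear relations between units. Text, (b1). -/

namespace Pool.Agent.SupC

open Pool.Agent.SubT Pool.Agent.SlowV Pool.Agent.CplxN

open scoped BigOperators ENNReal

open MeasureTheory Set

private theorem b1_pn22 : av 1 2 = (2 : ℝ)⁻¹ := by
  rw [PLACE_one]
  have h : padicNorm 2 (2 : ℚ) = (2 : ℚ)⁻¹ := by
    have := padicNorm.padicNorm_p (p := 2) (by norm_num)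
    simpa using this
  rw [h]
  norm_num

private theorem b1_pn23 : av 1 3 = 1 := by
  rw [PLACE_one]
  have h : padicNorm 2 (3 : ℚ) = 1 := by
    have := padicNorm.padicNorm_of_prime_of_ne (p := 2) (q := 3) (by norm_num)
    simpa using this
  rw [h]
  norm_num

private theorem b1_pn33 : av 2 3 = (3 : ℝ)⁻¹ := by
  rw [PLACE_two]
  have h : padicNorm 3 (3 : ℚ) = (3 : ℚ)⁻¹ := by
    have := padicNorm.padicNorm_p (p := 3) (by norm_num)
    simpa using this
  rw [h]
  norm_num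

private theorem b1_pn32 : av 2 2 = 1 := by
  rw [PLACE_two]
  have h : padicNorm 3 (2 : ℚ) = 1 := by
    have := padicNorm.padicNorm_of_prime_of_ne (p := 3) (q := 2) (by norm_num)
    simpa using this
  rw [h]
  norm_num

private theorem b1_sz (p : ℕ × ℕ) : ((sz p : ℤ) : ℚ) = (2 : ℚ) ^ p.1 * 3 ^ p.2 := by
  unfold sz
  push_cast
  rfl

private theorem b1_av0 (p : ℕ × ℕ) : av 0 ((sz p : ℤ) : ℚ) = Real.exp (LL p.1 p.2) := by
  rw [b1_sz, av_real]
  unfold LL
  rw [Real.exp_add, mul_comm (p.1 : ℝ), mul_comm (p.2 : ℝ), ← Real.rpow_def_of_pos (by norm_num),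
    ← Real.rpow_def_of_pos (by norm_num), Real.rpow_natCast, Real.rpow_natCast]
  push_cast
  rw [abs_of_pos (by positivity)]

private theorem b1_av1 (p : ℕ × ℕ) : av 1 ((sz p : ℤ) : ℚ) = Real.exp (-(p.1 * Real.log 2)) := by
  rw [b1_sz, av_mul, av_pow, av_pow, b1_pn22, b1_pn23, one_pow, mul_one, Real.exp_neg,
    mul_comm (p.1 : ℝ), ← Real.rpow_def_of_pos (by norm_num), Real.rpow_natCast, inv_pow]

private theorem b1_av2 (p : ℕ × ℕ) : av 2 ((sz p : ℤ) : ℚ) = Real.exp (-(p.2 * Real.log 3)) := by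
  rw [b1_sz, av_mul, av_pow, av_pow, b1_pn32, b1_pn33, one_pow, one_mul, Real.exp_neg,
    mul_comm (p.2 : ℝ), ← Real.rpow_def_of_pos (by norm_num), Real.rpow_natCast, inv_pow]

private theorem b1_prod (p : ℕ × ℕ) : ∏ v : Pl, av v ((sz p : ℤ) : ℚ) = 1 := by
  rw [PLACE_prod, b1_av0, b1_av1, b1_av2, ← Real.exp_add, ← Real.exp_add, Real.exp_eq_one_iff]
  unfold LL
  ring

private theorem b1_szne (p : ℕ × ℕ) : sz p ≠ 0 := by
  unfold sz
  positivity

/-- one factor of a product over a finite set of numbers in `[0, 1]` is at least the product -/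
private theorem b1_one {ι : Type*} [DecidableEq ι] (I : Finset ι) (f : ι → ℝ)
    (h0 : ∀ i, 0 ≤ f i) (h1 : ∀ i, f i ≤ 1) {i : ι} (hi : i ∈ I) : ∏ j ∈ I, f j ≤ f i := by
  rw [← Finset.mul_prod_erase I f hi]
  have h : ∏ j ∈ I.erase i, f j ≤ 1 := Finset.prod_le_one (fun j _ => h0 j) fun j _ => h1 j
  calc f i * ∏ j ∈ I.erase i, f j ≤ f i * 1 := mul_le_mul_of_nonneg_left h (h0 i)
    _ = f i := mul_one _

/-- b1 -/
theorem rel (r : ℕ) (K ε : ℝ) (hK : 0 < K) (hε : 0 < ε) :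
    ∃ R0 : ℝ, 1 ≤ R0 ∧ ∀ R ≥ R0, ∀ J : Finset (ℕ × ℕ), J.card ≤ r →
      (∀ p ∈ J, LL p.1 p.2 ≤ K * R) → ∀ (lam : ℕ × ℕ → ℤ) (l : ℝ), 0 ≤ l → l ≤ K * R →
      (∀ p ∈ J, |(lam p : ℝ)| ≤ Real.exp l) → (∃ p ∈ J, lam p ≠ 0) →
      ∑ p ∈ J, lam p * sz p = 0 →
      ∃ I ⊆ J, 2 ≤ I.card ∧ ht I ≤ ε * R + I.card * l := by
  classical
  choose Q0 hQ1 hQ using fun s : ℕ => tool s (2 * K) ε (by positivity) hε
  set B : ℝ := ∑ s ∈ Finset.range (r + 1), Q0 s with hB
  have hQ0 : ∀ s ≤ r, Q0 s ≤ B := fun s hs =>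
    Finset.single_le_sum (f := Q0) (fun t _ => (zero_lt_one.trans (hQ1 t)).le)
      (Finset.mem_range.2 (Nat.lt_succ_of_le hs))
  refine ⟨max 1 B, le_max_left _ _, ?_⟩
  intro R hR J hJr hJL lam l hl0 hlK hlam hne hsum
  have hR1 : 1 ≤ R := le_trans (le_max_left _ _) hR
  have hRB : B ≤ R := le_trans (le_max_right _ _) hR
  set J' : Finset (ℕ × ℕ) := J.filter fun p => lam p ≠ 0 with hJ'
  have hJ'J : J' ⊆ J := Finset.filter_subset _ _
  have hlam' : ∀ p ∈ J', lam p ≠ 0 := fun p hp => (Finset.mem_filter.1 hp).2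
  set s := J'.card with hs
  have hsr : s ≤ r := (Finset.card_le_card hJ'J).trans hJr
  have hs1 : 1 ≤ s := by
    obtain ⟨p, hp, hp0⟩ := hne
    exact Finset.card_pos.2 ⟨p, Finset.mem_filter.2 ⟨hp, hp0⟩⟩
  set e : Fin s ≃ J' := J'.equivFin.symm with he
  set X : Fin s → ℚ := fun i => (lam (e i).1 : ℚ) * ((sz (e i).1 : ℤ) : ℚ) with hX
  have hXz : ∀ i, X i = ((lam (e i).1 * sz (e i).1 : ℤ) : ℚ) := fun i => by
    rw [hX]; push_cast; rfl
  have hz0 : ∀ i, lam (e i).1 * sz (e i).1 ≠ 0 := fun i =>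
    mul_ne_zero (hlam' _ (e i).2) (b1_szne _)
  have habs : ∀ i, |((lam (e i).1 * sz (e i).1 : ℤ) : ℝ)| ≤ Real.exp (2 * K * R) := by
    intro i
    have h1 := hlam _ (hJ'J (e i).2)
    have h2 := hJL _ (hJ'J (e i).2)
    have h3 : |((sz (e i).1 : ℤ) : ℝ)| = Real.exp (LL (e i).1.1 (e i).1.2) := by
      rw [← b1_av0, av_real]
      push_cast
      rfl
    push_cast
    rw [abs_mul, h3]
    calc |(lam (e i).1 : ℝ)| * Real.exp (LL (e i).1.1 (e i).1.2)
        ≤ Real.exp l * Real.exp (K * R) := by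
          apply mul_le_mul h1 (Real.exp_le_exp.2 h2) (Real.exp_pos _).le (Real.exp_pos _).le
      _ = Real.exp (l + K * R) := (Real.exp_add _ _).symm
      _ ≤ Real.exp (2 * K * R) := Real.exp_le_exp.2 (by linarith)
  set Q : ℝ := Real.exp R with hQdef
  have hQpos : 0 < Q := Real.exp_pos _
  have hQpow : ∀ t : ℝ, Q ^ t = Real.exp (t * R) := fun t => by
    rw [hQdef, ← Real.exp_mul, mul_comm]
  have hQge : Q0 s ≤ Q := by
    have := Real.add_one_le_exp R
    linarith [hQ0 s hsr]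
  obtain ⟨I, hI2, hI⟩ := hQ s Q hQge X hs1
    (fun i => by rw [hXz]; exact inR_int _)
    (fun i => by rw [hXz]; exact_mod_cast hz0 i)
    (by
      intro v i
      rw [hXz, hQpow, hQpow]
      constructor
      · refine le_trans ?_ (av_int_ge v (hz0 i))
        have h1 := habs i
        have h2 : 0 < |((lam (e i).1 * sz (e i).1 : ℤ) : ℝ)| := by
          rw [abs_pos]; exact_mod_cast hz0 i
        rw [le_div_iff₀ h2]
        calc Real.exp (-(2 * K) * R) * |((lam (e i).1 * sz (e i).1 : ℤ) : ℝ)|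
            ≤ Real.exp (-(2 * K) * R) * Real.exp (2 * K * R) :=
              mul_le_mul_of_nonneg_left h1 (Real.exp_pos _).le
          _ = 1 := by rw [← Real.exp_add, Real.exp_eq_one_iff]; ring
      · refine (av_int_le v _).trans (max_le ?_ (habs i))
        rw [Real.one_le_exp_iff]
        positivity)
    (by
      have h1 : ∑ i, X i = ∑ p : J', ((lam p.1 * sz p.1 : ℤ) : ℚ) := by
        rw [← Equiv.sum_comp e]
        exact Finset.sum_congr rfl fun i _ => hXz i
      rw [h1, Finset.sum_coe_sort J' fun p => ((lam p * sz p : ℤ) : ℚ), ← Int.cast_sum]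
      have h2 : ∑ p ∈ J', lam p * sz p = 0 := by
        rw [← hsum]
        refine Finset.sum_subset hJ'J fun p hp hp' => ?_
        have : lam p = 0 := by
          by_contra h
          exact hp' (Finset.mem_filter.2 ⟨hp, h⟩)
        rw [this, zero_mul]
      rw [h2]
      norm_num)
  set I' : Finset (ℕ × ℕ) := I.image fun i => (e i).1 with hI'
  have hinj : Function.Injective fun i : Fin s => (e i).1 := fun i j h =>
    e.injective (Subtype.ext h)
  have hcard : I'.card = I.card := Finset.card_image_of_injective _ hinj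
  have hI'ne : I'.Nonempty := Finset.card_pos.1 (by omega)
  refine ⟨I', ?_, by omega, ?_⟩
  · intro p hp
    obtain ⟨i, _, rfl⟩ := Finset.mem_image.1 hp
    exact hJ'J (e i).2
  obtain ⟨p0, hp0, hht⟩ := ht_eq hI'ne
  obtain ⟨⟨p1, hp1, hm1⟩, p2, hp2, hm2⟩ := mt_mem hI'ne
  obtain ⟨i0, hi0, rfl⟩ := Finset.mem_image.1 hp0
  obtain ⟨i1, hi1, rfl⟩ := Finset.mem_image.1 hp1
  obtain ⟨i2, hi2, rfl⟩ := Finset.mem_image.1 hp2
  have key := hI (fun v => if v = 0 then i0 else if v = 1 then i1 else i2) (by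
    intro v
    split_ifs <;> assumption)
  rw [Fin.prod_univ_three] at key
  simp only [if_true, if_neg (show (1 : Fin 3) ≠ 0 by decide),
    if_neg (show (2 : Fin 3) ≠ 0 by decide), if_neg (show (2 : Fin 3) ≠ 1 by decide)] at key
  -- the right side
  set a : Fin s → ℝ := fun i => av 1 (lam (e i).1 : ℚ) with ha
  set b : Fin s → ℝ := fun i => av 2 (lam (e i).1 : ℚ) with hb
  set c : Fin s → ℝ := fun i => |(lam (e i).1 : ℝ)| with hc
  have hl0' : ∀ i, (lam (e i).1 : ℚ) ≠ 0 := fun i => by exact_mod_cast hlam' _ (e i).2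
  have ha0 : ∀ i, 0 < a i := fun i => av_pos 1 (hl0' i)
  have hb0 : ∀ i, 0 < b i := fun i => av_pos 2 (hl0' i)
  have ha1 : ∀ i, a i ≤ 1 := fun i => av_int_le_one (by decide) _
  have hb1 : ∀ i, b i ≤ 1 := fun i => av_int_le_one (by decide) _
  have hc1 : ∀ i, 1 ≤ c i := fun i => PLACE_abs_ge (hlam' _ (e i).2)
  have hcl : ∀ i, c i ≤ Real.exp l := fun i => hlam _ (hJ'J (e i).2)
  have hprod : ∀ i, ∏ v : Pl, av v (X i) = c i * a i * b i := by
    intro i
    simp only [hX, av_mul, Finset.prod_mul_distrib]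
    rw [b1_prod, mul_one, PLACE_prod, av_real]
    simp only [hc, ha, hb]
    push_cast
    rfl
  have hrhs : ∏ i ∈ I, ∏ v : Pl, av v (X i) ≤ Real.exp (I.card * l) * a i1 * b i2 := by
    simp only [hprod]
    rw [Finset.prod_mul_distrib, Finset.prod_mul_distrib]
    have h1 : ∏ i ∈ I, c i ≤ Real.exp (I.card * l) := by
      calc ∏ i ∈ I, c i ≤ ∏ _i ∈ I, Real.exp l :=
            Finset.prod_le_prod (fun i _ => zero_le_one.trans (hc1 i)) fun i _ => hcl i
        _ = Real.exp (I.card * l) := by rw [Finset.prod_const, ← Real.exp_nat_mul]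
    have h2 : ∏ i ∈ I, a i ≤ a i1 := b1_one I a (fun i => (ha0 i).le) ha1 hi1
    have h3 : ∏ i ∈ I, b i ≤ b i2 := b1_one I b (fun i => (hb0 i).le) hb1 hi2
    have h4 : 0 ≤ ∏ i ∈ I, a i := Finset.prod_nonneg fun i _ => (ha0 i).le
    have h5 : 0 ≤ ∏ i ∈ I, b i := Finset.prod_nonneg fun i _ => (hb0 i).le
    exact mul_le_mul (mul_le_mul h1 h2 h4 (Real.exp_pos _).le) h3 h5
      (mul_nonneg (Real.exp_pos _).le (ha0 i1).le)
  have hlhs : av 0 (X i0) * av 1 (X i1) * av 2 (X i2) =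
      c i0 * Real.exp (ht I') * a i1 * b i2 := by
    simp only [hX, av_mul]
    rw [b1_av0, b1_av1, b1_av2, av_real]
    have h1 : Real.exp (ht I') = Real.exp (LL (e i0).1.1 (e i0).1.2) *
        Real.exp (-((e i1).1.1 * Real.log 2)) * Real.exp (-((e i2).1.2 * Real.log 3)) := by
      rw [← Real.exp_add, ← Real.exp_add, ← hht, hm1, hm2]
      congr 1
      simp only [LL]
      ring
    rw [h1]
    simp only [hc, ha, hb]
    push_cast
    ring
  rw [hlhs, hQpow] at key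
  have h6 : c i0 * Real.exp (ht I') * a i1 * b i2 ≤
      Real.exp (ε * R) * (Real.exp (I.card * l) * a i1 * b i2) :=
    key.trans (mul_le_mul_of_nonneg_left hrhs (Real.exp_pos _).le)
  have h7 : Real.exp (ht I') ≤ Real.exp (ε * R + I.card * l) := by
    have hab : 0 < a i1 * b i2 := mul_pos (ha0 i1) (hb0 i2)
    have h8 : Real.exp (ht I') * (a i1 * b i2) ≤ Real.exp (ε * R + I.card * l) * (a i1 * b i2) := by
      calc Real.exp (ht I') * (a i1 * b i2) ≤ c i0 * (Real.exp (ht I') * (a i1 * b i2)) :=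
            le_mul_of_one_le_left (mul_nonneg (Real.exp_pos _).le hab.le) (hc1 i0)
        _ = c i0 * Real.exp (ht I') * a i1 * b i2 := by ring
        _ ≤ Real.exp (ε * R) * (Real.exp (I.card * l) * a i1 * b i2) := h6
        _ = Real.exp (ε * R + I.card * l) * (a i1 * b i2) := by rw [Real.exp_add]; ring
    exact le_of_mul_le_mul_right h8 hab
  rw [hcard]
  exact Real.exp_le_exp.1 h7

end Pool.Agent.SupC
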