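import Pool.Agent.SupC.Cls
import Pool.Agent.SupC.Inner

/-! Superquadratic complexity: the pointwise count. Text, (j1). -/

namespace Pool.Agent.SupC

open Pool.Agent.SubT Pool.Agent.SlowV Pool.Agent.CplxN

open scoped BigOperators ENNReal

open MeasureTheory Set

theorem j1_LL (C' R : ℝ) (n : ℕ) (hn : (n : ℝ) ≤ C' * R) (v u : ℕ × ℕ)
    (hv : v ∈ bx ⌈C' * R⌉₊) (hu : u ∈ ibx (n / 4) n) :
    LL (v + u).1 (v + u).2 ≤ 5 * C' * R := by
  rw [mem_bx] at hv
  rw [mem_ibx] at hu
  have h2 : 0 < Real.log 2 := Real.log_pos (by norm_num)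
  have h2' : Real.log 2 < 0.7 := by
    have := Real.log_two_lt_d9
    linarith
  have h3 : Real.log 3 ≤ 1.4 := by
    have h4 : Real.log 4 = 2 * Real.log 2 := by
      rw [show (4 : ℝ) = 2 ^ 2 by norm_num, Real.log_pow]
      norm_num
    have : Real.log 3 ≤ Real.log 4 := Real.log_le_log (by norm_num) (by norm_num)
    linarith
  have h30 : 0 < Real.log 3 := Real.log_pos (by norm_num)
  have hv1 : (v.1 : ℝ) ≤ C' * R := by
    have := Nat.lt_ceil.1 hv.1
    exact this.le
  have hv2 : (v.2 : ℝ) ≤ C' * R := by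
    have := Nat.lt_ceil.1 hv.2
    exact this.le
  have hu1 : (u.1 : ℝ) ≤ C' * R := by
    have : u.1 ≤ n := by omega
    have : (u.1 : ℝ) ≤ n := by exact_mod_cast this
    linarith
  have hu2 : (u.2 : ℝ) ≤ C' * R := by
    have : u.2 ≤ n := by omega
    have : (u.2 : ℝ) ≤ n := by exact_mod_cast this
    linarith
  have hX : 0 ≤ C' * R := le_trans (Nat.cast_nonneg _) hv1
  unfold LL
  simp only [Prod.fst_add, Prod.snd_add]
  push_cast
  have e1 : ((v.1 : ℝ) + u.1) * Real.log 2 ≤ (2 * (C' * R)) * 0.7 :=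
    mul_le_mul (by linarith) h2'.le h2.le (by positivity)
  have e2 : ((v.2 : ℝ) + u.2) * Real.log 3 ≤ (2 * (C' * R)) * 1.4 :=
    mul_le_mul (by linarith) h3 h30.le (by positivity)
  linarith

open Classical in
/-- j1: `W = ⌈C' R⌉`, positions `v` in the box of size `W`, `u` in the inner box of size `n` -/
theorem star_count (θ ρ C' : ℝ) (hθ : 0 < θ) (hθ1 : θ ≤ 1 / 4) (hρ : 0 < ρ) (hρ1 : ρ ≤ 1 / 4)
    (hC : 1 ≤ C') :
    ∃ R0 : ℝ, 1 ≤ R0 ∧ ∀ R ≥ R0, ∀ (z : AddCircle (1 : ℝ)) (n K : ℕ)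
      (B : Fin K → Set (AddCircle (1 : ℝ))) (h : ℝ), (n : ℝ) ≤ C' * R → 0 ≤ h →
      (∀ i, ∀ x ∈ B i, ∀ y ∈ B i, (cnt (ibx (n / 4) n) (dp R) (x - y) : ℝ) ≤ h) →
      ((((bx ⌈C' * R⌉₊) ×ˢ (ibx (n / 4) n)).filter fun p : (ℕ × ℕ) × (ℕ × ℕ) =>
        sp p.1 z ∈ (⋃ i, B i) ∧ sp (p.1 + p.2) z ∈ Eab (θ * R) (ρ * R)).card : ℝ) ≤
        80 / θ * C' * K * ((ibx (n / 4) n).card : ℝ) + ((bx ⌈C' * R⌉₊).card : ℝ) * h := by
  obtain ⟨R0, hR0, H⟩ := few_class θ ρ (5 * C') hθ hθ1 hρ hρ1 (by linarith)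
  refine ⟨R0, hR0, fun R hR z n K B h hn hh hB => ?_⟩
  have hsub : ∀ (u : ℕ × ℕ) (x y : AddCircle (1 : ℝ)), sp u (x - y) = sp u x - sp u y :=
    fun u x y => by unfold sp; rw [nsmul_sub]
  -- the class of a position
  have hcl : ∀ v : ℕ × ℕ, ∃ i : Option (Fin K), sp v z ∈ (⋃ i, B i) →
      ∃ j, i = some j ∧ sp v z ∈ B j := by
    intro v
    by_cases hv : sp v z ∈ (⋃ i, B i)
    · obtain ⟨j, hj⟩ := Set.mem_iUnion.1 hv
      exact ⟨some j, fun _ => ⟨j, rfl, hj⟩⟩
    · exact ⟨none, fun h => absurd h hv⟩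
  choose cl hcl using hcl
  -- the reference position of a class
  have href : ∀ i : Option (Fin K), ∃ r : ℕ × ℕ, ∀ v ∈ bx ⌈C' * R⌉₊, sp v z ∈ (⋃ i, B i) →
      cl v = i → sp r z ∈ (⋃ i, B i) ∧ cl r = i := by
    intro i
    by_cases h : ∃ v ∈ bx ⌈C' * R⌉₊, sp v z ∈ (⋃ i, B i) ∧ cl v = i
    · obtain ⟨v, _, hv2, hv3⟩ := h
      exact ⟨v, fun _ _ _ _ => ⟨hv2, hv3⟩⟩
    · exact ⟨0, fun v hv hv2 hv3 => absurd ⟨v, hv, hv2, hv3⟩ h⟩
  choose ref href using href
  set P := ((bx ⌈C' * R⌉₊) ×ˢ (ibx (n / 4) n)).filter fun p : (ℕ × ℕ) × (ℕ × ℕ) =>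
        sp p.1 z ∈ (⋃ i, B i) ∧ sp (p.1 + p.2) z ∈ Eab (θ * R) (ρ * R) with hP
  set bad : (ℕ × ℕ) × (ℕ × ℕ) → Prop := fun p =>
    sp p.2 (sp p.1 z - sp (ref (cl p.1)) z) ∈ dp R with hbad
  have hsplit : (P.card : ℝ) = ((P.filter bad).card : ℝ) + ((P.filter fun p => ¬ bad p).card : ℝ) := by
    rw [← Nat.cast_add, Finset.card_filter_add_card_filter_not]
  -- the bad pairs
  have hb : ((P.filter bad).card : ℝ) ≤ ((bx ⌈C' * R⌉₊).card : ℝ) * h := by
    have h1 : (P.filter bad).card = ∑ v ∈ bx ⌈C' * R⌉₊, ((P.filter bad).filter fun p => p.1 = v).card := by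
      refine Finset.card_eq_sum_card_fiberwise fun p hp => ?_
      have hp' := (Finset.mem_filter.1 (Finset.mem_filter.1 (Finset.mem_coe.1 hp)).1).1
      exact Finset.mem_coe.2 (Finset.mem_product.1 hp').1
    rw [h1]
    push_cast
    rw [← nsmul_eq_mul]
    refine Finset.sum_le_card_nsmul _ _ _ fun v hv => ?_
    by_cases hvU : sp v z ∈ (⋃ i, B i)
    · obtain ⟨j, hj, hjB⟩ := hcl v hvU
      obtain ⟨hr1, hr2⟩ := href (cl v) v hv hvU rfl
      obtain ⟨j', hj', hjB'⟩ := hcl _ hr1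
      have hjj : j' = j := by
        have : some j' = some j := by rw [← hj', ← hj, hr2]
        exact Option.some.inj this
      subst hjj
      refine le_trans ?_ (hB j' _ hjB _ hjB')
      have : ((P.filter bad).filter fun p => p.1 = v).card ≤
          cnt (ibx (n / 4) n) (dp R) (sp v z - sp (ref (cl v)) z) := by
        unfold cnt
        refine Finset.card_le_card_of_injOn Prod.snd ?_ ?_
        · intro p hp
          have hp' := Finset.mem_filter.1 (Finset.mem_coe.1 hp)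
          obtain ⟨hp1, hp2⟩ := hp'
          obtain ⟨hp3, hp4⟩ := Finset.mem_filter.1 hp1
          have hp5 := (Finset.mem_product.1 (Finset.mem_filter.1 hp3).1).2
          refine Finset.mem_coe.2 (Finset.mem_filter.2 ⟨hp5, ?_⟩)
          have : bad p := hp4
          rw [hbad] at this
          simp only [hp2] at this
          exact this
        · intro p hp p' hp' hpp
          have h1 := (Finset.mem_filter.1 (Finset.mem_coe.1 hp)).2
          have h2 := (Finset.mem_filter.1 (Finset.mem_coe.1 hp')).2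
          exact Prod.ext (h1.trans h2.symm) hpp
      exact_mod_cast this
    · have : ((P.filter bad).filter fun p => p.1 = v) = ∅ := by
        apply Finset.filter_eq_empty_iff.2
        intro p hp hpv
        have := (Finset.mem_filter.1 (Finset.mem_filter.1 hp).1).2.1
        rw [hpv] at this
        exact hvU this
      rw [this, Finset.card_empty]
      simpa using hh
  -- the good pairs
  have hg : ((P.filter fun p => ¬ bad p).card : ℝ) ≤
      80 / θ * C' * K * ((ibx (n / 4) n).card : ℝ) := by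
    set Q := P.filter fun p => ¬ bad p with hQ
    have h1 : Q.card = ∑ q ∈ (Finset.univ.image (some : Fin K → Option (Fin K))) ×ˢ (ibx (n / 4) n),
        (Q.filter fun p => (cl p.1, p.2) = q).card := by
      refine Finset.card_eq_sum_card_fiberwise fun p hp => ?_
      have hp0 := Finset.mem_filter.1 (Finset.mem_filter.1 (Finset.mem_coe.1 hp)).1
      have hp1 := Finset.mem_product.1 hp0.1
      obtain ⟨j, hj, _⟩ := hcl _ hp0.2.1
      refine Finset.mem_coe.2 (Finset.mem_product.2 ⟨Finset.mem_image.2 ⟨j, Finset.mem_univ _, hj.symm⟩, hp1.2⟩)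
    have h2 : ((((Finset.univ.image (some : Fin K → Option (Fin K))) ×ˢ (ibx (n / 4) n)).card : ℕ) : ℝ) =
        K * ((ibx (n / 4) n).card : ℝ) := by
      rw [Finset.card_product, Finset.card_image_of_injective _ (Option.some_injective _),
        Finset.card_univ, Fintype.card_fin]
      push_cast
      ring
    rw [h1]
    push_cast
    have h3 : ∀ q ∈ (Finset.univ.image (some : Fin K → Option (Fin K))) ×ˢ (ibx (n / 4) n),
        ((Q.filter fun p => (cl p.1, p.2) = q).card : ℝ) ≤ 16 / θ * (5 * C') := by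
      intro q hq
      obtain ⟨hq1, hq2⟩ := Finset.mem_product.1 hq
      have hmem : ∀ p ∈ Q.filter fun p => (cl p.1, p.2) = q,
          p.1 ∈ bx ⌈C' * R⌉₊ ∧ p.2 = q.2 ∧ cl p.1 = q.1 ∧ sp p.1 z ∈ (⋃ i, B i) ∧
          sp (p.1 + p.2) z ∈ Eab (θ * R) (ρ * R) ∧
          ‖sp (p.1 + q.2) z - sp (ref q.1 + q.2) z‖ < 1 / 36 * Real.exp (-R) := by
        intro p hp
        obtain ⟨hp1, hp2⟩ := Finset.mem_filter.1 hp
        obtain ⟨hp3, hp4⟩ := Finset.mem_filter.1 hp1
        obtain ⟨hp5, hp6⟩ := Finset.mem_filter.1 hp3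
        have hp7 := Finset.mem_product.1 hp5
        have e1 : cl p.1 = q.1 := congrArg Prod.fst hp2
        have e2 : p.2 = q.2 := congrArg Prod.snd hp2
        refine ⟨hp7.1, e2, e1, hp6.1, hp6.2, ?_⟩
        have h5 : ¬ (1 / 36 * Real.exp (-R) ≤ ‖sp p.2 (sp p.1 z - sp (ref (cl p.1)) z)‖) := hp4
        rw [not_le, e1, e2, hsub, ← sp_add, ← sp_add] at h5
        rw [add_comm p.1, add_comm (ref q.1)]
        exact h5
      set D := (Q.filter fun p => (cl p.1, p.2) = q).image (fun p => p.1 + p.2) with hD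
      have hcard : D.card = (Q.filter fun p => (cl p.1, p.2) = q).card := by
        apply Finset.card_image_of_injOn
        intro p hp p' hp' hpp
        have a1 := (hmem p (Finset.mem_coe.1 hp)).2.1
        have a2 := (hmem p' (Finset.mem_coe.1 hp')).2.1
        have a3 : p.1 + q.2 = p'.1 + q.2 := by
          have : p.1 + p.2 = p'.1 + p'.2 := hpp
          rwa [a1, a2] at this
        exact Prod.ext (add_right_cancel a3) (a1.trans a2.symm)
      rw [← hcard]
      refine H R hR z D ?_ ?_ ?_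
      · intro p hp
        obtain ⟨p', hp', rfl⟩ := Finset.mem_image.1 hp
        obtain ⟨a1, a2, _⟩ := hmem p' hp'
        refine j1_LL C' R n hn p'.1 p'.2 a1 ?_
        rw [a2]
        exact hq2
      · intro p hp p' hp'
        obtain ⟨r, hr, rfl⟩ := Finset.mem_image.1 hp
        obtain ⟨r', hr', rfl⟩ := Finset.mem_image.1 hp'
        obtain ⟨_, a2, _, _, _, a6⟩ := hmem r hr
        obtain ⟨_, b2, _, _, _, b6⟩ := hmem r' hr'
        show ‖sp (r.1 + r.2) z - sp (r'.1 + r'.2) z‖ ≤ Real.exp (-R)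
        rw [a2, b2]
        have e : sp (r.1 + q.2) z - sp (r'.1 + q.2) z =
            (sp (r.1 + q.2) z - sp (ref q.1 + q.2) z) - (sp (r'.1 + q.2) z - sp (ref q.1 + q.2) z) := by
          abel
        rw [e]
        refine (norm_sub_le _ _).trans ?_
        have := Real.exp_pos (-R)
        linarith
      · intro p hp
        obtain ⟨r, hr, rfl⟩ := Finset.mem_image.1 hp
        exact (hmem r hr).2.2.2.2.1
    refine (Finset.sum_le_card_nsmul _ _ _ h3).trans (le_of_eq ?_)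
    rw [nsmul_eq_mul, h2]
    ring
  rw [hsplit]
  linarith

end Pool.Agent.SupC
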