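import Pool.Agent.SupC.Main

/-! Superquadratic complexity: the integration for systems. -/

namespace Pool.Agent.SupC

open Pool.Agent.SubT Pool.Agent.SlowV Pool.Agent.CplxN

open scoped BigOperators ENNReal

open MeasureTheory Set

open Classical in
/-- the pointwise inequality -/
theorem s1_point (E : Set (AddCircle (1 : ℝ))) (N d A : ℝ) (hN : 8 ≤ N) (hd : 0 < d)
    (hA : 0 ≤ A) (n : ℕ)
    (good bad : Set (ℕ × ℕ)) (hV : ∀ v, v ∉ good → v ∈ bad)
    (hdens : ∀ w : AddCircle (1 : ℝ), sp (e0 N) w ∈ E → d * N ^ 2 ≤ (cnt (bx ⌈2 * N⌉₊) E w : ℝ))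
    (z : AddCircle (1 : ℝ))
    (hstar : (∑ v ∈ bx ⌈N⌉₊, ∑ u ∈ ibx (n / 4) n,
      (if v ∈ good ∧ sp (v + u) (sp (⌈N⌉₊, ⌈N⌉₊) z) ∈ E then (1 : ℝ) else 0)) ≤
        A * ((bx ⌈N⌉₊).card : ℝ) * ((ibx (n / 4) n).card : ℝ)) :
    (∑ v ∈ bx ⌈N⌉₊, (cnt (ibx (n / 4) n) E (sp ((⌈N⌉₊, ⌈N⌉₊) + v) z) : ℝ)) ≤
      ((ibx (n / 4) n).card : ℝ) * (((bx ⌈N⌉₊).filter (fun p => p ∈ bad)).card : ℝ) +
      A * ((bx ⌈N⌉₊).card : ℝ) * ((ibx (n / 4) n).card : ℝ) / (d * N ^ 2) *
        (cnt (bx (⌈2 * N⌉₊ + 2 * ⌈N⌉₊ + n)) E z : ℝ) := by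
  classical
  set W : ℕ := ⌈N⌉₊ with hW
  set M : ℕ := ⌈2 * N⌉₊ + 2 * W + n with hM
  set z1 := sp (W, W) z with hz1
  set I := ibx (n / 4) n with hI
  have hdN : 0 < d * N ^ 2 := by positivity
  -- split
  have h1 : (∑ v ∈ bx W, (cnt I E (sp ((W, W) + v) z) : ℝ)) ≤
      (I.card : ℝ) * (((bx W).filter (fun p => p ∈ bad)).card : ℝ) + ∑ v ∈ bx W, ∑ u ∈ I,
      (if v ∈ good ∧ sp (v + u) z1 ∈ E then (1 : ℝ) else 0) := by
    have e1 : (I.card : ℝ) * (((bx W).filter (fun p => p ∈ bad)).card : ℝ) = ∑ v ∈ bx W, ∑ u ∈ I,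
        (if v ∈ bad then (1 : ℝ) else 0) := by
      rw [Finset.card_filter]
      push_cast
      rw [Finset.mul_sum]
      refine Finset.sum_congr rfl fun v _ => ?_
      rw [Finset.sum_const, nsmul_eq_mul]
    rw [e1, ← Finset.sum_add_distrib]
    refine Finset.sum_le_sum fun v _ => ?_
    rw [← Finset.sum_add_distrib]
    unfold cnt
    rw [Finset.card_filter]
    push_cast
    refine Finset.sum_le_sum fun u _ => ?_
    have e2 : sp u (sp ((W, W) + v) z) = sp (v + u) z1 := by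
      rw [hz1, ← sp_add, ← sp_add]
      congr 1
      abel
    rw [e2]
    by_cases hE : sp (v + u) z1 ∈ E
    · rw [if_pos hE]
      by_cases hU : v ∈ good
      · rw [if_pos (And.intro hU hE)]
        split_ifs <;> norm_num
      · rw [if_pos (hV v hU)]
        split_ifs <;> norm_num
    · rw [if_neg hE]
      split_ifs <;> norm_num
  refine h1.trans ?_
  have h2 : (∑ v ∈ bx W, ∑ u ∈ I,
      (if v ∈ good ∧ sp (v + u) z1 ∈ E then (1 : ℝ) else 0)) ≤
      A * ((bx W).card : ℝ) * (I.card : ℝ) / (d * N ^ 2) * (cnt (bx M) E z : ℝ) := by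
    by_cases hex : ∃ v ∈ bx W, ∃ u ∈ I, sp (v + u) z1 ∈ E
    · obtain ⟨v, hv, u, hu, hE⟩ := hex
      refine hstar.trans ?_
      have h3 : d * N ^ 2 ≤ (cnt (bx M) E z : ℝ) := by
        obtain ⟨he1, he2⟩ := j2_e0 N hN
        rw [mem_bx] at hv
        rw [hI, mem_ibx] at hu
        set c : ℕ × ℕ := (W, W) + v + u with hc
        have hc1 : c.1 = W + v.1 + u.1 := by rw [hc]; simp
        have hc2 : c.2 = W + v.2 + u.2 := by rw [hc]; simp
        have hcE : sp c z ∈ E := by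
          rw [hc, add_assoc, add_comm, sp_add, ← hz1]
          exact hE
        set s : ℕ × ℕ := (c.1 - (e0 N).1, c.2 - (e0 N).2) with hs
        have hes : e0 N + s = c := by
          refine Prod.ext ?_ ?_
          · have : (e0 N + s).1 = (e0 N).1 + s.1 := rfl
            rw [this, hs]
            show (e0 N).1 + (c.1 - (e0 N).1) = c.1
            omega
          · have : (e0 N + s).2 = (e0 N).2 + s.2 := rfl
            rw [this, hs]
            show (e0 N).2 + (c.2 - (e0 N).2) = c.2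
            omega
        have h4 := hdens (sp s z) (by rw [← sp_add, hes]; exact hcE)
        refine h4.trans ?_
        have h5 : cnt (bx ⌈2 * N⌉₊) E (sp s z) ≤ cnt (bx M) E z := by
          unfold cnt
          refine Finset.card_le_card_of_injOn (fun p => p + s) ?_ ?_
          · intro p hp
            obtain ⟨hp1, hp2⟩ := Finset.mem_filter.1 (Finset.mem_coe.1 hp)
            rw [mem_bx] at hp1
            refine Finset.mem_coe.2 (Finset.mem_filter.2 ⟨?_, ?_⟩)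
            · rw [mem_bx]
              have a1 : (p + s).1 = p.1 + (c.1 - (e0 N).1) := rfl
              have a2 : (p + s).2 = p.2 + (c.2 - (e0 N).2) := rfl
              rw [a1, a2]
              omega
            · rw [sp_add]
              exact hp2
          · intro p _ q _ h
            exact add_right_cancel h
        exact_mod_cast h5
      have h6 : 0 ≤ A * ((bx W).card : ℝ) * (I.card : ℝ) := by positivity
      calc A * ((bx W).card : ℝ) * (I.card : ℝ)
          = A * ((bx W).card : ℝ) * (I.card : ℝ) / (d * N ^ 2) * (d * N ^ 2) := by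
            rw [div_mul_cancel₀ _ hdN.ne']
        _ ≤ A * ((bx W).card : ℝ) * (I.card : ℝ) / (d * N ^ 2) * (cnt (bx M) E z : ℝ) :=
            mul_le_mul_of_nonneg_left h3 (by positivity)
    · have : (∑ v ∈ bx W, ∑ u ∈ I,
          (if v ∈ good ∧ sp (v + u) z1 ∈ E then (1 : ℝ) else 0)) = 0 := by
        refine Finset.sum_eq_zero fun v hv => Finset.sum_eq_zero fun u hu => ?_
        rw [if_neg]
        rintro ⟨_, h⟩
        exact hex ⟨v, hv, u, hu, h⟩
      rw [this]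
      positivity
  linarith

open Classical in
/-- j2: integration. `E` is a measurable set with positive local density near each of its points,
`V` contains the uncovered points. -/
theorem integrate_sys {Ω : Type} [MeasurableSpace Ω] (P : Measure Ω) [IsProbabilityMeasure P]
    {S R : Ω → Ω} (hS : MeasurePreserving S P P) (hR : MeasurePreserving R P P)
    (φ : Ω → AddCircle (1 : ℝ)) (hφ : Measurable φ)
    (h2 : ∀ᵐ ω ∂P, φ (S ω) = (2 : ℕ) • φ ω) (h3 : ∀ᵐ ω ∂P, φ (R ω) = (3 : ℕ) • φ ω)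
    (E : Set (AddCircle (1 : ℝ))) (hE : MeasurableSet E) (N d A κ : ℝ) (hN : 8 ≤ N) (hd : 0 < d)
    (hA : 0 ≤ A) (n K : ℕ) (hn : 8 ≤ n) (hnN : (n : ℝ) ≤ N)
    (B : Fin K → Set Ω)
    (hdens : ∀ w : AddCircle (1 : ℝ), sp (e0 N) w ∈ E → d * N ^ 2 ≤ (cnt (bx ⌈2 * N⌉₊) E w : ℝ))
    (hstar : ∀ ω : Ω, (∀ v : ℕ × ℕ, φ (orb S R v ω) = sp v (φ ω)) →
      (∑ v ∈ bx ⌈N⌉₊, ∑ u ∈ ibx (n / 4) n,
      (if orb S R v ω ∈ (⋃ i, B i) ∧ sp (v + u) (φ ω) ∈ E then (1 : ℝ) else 0)) ≤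
        A * ((bx ⌈N⌉₊).card : ℝ) * ((ibx (n / 4) n).card : ℝ))
    (hκ : 64 * A / d ≤ κ) (hκ1 : κ ≤ 1) :
    ENNReal.ofReal (1 - κ) * (P.map φ) E ≤ P (⋃ i, B i)ᶜ := by
  classical
  have hprob : IsProbabilityMeasure (P.map φ) := Measure.isProbabilityMeasure_map hφ.aemeasurable
  set μ : Measure (AddCircle (1 : ℝ)) := P.map φ with hμ
  have h2' : MeasurePreserving (fun x => (2 : ℕ) • x) μ μ := map_mp P hS φ hφ 2 h2
  have h3' : MeasurePreserving (fun x => (3 : ℕ) • x) μ μ := map_mp P hR φ hφ 3 h3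
  set W : ℕ := ⌈N⌉₊ with hW
  set M : ℕ := ⌈2 * N⌉₊ + 2 * W + n with hM
  set I := ibx (n / 4) n with hI
  set V := toMeasurable P (⋃ i, B i)ᶜ with hVdef
  have hV1 : (⋃ i, B i)ᶜ ⊆ V := subset_toMeasurable _ _
  have hV2 : MeasurableSet V := measurableSet_toMeasurable _ _
  have hV3 : P V = P (⋃ i, B i)ᶜ := measure_toMeasurable _
  have hN0 : 0 < N := by linarith
  have hdN : 0 < d * N ^ 2 := by positivity
  have hWpos : 0 < W := Nat.ceil_pos.2 hN0
  have hWc : 0 < ((bx W).card : ℝ) := by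
    rw [card_bx]
    exact_mod_cast Nat.mul_pos hWpos hWpos
  have hIc : 0 < (I.card : ℝ) := by
    have : I.card = (n - n / 4 - n / 4) * (n - n / 4 - n / 4) := by
      rw [hI]; simp [ibx]
    rw [this]
    have h5 : 0 < n - n / 4 - n / 4 := by omega
    exact_mod_cast Nat.mul_pos h5 h5
  set c : ℝ := A * ((bx W).card : ℝ) * (I.card : ℝ) / (d * N ^ 2) with hc
  have hc0 : 0 ≤ c := by positivity
  have hgood := orb_ae P hS hR φ h2 h3
  have hgood2 : ∀ᵐ ω ∂P, ∀ v : ℕ × ℕ,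
      φ (orb S R v (orb S R (W, W) ω)) = sp v (φ (orb S R (W, W) ω)) :=
    (orb_mp P hS hR (W, W)).quasiMeasurePreserving.ae hgood
  have hpt : ∀ᵐ ω ∂P, (∑ v ∈ bx W, (cnt I E (sp ((W, W) + v) (φ ω)) : ℝ)) ≤
      (I.card : ℝ) * (vis S R (bx W) V (orb S R (W, W) ω) : ℝ) +
        c * (cnt (bx M) E (φ ω) : ℝ) := by
    filter_upwards [hgood, hgood2] with ω hω hω2
    have h4 := hstar (orb S R (W, W) ω) hω2
    rw [hω (W, W)] at h4
    exact s1_point E N d A hN hd hA n {v | orb S R v (orb S R (W, W) ω) ∈ (⋃ i, B i)}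
      {v | orb S R v (orb S R (W, W) ω) ∈ V} (fun v hv => hV1 hv) hdens (φ ω) h4
  -- in extended nonnegative reals
  have hpt2 : ∀ᵐ ω ∂P, (∑ v ∈ bx W, (cnt I E (sp ((W, W) + v) (φ ω)) : ℝ≥0∞)) ≤
      (I.card : ℝ≥0∞) * (vis S R (bx W) V (orb S R (W, W) ω) : ℝ≥0∞) +
        ENNReal.ofReal c * (cnt (bx M) E (φ ω) : ℝ≥0∞) := by
    filter_upwards [hpt] with ω hω
    have h := ENNReal.ofReal_le_ofReal hω
    rw [ENNReal.ofReal_add (by positivity) (by positivity), ENNReal.ofReal_mul (by positivity),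
      ENNReal.ofReal_mul hc0, ENNReal.ofReal_sum_of_nonneg (fun _ _ => Nat.cast_nonneg _)] at h
    simp only [ENNReal.ofReal_natCast] at h
    exact h
  have hmp : ∀ p : ℕ × ℕ, MeasurePreserving (sp p) μ μ := fun p => GR1_mp μ h2' h3' p.1 p.2
  have i1 : ∀ v : ℕ × ℕ, ∫⁻ ω, (cnt I E (sp ((W, W) + v) (φ ω)) : ℝ≥0∞) ∂P =
      (I.card : ℝ≥0∞) * μ E := by
    intro v
    rw [← cnt_lintegral μ h2' h3' I E hE, ← (hmp ((W, W) + v)).lintegral_comp
      (f := fun z => (cnt I E z : ℝ≥0∞)) (cnt_measurable I E hE)]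
    exact (lintegral_map (f := fun z => (cnt I E (sp ((W, W) + v) z) : ℝ≥0∞))
      ((cnt_measurable I E hE).comp (hmp _).measurable) hφ).symm
  have mV : Measurable (fun ω => (vis S R (bx W) V ω : ℝ≥0∞)) :=
    vis_measurable hS.measurable hR.measurable (bx W) V hV2
  have i2 : ∫⁻ ω, (vis S R (bx W) V (orb S R (W, W) ω) : ℝ≥0∞) ∂P =
      ((bx W).card : ℝ≥0∞) * P V := by
    rw [← vis_lintegral P hS hR (bx W) V hV2]
    exact (orb_mp P hS hR (W, W)).lintegral_comp (f := fun ω => (vis S R (bx W) V ω : ℝ≥0∞)) mV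
  have i3 : ∫⁻ ω, (cnt (bx M) E (φ ω) : ℝ≥0∞) ∂P = ((bx M).card : ℝ≥0∞) * μ E := by
    rw [← cnt_lintegral μ h2' h3' (bx M) E hE]
    exact (lintegral_map (f := fun z => (cnt (bx M) E z : ℝ≥0∞)) (cnt_measurable (bx M) E hE)
      hφ).symm
  have m1 : ∀ v : ℕ × ℕ, Measurable (fun ω => (cnt I E (sp ((W, W) + v) (φ ω)) : ℝ≥0∞)) :=
    fun v => ((cnt_measurable I E hE).comp (hmp _).measurable).comp hφ
  have m2 : Measurable (fun ω => (vis S R (bx W) V (orb S R (W, W) ω) : ℝ≥0∞)) :=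
    mV.comp (orb_mp P hS hR (W, W)).measurable
  have m3 : Measurable (fun ω => (cnt (bx M) E (φ ω) : ℝ≥0∞)) :=
    (cnt_measurable (bx M) E hE).comp hφ
  have hint : ((bx W).card : ℝ≥0∞) * ((I.card : ℝ≥0∞) * μ E) ≤
      (I.card : ℝ≥0∞) * (((bx W).card : ℝ≥0∞) * P V) +
        ENNReal.ofReal c * (((bx M).card : ℝ≥0∞) * μ E) := by
    have h := lintegral_mono_ae hpt2
    rw [lintegral_finsetSum _ (fun v _ => m1 v), Finset.sum_congr rfl (fun v _ => i1 v),
      Finset.sum_const, nsmul_eq_mul,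
      lintegral_add_left (m2.const_mul _), lintegral_const_mul _ m2, lintegral_const_mul _ m3,
      i2, i3] at h
    exact h
  -- back to real numbers
  rw [← hV3]
  have heE : μ E = ENNReal.ofReal (μ E).toReal := (ENNReal.ofReal_toReal (measure_ne_top _ _)).symm
  have hwV : P V = ENNReal.ofReal (P V).toReal := (ENNReal.ofReal_toReal (measure_ne_top _ _)).symm
  rw [heE, hwV] at hint ⊢
  refine j2_fin I.card (bx W).card (bx M).card c κ _ _ (by exact_mod_cast hIc)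
    (by exact_mod_cast hWc) hc0 ENNReal.toReal_nonneg ENNReal.toReal_nonneg hint ?_ hκ1
  have hMc : ((bx M).card : ℝ) ≤ 36 * N ^ 2 := by
    rw [card_bx]
    have := j2_size N hN n hnN
    rw [← hW, ← hM] at this
    push_cast
    nlinarith
  have h9 : c * ((bx M).card : ℝ) ≤ c * (36 * N ^ 2) := mul_le_mul_of_nonneg_left hMc hc0
  have h10 : c * (36 * N ^ 2) = ((bx W).card : ℝ) * (I.card : ℝ) * (36 * A / d) := by
    rw [hc]
    exact j2_alg A _ _ d N hd.ne' hN0.ne'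
  have h11 : 36 * A / d ≤ κ := by
    refine le_trans ?_ hκ
    apply div_le_div_of_nonneg_right _ hd.le
    linarith
  rw [h10] at h9
  refine h9.trans ?_
  apply mul_le_mul_of_nonneg_left h11
  exact (mul_pos hWc hIc).le

end Pool.Agent.SupC
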