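import Pool.Agent.SupC.SysU
import Pool.Agent.SupC.Cor

/-! Superquadratic complexity: atomless measures, systems. -/

namespace Pool.Agent.SupC

open Pool.Agent.SubT Pool.Agent.SlowV Pool.Agent.CplxN

open scoped BigOperators ENNReal

open MeasureTheory Set Filter Topology

/-- s3: atomless measures, systems -/
theorem cor_atomless_sys {Ω : Type} [MeasurableSpace Ω] (P : Measure Ω) [IsProbabilityMeasure P]
    {S R : Ω → Ω} (hS : MeasurePreserving S P P) (hR : MeasurePreserving R P P)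
    (φ : Ω → AddCircle (1 : ℝ)) (hφ : Measurable φ)
    (h2 : ∀ᵐ ω ∂P, φ (S ω) = (2 : ℕ) • φ ω) (h3 : ∀ᵐ ω ∂P, φ (R ω) = (3 : ℕ) • φ ω)
    (hat : ∀ x, (P.map φ) {x} = 0) (η : ℝ) (hη : 0 < η) (C W : ℝ) (m₀ : ℕ) :
    ∃ m ≥ m₀, ∀ n : ℕ, m ≤ n → (n : ℝ) ≤ W * m →
      ∀ (K : ℕ) (B : Fin K → Set Ω), (K : ℝ) ≤ C * (n : ℝ) ^ 2 →
      (∀ i, ∀ x ∈ B i, ∀ y ∈ B i, (cnt (bx n) far (φ x - φ y) : ℝ) ≤ (n : ℝ) ^ (2 - η)) →
      ENNReal.ofReal ((Real.log n) ^ (-(1 + η))) < P (⋃ i, B i)ᶜ := by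
  by_contra hcon
  push Not at hcon
  have hprob : IsProbabilityMeasure (P.map φ) := Measure.isProbabilityMeasure_map hφ.aemeasurable
  obtain ⟨ρ, hρ, hu⟩ := uniform_sys (min η 1) (lt_min hη one_pos) (min_le_right _ _)
  set W' : ℝ := max W 1 with hW'
  have hW1 : 1 ≤ W' := le_max_right _ _
  have hWW : W ≤ W' := le_max_left _ _
  have hW0 : 0 < W' := by linarith
  set θ : ℝ := ρ / (4 * W') with hθ
  have hθ0 : 0 < θ := by positivity
  have hθW : θ * (2 * W') = ρ / 2 := by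
    rw [hθ]
    field_simp
    ring
  obtain ⟨n₀, hn₀⟩ := hu C (1 / 2) θ (by norm_num) (by norm_num) hθ0
  obtain ⟨a, h2a, hlow, hge, hnext⟩ := low_seq (fun n => ∃ (K : ℕ)
      (B : Fin K → Set Ω), (K : ℝ) ≤ C * (n : ℝ) ^ 2 ∧
      (∀ i, ∀ x ∈ B i, ∀ y ∈ B i, (cnt (bx n) far (φ x - φ y) : ℝ) ≤ (n : ℝ) ^ (2 - η)) ∧
      P (⋃ i, B i)ᶜ ≤ ENNReal.ofReal ((Real.log n) ^ (-(1 + η)))) (fun m => W' * m) m₀
    (fun m hm => by
      obtain ⟨n, hn1, hn2, K, B, hK, hB, hP⟩ := hcon m hm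
      exact ⟨n, hn1, hn2.trans (mul_le_mul_of_nonneg_right hWW (Nat.cast_nonneg _)),
        K, B, hK, hB, hP⟩)
  have hlog2 : 0 < Real.log 2 := Real.log_pos (by norm_num)
  have h2a' : ∀ j, (2 : ℝ) ^ j ≤ a j := fun j => by exact_mod_cast h2a j
  have hat' : Tendsto (fun j => (a j : ℝ)) atTop atTop :=
    tendsto_atTop_mono h2a' (tendsto_pow_atTop_atTop_of_one_lt (by norm_num))
  have hb : Tendsto (fun j => ρ * (a j : ℝ)) atTop atTop := hat'.const_mul_atTop hρ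
  refine no_Eab (P.map φ) hat (fun j => θ * (a j : ℝ)) (fun j => ρ * (a j : ℝ))
    (fun j => 2 * ell j ^ (-(1 + η))) hb ?_ (Filter.Eventually.of_forall fun j => by positivity)
    ((summable_ell η hη).mul_left 2) ?_
  · filter_upwards [hb.eventually_ge_atTop 2] with j hj
    have h4 : (a (j + 1) : ℝ) ≤ W' * (2 * a j) := by
      have := hnext j
      push_cast at this
      exact this
    have h5 : θ * (a (j + 1) : ℝ) ≤ θ * (W' * (2 * a j)) := mul_le_mul_of_nonneg_left h4 hθ0.le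
    have h6 : θ * (W' * (2 * (a j : ℝ))) = ρ / 2 * a j := by
      rw [← hθW]; ring
    linarith
  · filter_upwards [eventually_ge_atTop 1, hat'.eventually_ge_atTop (n₀ : ℝ)] with j hj hj0
    obtain ⟨K, B, hK, hB, hP⟩ := hlow j
    have hn0' : n₀ ≤ a j := by exact_mod_cast hj0
    have ha1 : (1 : ℝ) ≤ a j := (one_le_pow₀ (by norm_num)).trans (h2a' j)
    have h4 := hn₀ (a j) hn0' Ω inferInstance P inferInstance S R hS hR φ hφ h2 h3 K B hK
      (fun i x hx y hy =>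
      (hB i x hx y hy).trans (Real.rpow_le_rpow_of_exponent_le ha1 (by
        have := min_le_left η 1
        linarith)))
    have h5 : ENNReal.ofReal (1 - 1 / 2) * (P.map φ) (Eab (θ * (a j : ℝ)) (ρ * (a j : ℝ))) ≤
        ENNReal.ofReal ((Real.log (a j)) ^ (-(1 + η))) := h4.trans hP
    have hell : 0 < ell j := by
      unfold ell
      have : (0 : ℝ) < j := by exact_mod_cast hj
      positivity
    have hell2 : ell j ≤ Real.log (a j) := by
      have h6 := Real.log_le_log (by positivity) (h2a' j)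
      rwa [Real.log_pow] at h6
    have h7 : (Real.log (a j)) ^ (-(1 + η)) ≤ ell j ^ (-(1 + η)) :=
      Real.rpow_le_rpow_of_nonpos hell hell2 (by linarith)
    have e : (P.map φ) (Eab (θ * (a j : ℝ)) (ρ * (a j : ℝ))) =
        ENNReal.ofReal 2 * (ENNReal.ofReal (1 - 1 / 2) *
          (P.map φ) (Eab (θ * (a j : ℝ)) (ρ * (a j : ℝ)))) := by
      rw [← mul_assoc, ← ENNReal.ofReal_mul (by norm_num)]
      norm_num
    rw [e, ENNReal.ofReal_mul (by norm_num)]
    exact mul_le_mul' le_rfl (h5.trans (ENNReal.ofReal_le_ofReal h7))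

end Pool.Agent.SupC
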