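import Pool.Agent.SupC.SysU

/-! Superquadratic complexity: systems, non-Liouville points. -/

namespace Pool.Agent.SupC

open Pool.Agent.SubT Pool.Agent.SlowV Pool.Agent.CplxN

open scoped BigOperators ENNReal

open MeasureTheory Set Filter Topology


/-- a point which is not very well approximable is in the sets `Eab` at all large scales -/
private theorem t2_ev (x : AddCircle (1 : ℝ)) (A : ℝ) (hA : 0 ≤ A) (hx : x ∉ vwa A) (θ ρ : ℝ)
    (hρ : 0 < ρ) (hAθ : A * θ ≤ ρ) :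
    ∀ᶠ n : ℕ in atTop, x ∈ Eab (θ * n) (ρ * n) := by
  unfold vwa at hx
  rw [Set.mem_ofPred_eq] at hx
  push Not at hx
  obtain ⟨Q, hQ⟩ := hx
  have hpos : ∀ q : ℕ, 0 < q → 0 < ‖q • x‖ := by
    intro q hq
    rw [norm_pos_iff]
    intro h0
    have h1 := hQ (max Q 1 * q) (by
      have h2 : Q ≤ max Q 1 := le_max_left _ _
      exact h2.trans (Nat.le_mul_of_pos_right _ hq))
    rw [mul_smul, h0, smul_zero, norm_zero] at h1
    have h3 : (0 : ℝ) < ((max Q 1 * q : ℕ) : ℝ) := by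
      exact_mod_cast Nat.mul_pos (lt_of_lt_of_le one_pos (le_max_right Q 1)) hq
    exact absurd h1 (not_le.2 (Real.rpow_pos_of_pos h3 _))
  obtain ⟨δ, hδ0, hδ⟩ : ∃ δ > 0, ∀ q : ℕ, 0 < q → q < Q → δ ≤ ‖q • x‖ := by
    rcases Nat.eq_zero_or_pos (Q - 1) with hQ1 | hQ1
    · exact ⟨1, one_pos, fun q h1 h2 => by omega⟩
    · have hne : (Finset.Ico 1 Q).Nonempty := ⟨1, by simp; omega⟩
      obtain ⟨q0, hq0, hmin⟩ := Finset.exists_min_image (Finset.Ico 1 Q) (fun q => ‖q • x‖) hne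
      rw [Finset.mem_Ico] at hq0
      exact ⟨‖q0 • x‖, hpos q0 (by omega), fun q h1 h2 => hmin q (Finset.mem_Ico.2 ⟨h1, h2⟩)⟩
  have ht : Tendsto (fun n : ℕ => ρ * (n : ℝ)) atTop atTop :=
    (tendsto_natCast_atTop_atTop (R := ℝ)).const_mul_atTop hρ
  filter_upwards [ht.eventually_ge_atTop (-Real.log δ)] with n hn
  intro q hq1 hq2
  by_cases hqQ : q < Q
  · refine le_trans ?_ (hδ q (by omega) hqQ)
    rw [← Real.exp_log hδ0]
    exact Real.exp_le_exp.2 (by linarith)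
  · refine le_trans ?_ (hQ q (not_lt.1 hqQ))
    have hqpos : (0 : ℝ) < q := by exact_mod_cast hq1
    rw [Real.rpow_def_of_pos hqpos]
    apply Real.exp_le_exp.2
    have h1 : Real.log q ≤ θ * n := by
      rw [← Real.log_exp (θ * n)]
      exact Real.log_le_log hqpos hq2
    have h2 : A * Real.log q ≤ A * (θ * n) := mul_le_mul_of_nonneg_left h1 hA
    have h3 : A * (θ * n) ≤ ρ * n := by
      rw [← mul_assoc]
      exact mul_le_mul_of_nonneg_right hAθ (Nat.cast_nonneg _)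
    linarith

theorem cor_dio_sys {Ω : Type} [MeasurableSpace Ω] (P : Measure Ω) [IsProbabilityMeasure P]
    {S R : Ω → Ω} (hS : MeasurePreserving S P P) (hR : MeasurePreserving R P P)
    (φ : Ω → AddCircle (1 : ℝ)) (hφ : Measurable φ)
    (h2 : ∀ᵐ ω ∂P, φ (S ω) = (2 : ℕ) • φ ω) (h3 : ∀ᵐ ω ∂P, φ (R ω) = (3 : ℕ) • φ ω)
    (η κ : ℝ) (hη : 0 < η) (hκ : 0 < κ) (hκ1 : κ ≤ 1)
    (hL : (P.map φ) {x | ∀ (A : ℝ) (Q : ℕ), ∃ q ≥ Q, ‖q • x‖ < (q : ℝ) ^ (-A)} <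
      ENNReal.ofReal κ)
    (C : ℝ) :
    ∃ n₀ : ℕ, ∀ n ≥ n₀,
      ∀ (K : ℕ) (B : Fin K → Set Ω), (K : ℝ) ≤ C * (n : ℝ) ^ 2 →
      (∀ i, ∀ x ∈ B i, ∀ y ∈ B i, (cnt (bx n) far (φ x - φ y) : ℝ) ≤ (n : ℝ) ^ (2 - η)) →
      ENNReal.ofReal (1 - κ) < P (⋃ i, B i)ᶜ := by
  have hprob : IsProbabilityMeasure (P.map φ) := Measure.isProbabilityMeasure_map hφ.aemeasurable
  set μ : Measure (AddCircle (1 : ℝ)) := P.map φ with hμ
  -- one exponent
  obtain ⟨A, hA⟩ : ∃ A : ℕ, μ (vwa A) < ENNReal.ofReal κ := by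
    have h4 : Tendsto (fun A : ℕ => μ (vwa A)) atTop (𝓝 (μ (⋂ A : ℕ, vwa A))) :=
      tendsto_measure_iInter_atTop (fun m => (vwa_meas _).nullMeasurableSet)
        (fun A A' h => vwa_anti (by exact_mod_cast h)) ⟨0, measure_ne_top _ _⟩
    have h5 : (⋂ A : ℕ, vwa (A : ℝ)) ⊆
        {x | ∀ A : ℝ, ∀ Q : ℕ, ∃ q ≥ Q, ‖q • x‖ < (q : ℝ) ^ (-A)} := by
      intro x hx A Q
      obtain ⟨A', hA'⟩ := exists_nat_ge A
      obtain ⟨q, h6, h7⟩ := vwa_anti hA' (Set.mem_iInter.1 hx A') Q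
      exact ⟨q, h6, h7⟩
    exact ((h4.eventually_lt_const ((measure_mono h5).trans_lt hL))).exists
  obtain ⟨w, hw⟩ : ∃ w : ℝ, w = (μ (vwa A)).toReal := ⟨_, rfl⟩
  have hw0 : 0 ≤ w := by rw [hw]; exact ENNReal.toReal_nonneg
  have hwκ : w < κ := by
    rw [hw]
    exact (ENNReal.lt_ofReal_iff_toReal_lt (measure_ne_top _ _)).1 hA
  have hAw : μ (vwa A) = ENNReal.ofReal w := by
    rw [hw]; exact (ENNReal.ofReal_toReal (measure_ne_top _ _)).symm
  have hA0 : (0 : ℝ) ≤ A := Nat.cast_nonneg _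
  have hcompl : μ (vwa A)ᶜ = ENNReal.ofReal (1 - w) := by
    rw [prob_compl_eq_one_sub (vwa_meas _), hAw, ← ENNReal.ofReal_one, ← ENNReal.ofReal_sub _ hw0]
  obtain ⟨δ, hδ⟩ : ∃ δ : ℝ, δ = κ - w := ⟨_, rfl⟩
  have hδ0 : 0 < δ := by linarith
  have hδ1 : δ ≤ 1 := by linarith
  -- the constants
  obtain ⟨ρ, hρ, huni⟩ := uniform_sys (min η 1) (lt_min hη one_pos) (min_le_right _ _)
  obtain ⟨θ, hθ⟩ : ∃ θ : ℝ, θ = ρ / ((A : ℝ) + 1) := ⟨_, rfl⟩
  have hθ0 : 0 < θ := by rw [hθ]; positivity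
  have hAθ : (A : ℝ) * θ ≤ ρ := by
    rw [hθ, mul_div_assoc', div_le_iff₀ (by positivity)]
    nlinarith
  obtain ⟨n₁, hn₁⟩ := huni C (δ / 4) θ (by linarith) (by linarith) hθ0
  -- the sets of the points which are in all later `Eab`
  obtain ⟨F, hF⟩ : ∃ F : ℕ → Set (AddCircle (1 : ℝ)),
      ∀ m, F m = ⋂ k : ℕ, Eab (θ * ((m + k : ℕ) : ℝ)) (ρ * ((m + k : ℕ) : ℝ)) := ⟨_, fun _ => rfl⟩
  have hmono : Monotone F := by
    intro m m' hmm x hx
    rw [hF, Set.mem_iInter] at hx ⊢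
    intro k
    have h4 := hx (m' + k - m)
    have e : m + (m' + k - m) = m' + k := by omega
    rwa [e] at h4
  have hsub : (vwa A)ᶜ ⊆ ⋃ m, F m := by
    intro x hx
    obtain ⟨m, hm⟩ := eventually_atTop.1 (t2_ev x A hA0 hx θ ρ hρ hAθ)
    rw [Set.mem_iUnion]
    refine ⟨m, ?_⟩
    rw [hF, Set.mem_iInter]
    exact fun k => hm (m + k) (by omega)
  have htend : Tendsto (fun m => μ (F m)) atTop (𝓝 (μ (⋃ m, F m))) :=
    tendsto_measure_iUnion_atTop hmono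
  have hlt : ENNReal.ofReal (1 - κ + δ / 2) < μ (⋃ m, F m) := by
    refine lt_of_lt_of_le ?_ (measure_mono hsub)
    rw [hcompl]
    exact (ENNReal.ofReal_lt_ofReal_iff (by linarith)).2 (by linarith)
  obtain ⟨m, hm⟩ := (htend.eventually_const_lt hlt).exists
  refine ⟨max (max n₁ m) 1, fun n hn K B hK hB => ?_⟩
  have hnn : n₁ ≤ n := (le_max_left _ _).trans ((le_max_left _ _).trans hn)
  have hnm : m ≤ n := (le_max_right _ _).trans ((le_max_left _ _).trans hn)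
  have hn1 : 1 ≤ n := (le_max_right _ _).trans hn
  have hE : ENNReal.ofReal (1 - κ + δ / 2) ≤ μ (Eab (θ * n) (ρ * n)) := by
    refine hm.le.trans (measure_mono ?_)
    intro x hx
    rw [hF, Set.mem_iInter] at hx
    have h4 := hx (n - m)
    rwa [Nat.add_sub_cancel' hnm] at h4
  have h5 := hn₁ n hnn Ω inferInstance P inferInstance S R hS hR φ hφ h2 h3 K B hK (fun i x hx y hy => by
    refine (hB i x hx y hy).trans (Real.rpow_le_rpow_of_exponent_le (by exact_mod_cast hn1) ?_)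
    have := min_le_left η 1
    linarith)
  refine lt_of_lt_of_le ?_ h5
  refine lt_of_lt_of_le ?_ (mul_le_mul_right hE _)
  rw [← ENNReal.ofReal_mul (by linarith)]
  refine (ENNReal.ofReal_lt_ofReal_iff ?_).2 ?_
  · have h6 : 0 < 1 - δ / 4 := by linarith
    have h7 : 0 < 1 - κ + δ / 2 := by linarith
    positivity
  · nlinarith

end Pool.Agent.SupC
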