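import Pool.Agent.SupC.Sys

/-! Superquadratic complexity: the uniform inequality for systems. -/

namespace Pool.Agent.SupC

open Pool.Agent.SubT Pool.Agent.SlowV Pool.Agent.CplxN

open scoped BigOperators ENNReal

open MeasureTheory Set

/-- the number of pairs as a double sum -/
private theorem s2_sum (A D : Finset (ℕ × ℕ)) (P : (ℕ × ℕ) × (ℕ × ℕ) → Prop) [DecidablePred P] :
    (∑ v ∈ A, ∑ u ∈ D, (if P (v, u) then (1 : ℝ) else 0)) =
      (((A ×ˢ D).filter P).card : ℝ) := by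
  rw [Finset.card_filter, ← Finset.sum_product']
  push_cast
  rfl

/-- the inner box has at least a quarter of the points -/
private theorem s2_card (n : ℕ) : (n : ℝ) ^ 2 / 4 ≤ ((ibx (n / 4) n).card : ℝ) := by
  have h1 : (ibx (n / 4) n).card = (n - n / 4 - n / 4) * (n - n / 4 - n / 4) := by
    unfold ibx
    rw [Finset.card_product, Nat.card_Ico]
  have h2 : n ≤ 2 * (n - n / 4 - n / 4) := by omega
  rw [h1]
  have h3 : (n : ℝ) ≤ 2 * ((n - n / 4 - n / 4 : ℕ) : ℝ) := by exact_mod_cast h2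
  push_cast at h3 ⊢
  have h4 : (0 : ℝ) ≤ (n : ℝ) := Nat.cast_nonneg _
  nlinarith

/-- the choice of the constants -/
private theorem s2_const (C κ θ c2 : ℝ) (hκ : 0 < κ) (hκ1 : κ ≤ 1) (hθ : 0 < θ) (hC : 1 ≤ C)
    (hc : 0 < c2) (hc1 : c2 ≤ 1) :
    ∃ C1 C' θ' : ℝ, 1 ≤ C1 ∧ 80 * C1 ≤ C' ∧ 0 < θ' ∧ θ' ≤ θ ∧ θ' ≤ 1 / 16 ∧
      C' * θ' ≤ C1 ^ 2 / 1600 ∧ 2 / c2 ≤ C' ∧
      128000 * C1 * (320 * C / (θ' * C' * c2 ^ 2)) ≤ κ / 2 := by
  have hκc : 0 < κ * c2 ^ 2 := by positivity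
  have hκc1 : κ * c2 ^ 2 ≤ 1 := by
    have : c2 ^ 2 ≤ 1 := by nlinarith
    nlinarith
  set C1 : ℝ := 131072000000 * C / (κ * c2 ^ 2) with hC1
  set θ' : ℝ := min θ (1 / 16) with hθ'
  have hθ0 : 0 < θ' := lt_min hθ (by norm_num)
  have hθ1 : θ' ≤ 1 / 16 := min_le_right _ _
  have h1 : 131072000000 ≤ C1 := by
    rw [hC1, le_div_iff₀ hκc]
    nlinarith
  have h2 : 131072000000 ≤ C1 * c2 := by
    have : C1 * c2 = 131072000000 * C / (κ * c2) := by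
      rw [hC1]
      field_simp
    rw [this, le_div_iff₀ (by positivity)]
    have : κ * c2 ≤ 1 := by nlinarith
    nlinarith
  refine ⟨C1, C1 ^ 2 / (1600 * θ'), θ', by linarith, ?_, hθ0, min_le_left _ _, hθ1, ?_, ?_, ?_⟩
  · rw [le_div_iff₀ (by positivity)]
    nlinarith
  · have : C1 ^ 2 / (1600 * θ') * θ' = C1 ^ 2 / 1600 := by
      field_simp
    rw [this]
  · rw [div_le_div_iff₀ hc (by positivity)]
    have h3 : C1 * 131072000000 ≤ C1 * (C1 * c2) := mul_le_mul_of_nonneg_left h2 (by linarith)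
    nlinarith
  · have h3 : θ' * (C1 ^ 2 / (1600 * θ')) = C1 ^ 2 / 1600 := by
      field_simp
    rw [h3]
    have h4 : 128000 * C1 * (320 * C / (C1 ^ 2 / 1600 * c2 ^ 2)) =
        65536000000 * C / (C1 * c2 ^ 2) := by
      field_simp
      norm_num
    rw [h4, hC1]
    have h5 : 65536000000 * C / (131072000000 * C / (κ * c2 ^ 2) * c2 ^ 2) = κ / 2 := by
      have : C ≠ 0 := by linarith
      field_simp
      norm_num
    rw [h5]

/-- s2: **the uniform inequality** for systems -/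
theorem uniform_sys (η : ℝ) (hη : 0 < η) (hη1 : η ≤ 1) :
    ∃ ρ : ℝ, 0 < ρ ∧ ∀ C κ θ : ℝ, 0 < κ → κ ≤ 1 → 0 < θ → ∃ n₀ : ℕ, ∀ n ≥ n₀,
      ∀ (Ω : Type) (_ : MeasurableSpace Ω) (P : Measure Ω), IsProbabilityMeasure P →
      ∀ S R : Ω → Ω, MeasurePreserving S P P → MeasurePreserving R P P →
      ∀ φ : Ω → AddCircle (1 : ℝ), Measurable φ →
      (∀ᵐ ω ∂P, φ (S ω) = (2 : ℕ) • φ ω) → (∀ᵐ ω ∂P, φ (R ω) = (3 : ℕ) • φ ω) →
      ∀ (K : ℕ) (B : Fin K → Set Ω), (K : ℝ) ≤ C * (n : ℝ) ^ 2 →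
      (∀ i, ∀ x ∈ B i, ∀ y ∈ B i, (cnt (bx n) far (φ x - φ y) : ℝ) ≤ (n : ℝ) ^ (2 - η)) →
      ENNReal.ofReal (1 - κ) * (P.map φ) (Eab (θ * n) (ρ * n)) ≤ P (⋃ i, B i)ᶜ := by
  classical
  obtain ⟨G, c2, Ci, hG, hc2, hc21, hCi, hin⟩ := inner η hη hη1
  refine ⟨c2 / 8, by positivity, ?_⟩
  intro C κ θ hκ hκ1 hθ
  obtain ⟨C1, C', θ', hC1, hC', hθ0, hθθ, hθ1, hCC, hc2C, hmain⟩ :=
    s2_const (max C 1) κ θ c2 hκ hκ1 hθ (le_max_right _ _) hc2 hc21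
  have hC'1 : 80 ≤ C' := by linarith
  obtain ⟨R1, hR11, hstar⟩ := star_count θ' (1 / 4) C' hθ0 (by linarith) (by norm_num) le_rfl
    (by linarith)
  obtain ⟨R2, hR21, hdens⟩ := dens C1 C' θ' hC1 hC' hθ0 hθ1 hCC
  -- the last condition on `n`
  have hlim : ∃ n₁ : ℕ, ∀ n ≥ n₁, 128000 * C1 * (4 * Ci * (n : ℝ) ^ (-(η / 2))) ≤ κ / 2 := by
    have h1 : Filter.Tendsto (fun n : ℕ => 128000 * C1 * (4 * Ci * (n : ℝ) ^ (-(η / 2))))
        Filter.atTop (nhds (128000 * C1 * (4 * Ci * 0))) :=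
      (((tendsto_rpow_neg_atTop (by positivity : 0 < η / 2)).comp
        tendsto_natCast_atTop_atTop).const_mul (4 * Ci)).const_mul (128000 * C1)
    rw [mul_zero, mul_zero] at h1
    have h2 := h1.eventually_le_const (show (0 : ℝ) < κ / 2 by positivity)
    exact Filter.eventually_atTop.1 h2
  obtain ⟨n₁, hn₁⟩ := hlim
  refine ⟨max (max n₁ 8) (max ⌈G / c2⌉₊ ⌈2 * max R1 R2 / c2⌉₊), ?_⟩
  intro n hn Ω _ P hP S₁ S₂ hS₁ hS₂ φ hφ h2 h3 K B hK hB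
  have hna : n₁ ≤ n := ((le_max_left _ _).trans (le_max_left _ _)).trans hn
  have hnb : 8 ≤ n := ((le_max_right _ _).trans (le_max_left _ _)).trans hn
  have hnc : G / c2 ≤ n := (Nat.le_ceil _).trans (by
    exact_mod_cast ((le_max_left _ _).trans (le_max_right _ _)).trans hn)
  have hnd : 2 * max R1 R2 / c2 ≤ n := (Nat.le_ceil _).trans (by
    exact_mod_cast ((le_max_right _ _).trans (le_max_right _ _)).trans hn)
  rw [div_le_iff₀ hc2] at hnc hnd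
  have hn0 : (8 : ℝ) ≤ n := by exact_mod_cast hnb
  have hGpos : 0 < G := by linarith
  -- the depth
  obtain ⟨J, hJ1, hJ2⟩ := exists_nat_pow_near (x := c2 * n / G) (y := (2 : ℝ))
    (by rw [le_div_iff₀ hGpos]; linarith) (by norm_num)
  rw [le_div_iff₀ hGpos] at hJ1
  rw [div_lt_iff₀ hGpos, pow_succ] at hJ2
  set R : ℝ := G * 2 ^ J with hR
  have hRle : R ≤ c2 * n := by rw [hR]; linarith
  have hRge : c2 * n / 2 ≤ R := by rw [hR]; linarith
  have hRn : R ≤ n := by nlinarith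
  have hR1 : R1 ≤ R := by
    have := le_max_left R1 R2
    linarith
  have hR2 : R2 ≤ R := by
    have := le_max_right R1 R2
    linarith
  have hR0 : 1 ≤ R := hR11.trans hR1
  have hnN : (n : ℝ) ≤ C' * R := by
    have h5 : (2 / c2) * (c2 * n / 2) ≤ C' * R :=
      mul_le_mul hc2C hRge (by positivity) (by linarith)
    have h6 : (2 / c2) * (c2 * n / 2) = n := by field_simp
    linarith
  -- the larger set
  have hsub : Eab (θ * n) (c2 / 8 * n) ⊆ Eab (θ' * R) (1 / 4 * R) := by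
    refine Eab_mono ?_ (by linarith)
    exact mul_le_mul hθθ hRn (by linarith) hθ.le
  refine (mul_le_mul_right (measure_mono hsub) _).trans ?_
  -- the count
  set h : ℝ := Ci * (n : ℝ) ^ (2 - η / 2) with hh
  have hh0 : 0 ≤ h := by positivity
  have hBi : ∀ i, ∀ x ∈ φ '' (B i), ∀ y ∈ φ '' (B i),
      (cnt (ibx (n / 4) n) (dp R) (x - y) : ℝ) ≤ h := by
    rintro i _ ⟨x, hx, rfl⟩ _ ⟨y, hy, rfl⟩
    exact hin (φ x - φ y) n J (by omega) hRle (hB i x hx y hy)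
  have hKn : (K : ℝ) ≤ max C 1 * (n : ℝ) ^ 2 :=
    hK.trans (mul_le_mul_of_nonneg_right (le_max_left _ _) (by positivity))
  set Cm : ℝ := max C 1 with hCm
  have hCm1 : 1 ≤ Cm := le_max_right _ _
  set A : ℝ := 320 * Cm / (θ' * C' * c2 ^ 2) + 4 * Ci * (n : ℝ) ^ (-(η / 2)) with hA
  have hA0 : 0 ≤ A := by positivity
  have hW : C' * R ≤ (⌈C' * R⌉₊ : ℝ) := Nat.le_ceil _
  have hcard : (((bx ⌈C' * R⌉₊).card : ℕ) : ℝ) = (⌈C' * R⌉₊ : ℝ) ^ 2 := by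
    rw [card_bx]
    push_cast
    ring
  have hW2 : (C' * (c2 * n / 2)) ^ 2 ≤ (⌈C' * R⌉₊ : ℝ) ^ 2 := by
    refine pow_le_pow_left₀ (by positivity) ?_ 2
    exact (mul_le_mul_of_nonneg_left hRge (by linarith)).trans hW
  refine integrate_sys P hS₁ hS₂ φ hφ h2 h3 (Eab (θ' * R) (1 / 4 * R)) (Eab_closed _ _).measurableSet (C' * R)
    (1 / (2000 * C1)) A κ (by nlinarith) (by positivity) hA0 n K hnb hnN B ?_ ?_ ?_ hκ1
  · intro w hw
    have := hdens R hR2 w hw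
    rw [one_div, inv_mul_eq_div]
    exact this
  · intro ω hω
    have h5 := hstar R hR1 (φ ω) n K (fun i => φ '' (B i)) h hnN hh0 hBi
    have h6 := s2_sum (bx ⌈C' * R⌉₊) (ibx (n / 4) n)
      (fun p => sp p.1 (φ ω) ∈ (⋃ i, φ '' (B i)) ∧
        sp (p.1 + p.2) (φ ω) ∈ Eab (θ' * R) (1 / 4 * R))
    have h7 : (∑ v ∈ bx ⌈C' * R⌉₊, ∑ u ∈ ibx (n / 4) n,
        (if orb S₁ S₂ v ω ∈ (⋃ i, B i) ∧ sp (v + u) (φ ω) ∈ Eab (θ' * R) (1 / 4 * R)
          then (1 : ℝ) else 0)) ≤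
        80 / θ' * C' * K * ((ibx (n / 4) n).card : ℝ) + ((bx ⌈C' * R⌉₊).card : ℝ) * h := by
      refine le_trans ?_ ((le_of_eq h6).trans h5)
      refine Finset.sum_le_sum fun v _ => Finset.sum_le_sum fun u _ => ?_
      by_cases hc : orb S₁ S₂ v ω ∈ (⋃ i, B i) ∧ sp (v + u) (φ ω) ∈ Eab (θ' * R) (1 / 4 * R)
      · have hc' : sp v (φ ω) ∈ (⋃ i, φ '' (B i)) ∧
            sp (v + u) (φ ω) ∈ Eab (θ' * R) (1 / 4 * R) := by
          refine ⟨?_, hc.2⟩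
          obtain ⟨i, hi⟩ := Set.mem_iUnion.1 hc.1
          exact Set.mem_iUnion.2 ⟨i, ⟨orb S₁ S₂ v ω, hi, hω v⟩⟩
        rw [if_pos hc, if_pos hc']
      · rw [if_neg hc]
        split_ifs <;> norm_num
    refine h7.trans ?_
    set I : ℝ := ((ibx (n / 4) n).card : ℝ) with hI
    have hIc : (n : ℝ) ^ 2 / 4 ≤ I := s2_card n
    have hI0 : 0 ≤ I := Nat.cast_nonneg _
    rw [hcard]
    set W : ℝ := (⌈C' * R⌉₊ : ℝ) with hWdef
    have h8 : 80 / θ' * C' * K ≤ 320 * Cm / (θ' * C' * c2 ^ 2) * W ^ 2 := by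
      have h9 : 80 / θ' * C' * K ≤ 80 / θ' * C' * (Cm * (n : ℝ) ^ 2) :=
        mul_le_mul_of_nonneg_left hKn (by positivity)
      have h10 : 320 * Cm / (θ' * C' * c2 ^ 2) * (C' * (c2 * n / 2)) ^ 2 =
          80 / θ' * C' * (Cm * (n : ℝ) ^ 2) := by
        field_simp
        norm_num
      have h11 : 320 * Cm / (θ' * C' * c2 ^ 2) * (C' * (c2 * n / 2)) ^ 2 ≤
          320 * Cm / (θ' * C' * c2 ^ 2) * W ^ 2 :=
        mul_le_mul_of_nonneg_left hW2 (by positivity)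
      linarith
    have h12 : h ≤ 4 * Ci * (n : ℝ) ^ (-(η / 2)) * I := by
      have h13 : (n : ℝ) ^ (2 - η / 2) = (n : ℝ) ^ 2 * (n : ℝ) ^ (-(η / 2)) := by
        rw [show (2 - η / 2 : ℝ) = ((2 : ℕ) : ℝ) + (-(η / 2)) by push_cast; ring,
          Real.rpow_add (by linarith), Real.rpow_natCast]
      rw [hh, h13]
      have h14 : 0 ≤ Ci * (n : ℝ) ^ (-(η / 2)) := by positivity
      nlinarith
    have h15 : 80 / θ' * C' * K * I ≤ 320 * Cm / (θ' * C' * c2 ^ 2) * W ^ 2 * I :=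
      mul_le_mul_of_nonneg_right h8 hI0
    have h16 : W ^ 2 * h ≤ W ^ 2 * (4 * Ci * (n : ℝ) ^ (-(η / 2)) * I) :=
      mul_le_mul_of_nonneg_left h12 (by positivity)
    rw [hA]
    nlinarith
  · have h5 := hn₁ n hna
    have h6 : 64 * A / (1 / (2000 * C1)) = 128000 * C1 * (320 * Cm / (θ' * C' * c2 ^ 2)) +
        128000 * C1 * (4 * Ci * (n : ℝ) ^ (-(η / 2))) := by
      rw [hA]
      field_simp
      ring
    rw [h6]
    linarith

end Pool.Agent.SupC
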