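import Pool.Agent.SupC.Defs
import Pool.Agent.SubT.PST

/-! Superquadratic complexity: the Subspace tool. Text, section 1. -/

namespace Pool.Agent.SupC

open Pool.Agent.SubT Pool.Agent.SlowV Pool.Agent.CplxN

open scoped BigOperators ENNReal

open MeasureTheory Set

/-- hypothesis on a vector -/
private def A1Hyp {r : ℕ} (K Q : ℝ) (X : Fin r → ℚ) : Prop :=
  (∀ i, InR (X i)) ∧ (∀ i, X i ≠ 0) ∧ ∀ v i, Q ^ (-K) ≤ av v (X i) ∧ av v (X i) ≤ Q ^ K

/-- conclusion -/
private def A1Con {r : ℕ} (ε Q : ℝ) (X : Fin r → ℚ) : Prop :=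
  ∃ I : Finset (Fin r), 2 ≤ I.card ∧ ∀ m : Pl → Fin r, (∀ v, m v ∈ I) →
    ∑ v, Real.log (av v (X (m v))) ≤ ε * Real.log Q + ∑ i ∈ I, ∑ v, Real.log (av v (X i))

/-- a functional vanishing on a proper subspace -/
private theorem a1_fun {n : ℕ} (T : Submodule ℚ (Fin n → ℚ)) (hT : T ≠ ⊤) :
    ∃ a : Fin n → ℚ, a ≠ 0 ∧ ∀ y ∈ T, ∑ i, a i * y i = 0 := by
  classical
  obtain ⟨f, hf, hle⟩ := Submodule.exists_le_ker_of_lt_top T (lt_top_iff_ne_top.mpr hT)
  refine ⟨fun i => f (Pi.single i 1), ?_, fun y hy => ?_⟩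
  · intro h
    apply hf
    apply LinearMap.pi_ext'
    intro i
    ext
    have := congrFun h i
    simpa using this
  · have h1 : f y = 0 := hle hy
    have h2 : y = ∑ i, y i • (Pi.single i (1 : ℚ) : Fin n → ℚ) := by
      ext j
      simp [Finset.sum_apply, Pi.single_apply]
    rw [h2, map_sum] at h1
    rw [← h1]
    refine Finset.sum_congr rfl fun i _ => ?_
    rw [map_smul, smul_eq_mul, mul_comm]

/-- one system -/
private theorem a1_sys {r k : ℕ} (K ε : ℝ)
    (IH : ∀ b : Fin r → ℚ, b ≠ 0 → (Finset.univ.filter fun i => b i ≠ 0).card ≤ k →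
      ∃ Q0 : ℝ, 1 < Q0 ∧ ∀ Q ≥ Q0, ∀ X : Fin r → ℚ, A1Hyp K Q X → ∑ i, b i * X i = 0 →
        A1Con ε Q X)
    (b : Fin r → ℚ) (J : Finset (Fin r)) (hJ : J = Finset.univ.filter fun i => b i ≠ 0)
    (hk : J.card = k + 1) (j0 : Fin r) (hj0 : j0 ∈ J) (im : Pl → Fin r) (him : ∀ v, im v ∈ J)
    (t : Pl → Fin r → ℝ) (hsum : ∑ v, ∑ i ∈ J.erase (im v), t v i < 0) :
    ∃ Q0 : ℝ, 1 < Q0 ∧ ∀ Q ≥ Q0, ∀ X : Fin r → ℚ, A1Hyp K Q X → ∑ i, b i * X i = 0 →
      (∀ v, ∀ i ∈ J, av v (X i) ≤ Q ^ (t v i)) → A1Con ε Q X := by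
  classical
  have hcard : (J.erase j0).card = k := by rw [Finset.card_erase_of_mem hj0, hk]; rfl
  let e : Fin k ≃ ↥(J.erase j0) := (Finset.equivFinOfCardEq hcard).symm
  -- index of the form number `a` at the place `v`
  let idx : Pl → Fin k → Fin r := fun v a => if (e a : Fin r) = im v then j0 else (e a : Fin r)
  have heJ : ∀ a, (e a : Fin r) ∈ J := fun a => Finset.mem_of_mem_erase (e a).2
  have hej : ∀ a, (e a : Fin r) ≠ j0 := fun a => Finset.ne_of_mem_erase (e a).2
  have hidxJ : ∀ v a, idx v a ∈ J.erase (im v) := by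
    intro v a
    simp only [idx]
    split_ifs with h
    · refine Finset.mem_erase.2 ⟨?_, hj0⟩
      rw [← h]
      exact (hej a).symm
    · exact Finset.mem_erase.2 ⟨h, heJ a⟩
  have hidxinj : ∀ v, Function.Injective (idx v) := by
    intro v a a' h
    simp only [idx] at h
    apply e.injective
    apply Subtype.ext
    split_ifs at h with h1 h2 h2
    · rw [h1, h2]
    · exact absurd h.symm (hej a')
    · exact absurd h (hej a)
    · exact h
  have hidxim : ∀ v, Finset.univ.image (idx v) = J.erase (im v) := by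
    intro v
    apply Finset.eq_of_subset_of_card_le
    · intro x hx
      obtain ⟨a, _, rfl⟩ := Finset.mem_image.1 hx
      exact hidxJ v a
    · rw [Finset.card_image_of_injective _ (hidxinj v), Finset.card_univ, Fintype.card_fin,
        Finset.card_erase_of_mem (him v), hk]
      rfl
  have hbj : b j0 ≠ 0 := by
    rw [hJ] at hj0
    exact (Finset.mem_filter.1 hj0).2
  have hbJ : ∀ i ∈ J, b i ≠ 0 := by
    intro i hi
    rw [hJ] at hi
    exact (Finset.mem_filter.1 hi).2
  -- the matrices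
  let M : Pl → Matrix (Fin k) (Fin k) ℚ := fun v => Matrix.of fun a a' =>
    if (e a : Fin r) = im v then -(b (e a') / b j0) else if a = a' then 1 else 0
  have hMdet : ∀ v, (M v).det ≠ 0 := by
    intro v hdet
    obtain ⟨y, hy0, hy⟩ := Matrix.exists_mulVec_eq_zero_iff.2 hdet
    apply hy0
    have h1 : ∀ a, (e a : Fin r) ≠ im v → y a = 0 := by
      intro a ha
      have := congrFun hy a
      simpa [M, Matrix.mulVec, dotProduct, ha] using this
    ext a
    by_cases ha : (e a : Fin r) = im v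
    · have h2 := congrFun hy a
      have h3 : ∑ a', -(b (e a') / b j0) * y a' = 0 := by
        simpa [M, Matrix.mulVec, dotProduct, ha] using h2
      rw [Finset.sum_eq_single a] at h3
      · have h4 : -(b (e a) / b j0) ≠ 0 := by
          rw [neg_ne_zero]
          exact div_ne_zero (hbJ _ (heJ a)) hbj
        simpa using (mul_eq_zero.1 h3).resolve_left h4
      · intro a' _ ha'
        rw [h1 a' (fun h => ha' (e.injective (Subtype.ext (h.trans ha.symm)))), mul_zero]
      · intro h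
        exact absurd (Finset.mem_univ a) h
    · simpa using h1 a ha
  -- values of the forms
  have hform : ∀ X : Fin r → ℚ, ∑ i, b i * X i = 0 → ∀ v a,
      lin M v a (fun a' => X (e a')) = X (idx v a) := by
    intro X hX v a
    have hs : ∑ a', b (e a') * X (e a') + b j0 * X j0 = 0 := by
      have h1 : ∑ i ∈ J, b i * X i = 0 := by
        rw [← hX]
        apply Finset.sum_subset (Finset.subset_univ _)
        intro i _ hi
        have : b i = 0 := by
          by_contra hb
          exact hi (by rw [hJ]; exact Finset.mem_filter.2 ⟨Finset.mem_univ _, hb⟩)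
        rw [this, zero_mul]
      rw [← Finset.sum_erase_add J _ hj0] at h1
      rw [← h1]
      congr 1
      rw [← Finset.sum_coe_sort (J.erase j0) (fun i => b i * X i)]
      exact Equiv.sum_comp e (fun i : ↥(J.erase j0) => b i * X i)
    by_cases ha : (e a : Fin r) = im v
    · have h1 : lin M v a (fun a' => X (e a')) = ∑ a', -(b (e a') / b j0) * X (e a') := by
        simp [lin, M, Matrix.mulVec, dotProduct, ha]
      have h2 : idx v a = j0 := by simp [idx, ha]
      rw [h1, h2]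
      have h3 : ∑ a', -(b (e a') / b j0) * X (e a') = -(∑ a', b (e a') * X (e a')) / b j0 := by
        rw [neg_div, Finset.sum_div, ← Finset.sum_neg_distrib]
        refine Finset.sum_congr rfl fun i _ => ?_
        ring
      rw [h3, div_eq_iff hbj]
      linarith
    · have h2 : idx v a = (e a : Fin r) := by simp [idx, ha]
      rw [h2]
      simp [lin, M, Matrix.mulVec, dotProduct, ha]
  obtain ⟨Q1, hQ1, TT, hTT, hsol⟩ := pst M hMdet (fun v a => t v (idx v a)) (by
    have h1 : ∀ v, ∑ a, t v (idx v a) = ∑ i ∈ J.erase (im v), t v i := by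
      intro v
      rw [← hidxim v, Finset.sum_image (fun a _ a' _ h => hidxinj v h)]
    simpa only [h1] using hsum)
  -- functionals
  have hex : ∀ T : Submodule ℚ (Fin k → ℚ), ∃ q : ℝ, 1 < q ∧ (T ≠ ⊤ → ∀ Q ≥ q, ∀ X : Fin r → ℚ,
      A1Hyp K Q X → (fun a' => X (e a')) ∈ T → A1Con ε Q X) := by
    intro T
    by_cases hT : T = ⊤
    · exact ⟨2, by norm_num, fun h => absurd hT h⟩
    obtain ⟨a, ha0, ha⟩ := a1_fun T hT
    let b' : Fin r → ℚ := fun i => if h : i ∈ J.erase j0 then a (e.symm ⟨i, h⟩) else 0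
    have hb'e : ∀ a', b' (e a') = a a' := by
      intro a'
      have h1 : b' (e a') = a (e.symm ⟨(e a' : Fin r), (e a').2⟩) := by
        simp only [b']
        rw [dif_pos (e a').2]
      rw [h1, Subtype.coe_eta, Equiv.symm_apply_apply]
    have hb'0 : b' ≠ 0 := by
      intro h
      apply ha0
      ext a'
      rw [← hb'e a', h]
      rfl
    have hb'c : (Finset.univ.filter fun i => b' i ≠ 0).card ≤ k := by
      rw [← hcard]
      apply Finset.card_le_card
      intro i hi
      by_contra hne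
      apply (Finset.mem_filter.1 hi).2
      simp only [b']
      rw [dif_neg hne]
    obtain ⟨q, hq1, hq⟩ := IH b' hb'0 hb'c
    refine ⟨q, hq1, fun _ Q hQ X hX hXT => hq Q hQ X hX ?_⟩
    have h1 := ha _ hXT
    rw [← h1]
    have h2 : ∑ i, b' i * X i = ∑ i ∈ J.erase j0, b' i * X i := by
      symm
      apply Finset.sum_subset (Finset.subset_univ _)
      intro i _ hi
      have : b' i = 0 := by
        simp only [b']
        rw [dif_neg hi]
      rw [this, zero_mul]
    rw [h2, ← Finset.sum_coe_sort (J.erase j0) (fun i => b' i * X i)]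
    rw [← Equiv.sum_comp e (fun i : ↥(J.erase j0) => b' i * X i)]
    refine Finset.sum_congr rfl fun a' _ => ?_
    rw [hb'e a']
  choose q hq1 hq using hex
  refine ⟨Q1 + ∑ T ∈ TT, |q T|, ?_, ?_⟩
  · have : 0 ≤ ∑ T ∈ TT, |q T| := Finset.sum_nonneg fun _ _ => abs_nonneg _
    linarith
  intro Q hQ X hX hb hup
  have hsn : 0 ≤ ∑ T ∈ TT, |q T| := Finset.sum_nonneg fun _ _ => abs_nonneg _
  obtain ⟨T, hTm, hTs⟩ := hsol Q (by linarith)
  have hmem : (fun a' => X (e a')) ∈ Sol M (fun v a => t v (idx v a)) Q := by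
    refine ⟨fun a' => hX.1 _, fun v a => ?_⟩
    rw [hform X hb v a]
    exact hup v _ (Finset.mem_of_mem_erase (hidxJ v a))
  have hqT : q T ≤ Q := by
    have h1 : |q T| ≤ ∑ T ∈ TT, |q T| :=
      Finset.single_le_sum (f := fun T => |q T|) (fun _ _ => abs_nonneg _) hTm
    have h2 := le_abs_self (q T)
    linarith
  exact hq T (hTT T hTm) Q hqT X hX (hTs hmem)

/-- the induction on the support of the relation -/
private theorem a1_ind {r : ℕ} (K ε : ℝ) (hε : 0 < ε) (k : ℕ) :
    ∀ b : Fin r → ℚ, b ≠ 0 → (Finset.univ.filter fun i => b i ≠ 0).card ≤ k →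
      ∃ Q0 : ℝ, 1 < Q0 ∧ ∀ Q ≥ Q0, ∀ X : Fin r → ℚ, A1Hyp K Q X → ∑ i, b i * X i = 0 →
        A1Con ε Q X := by
  classical
  induction k with
  | zero =>
    intro b hb h0
    exfalso
    apply hb
    have h1 := Finset.card_eq_zero.1 (Nat.le_zero.1 h0)
    ext i
    by_contra hi
    have : i ∈ (Finset.univ.filter fun i => b i ≠ 0) := Finset.mem_filter.2 ⟨Finset.mem_univ _, hi⟩
    rw [h1] at this
    exact absurd this (Finset.notMem_empty i)
  | succ k IH =>
    intro b hb hbk
    rcases Nat.lt_or_ge (Finset.univ.filter fun i => b i ≠ 0).card (k + 1) with hlt | hge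
    · exact IH b hb (by omega)
    obtain ⟨J, hJ⟩ : ∃ J : Finset (Fin r), J = Finset.univ.filter fun i => b i ≠ 0 := ⟨_, rfl⟩
    have hJk : J.card = k + 1 := by rw [hJ]; omega
    have hJne : J.Nonempty := Finset.card_pos.1 (by omega)
    obtain ⟨j0, hj0⟩ := hJne
    have hbJ : ∀ i ∈ J, b i ≠ 0 := by
      intro i hi
      rw [hJ] at hi
      exact (Finset.mem_filter.1 hi).2
    have hsumJ : ∀ X : Fin r → ℚ, ∑ i, b i * X i = ∑ i ∈ J, b i * X i := by
      intro X
      symm
      apply Finset.sum_subset (Finset.subset_univ _)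
      intro i _ hi
      have : b i = 0 := by
        by_contra hb
        exact hi (by rw [hJ]; exact Finset.mem_filter.2 ⟨Finset.mem_univ _, hb⟩)
      rw [this, zero_mul]
    rcases Nat.eq_zero_or_pos k with hk0 | hkpos
    · subst hk0
      refine ⟨2, by norm_num, fun Q _ X hX h => ?_⟩
      exfalso
      obtain ⟨j, hj⟩ := Finset.card_eq_one.1 hJk
      rw [hsumJ, hj, Finset.sum_singleton] at h
      have hjb : b j ≠ 0 := hbJ j (by rw [hj]; exact Finset.mem_singleton_self j)
      rcases mul_eq_zero.1 h with h1 | h1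
      · exact hjb h1
      · exact hX.2.1 j h1
    -- the grid
    set μ : ℝ := ε / (3 * (k + 1)) with hμd
    have hk0 : (0 : ℝ) ≤ k := Nat.cast_nonneg k
    have hμ : 0 < μ := by positivity
    have hμε : 3 * (k : ℝ) * μ ≤ ε := by
      rw [hμd, mul_div_assoc', div_le_iff₀ (by positivity)]
      nlinarith
    set k1 : ℕ := ⌈2 * K / μ⌉₊ with hk1
    have HX : ∀ y : (Pl → Fin r → Fin (k1 + 1)) × (Pl → Fin r), ∃ q : ℝ, 1 < q ∧
        ((∀ v, y.2 v ∈ J) → ∑ v, ∑ i ∈ J.erase (y.2 v), (μ * ((y.1 v i : ℕ) : ℝ) - K) < 0 →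
          ∀ Q ≥ q, ∀ X : Fin r → ℚ, A1Hyp K Q X → ∑ i, b i * X i = 0 →
          (∀ v, ∀ i ∈ J, av v (X i) ≤ Q ^ (μ * ((y.1 v i : ℕ) : ℝ) - K)) → A1Con ε Q X) := by
      intro y
      by_cases h1 : ∀ v, y.2 v ∈ J
      · by_cases h2 : ∑ v, ∑ i ∈ J.erase (y.2 v), (μ * ((y.1 v i : ℕ) : ℝ) - K) < 0
        · obtain ⟨q, hq1, hq⟩ := a1_sys K ε IH b J hJ hJk j0 hj0 y.2 h1
            (fun v i => μ * ((y.1 v i : ℕ) : ℝ) - K) h2
          exact ⟨q, hq1, fun _ _ => hq⟩
        · exact ⟨2, by norm_num, fun _ h => absurd h h2⟩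
      · exact ⟨2, by norm_num, fun h => absurd h h1⟩
    choose q hq1 hq using HX
    refine ⟨2 + ∑ y, |q y|, ?_, ?_⟩
    · have : 0 ≤ ∑ y, |q y| := Finset.sum_nonneg fun _ _ => abs_nonneg _
      linarith
    intro Q hQ X hX hsum
    have hsn : 0 ≤ ∑ y, |q y| := Finset.sum_nonneg fun _ _ => abs_nonneg _
    have hQ1 : 1 < Q := by linarith
    have hQ0 : 0 < Q := by linarith
    have hlog : 0 < Real.log Q := Real.log_pos hQ1
    have hqQ : ∀ y, q y ≤ Q := by
      intro y
      have h1 : |q y| ≤ ∑ y, |q y| :=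
        Finset.single_le_sum (f := fun y => |q y|) (fun _ _ => abs_nonneg _) (Finset.mem_univ y)
      have h2 := le_abs_self (q y)
      linarith
    have hmax : ∀ v, ∃ i ∈ J, ∀ i' ∈ J, av v (X i') ≤ av v (X i) := fun v =>
      Finset.exists_max_image J (fun i => av v (X i)) ⟨j0, hj0⟩
    choose im him himax using hmax
    have hpos : ∀ v i, 0 < av v (X i) := fun v i => av_pos v (hX.2.1 i)
    -- logarithms
    have hlb : ∀ v i, -K ≤ Real.logb Q (av v (X i)) ∧ Real.logb Q (av v (X i)) ≤ K := by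
      intro v i
      obtain ⟨h1, h2⟩ := hX.2.2 v i
      constructor
      · rw [Real.le_logb_iff_rpow_le hQ1 (hpos v i)]
        exact h1
      · rw [Real.logb_le_iff_le_rpow hQ1 (hpos v i)]
        exact h2
    let tt : Pl → Fin r → ℕ := fun v i => ⌈(Real.logb Q (av v (X i)) + K) / μ⌉₊
    have htt : ∀ v i, tt v i < k1 + 1 := by
      intro v i
      apply Nat.lt_succ_of_le
      apply Nat.ceil_le_ceil
      apply div_le_div_of_nonneg_right _ hμ.le
      have := (hlb v i).2
      linarith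
    have htu : ∀ v i, Real.logb Q (av v (X i)) ≤ μ * ((tt v i : ℕ) : ℝ) - K := by
      intro v i
      have h1 : (Real.logb Q (av v (X i)) + K) / μ ≤ (tt v i : ℝ) := Nat.le_ceil _
      rw [div_le_iff₀ hμ] at h1
      linarith
    have htl : ∀ v i, μ * ((tt v i : ℕ) : ℝ) - K ≤ Real.logb Q (av v (X i)) + μ := by
      intro v i
      have h0 : 0 ≤ (Real.logb Q (av v (X i)) + K) / μ :=
        div_nonneg (by linarith [(hlb v i).1]) hμ.le
      have h1 : (tt v i : ℝ) < (Real.logb Q (av v (X i)) + K) / μ + 1 := Nat.ceil_lt_add_one h0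
      have h2 : (tt v i : ℝ) * μ < ((Real.logb Q (av v (X i)) + K) / μ + 1) * μ :=
        mul_lt_mul_of_pos_right h1 hμ
      rw [add_mul, div_mul_cancel₀ _ hμ.ne', one_mul] at h2
      linarith
    by_cases hneg : ∑ v, ∑ i ∈ J.erase (im v), (μ * ((tt v i : ℕ) : ℝ) - K) < 0
    · refine hq (fun v i => ⟨tt v i, htt v i⟩, im) him hneg Q (hqQ _) X hX hsum ?_
      intro v i _
      rw [← Real.logb_le_iff_le_rpow hQ1 (hpos v i)]
      exact htu v i
    · rw [not_lt] at hneg
      refine ⟨J, by omega, fun m hm => ?_⟩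
      have h1 : ∑ v, Real.log (av v (X (m v))) ≤ ∑ v, Real.log (av v (X (im v))) :=
        Finset.sum_le_sum fun v _ => Real.log_le_log (hpos v _) (himax v _ (hm v))
      have h2 : ∑ v, ∑ i ∈ J.erase (im v), (μ * ((tt v i : ℕ) : ℝ) - K) ≤
          ∑ v : Pl, ∑ i ∈ J.erase (im v), (Real.logb Q (av v (X i)) + μ) :=
        Finset.sum_le_sum fun v _ => Finset.sum_le_sum fun i _ => htl v i
      have h3 : ∑ v : Pl, ∑ i ∈ J.erase (im v), (Real.logb Q (av v (X i)) + μ) =
          (∑ v : Pl, ∑ i ∈ J.erase (im v), Real.logb Q (av v (X i))) + 3 * (k : ℝ) * μ := by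
        have h4 : ∀ v : Pl, ∑ i ∈ J.erase (im v), (Real.logb Q (av v (X i)) + μ) =
            ∑ i ∈ J.erase (im v), Real.logb Q (av v (X i)) + k * μ := by
          intro v
          rw [Finset.sum_add_distrib, Finset.sum_const, Finset.card_erase_of_mem (him v), hJk,
            nsmul_eq_mul]
          simp
        simp only [h4]
        rw [Finset.sum_add_distrib, Finset.sum_const, Finset.card_univ, Fintype.card_fin,
          nsmul_eq_mul]
        push_cast
        ring
      have h5 : -ε ≤ ∑ v : Pl, ∑ i ∈ J.erase (im v), Real.logb Q (av v (X i)) := by linarith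
      have h6 : ∑ v : Pl, ∑ i ∈ J.erase (im v), Real.logb Q (av v (X i)) =
          (∑ v : Pl, ∑ i ∈ J.erase (im v), Real.log (av v (X i))) / Real.log Q := by
        rw [Finset.sum_div]
        refine Finset.sum_congr rfl fun v _ => ?_
        rw [Finset.sum_div]
        rfl
      rw [h6, le_div_iff₀ hlog] at h5
      have h7 : ∑ i ∈ J, ∑ v, Real.log (av v (X i)) =
          ∑ v : Pl, ∑ i ∈ J.erase (im v), Real.log (av v (X i)) +
            ∑ v, Real.log (av v (X (im v))) := by
        rw [Finset.sum_comm, ← Finset.sum_add_distrib]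
        refine Finset.sum_congr rfl fun v _ => ?_
        rw [Finset.sum_erase_add J _ (him v)]
      rw [h7]
      linarith

/-- a1: vanishing sums of `S`-integers: some subset has a small height -/
theorem tool (r : ℕ) (K ε : ℝ) (hK : 0 < K) (hε : 0 < ε) :
    ∃ Q0 : ℝ, 1 < Q0 ∧ ∀ Q ≥ Q0, ∀ X : Fin r → ℚ, 1 ≤ r → (∀ i, InR (X i)) → (∀ i, X i ≠ 0) →
      (∀ v i, Q ^ (-K) ≤ av v (X i) ∧ av v (X i) ≤ Q ^ K) → ∑ i, X i = 0 →
      ∃ I : Finset (Fin r), 2 ≤ I.card ∧ ∀ mc : Pl → Fin r, (∀ v, mc v ∈ I) →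
        ∏ v, av v (X (mc v)) ≤ Q ^ ε * ∏ i ∈ I, ∏ v, av v (X i) := by
  rcases Nat.eq_zero_or_pos r with hr | hr
  · exact ⟨2, by norm_num, fun Q _ X h => absurd h (by omega)⟩
  obtain ⟨Q0, hQ0, h⟩ := a1_ind (r := r) K ε hε r (fun _ => 1)
    (fun h => by have := congrFun h ⟨0, hr⟩; simp at this)
    (le_trans (Finset.card_le_univ _) (by rw [Fintype.card_fin]))
  refine ⟨Q0, hQ0, fun Q hQ X _ h1 h2 h3 h4 => ?_⟩
  obtain ⟨I, hI, hm⟩ := h Q hQ X ⟨h1, h2, h3⟩ (by simpa using h4)
  refine ⟨I, hI, fun mc hmc => ?_⟩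
  have hQ1 : 0 < Q := by linarith
  have hp : ∀ v i, 0 < av v (X i) := fun v i => av_pos v (h2 i)
  have h5 := Real.exp_le_exp.2 (hm mc hmc)
  rw [Real.exp_add, Real.exp_sum, Real.exp_sum] at h5
  have h6 : ∀ i, Real.exp (∑ v, Real.log (av v (X i))) = ∏ v, av v (X i) := by
    intro i
    rw [Real.exp_sum]
    exact Finset.prod_congr rfl fun v _ => Real.exp_log (hp v i)
  have h7 : ∏ v, Real.exp (Real.log (av v (X (mc v)))) = ∏ v, av v (X (mc v)) :=
    Finset.prod_congr rfl fun v _ => Real.exp_log (hp v _)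
  have h8 : Real.exp (ε * Real.log Q) = Q ^ ε := by
    rw [Real.rpow_def_of_pos hQ1, mul_comm]
  simp only [h6] at h5
  rw [h7, h8] at h5
  exact h5

end Pool.Agent.SupC
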